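import Pool.Agent.OM.Spec

/-!
# Affine systems: the link between the machine side (M2) and the group side (M1)
-/

namespace Pool.Agent.OM

/-- A rule: for every integer `z` it relates `(s, N)` with `N k = c z + a` to
`(s', N')`, `N'` being `N` with coordinate `k` changed to `c' z + a'`. -/
structure ARule (nQ d : ℕ) where
  s : Fin nQ
  s' : Fin nQ
  k : Fin d
  c : ℤ
  a : ℤ
  c' : ℤ
  a' : ℤ

/-- One step. -/
def AStep {nQ d : ℕ} (rules : List (ARule nQ d)) (x y : Fin nQ × (Fin d → ℤ)) : Prop :=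
  ∃ ρ ∈ rules, ∃ z : ℤ, x.1 = ρ.s ∧ y.1 = ρ.s' ∧ x.2 ρ.k = ρ.c * z + ρ.a ∧
    y.2 = Function.update x.2 ρ.k (ρ.c' * z + ρ.a')

/-- The word `kk⁻¹ (x⁻ᵛ t⁻¹ xᵛ) kk (x⁻ᵛ t xᵛ)`. -/
def comWord {N1 : ℕ} (t kk x : Fin N1) (v : ℕ) : List (Fin N1 × Bool) :=
  (kk, false) :: (List.replicate v (x, false) ++ [(t, false)] ++ List.replicate v (x, true) ++
    [(kk, true)] ++ List.replicate v (x, false) ++ [(t, true)] ++ List.replicate v (x, true))

/-- Group side. -/
def M1 : Prop :=
  ∀ (nQ d : ℕ) (rules : List (ARule nQ d)), (∀ ρ ∈ rules, 0 < ρ.c ∧ 0 < ρ.c') →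
    ∀ (q0 h : Fin nQ) (k0 : Fin d),
      ∃ (N1 : ℕ) (rels : List (List (Fin N1 × Bool))) (t kk x : Fin N1), ∀ v : ℕ,
        wv rels (comWord t kk x v) = 1 ↔
          Relation.EqvGen (AStep rules) (q0, Pi.single k0 (v : ℤ)) (h, 0)

/-- Machine side. -/
def M2 : Prop :=
  ∃ (nQ d : ℕ) (rules : List (ARule nQ d)) (q0 h : Fin nQ) (k0 : Fin d) (v : ℕ → ℕ),
    (∀ ρ ∈ rules, 0 < ρ.c ∧ 0 < ρ.c') ∧ Computable v ∧
      ¬ REPred (fun n => ¬ Relation.EqvGen (AStep rules) (q0, Pi.single k0 (v n : ℤ)) (h, 0))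

theorem primrec_replicate {α : Type} [Primcodable α] (a : α) :
    Primrec (fun n : ℕ => List.replicate n a) := by
  have h : Primrec (fun n : ℕ => (List.range n).map (fun _ => a)) :=
    Primrec.list_map Primrec.list_range (Primrec.const a).to₂
  refine h.of_eq ?_
  intro n
  simp [List.map_const']

theorem m12_of (h1 : M1) (h2 : M2) : M12 := by
  obtain ⟨nQ, d, rules, q0, h, k0, v, hpos, hv, hnot⟩ := h2
  obtain ⟨N1, rels, t, kk, x, hw⟩ := h1 nQ d rules hpos q0 h k0
  refine ⟨N1, rels, fun n => comWord t kk x (v n), ?_, ?_, ?_⟩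
  · have hp : Primrec (fun n : ℕ => comWord t kk x n) := by
      unfold comWord
      have hr := fun a : Fin N1 × Bool => primrec_replicate a
      have happ : ∀ (f g : ℕ → List (Fin N1 × Bool)), Primrec f → Primrec g →
          Primrec (fun n => f n ++ g n) := fun f g hf hg => Primrec.list_append.comp hf hg
      refine Primrec.list_cons.comp (Primrec.const _) ?_
      refine happ _ _ (happ _ _ (happ _ _ (happ _ _ (happ _ _ (happ _ _ (hr _) ?_) (hr _)) ?_)
        (hr _)) ?_) (hr _)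
      all_goals exact Primrec.const _
    exact hp.to_comp.comp hv
  · intro n
    simp [comWord]
  · have e : (fun n => ¬ wv rels (comWord t kk x (v n)) = 1) =
        fun n => ¬ Relation.EqvGen (AStep rules) (q0, Pi.single k0 (v n : ℤ)) (h, 0) := by
      funext n
      rw [hw (v n)]
    rw [e]
    exact hnot

end Pool.Agent.OM
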