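import Pool.Agent.OM.Logic

/-!
# Modal logics of the product order on `ω ^ n`: definitions

* `Fm`, `Tr`, `Valid`, `code`, `L` : formulas, truth, validity in `(ω ^ n, ≤)`, numbering, `L_n`.
* `Lab`, `Good` : the labels and the rules of the reduction (dimension `3 + m`).
* `Coh`, `pv` : coherent group valued labelling of a graph, value of a path.
* `Filling` : a triangular lattice homotopy.
* `Lasso` frames for `n = 2`.
-/

namespace Pool.Agent.OM

/-- The logic `L_n`, as a set of numbers of formulas. -/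
def L (n : ℕ) : Set ℕ := {k | ∃ a, code a = k ∧ Valid n a}

/-! ### Labels and rules of the reduction, dimension `3 + m` -/

/-- Labels. `V` is the vertex type of the graph, `m` the number of additional axes.
`P k e b`: strip in the plane `x_k = 0`, along the axis `k + 1` (`e = false`) or `k + 2`
(`e = true`), parity `b`.  `E k`: corner of the two strips of plane `k`.  `I v c`: interior vertex
of class `c`.  `W k j c`: vertex number `j` of the path of side `k`, class `c`.  `R i`: axis `i`,
a vertex of class `0`.  `X l`: additional axes.  `Ph`: faces.  `Rh`: deep points. `O`: root. -/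
inductive Lab (V : Type) (m : ℕ) : Type
  | T : Lab V m
  | P : Fin 3 → Bool → Bool → Lab V m
  | E : Fin 3 → Lab V m
  | I : V → Fin 3 → Lab V m
  | W : Fin 3 → ℕ → Fin 3 → Lab V m
  | R : Fin 3 → Lab V m
  | X : Fin m → Lab V m
  | Ph : Lab V m
  | Rh : Lab V m
  | O : Lab V m

/-- Points of `ω ^ (3 + m)`. -/
abbrev Pt (m : ℕ) : Type := Fin (3 + m) → ℕ

/-- The axis of `R i`. -/
def axR (m : ℕ) (i : Fin 3) : Fin (3 + m) := Fin.castAdd m i

/-- The axis of `X l`. -/
def axX (m : ℕ) (l : Fin m) : Fin (3 + m) := Fin.natAdd 3 l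

namespace Lab

variable {V : Type} {m : ℕ}

/-- vertex labels -/
def IsVert : Lab V m → Prop
  | I _ _ => True
  | W _ _ _ => True
  | R _ => True
  | _ => False

/-- class of a vertex label -/
def cls : Lab V m → Fin 3
  | I _ c => c
  | W _ _ c => c
  | _ => 0

/-- axis labels -/
def IsAx : Lab V m → Prop
  | R _ => True
  | X _ => True
  | _ => False

/-- `May l c`: a point labelled `l` may see a point labelled `c`. -/
def May : Lab V m → Lab V m → Prop
  | T, c => c = T
  | P k e _, c => c = T ∨ ∃ b, c = P k e b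
  | E k, c => c = T ∨ c = E k ∨ ∃ e b, c = P k e b
  | I v q, c => c = T ∨ c = I v q
  | W k j q, c => c = T ∨ c = W k j q ∨ c = E k ∨ ∃ e b, c = P k e b
  | R i, c => c = T ∨ c = R i ∨ (∃ b, c = P (i + 1) true b) ∨ ∃ b, c = P (i + 2) false b
  | X l, c => c = T ∨ c = X l
  | Ph, c => c ≠ Rh ∧ c ≠ O
  | Rh, _ => True
  | O, _ => True

/-- Adjacency of vertex labels: both may be seen from one face. -/
def Vadj (adj : V → V → Prop) (len : Fin 3 → ℕ) (path : Fin 3 → ℕ → V) :
    Lab V m → Lab V m → Prop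
  | I v _, I v' _ => adj v v'
  | I v _, W k j _ => adj v (path k j)
  | W k j _, I v _ => adj (path k j) v
  | W k j _, W k' j' _ =>
      (k = k' ∧ (j = j' ∨ j = j' + 1 ∨ j' = j + 1)) ∨ (k' = k + 1 ∧ j = len k ∧ j' = 0) ∨
        (k = k' + 1 ∧ j' = len k' ∧ j = 0)
  | R i, W k j _ => (k = i + 2 ∧ j = 0) ∨ (k = i + 1 ∧ j = len k)
  | W k j _, R i => (k = i + 2 ∧ j = 0) ∨ (k = i + 1 ∧ j = len k)
  | _, _ => False

end Lab

open Lab

variable {V : Type} {m : ℕ}

/-- `x` sees the label `c`. -/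
def Sees {W : Type} [LE W] {C : Type} (lam : W → C) (x : W) (c : C) : Prop :=
  ∃ y, x ≤ y ∧ lam y = c

/-- The rules. -/
structure Good (adj : V → V → Prop) (len : Fin 3 → ℕ) (path : Fin 3 → ℕ → V)
    (lam : Pt m → Lab V m) : Prop where
  may : ∀ x c, Sees lam x c → May (lam x) c
  P_must : ∀ x k e b, lam x = P k e b → ∀ b', Sees lam x (P k e b')
  E_must : ∀ x k, lam x = E k → ∀ e, Sees lam x (P k e false)
  W_must : ∀ x k j q, lam x = W k j q → Sees lam x (E k)
  W_le : ∀ x k j q, lam x = W k j q → j ≤ len k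
  Ph_ex : ∀ x, lam x = Ph → ∀ q, ∃ c, IsVert c ∧ cls c = q ∧ Sees lam x c
  Ph_adj : ∀ x, lam x = Ph → ∀ c c', IsVert c → IsVert c' → Sees lam x c → Sees lam x c' →
    c ≠ c' → cls c ≠ cls c' ∧ Vadj adj len path c c'
  Rh_must : ∀ x, lam x = Rh → Sees lam x Ph
  O_must : ∀ x, lam x = O → Sees lam x Ph ∧ ∀ c, IsAx c → Sees lam x c
  G1 : ∀ x c c', IsAx c → IsAx c' → c ≠ c' → Sees lam x c → Sees lam x c' → lam x = O
  G2 : ∀ x i, Sees lam x (R i) → lam x ≠ O →
    (∀ b, Sees lam x (P (i + 1) true b) ∧ Sees lam x (P (i + 2) false b)) ∧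
      ∀ e b, ¬ Sees lam x (P i e b)
  G3 : ∀ x l, Sees lam x (X l) → lam x ≠ O → ∀ c, Sees lam x c → c = T ∨ c = X l
  G6 : ∀ x i, Sees lam x (P (i + 1) true false) → Sees lam x (P (i + 2) false false) →
    Sees lam x (R i)
  G7 : ∀ x k, Sees lam x (P k false false) → Sees lam x (P k true false) → Sees lam x (E k)

/-- A coherent labelling of a reflexive symmetric graph in a group: all triangles are trivial. -/
structure Coh {V : Type} (adj : V → V → Prop) {G : Type} [Group G] (g : V → V → G) : Prop where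
  one : ∀ v, g v v = 1
  two : ∀ u v, adj u v → g u v * g v u = 1
  three : ∀ u v w, adj u v → adj v w → adj w u → g u v * g v w * g w u = 1

/-- value of the path `p 0, ..., p j` -/
def pv {V : Type} {G : Type} [Group G] (g : V → V → G) (p : ℕ → V) : ℕ → G
  | 0 => 1
  | j + 1 => pv g p j * g (p j) (p (j + 1))

/-- A filling of the closed path `p 0, ..., p len` by a triangular lattice: `H c b` is the value
in row `c`, position `b ≤ N - c`. -/
structure Filling {V : Type} (adj : V → V → Prop) (star : V) (len : ℕ) (p : ℕ → V)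
    (N : ℕ) (H : ℕ → ℕ → V) (j : ℕ → ℕ) : Prop where
  mod : N % 3 = 0
  pos : 3 ≤ N
  row : ∀ c b, c + b < N → adj (H c b) (H c (b + 1)) ∧ adj (H (c + 1) b) (H c b) ∧
    adj (H (c + 1) b) (H c (b + 1))
  left : ∀ c ≤ N, H c 0 = star
  right : ∀ c ≤ N, H c (N - c) = star
  j_one : j 1 = 0
  j_last : j (N - 1) = len
  j_le : ∀ t, 1 ≤ t → t ≤ N - 1 → j t ≤ len
  j_step : ∀ t, 1 ≤ t → t < N - 1 → j (t + 1) = j t ∨ j (t + 1) = j t + 1 ∨ j t = j (t + 1) + 1
  bottom : ∀ t, 1 ≤ t → t ≤ N - 1 → H 0 t = p (j t)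

/-- side data of a list: side `0` carries the list, the two other sides are constant -/
def lenOf {V : Type} (w : List V) (k : Fin 3) : ℕ := if k = 0 then w.length - 1 else 0

/-- side data of a list -/
def pathOf {V : Type} (star : V) (w : List V) (k : Fin 3) (j : ℕ) : V :=
  if k = 0 then w.getD j star else star

/-! ### `n = 2`: lassos -/

/-- The lasso with a tail of length `a` followed by a cluster of size `q`
(points are the numbers `< a + q`). -/
def lassoLE (a : ℕ) (i j : ℕ) : Prop := i ≤ j ∨ (a ≤ i ∧ a ≤ j)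

/-- The square of the lasso with tail `s` and cluster `s`. -/
def sqLE (s : ℕ) (p q : Fin (2 * s) × Fin (2 * s)) : Prop :=
  lassoLE s p.1 q.1 ∧ lassoLE s p.2 q.2

/-- Validity in the square of the lasso `(s, s)`. -/
def ValidSq (s : ℕ) (a : Fm) : Prop :=
  ∀ (V : ℕ → (Fin (2 * s) × Fin (2 * s)) → Prop) (x : Fin (2 * s) × Fin (2 * s)),
    Tr (sqLE s) V a x

end Pool.Agent.OM
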