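import Mathlib

/-!
# Closure of a computable base under a computable partial operation is r.e.
-/

namespace Pool.Agent.OM

/-- The closure of the values of `g` under the partial operations `f (p, ·, ·)`. -/
inductive Cl (g : ℕ → Option ℕ) (f : ℕ × ℕ × ℕ → Option ℕ) : ℕ → Prop
  | base (p c : ℕ) : g p = some c → Cl g f c
  | step (p a b c : ℕ) : Cl g f a → Cl g f b → f (p, a, b) = some c → Cl g f c

section

variable (g : ℕ → Option ℕ) (f : ℕ × ℕ × ℕ → Option ℕ)

/-- value of derivation number `l.length` from the list of the values of the earlier ones -/
def nxt (l : List (Option ℕ)) : Option ℕ :=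
  bif (l.length.unpair.1 == 0) then g l.length.unpair.2
  else (l[l.length.unpair.2.unpair.2.unpair.1]?).bind fun o => o.bind fun a =>
    (l[l.length.unpair.2.unpair.2.unpair.2]?).bind fun o' => o'.bind fun b =>
      f (l.length.unpair.2.unpair.1, a, b)

/-- list of the values of the first derivations -/
def lst : ℕ → List (Option ℕ)
  | 0 => []
  | n + 1 => lst n ++ [nxt g f (lst n)]

/-- value of derivation number `n` -/
def dv (n : ℕ) : Option ℕ := nxt g f (lst g f n)

theorem lst_eq (n : ℕ) : lst g f n = (List.range n).map (dv g f) := by
  induction n with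
  | zero => rfl
  | succ n ih =>
    rw [List.range_succ, List.map_append, ← ih]
    rfl

theorem lst_length (n : ℕ) : (lst g f n).length = n := by
  rw [lst_eq, List.length_map, List.length_range]

theorem lst_get (n i : ℕ) (h : i < n) : (lst g f n)[i]? = some (dv g f i) := by
  rw [lst_eq, List.getElem?_map, List.getElem?_range h]
  rfl

theorem lst_get_none (n i : ℕ) (h : n ≤ i) : (lst g f n)[i]? = none := by
  rw [List.getElem?_eq_none_iff, lst_length]
  exact h

theorem cl_of_dv (n : ℕ) : ∀ c, dv g f n = some c → Cl g f c := by
  induction n using Nat.strong_induction_on with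
  | _ n ih =>
    intro c hc
    unfold dv nxt at hc
    rw [lst_length] at hc
    by_cases h0 : n.unpair.1 = 0
    · rw [h0] at hc
      exact Cl.base _ _ hc
    · have hb : (n.unpair.1 == 0) = false := by simpa using h0
      rw [hb, cond_false] at hc
      by_cases hi : n.unpair.2.unpair.2.unpair.1 < n
      · by_cases hj : n.unpair.2.unpair.2.unpair.2 < n
        · rw [lst_get g f n _ hi, lst_get g f n _ hj] at hc
          simp only [Option.bind_some] at hc
          cases ha : dv g f n.unpair.2.unpair.2.unpair.1 with
          | none => rw [ha] at hc; simp at hc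
          | some a =>
            cases hb' : dv g f n.unpair.2.unpair.2.unpair.2 with
            | none => rw [ha, hb'] at hc; simp at hc
            | some b =>
              rw [ha, hb'] at hc
              simp only [Option.bind_some] at hc
              exact Cl.step _ a b c (ih _ hi a ha) (ih _ hj b hb') hc
        · rw [lst_get g f n _ hi, lst_get_none g f n _ (not_lt.1 hj)] at hc
          cases ha : dv g f n.unpair.2.unpair.2.unpair.1 <;> rw [ha] at hc <;> simp at hc
      · rw [lst_get_none g f n _ (not_lt.1 hi)] at hc
        simp at hc

theorem dv_of_cl (c : ℕ) (h : Cl g f c) : ∃ n, dv g f n = some c := by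
  induction h with
  | base p c hc =>
    refine ⟨Nat.pair 0 p, ?_⟩
    unfold dv nxt
    rw [lst_length, Nat.unpair_pair]
    exact hc
  | step p a b c _ _ hc iha ihb =>
    obtain ⟨i, hi⟩ := iha
    obtain ⟨j, hj⟩ := ihb
    have h1 : Nat.pair p (Nat.pair i j) + 1 ≤
        Nat.pair (Nat.pair p (Nat.pair i j) + 1) (Nat.pair p (Nat.pair i j)) :=
      Nat.left_le_pair _ _
    have h2 : Nat.pair i j ≤ Nat.pair p (Nat.pair i j) := Nat.right_le_pair _ _
    have h3 : i ≤ Nat.pair i j := Nat.left_le_pair _ _
    have h4 : j ≤ Nat.pair i j := Nat.right_le_pair _ _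
    refine ⟨Nat.pair (Nat.pair p (Nat.pair i j) + 1) (Nat.pair p (Nat.pair i j)), ?_⟩
    unfold dv nxt
    rw [lst_length]
    simp only [Nat.unpair_pair]
    rw [lst_get g f _ i (by omega), lst_get g f _ j (by omega), hi, hj]
    have hb : ((Nat.pair p (Nat.pair i j) + 1) == 0) = false := rfl
    rw [hb, cond_false]
    exact hc

variable {g f}

/-- the inner part of `nxt` -/
def nin (f : ℕ × ℕ × ℕ → Option ℕ) (q : ℕ × Option ℕ × Option ℕ) : Option ℕ :=
  q.2.1.bind fun a => q.2.2.bind fun b => f (q.1, a, b)

theorem computable_nin (hf : Computable f) : Computable (nin f) := by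
  have A2 : Computable₂ (fun (r : (ℕ × Option ℕ × Option ℕ) × ℕ) (b : ℕ) => f (r.1.1, r.2, b)) :=
    hf.comp (Computable.pair (Computable.fst.comp (Computable.fst.comp Computable.fst))
      (Computable.pair (Computable.snd.comp Computable.fst) Computable.snd))
  have B1 : Computable (fun r : (ℕ × Option ℕ × Option ℕ) × ℕ => r.1.2.2) :=
    Computable.snd.comp (Computable.snd.comp Computable.fst)
  have A1 : Computable₂ (fun (q : ℕ × Option ℕ × Option ℕ) (a : ℕ) =>
      q.2.2.bind fun b => f (q.1, a, b)) :=
    Computable.option_bind B1 A2
  have B0 : Computable (fun q : ℕ × Option ℕ × Option ℕ => q.2.1) :=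
    Computable.fst.comp Computable.snd
  exact Computable.option_bind B0 A1

theorem computable_get {i : List (Option ℕ) → ℕ} (hi : Computable i) :
    Computable (fun l : List (Option ℕ) => (l[i l]?).bind id) := by
  have get : Computable₂ (fun (l : List (Option ℕ)) (i : ℕ) => l[i]?) := Computable.list_getElem?
  have h1 : Computable (fun l : List (Option ℕ) => l[i l]?) := get.comp Computable.id hi
  have h2 : Computable₂ (fun (_ : List (Option ℕ)) (o : Option ℕ) => id o) := Computable.snd
  exact Computable.option_bind h1 h2

theorem nxt_eq (l : List (Option ℕ)) : nxt g f l =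
    bif (l.length.unpair.1 == 0) then g l.length.unpair.2
    else nin f (l.length.unpair.2.unpair.1,
      (l[l.length.unpair.2.unpair.2.unpair.1]?).bind id,
      (l[l.length.unpair.2.unpair.2.unpair.2]?).bind id) := by
  unfold nxt nin
  congr 1
  cases h1 : l[l.length.unpair.2.unpair.2.unpair.1]? with
  | none => rfl
  | some o =>
    cases o with
    | none => rfl
    | some a =>
      cases h2 : l[l.length.unpair.2.unpair.2.unpair.2]? with
      | none => rfl
      | some o' => rfl

theorem computable_nxt (hg : Computable g) (hf : Computable f) : Computable (nxt g f) := by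
  have hl : Computable (fun l : List (Option ℕ) => l.length) := Computable.list_length
  have u : Computable Nat.unpair := Computable.unpair
  have u1 : Computable (fun l : List (Option ℕ) => l.length.unpair.1) :=
    Computable.fst.comp (u.comp hl)
  have u2 : Computable (fun l : List (Option ℕ) => l.length.unpair.2) :=
    Computable.snd.comp (u.comp hl)
  have u21 : Computable (fun l : List (Option ℕ) => l.length.unpair.2.unpair.1) :=
    Computable.fst.comp (u.comp u2)
  have u22 : Computable (fun l : List (Option ℕ) => l.length.unpair.2.unpair.2) :=
    Computable.snd.comp (u.comp u2)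
  have u221 : Computable (fun l : List (Option ℕ) => l.length.unpair.2.unpair.2.unpair.1) :=
    Computable.fst.comp (u.comp u22)
  have u222 : Computable (fun l : List (Option ℕ) => l.length.unpair.2.unpair.2.unpair.2) :=
    Computable.snd.comp (u.comp u22)
  have heq : Computable (fun l : List (Option ℕ) => (l.length.unpair.1 == 0)) :=
    (Primrec.beq (α := ℕ)).to_comp.comp u1 (Computable.const 0)
  have hin := (computable_nin hf).comp
    (Computable.pair u21 (Computable.pair (computable_get u221) (computable_get u222)))
  exact (Computable.cond heq (hg.comp u2) hin).of_eq fun l => (nxt_eq l).symm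

theorem computable_dv (hg : Computable g) (hf : Computable f) : Computable (dv g f) := by
  have h1 : Computable₂ (fun (_ : Unit) (n : ℕ) => dv g f n) := by
    refine Computable.nat_strong_rec (fun (_ : Unit) (n : ℕ) => dv g f n)
      (g := fun _ l => some (nxt g f l)) ?_ ?_
    · exact Computable.option_some.comp ((computable_nxt hg hf).comp Computable.snd)
    · intro _ n
      show some (nxt g f ((List.range n).map (dv g f))) = some (dv g f n)
      rw [← lst_eq]
      rfl
  exact h1.comp (Computable.const ()) Computable.id

/-- The closure is recursively enumerable. -/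
theorem re_cl (hg : Computable g) (hf : Computable f) : REPred (Cl g f) := by
  have h1 : Computable₂ (fun (c n : ℕ) => decide (dv g f n = some c)) :=
    ((Primrec.eq (α := Option ℕ)).decide.to_comp.comp
      ((computable_dv hg hf).comp Computable.snd)
      (Computable.option_some.comp Computable.fst)).to₂
  have h2 : Partrec fun c => Nat.rfind ((fun n => decide (dv g f n = some c) : ℕ → Bool) : ℕ →. Bool) :=
    Partrec.rfind h1.partrec₂
  refine (Partrec.dom_re h2).of_eq ?_
  intro c
  show (Nat.rfind ((fun n => decide (dv g f n = some c) : ℕ → Bool) : ℕ →. Bool)).Dom ↔ Cl g f c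
  rw [Nat.rfind_dom]
  constructor
  · rintro ⟨n, hn, _⟩
    have h3 : decide (dv g f n = some c) = true := (Part.mem_some_iff.1 hn).symm
    exact cl_of_dv g f n c (by simpa using h3)
  · intro h
    obtain ⟨n, hn⟩ := dv_of_cl g f c h
    refine ⟨n, ?_, fun _ => trivial⟩
    show true ∈ Part.some (decide (dv g f n = some c))
    rw [Part.mem_some_iff, hn]
    simp

end

/-- The closure of the set `B` under the partial operations `f p`. -/
inductive Clo (f : ℕ → ℕ → ℕ → Option ℕ) (B : ℕ → Prop) : ℕ → Prop
  | base (c : ℕ) : B c → Clo f B c
  | op (p a b c : ℕ) : Clo f B a → Clo f B b → f p a b = some c → Clo f B c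

/-- The closure of a computable set under computable partial operations is r.e. -/
theorem re_closure (f : ℕ → ℕ → ℕ → Option ℕ)
    (hf : Computable (fun q : ℕ × ℕ × ℕ => f q.1 q.2.1 q.2.2)) (B : ℕ → Prop)
    (hB : ComputablePred B) : REPred (fun c => Clo f B c) := by
  classical
  obtain ⟨dB, hdB⟩ := hB
  have hg : Computable (fun p : ℕ => bif decide (B p) then some p else none) :=
    Computable.cond hdB Computable.option_some (Computable.const none)
  refine (re_cl hg hf).of_eq ?_
  intro c
  constructor
  · intro h
    induction h with
    | base p c hc =>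
      by_cases hp : B p
      · have h1 : decide (B p) = true := by simpa using hp
        rw [h1, cond_true] at hc
        rw [← Option.some.inj hc]
        exact Clo.base p hp
      · have h1 : decide (B p) = false := by simpa using hp
        rw [h1, cond_false] at hc
        exact absurd hc (by simp)
    | step p a b c _ _ hc iha ihb => exact Clo.op p a b c iha ihb hc
  · intro h
    induction h with
    | base c hc =>
      refine Cl.base c c ?_
      have h1 : decide (B c) = true := by simpa using hc
      rw [h1, cond_true]
    | op p a b c _ _ hc iha ihb => exact Cl.step p a b c iha ihb hc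

end Pool.Agent.OM
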