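import Pool.Agent.OM.RecAx
import Pool.Agent.OM.M10c

/-!
# Module M10a: the theorems of a recursive set of formulas are recursively enumerable
-/

namespace Pool.Agent.OM
namespace RA

theorem code_surj : ∀ n : ℕ, ∃ a : Fm, code a = n := by
  intro n
  induction n using Nat.strong_induction_on with
  | _ n ih =>
    by_cases h0 : n = 0
    · exact ⟨.bot, h0.symm⟩
    by_cases h1 : n % 3 = 1
    · exact ⟨.var (n / 3), by show 3 * (n / 3) + 1 = n; omega⟩
    by_cases h2 : n % 3 = 2
    · have e : 3 * (n / 3) + 2 = n := by omega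
      have l1 : (n / 3).unpair.1 ≤ n / 3 := Nat.unpair_left_le _
      have l2 : (n / 3).unpair.2 ≤ n / 3 := Nat.unpair_right_le _
      obtain ⟨a, ha⟩ := ih (n / 3).unpair.1 (by omega)
      obtain ⟨b, hb⟩ := ih (n / 3).unpair.2 (by omega)
      refine ⟨.imp a b, ?_⟩
      show 3 * Nat.pair (code a) (code b) + 2 = n
      rw [ha, hb, Nat.pair_unpair]
      exact e
    · obtain ⟨a, ha⟩ := ih (n / 3 - 1) (by omega)
      refine ⟨.box a, ?_⟩
      show 3 * code a + 3 = n
      rw [ha]
      omega

/-- the formula with a given number -/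
noncomputable def dec (n : ℕ) : Fm := Classical.choose (code_surj n)

theorem code_dec (n : ℕ) : code (dec n) = n := Classical.choose_spec (code_surj n)

theorem dec_code (a : Fm) : dec (code a) = a := code_inj (code_dec _)

/-- number of an implication -/
def cimp (x y : ℕ) : ℕ := 3 * Nat.pair x y + 2

/-- number of a boxed formula -/
def cbox (x : ℕ) : ℕ := 3 * x + 3

theorem cimp_code (a b : Fm) : cimp (code a) (code b) = code (.imp a b) := rfl

theorem cbox_code (a : Fm) : cbox (code a) = code (.box a) := rfl

/-- substitution of a list of formulas, on numbers -/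
noncomputable def sbc (l : List ℕ) (n : ℕ) : ℕ :=
  code ((dec n).subst (fun i => dec (l.getD i 0)))

/-- step function for the recursion -/
def sbg (l prev : List ℕ) : Option ℕ :=
  if prev.length = 0 then some 0
  else if prev.length % 3 = 1 then some (l.getD (prev.length / 3) 0)
  else if prev.length % 3 = 2 then
    some (3 * Nat.pair (prev.getD (prev.length / 3).unpair.1 0)
      (prev.getD (prev.length / 3).unpair.2 0) + 2)
  else some (3 * prev.getD (prev.length / 3 - 1) 0 + 3)

theorem getD_range_map (f : ℕ → ℕ) {n i : ℕ} (h : i < n) :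
    ((List.range n).map f).getD i 0 = f i := by
  rw [List.getD_eq_getElem?_getD]
  simp [h]

theorem sbg_spec (l : List ℕ) (n : ℕ) : sbg l ((List.range n).map (sbc l)) = some (sbc l n) := by
  obtain ⟨a, rfl⟩ := code_surj n
  have hlen : ((List.range (code a)).map (sbc l)).length = code a := by simp
  unfold sbg
  rw [hlen]
  cases a with
  | bot =>
    rw [if_pos (show code Fm.bot = 0 from rfl)]
    unfold sbc
    rw [dec_code]
    rfl
  | var i =>
    have e : code (.var i) = 3 * i + 1 := rfl
    rw [if_neg (by omega), if_pos (by omega)]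
    unfold sbc
    rw [dec_code]
    show _ = some (code (dec (l.getD i 0)))
    rw [code_dec, show code (.var i) / 3 = i by omega]
  | imp a b =>
    have e : code (.imp a b) = 3 * Nat.pair (code a) (code b) + 2 := rfl
    rw [if_neg (by omega), if_neg (by omega), if_pos (by omega),
      show code (.imp a b) / 3 = Nat.pair (code a) (code b) by omega, Nat.unpair_pair]
    have l1 := Nat.left_le_pair (code a) (code b)
    have l2 := Nat.right_le_pair (code a) (code b)
    rw [getD_range_map _ (by show code a < _; omega), getD_range_map _ (by show code b < _; omega)]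
    unfold sbc
    rw [dec_code, dec_code, dec_code]
    rfl
  | box a =>
    have e : code (.box a) = 3 * code a + 3 := rfl
    rw [if_neg (by omega), if_neg (by omega), if_neg (by omega),
      show code (.box a) / 3 - 1 = code a by omega, getD_range_map _ (by omega)]
    unfold sbc
    rw [dec_code, dec_code]
    rfl

theorem sbg_primrec : Primrec₂ sbg := by
  have hl : Primrec (fun v : List ℕ × List ℕ => v.2.length) :=
    Primrec.list_length.comp Primrec.snd
  have hd : Primrec (fun v : List ℕ × List ℕ => v.2.length / 3) :=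
    Primrec.nat_div.comp hl (Primrec.const 3)
  have hm : Primrec (fun v : List ℕ × List ℕ => v.2.length % 3) :=
    Primrec.nat_mod.comp hl (Primrec.const 3)
  have hu : Primrec (fun v : List ℕ × List ℕ => (v.2.length / 3).unpair) :=
    Primrec.unpair.comp hd
  have hg : ∀ {f : List ℕ × List ℕ → ℕ}, Primrec f →
      Primrec (fun v : List ℕ × List ℕ => v.2.getD (f v) 0) := by
    intro f hf
    exact (Primrec.list_getD 0).comp Primrec.snd hf
  unfold sbg
  refine Primrec.ite (Primrec.eq.comp hl (Primrec.const 0)) (Primrec.const _) ?_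
  refine Primrec.ite (Primrec.eq.comp hm (Primrec.const 1)) ?_ ?_
  · exact Primrec.option_some.comp ((Primrec.list_getD 0).comp Primrec.fst hd)
  refine Primrec.ite (Primrec.eq.comp hm (Primrec.const 2)) ?_ ?_
  · refine Primrec.option_some.comp (Primrec.nat_add.comp (Primrec.nat_mul.comp (Primrec.const 3)
      (Primrec₂.natPair.comp (hg (Primrec.fst.comp hu)) (hg (Primrec.snd.comp hu))))
      (Primrec.const 2))
  · exact Primrec.option_some.comp (Primrec.nat_add.comp (Primrec.nat_mul.comp (Primrec.const 3)
      (hg (Primrec.nat_sub.comp hd (Primrec.const 1)))) (Primrec.const 3))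

theorem sbc_primrec : Primrec₂ sbc := Primrec.nat_strong_rec sbc sbg_primrec sbg_spec

/-- the list with a given number -/
def lst (q : ℕ) : List ℕ := Denumerable.ofNat (List ℕ) q

/-- the primitive recursive operations: modus ponens, necessitation, the axioms, substitution -/
noncomputable def prm (p a b : ℕ) : Option ℕ :=
  if p.unpair.1 = 0 then (if a % 3 = 2 ∧ (a / 3).unpair.1 = b then some (a / 3).unpair.2 else none)
  else if p.unpair.1 = 1 then some (cbox a)
  else if p.unpair.1 = 2 then
    some (cimp p.unpair.2.unpair.1 (cimp p.unpair.2.unpair.2 p.unpair.2.unpair.1))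
  else if p.unpair.1 = 3 then
    some (cimp (cimp p.unpair.2.unpair.1
      (cimp p.unpair.2.unpair.2.unpair.1 p.unpair.2.unpair.2.unpair.2))
      (cimp (cimp p.unpair.2.unpair.1 p.unpair.2.unpair.2.unpair.1)
        (cimp p.unpair.2.unpair.1 p.unpair.2.unpair.2.unpair.2)))
  else if p.unpair.1 = 4 then some (cimp (cimp (cimp p.unpair.2 0) 0) p.unpair.2)
  else if p.unpair.1 = 5 then
    some (cimp (cbox (cimp p.unpair.2.unpair.1 p.unpair.2.unpair.2))
      (cimp (cbox p.unpair.2.unpair.1) (cbox p.unpair.2.unpair.2)))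
  else some (sbc (lst p.unpair.2) a)

theorem cimp_primrec {α : Type} [Primcodable α] {f g : α → ℕ} (hf : Primrec f) (hg : Primrec g) :
    Primrec (fun v => cimp (f v) (g v)) := by
  unfold cimp
  exact Primrec.nat_add.comp (Primrec.nat_mul.comp (Primrec.const 3) (Primrec₂.natPair.comp hf hg))
    (Primrec.const 2)

theorem cbox_primrec {α : Type} [Primcodable α] {f : α → ℕ} (hf : Primrec f) :
    Primrec (fun v => cbox (f v)) := by
  unfold cbox
  exact Primrec.nat_add.comp (Primrec.nat_mul.comp (Primrec.const 3) hf) (Primrec.const 3)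

theorem prm_primrec : Primrec (fun v : ℕ × ℕ × ℕ => prm v.1 v.2.1 v.2.2) := by
  have ha : Primrec (fun v : ℕ × ℕ × ℕ => v.2.1) := Primrec.fst.comp Primrec.snd
  have hb : Primrec (fun v : ℕ × ℕ × ℕ => v.2.2) := Primrec.snd.comp Primrec.snd
  have hp : Primrec (fun v : ℕ × ℕ × ℕ => v.1.unpair) := Primrec.unpair.comp Primrec.fst
  have ht : Primrec (fun v : ℕ × ℕ × ℕ => v.1.unpair.1) := Primrec.fst.comp hp
  have hq : Primrec (fun v : ℕ × ℕ × ℕ => v.1.unpair.2) := Primrec.snd.comp hp
  have hqu : Primrec (fun v : ℕ × ℕ × ℕ => v.1.unpair.2.unpair) := Primrec.unpair.comp hq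
  have hq1 : Primrec (fun v : ℕ × ℕ × ℕ => v.1.unpair.2.unpair.1) := Primrec.fst.comp hqu
  have hq2 : Primrec (fun v : ℕ × ℕ × ℕ => v.1.unpair.2.unpair.2) := Primrec.snd.comp hqu
  have hqv : Primrec (fun v : ℕ × ℕ × ℕ => v.1.unpair.2.unpair.2.unpair) :=
    Primrec.unpair.comp hq2
  have hr1 : Primrec (fun v : ℕ × ℕ × ℕ => v.1.unpair.2.unpair.2.unpair.1) :=
    Primrec.fst.comp hqv
  have hr2 : Primrec (fun v : ℕ × ℕ × ℕ => v.1.unpair.2.unpair.2.unpair.2) :=
    Primrec.snd.comp hqv
  have hu : Primrec (fun v : ℕ × ℕ × ℕ => (v.2.1 / 3).unpair) :=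
    Primrec.unpair.comp (Primrec.nat_div.comp ha (Primrec.const 3))
  unfold prm
  refine Primrec.ite (Primrec.eq.comp ht (Primrec.const 0)) ?_ ?_
  · refine Primrec.ite (PrimrecPred.and (Primrec.eq.comp (Primrec.nat_mod.comp ha
      (Primrec.const 3)) (Primrec.const 2)) (Primrec.eq.comp (Primrec.fst.comp hu) hb)) ?_ ?_
    · exact Primrec.option_some.comp (Primrec.snd.comp hu)
    · exact Primrec.const none
  refine Primrec.ite (Primrec.eq.comp ht (Primrec.const 1)) ?_ ?_
  · exact Primrec.option_some.comp (cbox_primrec ha)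
  refine Primrec.ite (Primrec.eq.comp ht (Primrec.const 2)) ?_ ?_
  · exact Primrec.option_some.comp (cimp_primrec hq1 (cimp_primrec hq2 hq1))
  refine Primrec.ite (Primrec.eq.comp ht (Primrec.const 3)) ?_ ?_
  · exact Primrec.option_some.comp (cimp_primrec (cimp_primrec hq1 (cimp_primrec hr1 hr2))
      (cimp_primrec (cimp_primrec hq1 hr1) (cimp_primrec hq1 hr2)))
  refine Primrec.ite (Primrec.eq.comp ht (Primrec.const 4)) ?_ ?_
  · exact Primrec.option_some.comp (cimp_primrec (cimp_primrec (cimp_primrec hq
      (Primrec.const 0)) (Primrec.const 0)) hq)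
  refine Primrec.ite (Primrec.eq.comp ht (Primrec.const 5)) ?_ ?_
  · exact Primrec.option_some.comp (cimp_primrec (cbox_primrec (cimp_primrec hq1 hq2))
      (cimp_primrec (cbox_primrec hq1) (cbox_primrec hq2)))
  · exact Primrec.option_some.comp (sbc_primrec.comp ((Primrec.ofNat (List ℕ)).comp hq) ha)

/-- all operations; `D` decides the set of axioms -/
noncomputable def opf (D : ℕ → Bool) (p a b : ℕ) : Option ℕ :=
  bif decide (p.unpair.1 < 7) then prm p a b
  else bif D p.unpair.2 then some p.unpair.2 else none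

theorem opf_computable {D : ℕ → Bool} (hD : Computable D) :
    Computable (fun v : ℕ × ℕ × ℕ => opf D v.1 v.2.1 v.2.2) := by
  have hp : Primrec (fun v : ℕ × ℕ × ℕ => v.1.unpair) := Primrec.unpair.comp Primrec.fst
  have ht : Primrec (fun v : ℕ × ℕ × ℕ => v.1.unpair.1) := Primrec.fst.comp hp
  have hq : Primrec (fun v : ℕ × ℕ × ℕ => v.1.unpair.2) := Primrec.snd.comp hp
  unfold opf
  refine Computable.cond ?_ prm_primrec.to_comp ?_
  · exact (PrimrecPred.decide (Primrec.nat_lt.comp ht (Primrec.const 7))).to_comp
  · refine Computable.cond (hD.comp hq.to_comp) ?_ (Computable.const none)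
    exact (Primrec.option_some.comp hq).to_comp

/-- bound for the variables -/
def vb : Fm → ℕ
  | .var i => i + 1
  | .bot => 0
  | .imp a b => max (vb a) (vb b)
  | .box a => vb a

theorem subst_congr (σ τ : ℕ → Fm) : ∀ a : Fm, (∀ i, i < vb a → σ i = τ i) →
    a.subst σ = a.subst τ := by
  intro a
  induction a with
  | var i => intro h; exact h i (Nat.lt_succ_self i)
  | bot => intro _; rfl
  | imp a b iha ihb =>
    intro h
    show Fm.imp _ _ = Fm.imp _ _
    rw [iha (fun i hi => h i (lt_of_lt_of_le hi (le_max_left _ _))),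
      ihb (fun i hi => h i (lt_of_lt_of_le hi (le_max_right _ _)))]
  | box a ih =>
    intro h
    show Fm.box _ = Fm.box _
    rw [ih h]

theorem sbc_of_subst (a : Fm) (σ : ℕ → Fm) :
    sbc (lst (Encodable.encode ((List.range (vb a)).map (fun i => code (σ i))))) (code a) =
      code (a.subst σ) := by
  unfold sbc lst
  rw [dec_code, Denumerable.ofNat_encode]
  congr 1
  apply subst_congr
  intro i hi
  rw [getD_range_map _ hi, dec_code]

theorem der_sbc {Γ : Set Fm} {a : Fm} (h : Der Γ a) (l : List ℕ) :
    ∃ b, code b = sbc l (code a) ∧ Der Γ b := by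
  refine ⟨a.subst (fun i => dec (l.getD i 0)), ?_, Der.sub a _ h⟩
  unfold sbc
  rw [dec_code]

/-- the starting element of the closure -/
def start : ℕ := code (.imp .bot (.imp .bot .bot))

theorem der_of_clo {Γ : Set Fm} {D : ℕ → Bool} (hD : ∀ k, D k = true → ∃ a ∈ Γ, code a = k)
    {c : ℕ} (h : Clo (opf D) (fun c => c = start) c) : ∃ a, code a = c ∧ Der Γ a := by
  induction h with
  | base c hc => exact ⟨_, hc.symm, Der.p1 _ _⟩
  | op p a b c _ _ hf iha ihb =>
    obtain ⟨x, hx, dx⟩ := iha
    obtain ⟨y, hy, dy⟩ := ihb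
    unfold opf at hf
    by_cases h7 : p.unpair.1 < 7
    · rw [decide_eq_true h7, cond_true] at hf
      unfold prm at hf
      by_cases h0 : p.unpair.1 = 0
      · rw [if_pos h0] at hf
        split_ifs at hf with hc
        obtain ⟨hc1, hc2⟩ := hc
        have hc3 : (a / 3).unpair.2 = c := Option.some.inj hf
        have e1 : x = .imp y (dec c) := by
          apply code_inj
          show code x = 3 * Nat.pair (code y) (code (dec c)) + 2
          rw [hx, hy, code_dec, ← hc2, ← hc3, Nat.pair_unpair]
          omega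
        rw [e1] at dx
        exact ⟨dec c, code_dec c, Der.mp _ _ dx dy⟩
      rw [if_neg h0] at hf
      by_cases h1 : p.unpair.1 = 1
      · rw [if_pos h1] at hf
        refine ⟨.box x, ?_, Der.nec x dx⟩
        rw [← cbox_code, hx]
        exact Option.some.inj hf
      rw [if_neg h1] at hf
      by_cases h2 : p.unpair.1 = 2
      · rw [if_pos h2] at hf
        refine ⟨_, ?_, Der.p1 (dec p.unpair.2.unpair.1) (dec p.unpair.2.unpair.2)⟩
        rw [← Option.some.inj hf, ← cimp_code, ← cimp_code, code_dec, code_dec]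
      rw [if_neg h2] at hf
      by_cases h3 : p.unpair.1 = 3
      · rw [if_pos h3] at hf
        refine ⟨_, ?_, Der.p2 (dec p.unpair.2.unpair.1) (dec p.unpair.2.unpair.2.unpair.1)
          (dec p.unpair.2.unpair.2.unpair.2)⟩
        rw [← Option.some.inj hf]
        simp only [← cimp_code, code_dec]
      rw [if_neg h3] at hf
      by_cases h4 : p.unpair.1 = 4
      · rw [if_pos h4] at hf
        refine ⟨_, ?_, Der.p3 (dec p.unpair.2)⟩
        rw [← Option.some.inj hf]
        simp only [← cimp_code, code_dec]
        rfl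
      rw [if_neg h4] at hf
      by_cases h5 : p.unpair.1 = 5
      · rw [if_pos h5] at hf
        refine ⟨_, ?_, Der.k (dec p.unpair.2.unpair.1) (dec p.unpair.2.unpair.2)⟩
        rw [← Option.some.inj hf]
        simp only [← cimp_code, ← cbox_code, code_dec]
      rw [if_neg h5] at hf
      obtain ⟨z, hz, dz⟩ := der_sbc dx (lst p.unpair.2)
      refine ⟨z, ?_, dz⟩
      rw [hz, hx]
      exact Option.some.inj hf
    · rw [decide_eq_false h7, cond_false] at hf
      cases hq : D p.unpair.2 with
      | false => rw [hq, cond_false] at hf; cases hf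
      | true =>
        rw [hq, cond_true] at hf
        obtain ⟨z, hz, ez⟩ := hD _ hq
        exact ⟨z, by rw [ez]; exact Option.some.inj hf, Der.ax z hz⟩

theorem clo_start (f : ℕ → ℕ → ℕ → Option ℕ) : Clo f (fun c => c = start) start :=
  Clo.base _ rfl

theorem clo_of_der {Γ : Set Fm} {D : ℕ → Bool} (hD : ∀ a ∈ Γ, D (code a) = true)
    {a : Fm} (h : Der Γ a) : Clo (opf D) (fun c => c = start) (code a) := by
  have hop : ∀ (t q x y c : ℕ), t < 7 → Clo (opf D) (fun c => c = start) x →
      Clo (opf D) (fun c => c = start) y → prm (Nat.pair t q) x y = some c →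
      Clo (opf D) (fun c => c = start) c := by
    intro t q x y c ht hx hy hc
    refine Clo.op (Nat.pair t q) x y c hx hy ?_
    unfold opf
    rw [Nat.unpair_pair, decide_eq_true (show t < 7 from ht), cond_true]
    exact hc
  have hs := clo_start (opf D)
  induction h with
  | ax a ha =>
    refine Clo.op (Nat.pair 7 (code a)) start start (code a) hs hs ?_
    unfold opf
    rw [Nat.unpair_pair, decide_eq_false (show ¬ (7 < 7) by omega), cond_false]
    show (bif D (code a) then some (code a) else none) = some (code a)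
    rw [hD a ha, cond_true]
  | p1 a b =>
    refine hop 2 (Nat.pair (code a) (code b)) _ _ _ (by omega) hs hs ?_
    unfold prm
    simp only [Nat.unpair_pair]
    rfl
  | p2 a b c =>
    refine hop 3 (Nat.pair (code a) (Nat.pair (code b) (code c))) _ _ _ (by omega) hs hs ?_
    unfold prm
    simp only [Nat.unpair_pair]
    rfl
  | p3 a =>
    refine hop 4 (code a) _ _ _ (by omega) hs hs ?_
    unfold prm
    simp only [Nat.unpair_pair]
    rfl
  | k a b =>
    refine hop 5 (Nat.pair (code a) (code b)) _ _ _ (by omega) hs hs ?_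
    unfold prm
    simp only [Nat.unpair_pair]
    rfl
  | mp a b _ _ ih1 ih2 =>
    refine hop 0 0 _ _ _ (by omega) ih1 ih2 ?_
    have e : code (.imp a b) = 3 * Nat.pair (code a) (code b) + 2 := rfl
    unfold prm
    simp only [Nat.unpair_pair]
    rw [if_pos trivial, show code (.imp a b) / 3 = Nat.pair (code a) (code b) by omega,
      Nat.unpair_pair, if_pos ⟨by omega, rfl⟩]
  | sub a σ _ ih =>
    refine hop 6 (Encodable.encode ((List.range (vb a)).map (fun i => code (σ i)))) _ _ _
      (by omega) ih hs ?_
    rw [← sbc_of_subst]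
    unfold prm
    simp only [Nat.unpair_pair]
    rfl
  | nec a _ ih =>
    refine hop 1 0 _ _ _ (by omega) ih hs ?_
    unfold prm
    simp only [Nat.unpair_pair]
    rfl

end RA

open RA in
theorem m10a : M10a := by
  intro Γ hΓ
  obtain ⟨D, hD, e⟩ := ComputablePred.computable_iff.1 hΓ
  have hD1 : ∀ k, D k = true ↔ ∃ a ∈ Γ, code a = k := by
    intro k
    exact (iff_of_eq (congrFun e k)).symm
  have h1 := re_closure (opf D) (opf_computable hD) (fun c => c = start)
    (PrimrecPred.computablePred (Primrec.eq.comp Primrec.id (Primrec.const start)))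
  refine REPred.of_eq h1 ?_
  intro c
  constructor
  · intro h
    exact der_of_clo (fun k hk => (hD1 k).1 hk) h
  · rintro ⟨a, rfl, ha⟩
    exact clo_of_der (fun a ha => (hD1 _).2 ⟨a, ha, rfl⟩) ha

end Pool.Agent.OM
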