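import Pool.Agent.OM.RecAx

/-!
# Module M10b: validity is closed under the rules of normal modal logics
-/

namespace Pool.Agent.OM

theorem tr_subst {W : Type} (R : W → W → Prop) (V : ℕ → W → Prop) (σ : ℕ → Fm) (a : Fm) :
    ∀ w, Tr R V (a.subst σ) w ↔ Tr R (fun i w => Tr R V (σ i) w) a w := by
  induction a with
  | var i => intro w; rfl
  | bot => intro w; rfl
  | imp a b iha ihb =>
    intro w
    show (Tr R V (a.subst σ) w → Tr R V (b.subst σ) w) ↔ _
    rw [iha w, ihb w]
    rfl
  | box a ih =>
    intro w
    show (∀ u, R w u → Tr R V (a.subst σ) u) ↔ _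
    constructor
    · intro h u hu
      exact (ih u).1 (h u hu)
    · intro h u hu
      exact (ih u).2 (h u hu)

theorem m10b : M10b := by
  intro n a h
  induction h with
  | ax a ha => exact ha
  | p1 a b => intro V x ha _; exact ha
  | p2 a b c => intro V x h1 h2 h3; exact h1 h3 (h2 h3)
  | p3 a => intro V x h1; exact Classical.byContradiction fun h2 => h1 h2
  | k a b => intro V x h1 h2 u hu; exact h1 u hu (h2 u hu)
  | mp a b _ _ ih1 ih2 => intro V x; exact ih1 V x (ih2 V x)
  | sub a σ _ ih =>
    intro V x
    exact (tr_subst _ V σ a x).2 (ih (fun i w => Tr (fun p q => p ≤ q) V (σ i) w) x)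
  | nec a _ ih => intro V x u _; exact ih V u

end Pool.Agent.OM
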