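import Pool.Agent.OM.M2c

/-!
# M2d: a code whose halting set is not co-r.e., and the machine
-/

namespace Pool.Agent.OM

open Turing StateTransition

theorem primrec_two_pow : Primrec (fun n : ℕ => 2 ^ n) := by
  have h : Primrec₂ (fun (_ x : ℕ) => x * 2) :=
    Primrec.nat_mul.comp Primrec.snd (Primrec.const 2)
  refine (Primrec.nat_rec₁ 1 h).of_eq ?_
  intro n
  induction n with
  | zero => rfl
  | succ n ih =>
    rw [pow_succ, ← ih]

/-- the universal function at `0` -/
def gfun (k : ℕ) : Part ℕ := Nat.Partrec.Code.eval (Denumerable.ofNat Nat.Partrec.Code k) 0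

theorem gfun_partrec : Partrec gfun :=
  Nat.Partrec.Code.eval_part.comp (Computable.ofNat _) (Computable.const 0)

/-- `2 ^ n ↦ gfun n` -/
def ffun (x : ℕ) : Part ℕ := (Nat.rfind (fun m => Part.some (decide (2 ^ m = x)))).bind gfun

theorem ffun_partrec : Partrec ffun := by
  have h1 : Computable₂ (fun (x m : ℕ) => decide (2 ^ m = x)) := by
    have : PrimrecRel (fun (x m : ℕ) => 2 ^ m = x) :=
      Primrec.eq.comp (primrec_two_pow.comp Primrec.snd) Primrec.fst
    exact this.decide.to_comp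
  have h2 : Partrec (fun x : ℕ => Nat.rfind (fun m => Part.some (decide (2 ^ m = x)))) :=
    Partrec.rfind h1.partrec₂
  exact h2.bind (gfun_partrec.comp Computable.snd).to₂

theorem ffun_two_pow (n : ℕ) : ffun (2 ^ n) = gfun n := by
  have h : Nat.rfind (fun m => Part.some (decide (2 ^ m = 2 ^ n))) = Part.some n := by
    rw [Part.eq_some_iff, Nat.mem_rfind]
    refine ⟨by simp, ?_⟩
    intro m hm
    have : ¬ (2 ^ m = 2 ^ n) := by
      intro h
      exact hm.ne (Nat.pow_right_injective (le_refl 2) h)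
    simp [this]
  unfold ffun
  rw [h, Part.bind_some]

theorem exists_halting_code :
    ∃ c : ToPartrec.Code, ∀ n, ((c.eval [2 ^ n]).Dom ↔ (gfun n).Dom) := by
  obtain ⟨c, hc⟩ := ToPartrec.Code.exists_code (Nat.Partrec'.part_iff₁.2 ffun_partrec)
  refine ⟨c, fun n => ?_⟩
  have := hc ⟨[2 ^ n], rfl⟩
  have h2 : c.eval [2 ^ n] = pure <$> ffun (2 ^ n) := this
  rw [h2, ffun_two_pow]
  rfl

theorem gfun_not_re : ¬ REPred (fun n => ¬ (gfun n).Dom) := by
  intro h
  apply ComputablePred.halting_problem_not_re 0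
  have h2 : REPred (fun c : Nat.Partrec.Code => ¬ (gfun (Encodable.encode c)).Dom) :=
    Partrec.comp h Computable.encode
  refine h2.of_eq ?_
  intro c
  simp [gfun]

instance : Fintype PartrecToTM2.K' :=
  ⟨{.main, .rev, .aux, .stack}, fun x => by cases x <;> simp⟩

theorem m2_of
    (m2a : ∀ {Q D : Type} [Fintype D] [DecidableEq D] (m : ℕ), 1 < m →
      ∀ (M : Q → Option (D × (ℕ → Q × ℕ × ℕ))) (S : Finset Q),
      (∀ q ∈ S, ∀ k f, M q = some (k, f) → ∀ a, (f a).1 ∈ S ∧ 0 < (f a).2.1) →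
      ∀ (q0 : Q), q0 ∈ S → ∀ (k0 : D),
      ∃ (nQ d : ℕ) (rules : List (ARule nQ d)) (q0' h : Fin nQ) (k0' : Fin d),
        (∀ ρ ∈ rules, 0 < ρ.c ∧ 0 < ρ.c') ∧
        ∀ v : ℕ, Relation.EqvGen (AStep rules) (q0', Pi.single k0' (v : ℤ)) (h, 0) ↔
          (eval (dstep m M) (q0, Pi.single k0 v)).Dom) : M2 := by
  obtain ⟨c, hc⟩ := exists_halting_code
  let _ : Inhabited PartrecToTM2.Λ' := ⟨PartrecToTM2.trNormal c PartrecToTM2.Cont'.halt⟩
  have hS : TM2.Supports PartrecToTM2.tr (PartrecToTM2.codeSupp c PartrecToTM2.Cont'.halt) :=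
    PartrecToTM2.tr_supports c PartrecToTM2.Cont'.halt
  obtain ⟨nQ, d, rules, q0', h, k0', hpos, hiff⟩ := m2a (Q := DQ PartrecToTM2.K' PartrecToTM2.Γ'
      PartrecToTM2.Λ' (Option PartrecToTM2.Γ')) (D := PartrecToTM2.K') 5 (by norm_num)
    (dmach 5 digG symG PartrecToTM2.K'.main PartrecToTM2.tr)
    (dstates PartrecToTM2.tr (PartrecToTM2.codeSupp c PartrecToTM2.Cont'.halt))
    (dstates_closed (by norm_num) _ hS)
    (some (PartrecToTM2.tr (PartrecToTM2.trNormal c PartrecToTM2.Cont'.halt)), none)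
    (by
      refine Finset.mem_product.2 ⟨?_, Finset.mem_univ _⟩
      simp only [TM2.stmts, Finset.some_mem_insertNone, Finset.mem_biUnion]
      exact ⟨_, hS.1, TM2.stmts₁_self⟩)
    PartrecToTM2.K'.main
  refine ⟨nQ, d, rules, q0', h, k0', vin, hpos, vin_primrec.to_comp, ?_⟩
  have key : ∀ n, Relation.EqvGen (AStep rules) (q0', Pi.single k0' (vin n : ℤ)) (h, 0) ↔
      (gfun n).Dom := by
    intro n
    refine (hiff _).trans ?_
    refine Iff.trans ?_ (hc n)
    have h1 := dmach_dom (sym := symG) (k0 := PartrecToTM2.K'.main) (tr := PartrecToTM2.tr)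
      digG_lt rfl symG_dig (PartrecToTM2.init c [2 ^ n])
    have h2 : trc 5 digG PartrecToTM2.tr (PartrecToTM2.init c [2 ^ n]) =
        ((some (PartrecToTM2.tr (PartrecToTM2.trNormal c PartrecToTM2.Cont'.halt)), none),
          Pi.single PartrecToTM2.K'.main (vin n)) := by
      unfold trc PartrecToTM2.init
      refine Prod.ext rfl ?_
      funext k
      cases k
      · simp only [PartrecToTM2.K'.elim, Pi.single_eq_same]
        exact enc_vin n
      · simp [enc, PartrecToTM2.K'.elim]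
      · simp [enc, PartrecToTM2.K'.elim]
      · simp [enc, PartrecToTM2.K'.elim]
    rw [h2] at h1
    refine h1.trans ?_
    have h3 := PartrecToTM2.tr_eval c [2 ^ n]
    have h4 : (eval (TM2.step PartrecToTM2.tr) (PartrecToTM2.init c [2 ^ n])).Dom ↔
        (PartrecToTM2.halt <$> ToPartrec.Code.eval c [2 ^ n]).Dom := by rw [h3]
    exact h4
  intro hre
  apply gfun_not_re
  exact hre.of_eq (fun n => not_congr (key n))

end Pool.Agent.OM
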