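import Pool.Agent.OM.M2a
import Pool.Agent.OM.M2d

/-!
# Module M2: an affine system with an undecidable (not co-r.e.) halting problem
-/

namespace Pool.Agent.OM

theorem m2 : M2 := m2_of m2a

end Pool.Agent.OM
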