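import Pool.Agent.OM.M3Def

/-!
# Module M3a, second half: contractions by moves
-/

set_option autoImplicit false

namespace Pool.Agent.OM

namespace MovesAux

open Relation

variable {V : Type} {adj : V → V → Prop}

theorem Move.ctx {x y : List V} (h : Move adj x y) (u v : List V) :
    Move adj (u ++ x ++ v) (u ++ y ++ v) := by
  cases h with
  | ins u' v' p q r h1 h2 h3 =>
    have := Move.ins (u ++ u') (v' ++ v) p q r h1 h2 h3
    simpa [List.append_assoc] using this
  | stut u' v' p =>
    have := Move.stut (adj := adj) (u ++ u') (v' ++ v) p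
    simpa [List.append_assoc] using this

theorem ctx {x y : List V} (h : EqvGen (Move adj) x y) (u v : List V) :
    EqvGen (Move adj) (u ++ x ++ v) (u ++ y ++ v) := by
  induction h with
  | rel x y h => exact EqvGen.rel _ _ (Move.ctx h u v)
  | refl x => exact EqvGen.refl _
  | symm x y _ ih => exact ih.symm
  | trans x y z _ _ ih1 ih2 => exact ih1.trans _ _ _ ih2

theorem left {x y : List V} (h : EqvGen (Move adj) x y) (u : List V) :
    EqvGen (Move adj) (u ++ x) (u ++ y) := by
  have := ctx h u []
  simpa using this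

theorem right {x y : List V} (h : EqvGen (Move adj) x y) (v : List V) :
    EqvGen (Move adj) (x ++ v) (y ++ v) := by
  have := ctx h [] v
  simpa using this

theorem ins (u v : List V) (p q r : V) (h1 : adj p q) (h2 : adj q r) (h3 : adj p r) :
    EqvGen (Move adj) (u ++ p :: r :: v) (u ++ p :: q :: r :: v) :=
  EqvGen.rel _ _ (Move.ins u v p q r h1 h2 h3)

theorem back (hr : ∀ u, adj u u) (hs : ∀ u v, adj u v → adj v u) (u v : List V) (p q : V)
    (h : adj p q) : EqvGen (Move adj) (u ++ p :: q :: p :: v) (u ++ p :: v) := by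
  have h1 : EqvGen (Move adj) (u ++ p :: v) (u ++ p :: p :: v) :=
    EqvGen.rel _ _ (Move.stut u v p)
  have h2 := ins u v p q p h (hs _ _ h) (hr p)
  exact (h1.trans _ _ _ h2).symm

end MovesAux

open MovesAux Relation

theorem disc_contract {V : Type} (adj : V → V → Prop) (hr : ∀ u, adj u u)
    (hs : ∀ u v, adj u v → adj v u) (n : ℕ) (b d : ℕ → V) (z : V) (hn : 0 < n) (h0 : b n = b 0)
    (hbb : ∀ i < n, adj (b i) (b (i + 1))) (hbd : ∀ i < n, adj (b i) (d i))
    (hdb : ∀ i < n, adj (d i) (b (i + 1))) (hdd : ∀ i, i + 1 < n → adj (d i) (d (i + 1)))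
    (hlast : adj (d (n - 1)) (d 0)) (hz : ∀ i < n, adj z (d i)) :
    Relation.EqvGen (Move adj) ((List.range (n + 1)).map b) [b 0] := by
  have key : ∀ k, k + 1 ≤ n →
      EqvGen (Move adj) ((List.range (k + 2)).map b) [b 0, d 0, z, d k, b (k + 1)] := by
    intro k
    induction k with
    | zero =>
      intro hk
      have e : (List.range (0 + 2)).map b = [b 0, b 1] := by simp [List.range_succ]
      rw [e]
      have h1 := ins (adj := adj) [] [] (b 0) (d 0) (b 1) (hbd 0 hn) (hdb 0 hn) (hbb 0 hn)
      have h2 := back hr hs [b 0] [b 1] (d 0) z (hs _ _ (hz 0 hn))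
      exact h1.trans _ _ _ h2.symm
    | succ k ih =>
      intro hk
      have e : (List.range (k + 1 + 2)).map b = (List.range (k + 2)).map b ++ [b (k + 2)] := by
        rw [show k + 1 + 2 = (k + 2) + 1 from rfl, List.range_succ, List.map_append]
        rfl
      rw [e]
      have h1 := right (ih (by omega)) [b (k + 2)]
      have h2 := ins (adj := adj) [b 0, d 0, z, d k] [] (b (k + 1)) (d (k + 1)) (b (k + 2))
        (hbd _ (by omega)) (hdb _ (by omega)) (hbb _ (by omega))
      have h3 := ins (adj := adj) [b 0, d 0, z] [b (k + 2)] (d k) (b (k + 1)) (d (k + 1))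
        (hdb _ (by omega)) (hbd _ (by omega)) (hdd _ (by omega))
      have h4 := ins (adj := adj) [b 0, d 0] [b (k + 2)] z (d k) (d (k + 1))
        (hz _ (by omega)) (hdd _ (by omega)) (hz _ (by omega))
      exact ((h1.trans _ _ _ h2).trans _ _ _ h3.symm).trans _ _ _ h4.symm
  obtain ⟨k, rfl⟩ : ∃ k, n = k + 1 := ⟨n - 1, by omega⟩
  have h1 := key k le_rfl
  simp only [Nat.add_sub_cancel] at hlast
  have h2 := ins (adj := adj) [b 0] [b (k + 1)] (d 0) z (d k) (hs _ _ (hz _ (by omega)))
    (hz _ (by omega)) (hs _ _ hlast)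
  have h3 := ins (adj := adj) [b 0] [] (d 0) (d k) (b (k + 1)) (hs _ _ hlast) (hdb _ (by omega))
    (by rw [h0]; exact hs _ _ (hbd _ (by omega)))
  rw [h0] at h1 h2 h3
  have h4 := back hr hs [] [] (b 0) (d 0) (hbd _ (by omega))
  exact ((h1.trans _ _ _ h2.symm).trans _ _ _ h3.symm).trans _ _ _ h4

section half

variable {N0 N1 : ℕ} (adj : Fin N0 → Fin N0 → Prop) (star : Fin N0)
  (A B C : Fin N1 × Bool → Fin N0)

theorem pword_cons (l : Fin N1 × Bool) (w : List (Fin N1 × Bool)) :
    pword star A B C (l :: w) = [star, A l, B l, C l] ++ pword star A B C w := by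
  simp [pword]

theorem pword_append (r v : List (Fin N1 × Bool)) :
    pword star A B C (r ++ v) =
      pword star A B C r ++ v.flatMap (fun l => [A l, B l, C l, star]) := by
  simp [pword]

/-- words up to moves of their paths -/
def wset : Setoid (List (Fin N1 × Bool)) where
  r w w' := EqvGen (Move adj) (pword star A B C w) (pword star A B C w')
  iseqv := ⟨fun w => EqvGen.refl _, fun h => h.symm, fun h1 h2 => h1.trans _ _ _ h2⟩

/-- action of a letter -/
def lm (l : Fin N1 × Bool) (q : Quotient (wset adj star A B C)) :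
    Quotient (wset adj star A B C) :=
  Quotient.map (fun w => l :: w) (by
    intro w w' h
    show EqvGen (Move adj) (pword star A B C (l :: w)) (pword star A B C (l :: w'))
    rw [pword_cons, pword_cons]
    exact left h _) q

theorem lm_inv (hr : ∀ u, adj u u) (hs : ∀ u v, adj u v → adj v u)
    (hl : ∀ l, adj star (A l) ∧ adj (A l) (B l) ∧ adj (B l) (C l) ∧ adj (C l) star)
    (hA : ∀ x b, A (x, !b) = C (x, b)) (hB : ∀ x b, B (x, !b) = B (x, b)) (x : Fin N1) (b : Bool)
    (q : Quotient (wset adj star A B C)) :
    lm adj star A B C (x, !b) (lm adj star A B C (x, b) q) = q := by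
  induction q using Quotient.inductionOn with
  | h w =>
    apply Quotient.sound
    show EqvGen (Move adj) (pword star A B C ((x, !b) :: (x, b) :: w)) (pword star A B C w)
    have hC : C (x, !b) = A (x, b) := by
      have := hA x (!b)
      rw [Bool.not_not] at this
      exact this.symm
    rw [pword_cons, pword_cons, hA, hB, hC]
    obtain ⟨h1, h2, h3, h4⟩ := hl (x, b)
    set t := w.flatMap (fun l => [A l, B l, C l, star]) with ht
    have e : pword star A B C w = star :: t := rfl
    rw [e]
    have s1 := back hr hs [star, C (x, b), B (x, b)]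
      (B (x, b) :: C (x, b) :: star :: t) (A (x, b)) star (hs _ _ h1)
    have s2 := back hr hs [star, C (x, b)] (C (x, b) :: star :: t) (B (x, b)) (A (x, b))
      (hs _ _ h2)
    have s3 := back hr hs [star] (star :: t) (C (x, b)) (B (x, b)) (hs _ _ h3)
    have s4 := back hr hs [] t star (C (x, b)) (hs _ _ h4)
    exact ((s1.trans _ _ _ s2).trans _ _ _ s3).trans _ _ _ s4

end half

theorem moves_half {N0 N1 : ℕ} (rels : List (List (Fin N1 × Bool))) (adj : Fin N0 → Fin N0 → Prop)
    (star : Fin N0) (A B C : Fin N1 × Bool → Fin N0) (hr : ∀ u, adj u u)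
    (hs : ∀ u v, adj u v → adj v u)
    (hl : ∀ l, adj star (A l) ∧ adj (A l) (B l) ∧ adj (B l) (C l) ∧ adj (C l) star)
    (hA : ∀ x b, A (x, !b) = C (x, b)) (hB : ∀ x b, B (x, !b) = B (x, b))
    (hrel : ∀ r ∈ rels, Relation.EqvGen (Move adj) (pword star A B C r) [star]) :
    ∀ w, wv rels w = 1 → Relation.EqvGen (Move adj) (pword star A B C w) [star] := by
  intro w hw
  set ρ : Fin N1 → Equiv.Perm (Quotient (wset adj star A B C)) := fun x =>
    { toFun := lm adj star A B C (x, true)
      invFun := lm adj star A B C (x, false)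
      left_inv := fun q => lm_inv adj star A B C hr hs hl hA hB x true q
      right_inv := fun q => lm_inv adj star A B C hr hs hl hA hB x false q } with hρ
  have hword : ∀ w v : List (Fin N1 × Bool),
      FreeGroup.lift ρ (FreeGroup.mk w) (Quotient.mk (wset adj star A B C) v) =
        Quotient.mk (wset adj star A B C) (w ++ v) := by
    intro w v
    rw [FreeGroup.lift_mk]
    induction w with
    | nil => simp
    | cons l w ih =>
      rw [List.map_cons, List.prod_cons, Equiv.Perm.mul_apply, ih]
      rcases l with ⟨x, _ | _⟩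
      · rfl
      · rfl
  have hker : Subgroup.normalClosure (relSet rels) ≤ (FreeGroup.lift ρ).ker := by
    apply Subgroup.normalClosure_le_normal
    rintro y ⟨r, hrr, rfl⟩
    rw [SetLike.mem_coe, MonoidHom.mem_ker]
    ext q
    induction q using Quotient.inductionOn with
    | h v =>
      rw [hword]
      apply Quotient.sound
      show EqvGen (Move adj) (pword star A B C (r ++ v)) (pword star A B C v)
      rw [pword_append]
      exact right (hrel r hrr) _
  have hmem : FreeGroup.mk w ∈ Subgroup.normalClosure (relSet rels) := by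
    rw [← QuotientGroup.eq_one_iff]
    exact hw
  have h1 := hker hmem
  rw [MonoidHom.mem_ker] at h1
  have h2 := hword w []
  rw [h1, List.append_nil] at h2
  have h3 := Quotient.exact h2
  exact EqvGen.symm _ _ h3

end Pool.Agent.OM
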