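import Pool.Agent.OM.M3aGraph
import Pool.Agent.OM.M3aMoves

/-!
# Module M3a: the graph of a presentation
-/

set_option autoImplicit false

namespace Pool.Agent.OM

open M3aG

theorem wv_eq {N1 : ℕ} (rels : List (List (Fin N1 × Bool))) (w : List (Fin N1 × Bool)) :
    wv rels w = (w.map (fun l => cond l.2 (PresentedGroup.of (rels := relSet rels) l.1)
      (PresentedGroup.of (rels := relSet rels) l.1)⁻¹)).prod := by
  have h : PresentedGroup.mk (relSet rels) =
      FreeGroup.lift (fun x => PresentedGroup.of (rels := relSet rels) x) := by
    ext x
    simp [PresentedGroup.of]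
  unfold wv
  rw [h, FreeGroup.lift_mk]

theorem wv_rel {N1 : ℕ} (rels : List (List (Fin N1 × Bool))) (r : List (Fin N1 × Bool))
    (hr : r ∈ rels) : wv rels r = 1 := by
  unfold wv
  exact PresentedGroup.one_of_mem ⟨r, hr, rfl⟩

theorem m3a : M3a := by
  intro N1 rels
  obtain ⟨M, hM⟩ : ∃ M, ∀ r : Fin rels.length, 4 * (rels.get r).length ≤ M :=
    ⟨Finset.univ.sup (fun r : Fin rels.length => 4 * (rels.get r).length),
      fun r => Finset.le_sup (f := fun r : Fin rels.length => 4 * (rels.get r).length)
        (Finset.mem_univ r)⟩
  set W : Fin rels.length → List (Fin N1 × Bool) := fun r => rels.get r with hW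
  set a : Fin N1 → PresentedGroup (relSet rels) := fun x => PresentedGroup.of x with ha
  have h1 : ∀ r, ((W r).map (fun l => cond l.2 (a l.1) (a l.1)⁻¹)).prod = 1 := by
    intro r
    rw [← wv_eq rels (W r)]
    exact wv_rel rels _ (List.get_mem rels r)
  have hcoh := vg_coh (M := M) W a h1
  set e : Vx N1 rels.length M ≃ Fin (Fintype.card (Vx N1 rels.length M)) :=
    Fintype.equivFin _ with he
  set adj : Fin (Fintype.card (Vx N1 rels.length M)) →
      Fin (Fintype.card (Vx N1 rels.length M)) → Prop :=
    fun u v => vadj W (e.symm u) (e.symm v) with hadj
  set f : Base N1 → Fin (Fintype.card (Vx N1 rels.length M)) := fun u => e (Sum.inl u) with hf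
  have hff : ∀ u v, badj u v → adj (f u) (f v) := by
    intro u v h
    simp only [hadj, hf, Equiv.symm_apply_apply]
    exact h
  have hr : ∀ u, adj u u := fun u => vadj_refl W _
  have hs : ∀ u v, adj u v → adj v u := fun u v h => vadj_symm W _ _ h
  have hl : ∀ l, adj (f none) (f (bA l)) ∧ adj (f (bA l)) (f (bB l)) ∧
      adj (f (bB l)) (f (bC l)) ∧ adj (f (bC l)) (f none) := by
    intro l
    obtain ⟨h1, h2, h3, h4⟩ := bl_adj l
    exact ⟨hff _ _ h1, hff _ _ h2, hff _ _ h3, hff _ _ h4⟩
  refine ⟨_, adj, f none, fun l => f (bA l), fun l => f (bB l), fun l => f (bC l), hr, hs, hl,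
    ⟨fun u v => vg W a (e.symm u) (e.symm v), ?_, ?_⟩, ?_⟩
  · exact ⟨fun v => hcoh.one _, fun u v h => hcoh.two _ _ h,
      fun u v w h1 h2 h3 => hcoh.three _ _ _ h1 h2 h3⟩
  · intro w
    rw [wv_eq]
    refine (pv_word (f none) (fun l => f (bA l)) (fun l => f (bB l)) (fun l => f (bC l))
      (fun u v => vg W a (e.symm u) (e.symm v)) w).trans ?_
    congr 1
    refine List.map_congr_left ?_
    intro l _
    simp only [hf, Equiv.symm_apply_apply]
    exact bl_val a l
  · refine moves_half rels adj (f none) (fun l => f (bA l)) (fun l => f (bB l))
      (fun l => f (bC l)) hr hs hl ?_ ?_ ?_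
    · intro x b
      cases b <;> rfl
    · intro x b
      rfl
    · intro r hr'
      obtain ⟨k, rfl⟩ := List.get_of_mem hr'
      rcases Nat.eq_zero_or_pos (rels.get k).length with h0 | hpos
      · have : rels.get k = [] := List.length_eq_zero_iff.1 h0
        rw [this]
        exact Relation.EqvGen.refl _
      · have hMpos : 0 < M := lt_of_lt_of_le (by omega) (hM k)
        set n := 4 * (rels.get k).length with hn
        set d : ℕ → Fin (Fintype.card (Vx N1 rels.length M)) := fun i =>
          if h : i < M then e (Sum.inr (k, some ⟨i, h⟩)) else f none with hd
        have hd' : ∀ i (h : i < n), d i = e (Sum.inr (k, some ⟨i, lt_of_lt_of_le h (hM k)⟩)) := by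
          intro i h
          simp only [hd]
          rw [dif_pos (lt_of_lt_of_le h (hM k))]
        have hstep := step a (W k) (h1 k)
        have hb0 : bt (W k) 0 = none := by simp [bt, bp]
        have hbn : bt (W k) n = none := by
          have : bt (W k) n = bt (W k) 0 := by
            apply bt_congr
            exact (Nat.modEq_zero_iff_dvd.2 (dvd_refl _))
          rw [this, hb0]
        have key := disc_contract adj hr hs n (fun i => f (bt (W k) i)) d
          (e (Sum.inr (k, none))) (by omega) (by simp only [hb0, hbn])
          (fun i _ => hff _ _ (hstep i).1)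
          (by
            intro i hi
            rw [hd' i hi]
            simp only [hadj, hf, Equiv.symm_apply_apply]
            exact Or.inl rfl)
          (by
            intro i hi
            rw [hd' i hi]
            simp only [hadj, hf, Equiv.symm_apply_apply]
            exact Or.inr rfl)
          (by
            intro i hi
            rw [hd' i (by omega), hd' (i + 1) hi]
            simp only [hadj, Equiv.symm_apply_apply]
            exact ⟨rfl, Or.inr (Or.inl rfl)⟩)
          (by
            rw [hd' (n - 1) (by omega), hd' 0 (by omega)]
            simp only [hadj, Equiv.symm_apply_apply]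
            refine ⟨rfl, Or.inr (Or.inl ?_)⟩
            show n - 1 + 1 ≡ 0 [MOD n]
            rw [Nat.sub_add_cancel (by omega)]
            exact Nat.modEq_zero_iff_dvd.2 (dvd_refl _))
          (by
            intro i hi
            rw [hd' i hi]
            simp only [hadj, Equiv.symm_apply_apply]
            rfl)
        have hlist : (List.range (n + 1)).map (fun i => f (bt (W k) i)) =
            pword (f none) (fun l => f (bA l)) (fun l => f (bB l)) (fun l => f (bC l))
              (rels.get k) := by
          have hp : pword (f none) (fun l => f (bA l)) (fun l => f (bB l)) (fun l => f (bC l))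
              (rels.get k) = (bp (rels.get k)).map f := by
            simp [pword, bp, List.map_flatMap]
          rw [hp]
          have hlen : (bp (rels.get k)).length = n + 1 := by
            simp [bp, List.length_flatMap, hn, mul_comm]
          apply List.ext_getElem
          · rw [List.length_map, List.length_map, List.length_range, hlen]
          · intro i h1 h2
            simp only [List.length_map, List.length_range] at h1
            simp only [List.getElem_map, List.getElem_range]
            congr 1
            rcases Nat.lt_or_ge i n with hi | hi
            · unfold bt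
              rw [show W k = rels.get k from rfl, ← hn, Nat.mod_eq_of_lt hi,
                List.getD_eq_getElem]
            · have hin : i = n := by omega
              subst hin
              rw [hbn]
              have := word_end (none : Base N1) bA bB bC (rels.get k)
              rw [← hn] at this
              unfold bp
              rw [← List.getD_eq_getElem _ none]
              exact this.symm
        rw [hlist] at key
        simp only [hb0] at key
        exact key

end Pool.Agent.OM
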