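import Pool.Agent.OM.M3Def

/-!
# Module M3b: a walk that is contractible by moves has a filling

`D x y`: the row `y` (one entry shorter) can be put above the row `x`.
-/

set_option autoImplicit false

namespace Pool.Agent.OM

namespace FillAux

variable {V : Type} {adj : V → V → Prop} {star : V}

/-- the row `y` may be put above the row `x` -/
inductive D (adj : V → V → Prop) : List V → List V → Prop
  | nil (a : V) : D adj [a] []
  | cons (a a' : V) (x : List V) (b : V) (y : List V) : adj b a → adj b a' → D adj (a' :: x) y →
      D adj (a :: a' :: x) (b :: y)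

theorem D.length {x y : List V} (h : D adj x y) : x.length = y.length + 1 := by
  induction h with
  | nil a => rfl
  | cons a a' x b y h1 h2 h3 ih => simp only [List.length_cons] at ih ⊢; omega

theorem D.get {x y : List V} (h : D adj x y) (s : V) : ∀ b < y.length,
    adj (y.getD b s) (x.getD b s) ∧ adj (y.getD b s) (x.getD (b + 1) s) := by
  induction h with
  | nil a => intro b hb; simp at hb
  | cons a a' x b y h1 h2 h3 ih =>
    intro i hi
    cases i with
    | zero => simpa using ⟨h1, h2⟩
    | succ i => simpa using ih i (by simpa using hi)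

theorem D.left {x y : List V} (hr : ∀ u, adj u u) (h : D adj x y) (u : List V)
    (hc : List.IsChain adj (u ++ x)) : D adj (u ++ x) (u ++ y) := by
  induction u with
  | nil => exact h
  | cons a u ih =>
    have hc' : List.IsChain adj (u ++ x) := hc.tail
    have h1 := ih hc'
    have hne : u ++ x ≠ [] := by
      intro h0
      have := h1.length
      rw [h0] at this
      simp at this
    obtain ⟨c, r, hcr⟩ := List.exists_cons_of_ne_nil hne
    simp only [List.cons_append] at hc ⊢
    rw [hcr] at hc h1 ⊢
    rw [List.isChain_cons_cons] at hc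
    exact D.cons a c r a (u ++ y) (hr a) hc.1 h1

theorem D.self (hr : ∀ u, adj u u) (hs : ∀ u v, adj u v → adj v u) (a : V) (v : List V)
    (hc : List.IsChain adj (a :: v)) : D adj (a :: v) v := by
  induction v generalizing a with
  | nil => exact D.nil a
  | cons b v ih =>
    rw [List.isChain_cons_cons] at hc
    exact D.cons a b v b v (hs _ _ hc.1) (hr b) (ih b hc.2)

theorem D.right {x y : List V} (hr : ∀ u, adj u u) (hs : ∀ u v, adj u v → adj v u)
    (h : D adj x y) (v : List V) (hc : List.IsChain adj (x ++ v)) : D adj (x ++ v) (y ++ v) := by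
  induction h with
  | nil a => exact D.self hr hs a v hc
  | cons a a' x b y h1 h2 h3 ih =>
    exact D.cons a a' (x ++ v) b (y ++ v) h1 h2 (ih hc.tail)

/-- closed walks at `star` -/
def Ok (adj : V → V → Prop) (star : V) (x : List V) : Prop :=
  List.IsChain adj x ∧ x.head? = some star ∧ x.getLast? = some star

/-- one row above another one -/
def Row (adj : V → V → Prop) (star : V) (x y : List V) : Prop :=
  Ok adj star x ∧ Ok adj star y ∧ D adj x y

theorem ok_dup (hr : ∀ u, adj u u) (u v : List V) (p : V) :
    Ok adj star (u ++ p :: p :: v) ↔ Ok adj star (u ++ p :: v) := by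
  have h1 : List.IsChain adj (u ++ p :: p :: v) ↔ List.IsChain adj (u ++ p :: v) := by
    rw [List.isChain_split, List.isChain_cons_cons, List.isChain_split (l₁ := u) (l₂ := v)]
    simp [hr p]
  have h2 : (u ++ p :: p :: v).head? = (u ++ p :: v).head? := by cases u <;> rfl
  have h3 : (u ++ p :: p :: v).getLast? = (u ++ p :: v).getLast? := by
    rw [List.getLast?_append, List.getLast?_append, List.getLast?_cons_cons]
  rw [Ok, Ok, h1, h2, h3]

theorem ok_ins (u v : List V) (p q r : V) (h1 : adj p q) (h2 : adj q r) (h3 : adj p r) :
    Ok adj star (u ++ p :: q :: r :: v) ↔ Ok adj star (u ++ p :: r :: v) := by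
  have e1 : List.IsChain adj (u ++ p :: q :: r :: v) ↔ List.IsChain adj (u ++ p :: r :: v) := by
    rw [List.isChain_split, List.isChain_cons_cons, List.isChain_cons_cons,
      List.isChain_split (l₁ := u) (l₂ := r :: v), List.isChain_cons_cons]
    simp [h1, h2, h3]
  have e2 : (u ++ p :: q :: r :: v).head? = (u ++ p :: r :: v).head? := by cases u <;> rfl
  have e3 : (u ++ p :: q :: r :: v).getLast? = (u ++ p :: r :: v).getLast? := by
    rw [List.getLast?_append, List.getLast?_append, List.getLast?_cons_cons,
      List.getLast?_cons_cons, List.getLast?_cons_cons]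
  rw [Ok, Ok, e1, e2, e3]

theorem ok_block (hr : ∀ u, adj u u) (a : ℕ) (u v : List V) (p : V) :
    Ok adj star (u ++ (List.replicate (a + 1) p ++ v)) ↔ Ok adj star (u ++ p :: v) := by
  induction a with
  | zero => rfl
  | succ a ih =>
    rw [← ih]
    exact ok_dup hr u (List.replicate a p ++ v) p

theorem row_del (hr : ∀ u, adj u u) (hs : ∀ u v, adj u v → adj v u) (u v : List V) (q : V)
    (h1 : Ok adj star (u ++ q :: v)) (h2 : Ok adj star (u ++ v)) :
    Row adj star (u ++ q :: v) (u ++ v) := by
  refine ⟨h1, h2, ?_⟩
  exact D.left hr (D.self hr hs q v h1.1.right_of_append) u h1.1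

theorem rows_shrink (hr : ∀ u, adj u u) (hs : ∀ u v, adj u v → adj v u) (a k : ℕ) (ha : 1 ≤ a)
    (u v : List V) (p : V) (h : Ok adj star (u ++ p :: v)) :
    Relation.ReflTransGen (Row adj star) (u ++ (List.replicate (a + k) p ++ v))
      (u ++ (List.replicate a p ++ v)) := by
  obtain ⟨a, rfl⟩ : ∃ a', a = a' + 1 := ⟨a - 1, by omega⟩
  induction k with
  | zero => exact Relation.ReflTransGen.refl
  | succ k ih =>
    refine Relation.ReflTransGen.head ?_ ih
    have e : a + 1 + (k + 1) = (a + 1 + k) + 1 := by omega
    have h1 : Ok adj star (u ++ (List.replicate (a + 1 + (k + 1)) p ++ v)) := by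
      rw [e]; exact (ok_block hr _ u v p).2 h
    have h2 : Ok adj star (u ++ (List.replicate (a + 1 + k) p ++ v)) := by
      have e' : a + 1 + k = (a + k) + 1 := by omega
      rw [e']; exact (ok_block hr _ u v p).2 h
    rw [e] at h1 ⊢
    exact row_del hr hs u (List.replicate (a + 1 + k) p ++ v) p h1 h2

/-- repeat every letter `M` times -/
def rep (M : ℕ) (x : List V) : List V := x.flatMap (List.replicate M)

theorem rep_nil (M : ℕ) : rep M ([] : List V) = [] := rfl

theorem rep_cons (M : ℕ) (a : V) (x : List V) : rep M (a :: x) = List.replicate M a ++ rep M x := rfl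

theorem rep_append (M : ℕ) (x y : List V) : rep M (x ++ y) = rep M x ++ rep M y := by
  simp [rep]

theorem ok_rep (hr : ∀ u, adj u u) (M : ℕ) (x u v : List V) :
    Ok adj star (u ++ (rep (M + 1) x ++ v)) ↔ Ok adj star (u ++ (x ++ v)) := by
  induction x generalizing u with
  | nil => rfl
  | cons a x ih =>
    rw [rep_cons, List.append_assoc, ok_block hr]
    have := ih (u ++ [a])
    simpa using this

theorem rows_rep (hr : ∀ u, adj u u) (hs : ∀ u v, adj u v → adj v u) (a k : ℕ) (ha : 1 ≤ a)
    (x u v : List V) (h : Ok adj star (u ++ (x ++ v))) :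
    Relation.ReflTransGen (Row adj star) (u ++ (rep (a + k) x ++ v)) (u ++ (rep a x ++ v)) := by
  induction x generalizing u with
  | nil => exact Relation.ReflTransGen.refl
  | cons b x ih =>
    obtain ⟨a', ha'⟩ : ∃ a', a = a' + 1 := ⟨a - 1, by omega⟩
    have h1 : Relation.ReflTransGen (Row adj star) (u ++ (rep (a + k) (b :: x) ++ v))
        (u ++ (List.replicate a b ++ (rep (a + k) x ++ v))) := by
      rw [rep_cons, List.append_assoc]
      refine rows_shrink hr hs a k ha u _ b ?_
      have h2 := (ok_rep (star := star) (adj := adj) hr (a' + k) x (u ++ [b]) v).2 (by simpa using h)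
      have e : a + k = a' + k + 1 := by omega
      rw [e]
      simpa using h2
    refine h1.trans ?_
    have h3 := ih (u ++ List.replicate a b) (by
      have h4 := (ok_block (star := star) (adj := adj) hr a' u (x ++ v) b).2 h
      rw [ha']
      simpa using h4)
    rw [rep_cons]
    simpa [List.append_assoc] using h3

/-- growing a new block between two blocks -/
theorem rows_grow (hr : ∀ u, adj u u) (hs : ∀ u v, adj u v → adj v u) (u v : List V) (p q r : V)
    (hpq : adj p q) (hqr : adj q r) (hpr : adj p r) (h : Ok adj star (u ++ p :: r :: v)) (a b : ℕ)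
    (ha : 1 ≤ a) (hb : 1 ≤ b) (k c : ℕ) :
    Relation.ReflTransGen (Row adj star)
      (u ++ (List.replicate (a + k) p ++ (List.replicate c q ++ (List.replicate (b + k) r ++ v))))
      (u ++ (List.replicate a p ++ (List.replicate (c + k) q ++ (List.replicate b r ++ v)))) := by
  have hok : ∀ a b c : ℕ, Ok adj star
      (u ++ (List.replicate (a + 1) p ++ (List.replicate c q ++ (List.replicate (b + 1) r ++ v)))) := by
    intro a b c
    rw [ok_block hr]
    cases c with
    | zero =>
      have := (ok_block (star := star) hr b (u ++ [p]) v r).2 (by simpa using h)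
      simpa using this
    | succ c =>
      have h1 := (ok_ins (star := star) u v p q r hpq hqr hpr).2 h
      have h2 := (ok_block (star := star) hr b (u ++ [p, q]) v r).2 (by simpa using h1)
      have h3 := (ok_block (star := star) hr c (u ++ [p]) (List.replicate (b + 1) r ++ v) q).2
        (by simpa using h2)
      simpa using h3
  induction k generalizing c with
  | zero => exact Relation.ReflTransGen.refl
  | succ k ih =>
    obtain ⟨a', rfl⟩ : ∃ a', a = a' + 1 := ⟨a - 1, by omega⟩
    obtain ⟨b', rfl⟩ : ∃ b', b = b' + 1 := ⟨b - 1, by omega⟩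
    have h1 := ih (c + 1)
    have e : c + (k + 1) = c + 1 + k := by omega
    rw [e]
    refine Relation.ReflTransGen.head ?_ h1
    have ea : a' + 1 + (k + 1) = (a' + k + 1) + 1 := by omega
    have eb : b' + 1 + (k + 1) = (b' + k + 1) + 1 := by omega
    have ea' : a' + 1 + k = (a' + k) + 1 := by omega
    have eb' : b' + 1 + k = (b' + k) + 1 := by omega
    have o1 := hok (a' + k + 1) (b' + k + 1) c
    have o2 := hok (a' + k) (b' + k) (c + 1)
    rw [ea, eb, ea', eb']
    refine ⟨o1, o2, ?_⟩
    -- domination, first the core, then the contexts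
    have core : D adj (p :: (List.replicate c q ++ (List.replicate (b' + k + 1 + 1) r ++ v)))
        (q :: (List.replicate c q ++ (List.replicate (b' + k + 1) r ++ v))) := by
      have hch : List.IsChain adj
          (p :: (List.replicate c q ++ (List.replicate (b' + k + 1 + 1) r ++ v))) := by
        have := (ok_block (star := star) hr (a' + k + 1) u
          (List.replicate c q ++ (List.replicate (b' + k + 1 + 1) r ++ v)) p).1 o1
        exact this.1.right_of_append
      have hch2 : List.IsChain adj
          (List.replicate c q ++ (List.replicate (b' + k + 1 + 1) r ++ v)) := hch.tail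
      have h3 : D adj (List.replicate c q ++ (List.replicate (b' + k + 1 + 1) r ++ v))
          (List.replicate c q ++ (List.replicate (b' + k + 1) r ++ v)) := by
        refine D.left hr ?_ _ hch2
        exact D.self hr hs r _ hch2.right_of_append
      cases c with
      | zero => exact D.cons p r _ q _ (hs _ _ hpq) hqr h3
      | succ c => exact D.cons p q _ q _ (hs _ _ hpq) (hr q) h3
    have h4 := D.left hr core (u ++ List.replicate (a' + k + 1) p) (by
      have := o1.1
      rw [List.replicate_succ' (n := a' + k + 1)] at this
      simpa [List.append_assoc] using this)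
    have e5 : u ++ List.replicate (a' + k + 1) p ++
        (p :: (List.replicate c q ++ (List.replicate (b' + k + 1 + 1) r ++ v))) =
        u ++ (List.replicate (a' + k + 1 + 1) p ++
          (List.replicate c q ++ (List.replicate (b' + k + 1 + 1) r ++ v))) := by
      rw [List.replicate_succ' (n := a' + k + 1)]
      simp [List.append_assoc]
    rw [e5] at h4
    have e6 : u ++ List.replicate (a' + k + 1) p ++
        (q :: (List.replicate c q ++ (List.replicate (b' + k + 1) r ++ v))) =
        u ++ (List.replicate (a' + k + 1) p ++
          (List.replicate (c + 1) q ++ (List.replicate (b' + k + 1) r ++ v))) := by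
      simp [List.append_assoc, List.replicate_succ]
    rw [e6] at h4
    exact h4

theorem ok_move (hr : ∀ u, adj u u) {x y : List V} (h : Move adj x y) :
    Ok adj star x ↔ Ok adj star y := by
  cases h with
  | ins u v p q r h1 h2 h3 => exact (ok_ins u v p q r h1 h2 h3).symm
  | stut u v p => exact (ok_dup hr u v p).symm

theorem rows_del_block (hr : ∀ u, adj u u) (hs : ∀ u v, adj u v → adj v u) (u v : List V) (q : V)
    (c : ℕ) (h : ∀ c' ≤ c, Ok adj star (u ++ (List.replicate c' q ++ v))) :
    Relation.ReflTransGen (Row adj star) (u ++ (List.replicate c q ++ v)) (u ++ v) := by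
  induction c with
  | zero => exact Relation.ReflTransGen.refl
  | succ c ih =>
    refine Relation.ReflTransGen.head ?_ (ih (fun c' hc' => h c' (by omega)))
    exact row_del hr hs u (List.replicate c q ++ v) q (h (c + 1) le_rfl) (h c (by omega))

theorem move_rows (hr : ∀ u, adj u u) (hs : ∀ u v, adj u v → adj v u) {x y : List V}
    (h : Move adj x y) (hx : Ok adj star x) (M' : ℕ) (hM' : 1 ≤ M') :
    (∃ M, 1 ≤ M ∧ Relation.ReflTransGen (Row adj star) (rep M x) (rep M' y)) ∧
    (∃ M, 1 ≤ M ∧ Relation.ReflTransGen (Row adj star) (rep M y) (rep M' x)) := by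
  obtain ⟨m, rfl⟩ : ∃ m, M' = m + 1 := ⟨M' - 1, by omega⟩
  have hy := (ok_move (star := star) hr h).1 hx
  cases h with
  | ins u v p q r hpq hqr hpr =>
    constructor
    · refine ⟨(m + 1) + (m + 1), by omega, ?_⟩
      -- shrink `u`
      have h1 := rows_rep (star := star) hr hs (m + 1) (m + 1) (by omega) u []
        (rep (m + 1 + (m + 1)) (p :: r :: v)) (by
          have := (ok_rep (star := star) hr (m + 1 + m) (p :: r :: v) u []).2 (by simpa using hx)
          rw [Nat.add_assoc (m + 1) m 1] at this
          simpa using this)
      have h2 := rows_rep (star := star) hr hs (m + 1) (m + 1) (by omega) v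
        (rep (m + 1) u ++ (rep (m + 1 + (m + 1)) [p, r])) [] (by
          have h3 := (ok_rep (star := star) hr (m + 1 + m) [p, r] u v).2 (by simpa using hx)
          rw [Nat.add_assoc (m + 1) m 1] at h3
          have h4 := (ok_rep (star := star) hr m u []
            (rep (m + 1 + (m + 1)) [p, r] ++ v)).2 (by simpa using h3)
          simpa [List.append_assoc] using h4)
      have h5 := rows_grow (star := star) hr hs (rep (m + 1) u) (rep (m + 1) v) p q r hpq hqr hpr (by
          have h3 := (ok_rep (star := star) hr m v (u ++ [p, r]) []).2 (by simpa using hx)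
          have h4 := (ok_rep (star := star) hr m u [] (p :: r :: rep (m + 1) v)).2
            (by simpa [List.append_assoc] using h3)
          simpa using h4) (m + 1) (m + 1) (by omega) (by omega) (m + 1) 0
      have e1 : rep (m + 1 + (m + 1)) (u ++ p :: r :: v) =
          [] ++ (rep (m + 1 + (m + 1)) u ++ rep (m + 1 + (m + 1)) (p :: r :: v)) := by
        rw [rep_append]; rfl
      have e2 : [] ++ (rep (m + 1) u ++ rep (m + 1 + (m + 1)) (p :: r :: v)) =
          (rep (m + 1) u ++ rep (m + 1 + (m + 1)) [p, r]) ++ (rep (m + 1 + (m + 1)) v ++ []) := by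
        simp [rep_cons, rep_nil, List.append_assoc]
      have e3 : (rep (m + 1) u ++ rep (m + 1 + (m + 1)) [p, r]) ++ (rep (m + 1) v ++ []) =
          rep (m + 1) u ++ (List.replicate (m + 1 + (m + 1)) p ++ (List.replicate 0 q ++
            (List.replicate (m + 1 + (m + 1)) r ++ rep (m + 1) v))) := by
        simp [rep_cons, rep_nil, List.append_assoc]
      have e4 : rep (m + 1) (u ++ p :: q :: r :: v) =
          rep (m + 1) u ++ (List.replicate (m + 1) p ++ (List.replicate (0 + (m + 1)) q ++
            (List.replicate (m + 1) r ++ rep (m + 1) v))) := by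
        rw [rep_append, rep_cons, rep_cons, rep_cons, Nat.zero_add]
      rw [e1, e4]
      refine h1.trans ?_
      rw [e2]
      refine h2.trans ?_
      rw [e3]
      exact h5
    · refine ⟨m + 1, by omega, ?_⟩
      have h1 := rows_del_block (star := star) hr hs (rep (m + 1) u ++ List.replicate (m + 1) p)
        (List.replicate (m + 1) r ++ rep (m + 1) v) q (m + 1) (by
          intro c' _
          have h3 : Ok adj star (u ++ (p :: (List.replicate c' q ++ (r :: v)))) := by
            cases c' with
            | zero => simpa using hx
            | succ c' =>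
              have := (ok_block (star := star) hr c' (u ++ [p]) (r :: v) q).2 (by simpa using hy)
              simpa using this
          have h4 := (ok_rep (star := star) hr m (r :: v) (u ++ p :: List.replicate c' q) []).2
            (by simpa using h3)
          have h5 := (ok_block (star := star) hr m u
            (List.replicate c' q ++ rep (m + 1) (r :: v)) p).2 (by simpa using h4)
          have h6 := (ok_rep (star := star) hr m u [] (List.replicate (m + 1) p ++
            (List.replicate c' q ++ rep (m + 1) (r :: v)))).2 (by simpa using h5)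
          simpa [rep_cons, List.append_assoc] using h6)
      have e1 : rep (m + 1) (u ++ p :: q :: r :: v) =
          rep (m + 1) u ++ List.replicate (m + 1) p ++ (List.replicate (m + 1) q ++
            (List.replicate (m + 1) r ++ rep (m + 1) v)) := by
        rw [rep_append, rep_cons, rep_cons, rep_cons]; simp [List.append_assoc]
      have e2 : rep (m + 1) (u ++ p :: r :: v) =
          rep (m + 1) u ++ List.replicate (m + 1) p ++
            (List.replicate (m + 1) r ++ rep (m + 1) v) := by
        rw [rep_append, rep_cons, rep_cons]; simp [List.append_assoc]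
      rw [e1, e2]
      exact h1
  | stut u v p =>
    constructor
    · refine ⟨(m + 1) + (m + 1), by omega, ?_⟩
      have h1 := rows_rep (star := star) hr hs (m + 1) (m + 1) (by omega) u []
        (rep (m + 1 + (m + 1)) (p :: v)) (by
          have := (ok_rep (star := star) hr (m + 1 + m) (p :: v) u []).2 (by simpa using hx)
          rw [Nat.add_assoc (m + 1) m 1] at this
          simpa using this)
      have h2 := rows_rep (star := star) hr hs (m + 1) (m + 1) (by omega) v
        (rep (m + 1) u ++ (List.replicate (m + 1 + (m + 1)) p)) [] (by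
          have h3 := (ok_block (star := star) hr (m + 1 + m) u v p).2 (by simpa using hx)
          rw [Nat.add_assoc (m + 1) m 1] at h3
          have h4 := (ok_rep (star := star) hr m u []
            (List.replicate (m + 1 + (m + 1)) p ++ v)).2 (by simpa using h3)
          simpa [List.append_assoc] using h4)
      have e1 : rep (m + 1 + (m + 1)) (u ++ p :: v) =
          [] ++ (rep (m + 1 + (m + 1)) u ++ rep (m + 1 + (m + 1)) (p :: v)) := by
        rw [rep_append]; rfl
      have e2 : [] ++ (rep (m + 1) u ++ rep (m + 1 + (m + 1)) (p :: v)) =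
          (rep (m + 1) u ++ List.replicate (m + 1 + (m + 1)) p) ++
            (rep (m + 1 + (m + 1)) v ++ []) := by
        simp [rep_cons, List.append_assoc]
      have e4 : rep (m + 1) (u ++ p :: p :: v) =
          (rep (m + 1) u ++ List.replicate (m + 1 + (m + 1)) p) ++ (rep (m + 1) v ++ []) := by
        rw [rep_append, rep_cons, rep_cons, List.replicate_add (m + 1) (m + 1)]
        simp only [List.append_assoc, List.append_nil]
      rw [e1, e4]
      refine h1.trans ?_
      rw [e2]
      exact h2
    · refine ⟨m + 1, by omega, ?_⟩
      have h1 := rows_shrink (star := star) hr hs (m + 1) (m + 1) (by omega) (rep (m + 1) u)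
        (rep (m + 1) v) p (by
          have h3 := (ok_rep (star := star) hr m v (u ++ [p]) []).2 (by simpa using hx)
          have h4 := (ok_rep (star := star) hr m u [] (p :: rep (m + 1) v)).2
            (by simpa [List.append_assoc] using h3)
          simpa using h4)
      have e1 : rep (m + 1) (u ++ p :: p :: v) =
          rep (m + 1) u ++ (List.replicate (m + 1 + (m + 1)) p ++ rep (m + 1) v) := by
        rw [rep_append, rep_cons, rep_cons, List.replicate_add (m + 1) (m + 1)]
        simp only [List.append_assoc]
      have e2 : rep (m + 1) (u ++ p :: v) =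
          rep (m + 1) u ++ (List.replicate (m + 1) p ++ rep (m + 1) v) := by
        rw [rep_append, rep_cons]
      rw [e1, e2]
      exact h1

theorem eqv_rows (hr : ∀ u, adj u u) (hs : ∀ u v, adj u v → adj v u) {x y : List V}
    (h : Relation.EqvGen (Move adj) x y) : (Ok adj star x ↔ Ok adj star y) ∧
    (Ok adj star x → ∀ M' : ℕ, 1 ≤ M' →
      (∃ M, 1 ≤ M ∧ Relation.ReflTransGen (Row adj star) (rep M x) (rep M' y)) ∧
      (∃ M, 1 ≤ M ∧ Relation.ReflTransGen (Row adj star) (rep M y) (rep M' x))) := by
  induction h with
  | rel x y h => exact ⟨ok_move hr h, fun hx M' hM' => move_rows hr hs h hx M' hM'⟩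
  | refl x =>
    exact ⟨Iff.rfl, fun _ M' hM' => ⟨⟨M', hM', Relation.ReflTransGen.refl⟩,
      ⟨M', hM', Relation.ReflTransGen.refl⟩⟩⟩
  | symm x y _ ih =>
    refine ⟨ih.1.symm, fun hy M' hM' => ?_⟩
    obtain ⟨h1, h2⟩ := ih.2 (ih.1.2 hy) M' hM'
    exact ⟨h2, h1⟩
  | trans x y z _ _ ih1 ih2 =>
    refine ⟨ih1.1.trans ih2.1, fun hx M' hM' => ?_⟩
    constructor
    · obtain ⟨M1, hM1, r1⟩ := (ih2.2 (ih1.1.1 hx) M' hM').1
      obtain ⟨M, hM, r⟩ := (ih1.2 hx M1 hM1).1
      exact ⟨M, hM, r.trans r1⟩
    · obtain ⟨M1, hM1, r1⟩ := (ih1.2 hx M' hM').2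
      obtain ⟨M, hM, r⟩ := (ih2.2 (ih1.1.1 hx) M1 hM1).2
      exact ⟨M, hM, r.trans r1⟩

/-- a triangular array above the row `x` -/
def Fill (adj : V → V → Prop) (star : V) (x : List V) : Prop :=
  ∃ H : ℕ → ℕ → V, (∀ b, H 0 b = x.getD b star) ∧
    (∀ c b, c + b + 1 < x.length → adj (H c b) (H c (b + 1)) ∧ adj (H (c + 1) b) (H c b) ∧
      adj (H (c + 1) b) (H c (b + 1))) ∧
    (∀ c, c < x.length → H c 0 = star) ∧ (∀ c, c < x.length → H c (x.length - 1 - c) = star)

theorem fill_one : Fill adj star [star] := by
  refine ⟨fun _ _ => star, ?_, ?_, ?_, ?_⟩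
  · intro b
    cases b <;> simp
  · intro c b h; simp at h
  · intro c _; rfl
  · intro c _; rfl

theorem ok_first {x : List V} (h : Ok adj star x) : x.getD 0 star = star := by
  have h2 := h.2.1
  cases x with
  | nil => rfl
  | cons a x => simpa using h2

theorem ok_last {x : List V} (h : Ok adj star x) : x.getD (x.length - 1) star = star := by
  have h2 := h.2.2
  rw [List.getLast?_eq_getElem?] at h2
  rw [List.getD_eq_getElem?_getD, h2]
  rfl

theorem chain_get {x : List V} (h : List.IsChain adj x) (s : V) (b : ℕ) (hb : b + 1 < x.length) :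
    adj (x.getD b s) (x.getD (b + 1) s) := by
  rw [List.isChain_iff_getElem] at h
  have := h b hb
  rw [List.getD_eq_getElem _ _ (by omega), List.getD_eq_getElem _ _ hb]
  exact this

theorem fill_row {x y : List V} (h : Row adj star x y) (hy : Fill adj star y) :
    Fill adj star x := by
  obtain ⟨hx, hyo, hd⟩ := h
  obtain ⟨H, h0, h1, h2, h3⟩ := hy
  have hl := hd.length
  refine ⟨fun c => match c with
    | 0 => fun b => x.getD b star
    | c + 1 => H c, ?_, ?_, ?_, ?_⟩
  · intro b; rfl
  · intro c b hcb
    cases c with
    | zero =>
      have hb : b < y.length := by omega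
      have h4 := hd.get star b hb
      refine ⟨chain_get hx.1 star b (by omega), ?_, ?_⟩
      · show adj (H 0 b) (x.getD b star)
        rw [h0]; exact h4.1
      · show adj (H 0 b) (x.getD (b + 1) star)
        rw [h0]; exact h4.2
    | succ c => exact h1 c b (by omega)
  · intro c hc
    cases c with
    | zero => exact ok_first hx
    | succ c => exact h2 c (by omega)
  · intro c hc
    cases c with
    | zero => exact ok_last hx
    | succ c =>
      have := h3 c (by omega)
      have e : x.length - 1 - (c + 1) = y.length - 1 - c := by omega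
      rw [e]; exact this

theorem fill_rows {x : List V} (h : Relation.ReflTransGen (Row adj star) x [star]) :
    Fill adj star x := by
  induction h using Relation.ReflTransGen.head_induction_on with
  | refl => exact fill_one
  | head h1 _ ih => exact fill_row h1 ih

theorem ok_ext (hr : ∀ u, adj u u) {x : List V} (h : Ok adj star x) (b : ℕ) :
    Ok adj star (star :: (x ++ List.replicate b star)) := by
  obtain ⟨h1, h2, h3⟩ := h
  cases x with
  | nil => simp at h2
  | cons a x =>
    have ha : a = star := by simpa using h2
    subst ha
    have hc1 : List.IsChain adj ((a :: x) ++ List.replicate b a) := by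
      rw [List.isChain_append]
      refine ⟨h1, List.isChain_replicate_of_rel b (hr a), ?_⟩
      intro y hy z hz
      rw [h3] at hy
      have e1 : a = y := by simpa using hy
      have e2 : a = z := by
        cases b with
        | zero => simp at hz
        | succ b => simpa [List.replicate_succ] using hz
      rw [← e1, ← e2]; exact hr a
    refine ⟨?_, by simp, ?_⟩
    · exact List.isChain_cons_cons.2 ⟨hr a, hc1⟩
    · rw [List.cons_append, List.getLast?_cons_cons, ← List.cons_append, List.getLast?_append, h3]
      cases b with
      | zero => simp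
      | succ b => simp [List.getLast?_replicate]

theorem row_ext (hr : ∀ u, adj u u) (hs : ∀ u v, adj u v → adj v u) {x y : List V}
    (h : Row adj star x y) (b : ℕ) :
    Row adj star (star :: (x ++ List.replicate b star)) (star :: (y ++ List.replicate b star)) := by
  obtain ⟨hx, hy, hd⟩ := h
  have h1 := ok_ext hr hx b
  refine ⟨h1, ok_ext hr hy b, ?_⟩
  have h2 := D.right hr hs hd (List.replicate b star) h1.1.tail
  exact D.left hr h2 [star] h1.1

theorem rows_ext (hr : ∀ u, adj u u) (hs : ∀ u v, adj u v → adj v u) {x y : List V}
    (h : Relation.ReflTransGen (Row adj star) x y) (b : ℕ) :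
    Relation.ReflTransGen (Row adj star) (star :: (x ++ List.replicate b star))
      (star :: (y ++ List.replicate b star)) := by
  induction h with
  | refl => exact Relation.ReflTransGen.refl
  | tail _ h2 ih => exact ih.tail (row_ext hr hs h2 b)

theorem getD_rep (M : ℕ) (hM : 1 ≤ M) (x : List V) (s : V) (i : ℕ) :
    (rep M x).getD i s = x.getD (i / M) s := by
  induction x generalizing i with
  | nil => simp [rep_nil]
  | cons a x ih =>
    rw [rep_cons]
    by_cases hi : i < M
    · rw [List.getD_append _ _ _ _ (by simpa using hi), Nat.div_eq_of_lt hi]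
      rw [List.getD_eq_getElem _ _ (by simpa using hi)]
      simp
    · have hi' : M ≤ i := by omega
      rw [List.getD_append_right _ _ _ _ (by simpa using hi'), ih, List.length_replicate]
      have e : i / M = (i - M) / M + 1 := by
        have := Nat.add_div_right (i - M) (show 0 < M by omega)
        rw [Nat.sub_add_cancel hi'] at this
        exact this
      rw [e]
      simp

theorem length_rep (M : ℕ) (x : List V) : (rep M x).length = M * x.length := by
  induction x with
  | nil => simp [rep_nil]
  | cons a x ih => rw [rep_cons, List.length_append, ih, List.length_replicate, List.length_cons]; ring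

end FillAux

open FillAux in
theorem m3b : M3b := by
  intro V adj star w hr hs hc hl hm
  have hok : Ok adj star (star :: w) := by
    refine ⟨hc, rfl, ?_⟩
    rw [List.getLast?_eq_getLast_of_ne_nil (by simp), hl]
  obtain ⟨M, hM, hrows⟩ := ((eqv_rows (star := star) hr hs hm).2 hok 1 le_rfl).1
  have hone : rep 1 [star] = [star] := rfl
  rw [hone] at hrows
  set L := w.length with hL
  -- the number of stars at the end
  obtain ⟨b, hb1, hb⟩ : ∃ b, 1 ≤ b ∧ (M * (L + 1) + b) % 3 = 0 := by
    have := Nat.mod_lt (M * (L + 1)) (show 0 < 3 by norm_num)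
    refine ⟨3 - (M * (L + 1)) % 3, by omega, ?_⟩
    omega
  have h1 := rows_ext hr hs hrows b
  have h2 : Relation.ReflTransGen (Row adj star) (star :: ([star] ++ List.replicate b star))
      [star] := by
    have h3 := rows_shrink (star := star) hr hs 1 (b + 1) le_rfl [] [] star
      ⟨by simp, by simp, by simp⟩
    have e1 : [] ++ (List.replicate (1 + (b + 1)) star ++ []) =
        star :: ([star] ++ List.replicate b star) := by
      rw [show 1 + (b + 1) = b + 1 + 1 by omega, List.replicate_succ, List.replicate_succ]
      simp
    have e2 : [] ++ (List.replicate 1 star ++ []) = [star] := by simp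
    rwa [e1, e2] at h3
  obtain ⟨H, g0, g1, g2, g3⟩ := fill_rows (h1.trans h2)
  have hlen : (star :: (rep M (star :: w) ++ List.replicate b star)).length =
      M * (L + 1) + b + 1 := by
    simp [length_rep, hL]
  have hML : 1 ≤ M * (L + 1) := Nat.mul_pos hM (Nat.succ_pos L)
  have hlast : (star :: w).getD L star = star := by
    have h := ok_last hok
    have e : (star :: w).length - 1 = L := by simp [hL]
    rwa [e] at h
  rw [hlen] at g1 g2 g3
  refine ⟨M * (L + 1) + b, H, fun t => min ((t - 1) / M) L, ?_⟩
  refine ⟨hb, by omega, ?_, ?_, ?_, ?_, ?_, ?_, ?_, ?_⟩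
  · intro c b' h; exact g1 c b' (by omega)
  · intro c h; exact g2 c (by omega)
  · intro c h
    have := g3 c (by omega)
    simpa using this
  · simp
  · have h4 : L ≤ (M * (L + 1) + b - 1 - 1) / M := by
      rw [Nat.le_div_iff_mul_le (by omega)]
      have : M * (L + 1) = L * M + M := by ring
      omega
    simpa using h4
  · intro t _ _; exact min_le_right _ _
  · intro t ht _
    have h5 : (t + 1 - 1) / M = (t - 1) / M ∨ (t + 1 - 1) / M = (t - 1) / M + 1 := by
      have e : t + 1 - 1 = (t - 1) + 1 := by omega
      rw [e, Nat.succ_div]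
      split_ifs
      · right; rfl
      · left; rfl
    rcases h5 with h5 | h5
    · left; simp only [h5]
    · simp only [h5]
      omega
  · intro t ht _
    rw [g0]
    obtain ⟨t, rfl⟩ : ∃ t', t = t' + 1 := ⟨t - 1, by omega⟩
    have e1 : (star :: (rep M (star :: w) ++ List.replicate b star)).getD (t + 1) star =
        (rep M (star :: w)).getD t star := by
      rw [List.getD_cons_succ]
      by_cases hlt : t < (rep M (star :: w)).length
      · rw [List.getD_append _ _ _ _ hlt]
      · rw [List.getD_append_right _ _ _ _ (by omega),
          List.getD_eq_default (l := rep M (star :: w)) _ (by omega)]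
        by_cases h6 : t - (rep M (star :: w)).length < b
        · rw [List.getD_eq_getElem _ _ (by simpa using h6)]
          simp
        · rw [List.getD_eq_default _ _ (by simpa using h6)]
    rw [e1, getD_rep M hM]
    simp only [Nat.add_sub_cancel]
    by_cases h7 : t / M ≤ L
    · rw [min_eq_left h7]
    · rw [min_eq_right (by omega), hlast]
      apply List.getD_eq_default
      simp only [List.length_cons]
      omega

end Pool.Agent.OM
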