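import Pool.Agent.OM.Spec

/-!
# Module M4: a filling gives a good labelling
-/

namespace Pool.Agent.OM
namespace Can

open Lab

variable {V : Type} {m : ℕ}

/-- the first three coordinates -/
def U (x : Pt m) (i : Fin 3) : ℕ := x (axR m i)

/-- the other coordinates vanish -/
def Flat (x : Pt m) : Prop := ∀ l, x (axX m l) = 0

/-- sum of the first three coordinates -/
def tot (x : Pt m) : ℕ := U x 0 + U x 1 + U x 2

/-- the class of a point -/
def cl (x : Pt m) : Fin 3 := Fin.ofNat 3 (U x 0 + 2 * U x 1)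

theorem tot_eq (x : Pt m) (k : Fin 3) : tot x = U x k + U x (k + 1) + U x (k + 2) := by
  match k with
  | 0 => rfl
  | 1 => show U x 0 + U x 1 + U x 2 = U x 1 + U x 2 + U x 0; omega
  | 2 => show U x 0 + U x 1 + U x 2 = U x 2 + U x 0 + U x 1; omega

theorem tri : ∀ i k : Fin 3, i = k ∨ i = k + 1 ∨ i = k + 2 := by decide

theorem ne1 : ∀ i : Fin 3, i + 1 ≠ i := by decide

theorem ne2 : ∀ i : Fin 3, i + 2 ≠ i := by decide

theorem k11 : ∀ k : Fin 3, k + 1 + 1 = k + 2 := by decide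

theorem k12 : ∀ k : Fin 3, k + 1 + 2 = k := by decide

theorem k21 : ∀ k : Fin 3, k + 2 + 1 = k := by decide

theorem k22 : ∀ k : Fin 3, k + 2 + 2 = k + 1 := by decide

theorem axR_inj {i i' : Fin 3} (h : axR m i = axR m i') : i = i' := by
  have := congrArg Fin.val h
  exact Fin.ext (by simpa [axR] using this)

theorem axX_inj {l l' : Fin m} (h : axX m l = axX m l') : l = l' := by
  have := congrArg Fin.val h
  exact Fin.ext (by simpa [axX] using this)

theorem axR_ne {i : Fin 3} {l : Fin m} : axR m i ≠ axX m l := by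
  intro h
  have := congrArg Fin.val h
  simp [axX, axR] at this
  omega

/-- all coordinates -/
theorem coord_cases (P : Fin (3 + m) → Prop) (h1 : ∀ i, P (axR m i)) (h2 : ∀ l, P (axX m l))
    (a : Fin (3 + m)) : P a :=
  Fin.addCases (motive := P) h1 h2 a

/-- the flat point with given first three coordinates -/
def pt (u : Fin 3 → ℕ) : Pt m := fun a => Fin.addCases (motive := fun _ => ℕ) u (fun _ => 0) a

theorem U_pt (u : Fin 3 → ℕ) (i : Fin 3) : U (pt (m := m) u) i = u i := by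
  simp [U, pt, axR]

theorem flat_pt (u : Fin 3 → ℕ) : Flat (pt (m := m) u) := by
  intro l
  simp [pt, axX]

theorem le_iff {x y : Pt m} : x ≤ y ↔ (∀ i, U x i ≤ U y i) ∧ ∀ l, x (axX m l) ≤ y (axX m l) := by
  constructor
  · intro h
    exact ⟨fun i => h _, fun l => h _⟩
  · rintro ⟨h1, h2⟩ a
    exact coord_cases (fun a => x a ≤ y a) h1 h2 a

theorem ext_iff' {x y : Pt m} : x = y ↔ (∀ i, U x i = U y i) ∧ ∀ l, x (axX m l) = y (axX m l) := by
  constructor
  · rintro rfl
    exact ⟨fun i => rfl, fun l => rfl⟩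
  · rintro ⟨h1, h2⟩
    funext a
    exact coord_cases (fun a => x a = y a) h1 h2 a

theorem flat_of_le {x y : Pt m} (h : x ≤ y) (hy : Flat y) : Flat x := by
  intro l
  have h1 : x (axX m l) ≤ y (axX m l) := h (axX m l)
  rw [hy l] at h1
  exact Nat.le_zero.1 h1

theorem U_mono {x y : Pt m} (h : x ≤ y) (i : Fin 3) : U x i ≤ U y i := h _

theorem tot_mono {x y : Pt m} (h : x ≤ y) : tot x ≤ tot y := by
  have h0 := U_mono h 0
  have h1 := U_mono h 1
  have h2 := U_mono h 2
  unfold tot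
  omega

/-- point of the plane `k` -/
def pk (k : Fin 3) (a b : ℕ) : Fin 3 → ℕ := fun i => if i = k + 1 then a else if i = k + 2 then b
  else 0

theorem pk0 (k : Fin 3) (a b : ℕ) : pk k a b k = 0 := by
  have h1 : ∀ k : Fin 3, k ≠ k + 1 := by decide
  have h2 : ∀ k : Fin 3, k ≠ k + 2 := by decide
  simp [pk, h1 k, h2 k]

theorem pk1 (k : Fin 3) (a b : ℕ) : pk k a b (k + 1) = a := by
  simp [pk]

theorem pk2 (k : Fin 3) (a b : ℕ) : pk k a b (k + 2) = b := by
  have h1 : ∀ k : Fin 3, k + 2 ≠ k + 1 := by decide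
  simp [pk, h1 k]

theorem le_pt {x : Pt m} (hx : Flat x) {u : Fin 3 → ℕ} (k : Fin 3) (h0 : U x k ≤ u k)
    (h1 : U x (k + 1) ≤ u (k + 1)) (h2 : U x (k + 2) ≤ u (k + 2)) : x ≤ pt u := by
  rw [le_iff]
  refine ⟨fun i => ?_, fun l => ?_⟩
  · rw [U_pt]
    rcases tri i k with rfl | rfl | rfl
    · exact h0
    · exact h1
    · exact h2
  · rw [hx l]; exact Nat.zero_le _

variable (N : ℕ) (H : ℕ → ℕ → V) (j : ℕ → ℕ)

/-- path index of a side -/
def jj (k : Fin 3) (b : ℕ) : ℕ := if k = 0 then j b else 0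

/-- labels in the plane `k`, at distance at least `N` -/
def plane (k : Fin 3) (q : Fin 3) (a b : ℕ) : Lab V m :=
  if a + b = N then W k (jj j k b) q
  else if a < N then (if b < N then E k else P k true (Nat.bodd b))
  else if b < N then P k false (Nat.bodd a) else T

open Classical in
/-- the canonical labelling -/
noncomputable def lam (x : Pt m) : Lab V m :=
  if Flat x then
    (if tot x = 0 then O
     else if tot x + 1 < N then Rh
     else if tot x + 1 = N then Ph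
     else if U x 0 = 0 then
       (if U x 1 = 0 then R 2 else if U x 2 = 0 then R 1 else plane N j 0 (cl x) (U x 1) (U x 2))
     else if U x 1 = 0 then (if U x 2 = 0 then R 0 else plane N j 1 (cl x) (U x 2) (U x 0))
     else if U x 2 = 0 then plane N j 2 (cl x) (U x 0) (U x 1)
     else if tot x = N then I (H (U x 0) (U x 2)) (cl x) else T)
  else if h : ∃ l, x = Pi.single (axX m l) 1 then X (Classical.choose h) else T

theorem lam_plane {x : Pt m} (hx : Flat x) (k : Fin 3) (hk : U x k = 0) :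
    lam N H j x = if tot x = 0 then O
     else if tot x + 1 < N then Rh
     else if tot x + 1 = N then Ph
     else if U x (k + 1) = 0 then R (k + 2) else if U x (k + 2) = 0 then R (k + 1)
     else plane N j k (cl x) (U x (k + 1)) (U x (k + 2)) := by
  unfold lam
  rw [if_pos hx]
  match k, hk with
  | 0, hk =>
    rw [if_pos hk]
    rfl
  | 1, hk =>
    show _ = if tot x = 0 then O
     else if tot x + 1 < N then Rh
     else if tot x + 1 = N then Ph
     else if U x 2 = 0 then R 0 else if U x 0 = 0 then R 2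
     else plane N j 1 (cl x) (U x 2) (U x 0)
    have ht : tot x = U x 0 + U x 1 + U x 2 := rfl
    by_cases h3 : tot x = 0
    · rw [if_pos h3, if_pos h3]
    · rw [if_neg h3, if_neg h3]
      by_cases h0 : U x 0 = 0 <;> by_cases h2 : U x 2 = 0 <;> simp [h0, hk, h2]
      omega
  | 2, hk =>
    show _ = if tot x = 0 then O
     else if tot x + 1 < N then Rh
     else if tot x + 1 = N then Ph
     else if U x 0 = 0 then R 1 else if U x 1 = 0 then R 0
     else plane N j 2 (cl x) (U x 0) (U x 1)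
    have ht : tot x = U x 0 + U x 1 + U x 2 := rfl
    by_cases h3 : tot x = 0
    · rw [if_pos h3, if_pos h3]
    · rw [if_neg h3, if_neg h3]
      by_cases h0 : U x 0 = 0 <;> by_cases h1 : U x 1 = 0 <;> simp [h0, hk, h1]
      omega

/-- classification of the points with their labels -/
inductive Cls (x : Pt m) (c : Lab V m) : Prop
  | T1 : ¬ Flat x → (∀ l, x ≠ Pi.single (axX m l) 1) → c = T → Cls x c
  | X1 (l : Fin m) : x = Pi.single (axX m l) 1 → c = X l → Cls x c
  | O1 : Flat x → tot x = 0 → c = O → Cls x c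
  | Rh1 : Flat x → 0 < tot x → tot x + 1 < N → c = Rh → Cls x c
  | Ph1 : Flat x → tot x + 1 = N → c = Ph → Cls x c
  | R1 (i : Fin 3) : Flat x → N ≤ U x i → U x (i + 1) = 0 → U x (i + 2) = 0 → c = R i → Cls x c
  | W1 (k : Fin 3) : Flat x → U x k = 0 → 1 ≤ U x (k + 1) → 1 ≤ U x (k + 2) →
      U x (k + 1) + U x (k + 2) = N → c = W k (jj j k (U x (k + 2))) (cl x) → Cls x c
  | E1 (k : Fin 3) : Flat x → U x k = 0 → 1 ≤ U x (k + 1) → 1 ≤ U x (k + 2) →
      U x (k + 1) < N → U x (k + 2) < N → N < U x (k + 1) + U x (k + 2) → c = E k → Cls x c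
  | Pt (k : Fin 3) : Flat x → U x k = 0 → 1 ≤ U x (k + 1) → U x (k + 1) < N →
      N ≤ U x (k + 2) → c = P k true (Nat.bodd (U x (k + 2))) → Cls x c
  | Pf (k : Fin 3) : Flat x → U x k = 0 → 1 ≤ U x (k + 2) → U x (k + 2) < N →
      N ≤ U x (k + 1) → c = P k false (Nat.bodd (U x (k + 1))) → Cls x c
  | T3 (k : Fin 3) : Flat x → U x k = 0 → N ≤ U x (k + 1) → N ≤ U x (k + 2) → c = T → Cls x c
  | I1 : Flat x → (∀ i, 1 ≤ U x i) → tot x = N → c = I (H (U x 0) (U x 2)) (cl x) → Cls x c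
  | T2 : Flat x → (∀ i, 1 ≤ U x i) → N < tot x → c = T → Cls x c

theorem classify (hN : 3 ≤ N) (x : Pt m) : Cls N H j x (lam N H j x) := by
  by_cases hx : Flat x
  · by_cases h0 : tot x = 0
    · refine .O1 hx h0 ?_
      unfold lam; rw [if_pos hx, if_pos h0]
    by_cases h1 : tot x + 1 < N
    · refine .Rh1 hx (by omega) h1 ?_
      unfold lam; rw [if_pos hx, if_neg h0, if_pos h1]
    by_cases h2 : tot x + 1 = N
    · refine .Ph1 hx h2 ?_
      unfold lam; rw [if_pos hx, if_neg h0, if_neg h1, if_pos h2]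
    by_cases hk : ∃ k, U x k = 0
    · obtain ⟨k, hk⟩ := hk
      have e := lam_plane N H j hx k hk
      rw [if_neg h0, if_neg h1, if_neg h2] at e
      have ht := tot_eq x k
      by_cases ha : U x (k + 1) = 0
      · rw [if_pos ha] at e
        refine .R1 (k + 2) hx (by omega) ?_ ?_ e
        · rw [k21]; exact hk
        · rw [k22]; exact ha
      rw [if_neg ha] at e
      by_cases hb : U x (k + 2) = 0
      · rw [if_pos hb] at e
        refine .R1 (k + 1) hx (by omega) ?_ ?_ e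
        · rw [k11]; exact hb
        · rw [k12]; exact hk
      rw [if_neg hb] at e
      unfold plane at e
      by_cases hc : U x (k + 1) + U x (k + 2) = N
      · rw [if_pos hc] at e
        exact .W1 k hx hk (by omega) (by omega) hc e
      rw [if_neg hc] at e
      by_cases hd : U x (k + 1) < N
      · rw [if_pos hd] at e
        by_cases hf : U x (k + 2) < N
        · rw [if_pos hf] at e
          exact .E1 k hx hk (by omega) (by omega) hd hf (by omega) e
        · rw [if_neg hf] at e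
          exact .Pt k hx hk (by omega) hd (by omega) e
      · rw [if_neg hd] at e
        by_cases hf : U x (k + 2) < N
        · rw [if_pos hf] at e
          exact .Pf k hx hk (by omega) hf (by omega) e
        · rw [if_neg hf] at e
          exact .T3 k hx hk (by omega) (by omega) e
    · have hk' : ∀ i, 1 ≤ U x i := by
        intro i
        by_contra h
        exact hk ⟨i, by omega⟩
      have g0 : U x 0 ≠ 0 := by have := hk' 0; omega
      have g1 : U x 1 ≠ 0 := by have := hk' 1; omega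
      have g2 : U x 2 ≠ 0 := by have := hk' 2; omega
      by_cases hc : tot x = N
      · refine .I1 hx hk' hc ?_
        unfold lam
        rw [if_pos hx, if_neg h0, if_neg h1, if_neg h2, if_neg g0, if_neg g1, if_neg g2, if_pos hc]
      · refine .T2 hx hk' (by omega) ?_
        unfold lam
        rw [if_pos hx, if_neg h0, if_neg h1, if_neg h2, if_neg g0, if_neg g1, if_neg g2, if_neg hc]
  · by_cases h : ∃ l, x = Pi.single (axX m l) 1
    · refine .X1 (Classical.choose h) (Classical.choose_spec h) ?_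
      unfold lam
      rw [if_neg hx, dif_pos h]
    · refine .T1 hx (fun l hl => h ⟨l, hl⟩) ?_
      unfold lam
      rw [if_neg hx, dif_neg h]

/-! ### computation of labels -/

theorem lam_O {x : Pt m} (hx : Flat x) (h0 : tot x = 0) : lam N H j x = O := by
  unfold lam; rw [if_pos hx, if_pos h0]

theorem lam_Rh {x : Pt m} (hx : Flat x) (h0 : 0 < tot x) (h1 : tot x + 1 < N) :
    lam N H j x = Rh := by
  unfold lam; rw [if_pos hx, if_neg (by omega), if_pos h1]

theorem lam_Ph {x : Pt m} (hN : 3 ≤ N) (hx : Flat x) (h1 : tot x + 1 = N) :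
    lam N H j x = Ph := by
  unfold lam; rw [if_pos hx, if_neg (by omega), if_neg (by omega), if_pos h1]

theorem lam_R {x : Pt m} (hN : 3 ≤ N) (hx : Flat x) {i : Fin 3} (h0 : N ≤ U x i)
    (h1 : U x (i + 1) = 0) (h2 : U x (i + 2) = 0) : lam N H j x = R i := by
  have ht := tot_eq x i
  have e := lam_plane N H j hx (i + 1) h1
  rw [if_neg (by omega), if_neg (by omega), if_neg (by omega), k11, if_pos h2, k12] at e
  exact e

theorem lam_pl {x : Pt m} (hN : 3 ≤ N) (hx : Flat x) {k : Fin 3} (h0 : U x k = 0)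
    (h1 : 1 ≤ U x (k + 1)) (h2 : 1 ≤ U x (k + 2)) (h3 : N ≤ U x (k + 1) + U x (k + 2)) :
    lam N H j x = plane N j k (cl x) (U x (k + 1)) (U x (k + 2)) := by
  have ht := tot_eq x k
  have e := lam_plane N H j hx k h0
  rw [if_neg (by omega), if_neg (by omega), if_neg (by omega), if_neg (by omega),
    if_neg (by omega)] at e
  exact e

theorem lam_W {x : Pt m} (hN : 3 ≤ N) (hx : Flat x) {k : Fin 3} (h0 : U x k = 0)
    (h1 : 1 ≤ U x (k + 1)) (h2 : 1 ≤ U x (k + 2)) (h3 : U x (k + 1) + U x (k + 2) = N) :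
    lam N H j x = W k (jj j k (U x (k + 2))) (cl x) := by
  rw [lam_pl N H j hN hx h0 h1 h2 (by omega)]
  unfold plane
  rw [if_pos h3]

theorem lam_E {x : Pt m} (hN : 3 ≤ N) (hx : Flat x) {k : Fin 3} (h0 : U x k = 0)
    (h1 : 1 ≤ U x (k + 1)) (h2 : 1 ≤ U x (k + 2)) (h3 : U x (k + 1) < N) (h4 : U x (k + 2) < N)
    (h5 : N < U x (k + 1) + U x (k + 2)) :
    lam N H j x = E k := by
  rw [lam_pl N H j hN hx h0 h1 h2 (by omega)]
  unfold plane
  rw [if_neg (by omega), if_pos h3, if_pos h4]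

theorem lam_Pt {x : Pt m} (hN : 3 ≤ N) (hx : Flat x) {k : Fin 3} (h0 : U x k = 0)
    (h1 : 1 ≤ U x (k + 1)) (h3 : U x (k + 1) < N) (h4 : N ≤ U x (k + 2)) :
    lam N H j x = P k true (Nat.bodd (U x (k + 2))) := by
  rw [lam_pl N H j hN hx h0 h1 (by omega) (by omega)]
  unfold plane
  rw [if_neg (by omega), if_pos h3, if_neg (by omega)]

theorem lam_Pf {x : Pt m} (hN : 3 ≤ N) (hx : Flat x) {k : Fin 3} (h0 : U x k = 0)
    (h1 : 1 ≤ U x (k + 2)) (h3 : U x (k + 2) < N) (h4 : N ≤ U x (k + 1)) :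
    lam N H j x = P k false (Nat.bodd (U x (k + 1))) := by
  rw [lam_pl N H j hN hx h0 (by omega) h1 (by omega)]
  unfold plane
  rw [if_neg (by omega), if_neg (by omega), if_pos h3]

theorem lam_I {x : Pt m} (hN : 3 ≤ N) (hx : Flat x) (h0 : ∀ i, 1 ≤ U x i) (h1 : tot x = N) :
    lam N H j x = I (H (U x 0) (U x 2)) (cl x) := by
  have g0 : U x 0 ≠ 0 := by have := h0 0; omega
  have g1 : U x 1 ≠ 0 := by have := h0 1; omega
  have g2 : U x 2 ≠ 0 := by have := h0 2; omega
  unfold lam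
  rw [if_pos hx, if_neg (by omega), if_neg (by omega), if_neg (by omega), if_neg g0, if_neg g1,
    if_neg g2, if_pos h1]

theorem not_flat_single (l : Fin m) : ¬ Flat (Pi.single (axX m l) 1 : Pt m) := by
  intro h
  have := h l
  simp at this

theorem lam_X (l : Fin m) : lam N H j (Pi.single (axX m l) 1) = (X l : Lab V m) := by
  have h : ∃ l', (Pi.single (axX m l) 1 : Pt m) = Pi.single (axX m l') 1 := ⟨l, rfl⟩
  have h2 : Classical.choose h = l := by
    have h3 := Classical.choose_spec h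
    have h4 : (Pi.single (axX m l) 1 : Pt m) (axX m l) =
        (Pi.single (axX m (Classical.choose h)) 1 : Pt m) (axX m l) := congrFun h3 _
    rw [Pi.single_eq_same, Pi.single_apply] at h4
    split_ifs at h4 with h5
    exact (axX_inj h5).symm
  unfold lam
  rw [if_neg (not_flat_single l), dif_pos h, h2]

/-! ### who sees what -/

/-- a number at least `M` with given parity -/
theorem exists_bodd (M : ℕ) (b : Bool) : ∃ t, M ≤ t ∧ Nat.bodd t = b := by
  by_cases h : Nat.bodd M = b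
  · exact ⟨M, le_rfl, h⟩
  · refine ⟨M + 1, by omega, ?_⟩
    rw [Nat.bodd_succ]
    cases hb : b <;> cases hM : Nat.bodd M <;> simp_all

theorem inv_Pt (hN : 3 ≤ N) {y : Pt m} {k : Fin 3} {b : Bool} (hy : lam N H j y = P k true b) :
    Flat y ∧ U y k = 0 ∧ 1 ≤ U y (k + 1) ∧ U y (k + 1) < N ∧ N ≤ U y (k + 2) := by
  rcases classify N H j hN y with ⟨_, _, e⟩ | ⟨_, _, e⟩ | ⟨_, _, e⟩ | ⟨_, _, _, e⟩ |
    ⟨_, _, e⟩ | ⟨_, _, _, _, _, e⟩ | ⟨_, _, _, _, _, _, e⟩ | ⟨_, _, _, _, _, _, _, _, e⟩ |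
    ⟨_, _, _, _, _, _, e⟩ | ⟨_, _, _, _, _, _, e⟩ | ⟨_, _, _, _, _, e⟩ | ⟨_, _, _, e⟩ |
    ⟨_, _, _, e⟩ <;> rw [hy] at e <;> cases e
  exact ⟨by assumption, by assumption, by assumption, by assumption, by assumption⟩

theorem inv_Pf (hN : 3 ≤ N) {y : Pt m} {k : Fin 3} {b : Bool} (hy : lam N H j y = P k false b) :
    Flat y ∧ U y k = 0 ∧ 1 ≤ U y (k + 2) ∧ U y (k + 2) < N ∧ N ≤ U y (k + 1) := by
  rcases classify N H j hN y with ⟨_, _, e⟩ | ⟨_, _, e⟩ | ⟨_, _, e⟩ | ⟨_, _, _, e⟩ |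
    ⟨_, _, e⟩ | ⟨_, _, _, _, _, e⟩ | ⟨_, _, _, _, _, _, e⟩ | ⟨_, _, _, _, _, _, _, _, e⟩ |
    ⟨_, _, _, _, _, _, e⟩ | ⟨_, _, _, _, _, _, e⟩ | ⟨_, _, _, _, _, e⟩ | ⟨_, _, _, e⟩ |
    ⟨_, _, _, e⟩ <;> rw [hy] at e <;> cases e
  exact ⟨by assumption, by assumption, by assumption, by assumption, by assumption⟩

theorem inv_E (hN : 3 ≤ N) {y : Pt m} {k : Fin 3} (hy : lam N H j y = E k) :
    Flat y ∧ U y k = 0 ∧ 1 ≤ U y (k + 1) ∧ 1 ≤ U y (k + 2) ∧ U y (k + 1) < N ∧ U y (k + 2) < N ∧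
      N < U y (k + 1) + U y (k + 2) := by
  rcases classify N H j hN y with ⟨_, _, e⟩ | ⟨_, _, e⟩ | ⟨_, _, e⟩ | ⟨_, _, _, e⟩ |
    ⟨_, _, e⟩ | ⟨_, _, _, _, _, e⟩ | ⟨_, _, _, _, _, _, e⟩ | ⟨_, _, _, _, _, _, _, _, e⟩ |
    ⟨_, _, _, _, _, _, e⟩ | ⟨_, _, _, _, _, _, e⟩ | ⟨_, _, _, _, _, e⟩ | ⟨_, _, _, e⟩ |
    ⟨_, _, _, e⟩ <;> rw [hy] at e <;> cases e
  exact ⟨by assumption, by assumption, by assumption, by assumption, by assumption, by assumption,
    by assumption⟩

theorem inv_W (hN : 3 ≤ N) {y : Pt m} {k : Fin 3} {i : ℕ} {q : Fin 3} (hy : lam N H j y = W k i q) :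
    Flat y ∧ U y k = 0 ∧ 1 ≤ U y (k + 1) ∧ 1 ≤ U y (k + 2) ∧ U y (k + 1) + U y (k + 2) = N ∧
      i = jj j k (U y (k + 2)) ∧ q = cl y := by
  rcases classify N H j hN y with ⟨_, _, e⟩ | ⟨_, _, e⟩ | ⟨_, _, e⟩ | ⟨_, _, _, e⟩ |
    ⟨_, _, e⟩ | ⟨_, _, _, _, _, e⟩ | ⟨_, _, _, _, _, _, e⟩ | ⟨_, _, _, _, _, _, _, _, e⟩ |
    ⟨_, _, _, _, _, _, e⟩ | ⟨_, _, _, _, _, _, e⟩ | ⟨_, _, _, _, _, e⟩ | ⟨_, _, _, e⟩ |
    ⟨_, _, _, e⟩ <;> rw [hy] at e <;> cases e
  exact ⟨by assumption, by assumption, by assumption, by assumption, by assumption, rfl, rfl⟩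

theorem inv_I (hN : 3 ≤ N) {y : Pt m} {v : V} {q : Fin 3} (hy : lam N H j y = I v q) :
    Flat y ∧ (∀ i, 1 ≤ U y i) ∧ tot y = N ∧ v = H (U y 0) (U y 2) ∧ q = cl y := by
  rcases classify N H j hN y with ⟨_, _, e⟩ | ⟨_, _, e⟩ | ⟨_, _, e⟩ | ⟨_, _, _, e⟩ |
    ⟨_, _, e⟩ | ⟨_, _, _, _, _, e⟩ | ⟨_, _, _, _, _, _, e⟩ | ⟨_, _, _, _, _, _, _, _, e⟩ |
    ⟨_, _, _, _, _, _, e⟩ | ⟨_, _, _, _, _, _, e⟩ | ⟨_, _, _, _, _, e⟩ | ⟨_, _, _, e⟩ |
    ⟨_, _, _, e⟩ <;> rw [hy] at e <;> cases e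
  exact ⟨by assumption, by assumption, by assumption, rfl, rfl⟩

theorem inv_R (hN : 3 ≤ N) {y : Pt m} {i : Fin 3} (hy : lam N H j y = R i) :
    Flat y ∧ N ≤ U y i ∧ U y (i + 1) = 0 ∧ U y (i + 2) = 0 := by
  rcases classify N H j hN y with ⟨_, _, e⟩ | ⟨_, _, e⟩ | ⟨_, _, e⟩ | ⟨_, _, _, e⟩ |
    ⟨_, _, e⟩ | ⟨_, _, _, _, _, e⟩ | ⟨_, _, _, _, _, _, e⟩ | ⟨_, _, _, _, _, _, _, _, e⟩ |
    ⟨_, _, _, _, _, _, e⟩ | ⟨_, _, _, _, _, _, e⟩ | ⟨_, _, _, _, _, e⟩ | ⟨_, _, _, e⟩ |
    ⟨_, _, _, e⟩ <;> rw [hy] at e <;> cases e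
  exact ⟨by assumption, by assumption, by assumption, by assumption⟩

theorem inv_X (hN : 3 ≤ N) {y : Pt m} {l : Fin m} (hy : lam N H j y = X l) :
    y = Pi.single (axX m l) 1 := by
  rcases classify N H j hN y with ⟨_, _, e⟩ | ⟨_, _, e⟩ | ⟨_, _, e⟩ | ⟨_, _, _, e⟩ |
    ⟨_, _, e⟩ | ⟨_, _, _, _, _, e⟩ | ⟨_, _, _, _, _, _, e⟩ | ⟨_, _, _, _, _, _, _, _, e⟩ |
    ⟨_, _, _, _, _, _, e⟩ | ⟨_, _, _, _, _, _, e⟩ | ⟨_, _, _, _, _, e⟩ | ⟨_, _, _, e⟩ |
    ⟨_, _, _, e⟩ <;> rw [hy] at e <;> cases e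
  assumption

theorem inv_Ph (hN : 3 ≤ N) {y : Pt m}  (hy : lam N H j y = Ph) :
    Flat y ∧ tot y + 1 = N := by
  rcases classify N H j hN y with ⟨_, _, e⟩ | ⟨_, _, e⟩ | ⟨_, _, e⟩ | ⟨_, _, _, e⟩ |
    ⟨_, _, e⟩ | ⟨_, _, _, _, _, e⟩ | ⟨_, _, _, _, _, _, e⟩ | ⟨_, _, _, _, _, _, _, _, e⟩ |
    ⟨_, _, _, _, _, _, e⟩ | ⟨_, _, _, _, _, _, e⟩ | ⟨_, _, _, _, _, e⟩ | ⟨_, _, _, e⟩ |
    ⟨_, _, _, e⟩ <;> rw [hy] at e <;> cases e
  exact ⟨by assumption, by assumption⟩

theorem inv_Rh (hN : 3 ≤ N) {y : Pt m}  (hy : lam N H j y = Rh) :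
    Flat y ∧ 0 < tot y ∧ tot y + 1 < N := by
  rcases classify N H j hN y with ⟨_, _, e⟩ | ⟨_, _, e⟩ | ⟨_, _, e⟩ | ⟨_, _, _, e⟩ |
    ⟨_, _, e⟩ | ⟨_, _, _, _, _, e⟩ | ⟨_, _, _, _, _, _, e⟩ | ⟨_, _, _, _, _, _, _, _, e⟩ |
    ⟨_, _, _, _, _, _, e⟩ | ⟨_, _, _, _, _, _, e⟩ | ⟨_, _, _, _, _, e⟩ | ⟨_, _, _, e⟩ |
    ⟨_, _, _, e⟩ <;> rw [hy] at e <;> cases e
  exact ⟨by assumption, by assumption, by assumption⟩

theorem inv_O (hN : 3 ≤ N) {y : Pt m}  (hy : lam N H j y = O) :
    Flat y ∧ tot y = 0 := by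
  rcases classify N H j hN y with ⟨_, _, e⟩ | ⟨_, _, e⟩ | ⟨_, _, e⟩ | ⟨_, _, _, e⟩ |
    ⟨_, _, e⟩ | ⟨_, _, _, _, _, e⟩ | ⟨_, _, _, _, _, _, e⟩ | ⟨_, _, _, _, _, _, _, _, e⟩ |
    ⟨_, _, _, _, _, _, e⟩ | ⟨_, _, _, _, _, _, e⟩ | ⟨_, _, _, _, _, e⟩ | ⟨_, _, _, e⟩ |
    ⟨_, _, _, e⟩ <;> rw [hy] at e <;> cases e
  exact ⟨by assumption, by assumption⟩

theorem sees_Pt (hN : 3 ≤ N) {x : Pt m} {k : Fin 3} {b : Bool} :
    Sees (lam N H j) x (P k true b) ↔ Flat x ∧ U x k = 0 ∧ U x (k + 1) < N := by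
  constructor
  · rintro ⟨y, hxy, hy⟩
    obtain ⟨h1, h2, h3, h4, h5⟩ := inv_Pt N H j hN hy
    have g1 := U_mono hxy k
    have g2 := U_mono hxy (k + 1)
    exact ⟨flat_of_le hxy h1, by omega, by omega⟩
  · rintro ⟨hx, h0, h1⟩
    obtain ⟨t, ht, hb⟩ := exists_bodd (N + U x (k + 2)) b
    refine ⟨pt (pk k (max 1 (U x (k + 1))) t), le_pt hx k ?_ ?_ ?_, ?_⟩
    · rw [h0]; exact Nat.zero_le _
    · rw [pk1]; exact le_max_right _ _
    · rw [pk2]; omega
    · have e := lam_Pt (x := pt (m := m) (pk k (max 1 (U x (k + 1))) t)) (k := k) N H j hN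
        (flat_pt _) (by rw [U_pt, pk0]) (by rw [U_pt, pk1]; exact le_max_left _ _)
        (by rw [U_pt, pk1]; omega) (by rw [U_pt, pk2]; omega)
      rw [U_pt, pk2, hb] at e
      exact e

theorem sees_Pf (hN : 3 ≤ N) {x : Pt m} {k : Fin 3} {b : Bool} :
    Sees (lam N H j) x (P k false b) ↔ Flat x ∧ U x k = 0 ∧ U x (k + 2) < N := by
  constructor
  · rintro ⟨y, hxy, hy⟩
    obtain ⟨h1, h2, h3, h4, h5⟩ := inv_Pf N H j hN hy
    have g1 := U_mono hxy k
    have g2 := U_mono hxy (k + 2)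
    exact ⟨flat_of_le hxy h1, by omega, by omega⟩
  · rintro ⟨hx, h0, h1⟩
    obtain ⟨t, ht, hb⟩ := exists_bodd (N + U x (k + 1)) b
    refine ⟨pt (pk k t (max 1 (U x (k + 2)))), le_pt hx k ?_ ?_ ?_, ?_⟩
    · rw [h0]; exact Nat.zero_le _
    · rw [pk1]; omega
    · rw [pk2]; exact le_max_right _ _
    · have e := lam_Pf (x := pt (m := m) (pk k t (max 1 (U x (k + 2))))) (k := k) N H j hN
        (flat_pt _) (by rw [U_pt, pk0]) (by rw [U_pt, pk2]; exact le_max_left _ _)
        (by rw [U_pt, pk2]; omega) (by rw [U_pt, pk1]; omega)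
      rw [U_pt, pk1, hb] at e
      exact e

theorem sees_E (hN : 3 ≤ N) {x : Pt m} {k : Fin 3} :
    Sees (lam N H j) x (E k) ↔ Flat x ∧ U x k = 0 ∧ U x (k + 1) < N ∧ U x (k + 2) < N := by
  constructor
  · rintro ⟨y, hxy, hy⟩
    obtain ⟨h1, h2, h3, h4, h5, h6, h7⟩ := inv_E N H j hN hy
    have g0 := U_mono hxy k
    have g1 := U_mono hxy (k + 1)
    have g2 := U_mono hxy (k + 2)
    exact ⟨flat_of_le hxy h1, by omega, by omega, by omega⟩
  · rintro ⟨hx, h0, h1, h2⟩
    refine ⟨pt (pk k (N - 1) (N - 1)), le_pt hx k ?_ ?_ ?_, ?_⟩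
    · rw [h0]; exact Nat.zero_le _
    · rw [pk1]; omega
    · rw [pk2]; omega
    · exact lam_E (x := pt (m := m) (pk k (N - 1) (N - 1))) (k := k) N H j hN
        (flat_pt _) (by rw [U_pt, pk0]) (by rw [U_pt, pk1]; omega) (by rw [U_pt, pk2]; omega)
        (by rw [U_pt, pk1]; omega) (by rw [U_pt, pk2]; omega)
        (by rw [U_pt, U_pt, pk1, pk2]; omega)

theorem sees_R (hN : 3 ≤ N) {x : Pt m} {i : Fin 3} :
    Sees (lam N H j) x (R i) ↔ Flat x ∧ U x (i + 1) = 0 ∧ U x (i + 2) = 0 := by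
  constructor
  · rintro ⟨y, hxy, hy⟩
    obtain ⟨h1, h2, h3, h4⟩ := inv_R N H j hN hy
    have g1 := U_mono hxy (i + 1)
    have g2 := U_mono hxy (i + 2)
    exact ⟨flat_of_le hxy h1, by omega, by omega⟩
  · rintro ⟨hx, h1, h2⟩
    have e0 : pk (i + 1) 0 (N + U x i) i = N + U x i := by
      have := pk2 (i + 1) 0 (N + U x i)
      rwa [k12] at this
    have e2 : pk (i + 1) 0 (N + U x i) (i + 2) = 0 := by
      have := pk1 (i + 1) 0 (N + U x i)
      rwa [k11] at this
    refine ⟨pt (pk (i + 1) 0 (N + U x i)), le_pt hx i ?_ ?_ ?_, ?_⟩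
    · rw [e0]; omega
    · rw [pk0]; omega
    · rw [e2]; omega
    · exact lam_R (x := pt (m := m) (pk (i + 1) 0 (N + U x i))) (i := i) N H j hN
        (flat_pt _) (by rw [U_pt, e0]; omega) (by rw [U_pt, pk0]) (by rw [U_pt, e2])

theorem sees_X (hN : 3 ≤ N) {x : Pt m} {l : Fin m} :
    Sees (lam N H j) x (X l) ↔ x ≤ Pi.single (axX m l) 1 := by
  constructor
  · rintro ⟨y, hxy, hy⟩
    rw [← inv_X N H j hN hy]; exact hxy
  · intro h
    exact ⟨_, h, lam_X N H j l⟩

/-- raise one coordinate -/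
def up (x : Pt m) (i : Fin 3) (t : ℕ) : Pt m := x + Pi.single (axR m i) t

theorem le_up (x : Pt m) (i : Fin 3) (t : ℕ) : x ≤ up x i t := by
  intro a
  show x a ≤ x a + _
  exact Nat.le_add_right _ _

theorem U_up_same (x : Pt m) (i : Fin 3) (t : ℕ) : U (up x i t) i = U x i + t := by
  show x _ + _ = _
  rw [Pi.single_eq_same]
  rfl

theorem U_up_ne (x : Pt m) {i i' : Fin 3} (h : i' ≠ i) (t : ℕ) : U (up x i t) i' = U x i' := by
  show x _ + _ = _
  rw [Pi.single_eq_of_ne (fun h' => h (axR_inj h'))]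
  rfl

theorem flat_up {x : Pt m} (hx : Flat x) (i : Fin 3) (t : ℕ) : Flat (up x i t) := by
  intro l
  show x _ + _ = _
  rw [Pi.single_eq_of_ne (fun h' => axR_ne h'.symm), hx l]
  rfl

theorem tot_up (x : Pt m) (i : Fin 3) (t : ℕ) : tot (up x i t) = tot x + t := by
  rw [tot_eq (up x i t) i, tot_eq x i, U_up_same, U_up_ne x (by revert i; decide),
    U_up_ne x (by revert i; decide)]
  omega

theorem sees_Ph (hN : 3 ≤ N) {x : Pt m} :
    Sees (lam N H j) x Ph ↔ Flat x ∧ tot x < N := by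
  constructor
  · rintro ⟨y, hxy, hy⟩
    obtain ⟨h1, h2⟩ := inv_Ph N H j hN hy
    have g := tot_mono hxy
    exact ⟨flat_of_le hxy h1, by omega⟩
  · rintro ⟨hx, h1⟩
    refine ⟨up x 0 (N - 1 - tot x), le_up _ _ _, ?_⟩
    exact lam_Ph N H j hN (flat_up hx _ _) (by rw [tot_up]; omega)

theorem lam_low (hN : 3 ≤ N) {x : Pt m} (hx : Flat x) (h : tot x < N) :
    lam N H j x = O ∨ lam N H j x = Rh ∨ lam N H j x = Ph := by
  by_cases h0 : tot x = 0
  · exact Or.inl (lam_O N H j hx h0)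
  by_cases h1 : tot x + 1 < N
  · exact Or.inr (Or.inl (lam_Rh N H j hx (by omega) h1))
  · exact Or.inr (Or.inr (lam_Ph N H j hN hx (by omega)))

theorem may_T (l : Lab V m) : May l T := by
  cases l <;> simp [May]

theorem may_low (hN : 3 ≤ N) {x : Pt m} (hx : Flat x) (h : tot x < N) {c : Lab V m}
    (h1 : c ≠ Rh) (h2 : c ≠ O) : May (lam N H j x) c := by
  rcases lam_low N H j hN hx h with e | e | e <;> rw [e]
  · trivial
  · trivial
  · exact ⟨h1, h2⟩

theorem le_single {x : Pt m} {l : Fin m} (h : x ≤ Pi.single (axX m l) 1) :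
    x = Pi.single (axX m l) 1 ∨ (Flat x ∧ tot x = 0) := by
  have hU : ∀ i, U x i = 0 := by
    intro i
    have h1 : x (axR m i) ≤ (Pi.single (axX m l) 1 : Pt m) (axR m i) := h _
    rw [Pi.single_eq_of_ne axR_ne] at h1
    exact Nat.le_zero.1 h1
  have hl : x (axX m l) ≤ 1 := by
    have h1 : x (axX m l) ≤ (Pi.single (axX m l) 1 : Pt m) (axX m l) := h _
    rwa [Pi.single_eq_same] at h1
  have hne : ∀ l', l' ≠ l → x (axX m l') = 0 := by
    intro l' hl'
    have h1 : x (axX m l') ≤ (Pi.single (axX m l) 1 : Pt m) (axX m l') := h _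
    rw [Pi.single_eq_of_ne (fun h' => hl' (axX_inj h'))] at h1
    exact Nat.le_zero.1 h1
  by_cases h0 : x (axX m l) = 0
  · right
    refine ⟨fun l' => ?_, ?_⟩
    · by_cases hl' : l' = l
      · rw [hl']; exact h0
      · exact hne l' hl'
    · unfold tot
      rw [hU, hU, hU]
  · left
    rw [ext_iff']
    refine ⟨fun i => ?_, fun l' => ?_⟩
    · rw [hU i]
      show 0 = (Pi.single (axX m l) 1 : Pt m) (axR m i)
      rw [Pi.single_eq_of_ne axR_ne]
    · by_cases hl' : l' = l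
      · rw [hl', Pi.single_eq_same]; omega
      · rw [hne l' hl', Pi.single_eq_of_ne (fun h' => hl' (axX_inj h'))]

theorem eq_of_tot {x y : Pt m} (h : x ≤ y) (hy : Flat y) (ht : tot y ≤ tot x) : x = y := by
  have h0 := U_mono h 0
  have h1 := U_mono h 1
  have h2 := U_mono h 2
  have hx := flat_of_le h hy
  unfold tot at ht
  rw [ext_iff']
  refine ⟨fun i => ?_, fun l => ?_⟩
  · match i with
    | 0 => omega
    | 1 => omega
    | 2 => omega
  · rw [hx l, hy l]

theorem may (hN : 3 ≤ N) (x : Pt m) (c : Lab V m) (h : Sees (lam N H j) x c) :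
    May (lam N H j x) c := by
  match c, h with
  | T, _ => exact may_T _
  | P k true b, h =>
    obtain ⟨hx, h0, h1⟩ := (sees_Pt N H j hN).1 h
    have ht := tot_eq x k
    rw [lam_plane N H j hx k h0]
    unfold plane
    split_ifs <;> first | (exfalso; omega) | simp [May, k21]
  | P k false b, h =>
    obtain ⟨hx, h0, h1⟩ := (sees_Pf N H j hN).1 h
    have ht := tot_eq x k
    rw [lam_plane N H j hx k h0]
    unfold plane
    split_ifs <;> first | (exfalso; omega) | simp [May, k12]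
  | E k, h =>
    obtain ⟨hx, h0, h1, h2⟩ := (sees_E N H j hN).1 h
    have ht := tot_eq x k
    rw [lam_plane N H j hx k h0]
    unfold plane
    split_ifs <;> first | (exfalso; omega) | simp [May]
  | R i, h =>
    obtain ⟨hx, h0, h1⟩ := (sees_R N H j hN).1 h
    rw [lam_plane N H j hx (i + 1) h0, k11, k12, if_pos h1]
    split_ifs <;> simp [May]
  | X l, h =>
    rcases le_single ((sees_X N H j hN).1 h) with e | ⟨e1, e2⟩
    · rw [e, lam_X]; exact Or.inr rfl
    · rw [lam_O N H j e1 e2]; trivial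
  | W k i q, h =>
    obtain ⟨y, hxy, hy⟩ := h
    obtain ⟨h1, h2, h3, h4, h5, h6, h7⟩ := inv_W N H j hN hy
    have ht := tot_eq y k
    by_cases hlt : tot x < N
    · exact may_low N H j hN (flat_of_le hxy h1) hlt (by simp) (by simp)
    · rw [eq_of_tot hxy h1 (by omega), hy]
      exact Or.inr (Or.inl rfl)
  | I v q, h =>
    obtain ⟨y, hxy, hy⟩ := h
    obtain ⟨h1, h2, h3, h4, h5⟩ := inv_I N H j hN hy
    by_cases hlt : tot x < N
    · exact may_low N H j hN (flat_of_le hxy h1) hlt (by simp) (by simp)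
    · rw [eq_of_tot hxy h1 (by omega), hy]
      exact Or.inr rfl
  | Ph, h =>
    obtain ⟨hx, h1⟩ := (sees_Ph N H j hN).1 h
    exact may_low N H j hN hx h1 (by simp) (by simp)
  | Rh, h =>
    obtain ⟨y, hxy, hy⟩ := h
    obtain ⟨h1, h2, h3⟩ := inv_Rh N H j hN hy
    have g := tot_mono hxy
    by_cases h0 : tot x = 0
    · rw [lam_O N H j (flat_of_le hxy h1) h0]; trivial
    · rw [lam_Rh N H j (flat_of_le hxy h1) (by omega) (by omega)]; trivial
  | O, h =>
    obtain ⟨y, hxy, hy⟩ := h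
    obtain ⟨h1, h2⟩ := inv_O N H j hN hy
    have g := tot_mono hxy
    rw [lam_O N H j (flat_of_le hxy h1) (by omega)]; trivial

/-! ### vertices -/

theorem ofNat_add (a b : ℕ) : Fin.ofNat 3 (a + b) = Fin.ofNat 3 a + Fin.ofNat 3 b := by
  apply Fin.ext
  simp [Fin.val_add]

theorem cl_up0 (x : Pt m) : cl (up x 0 1) = cl x + 1 := by
  unfold cl
  rw [U_up_same, U_up_ne x (by decide), show U x 0 + 1 + 2 * U x 1 = (U x 0 + 2 * U x 1) + 1 by
    omega, ofNat_add]
  rfl

theorem cl_up1 (x : Pt m) : cl (up x 1 1) = cl x + 2 := by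
  unfold cl
  rw [U_up_same, U_up_ne x (by decide), show U x 0 + 2 * (U x 1 + 1) = (U x 0 + 2 * U x 1) + 2 by
    omega, ofNat_add]
  rfl

theorem cl_up2 (x : Pt m) : cl (up x 2 1) = cl x := by
  unfold cl
  rw [U_up_ne x (by decide), U_up_ne x (by decide)]

theorem cl_up_ne (x : Pt m) {i i' : Fin 3} (h : i ≠ i') : cl (up x i 1) ≠ cl (up x i' 1) := by
  have h0 := cl_up0 x
  have h1 := cl_up1 x
  have h2 := cl_up2 x
  have d : ∀ a : Fin 3, a + 1 ≠ a + 2 ∧ a + 1 ≠ a ∧ a + 2 ≠ a := by decide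
  obtain ⟨d1, d2, d3⟩ := d (cl x)
  match i, i', h with
  | 0, 0, h => exact absurd rfl h
  | 1, 1, h => exact absurd rfl h
  | 2, 2, h => exact absurd rfl h
  | 0, 1, _ => rw [h0, h1]; exact d1
  | 0, 2, _ => rw [h0, h2]; exact d2
  | 1, 0, _ => rw [h0, h1]; exact d1.symm
  | 1, 2, _ => rw [h1, h2]; exact d3
  | 2, 0, _ => rw [h0, h2]; exact d2.symm
  | 2, 1, _ => rw [h1, h2]; exact d3.symm

theorem cl_up_ex (x : Pt m) (q : Fin 3) : ∃ i, cl (up x i 1) = q := by
  have d : ∀ a q : Fin 3, q = a + 1 ∨ q = a + 2 ∨ q = a := by decide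
  rcases d (cl x) q with h | h | h
  · exact ⟨0, by rw [cl_up0, h]⟩
  · exact ⟨1, by rw [cl_up1, h]⟩
  · exact ⟨2, by rw [cl_up2, h]⟩

theorem vert_cls (hN : 3 ≤ N) (h3 : N % 3 = 0) {y : Pt m} (hy : Flat y) (ht : tot y = N) :
    IsVert (lam N H j y) ∧ cls (lam N H j y) = cl y := by
  rcases classify N H j hN y with ⟨h1, _, e⟩ | ⟨_, h1, e⟩ | ⟨_, h1, e⟩ | ⟨_, _, h1, e⟩ |
    ⟨_, h1, e⟩ | ⟨i, _, h1, h2, h4, e⟩ | ⟨k, _, _, _, _, _, e⟩ |
    ⟨k, _, h0, h1, h2, _, _, h5, e⟩ | ⟨k, _, h1, h2, h3, h4, e⟩ | ⟨k, _, h1, h2, h3, h4, e⟩ |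
    ⟨k, _, h1, h2, h3, e⟩ | ⟨_, _, _, e⟩ | ⟨_, _, h1, e⟩
  · exact absurd hy h1
  · rw [h1] at hy
    exact absurd hy (not_flat_single _)
  · omega
  · omega
  · omega
  · rw [e]
    refine ⟨trivial, ?_⟩
    show 0 = cl y
    have ht2 := tot_eq y i
    have hN2 : U y i = N := by omega
    unfold cl
    match i, h2, h4, hN2 with
    | 0, h2, _, hN2 =>
      have h2' : U y 1 = 0 := h2
      rw [h2', hN2]
      apply Fin.ext
      simp [h3]
    | 1, _, h4, hN2 =>
      have h4' : U y 0 = 0 := h4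
      rw [h4', hN2]
      apply Fin.ext
      simp
      omega
    | 2, h2, h4, _ =>
      have h2' : U y 0 = 0 := h2
      have h4' : U y 1 = 0 := h4
      rw [h2', h4']
      rfl
  · rw [e]; exact ⟨trivial, rfl⟩
  · have := tot_eq y k; omega
  · have := tot_eq y k; omega
  · have := tot_eq y k; omega
  · have := tot_eq y k; omega
  · rw [e]; exact ⟨trivial, rfl⟩
  · omega

theorem up_le {x y : Pt m} (h : x ≤ y) {i : Fin 3} (hi : U x i < U y i) : up x i 1 ≤ y := by
  rw [le_iff]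
  refine ⟨fun i' => ?_, fun l => ?_⟩
  · by_cases he : i' = i
    · rw [he, U_up_same]; omega
    · rw [U_up_ne x he]; exact U_mono h i'
  · show x _ + _ ≤ _
    rw [Pi.single_eq_of_ne (fun h' => axR_ne h'.symm)]
    exact h _

theorem cover {x y : Pt m} (h : x ≤ y) (hy : Flat y) (ht : tot y = tot x + 1) :
    ∃ i, up x i 1 = y := by
  have g0 := U_mono h 0
  have g1 := U_mono h 1
  have g2 := U_mono h 2
  have key : ∃ i, U x i < U y i := by
    by_cases c0 : U x 0 < U y 0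
    · exact ⟨0, c0⟩
    by_cases c1 : U x 1 < U y 1
    · exact ⟨1, c1⟩
    refine ⟨2, ?_⟩
    unfold tot at ht
    omega
  obtain ⟨i, hi⟩ := key
  exact ⟨i, eq_of_tot (up_le h hi) hy (by rw [tot_up]; omega)⟩

theorem sees_vert (hN : 3 ≤ N) {x : Pt m} (hx : Flat x) (ht : tot x + 1 = N) {c : Lab V m}
    (hc : IsVert c) (h : Sees (lam N H j) x c) : ∃ i, lam N H j (up x i 1) = c := by
  obtain ⟨y, hxy, hy⟩ := h
  match c, hc, hy with
  | W k i q, _, hy =>
    obtain ⟨h1, h2, h3, h4, h5, h6, h7⟩ := inv_W N H j hN hy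
    have hty := tot_eq y k
    obtain ⟨i', hi'⟩ := cover hxy h1 (by omega)
    exact ⟨i', by rw [hi', hy]⟩
  | I v q, _, hy =>
    obtain ⟨h1, h2, h3, h4, h5⟩ := inv_I N H j hN hy
    obtain ⟨i', hi'⟩ := cover hxy h1 (by omega)
    exact ⟨i', by rw [hi', hy]⟩
  | R i, _, hy =>
    obtain ⟨h1, h2, h3, h4⟩ := inv_R N H j hN hy
    have g1 := U_mono hxy (i + 1)
    have g2 := U_mono hxy (i + 2)
    have htx := tot_eq x i
    refine ⟨i, lam_R N H j hN (flat_up hx _ _) ?_ ?_ ?_⟩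
    · rw [U_up_same]; omega
    · rw [U_up_ne x (ne1 i)]; omega
    · rw [U_up_ne x (ne2 i)]; omega

section fill

variable {N H j} {adj : V → V → Prop} {star : V} {w : List V}
  (hF : Filling adj star (w.length - 1) (fun i => w.getD i star) N H j)

include hF

theorem jj_le {k : Fin 3} {b : ℕ} (h1 : 1 ≤ b) (h2 : b ≤ N - 1) : jj j k b ≤ lenOf w k := by
  unfold jj lenOf
  split_ifs
  · exact hF.j_le b h1 h2
  · exact le_rfl

theorem jj_step {k : Fin 3} {b : ℕ} (h1 : 1 ≤ b) (h2 : b < N - 1) :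
    jj j k (b + 1) = jj j k b ∨ jj j k (b + 1) = jj j k b + 1 ∨ jj j k b = jj j k (b + 1) + 1 := by
  unfold jj
  split_ifs
  · exact hF.j_step b h1 h2
  · exact Or.inl rfl

theorem jj_one {k : Fin 3} : jj j k 1 = 0 := by
  unfold jj
  split_ifs
  · exact hF.j_one
  · rfl

theorem jj_last {k : Fin 3} : jj j k (N - 1) = lenOf w k := by
  unfold jj lenOf
  split_ifs
  · exact hF.j_last
  · rfl

theorem path_eq {y : Pt m} {k : Fin 3} (h0 : U y k = 0) (h1 : 1 ≤ U y (k + 1))
    (h2 : 1 ≤ U y (k + 2)) (h3 : U y (k + 1) + U y (k + 2) = N) :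
    pathOf star w k (jj j k (U y (k + 2))) = H (U y 0) (U y 2) := by
  match k, h0, h1, h2, h3 with
  | 0, h0, h1, h2, h3 =>
    have h1' : 1 ≤ U y 1 := h1
    have h2' : 1 ≤ U y 2 := h2
    have h3' : U y 1 + U y 2 = N := h3
    have e := hF.bottom (U y 2) h2' (by omega)
    rw [h0, e]
    rfl
  | 1, h0, h1, h2, h3 =>
    have h3' : U y 2 + U y 0 = N := h3
    have e := hF.right (U y 0) (by omega)
    rw [show N - U y 0 = U y 2 by omega] at e
    rw [e]
    rfl
  | 2, h0, h1, h2, h3 =>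
    have h3' : U y 0 + U y 1 = N := h3
    have e := hF.left (U y 0) (by omega)
    rw [h0, e]
    rfl

theorem adj_up (hr : ∀ u, adj u u) (hs : ∀ u v, adj u v → adj v u) {x : Pt m}
    (ht : tot x + 1 = N) (i i' : Fin 3) :
    adj (H (U (up x i 1) 0) (U (up x i 1) 2)) (H (U (up x i' 1) 0) (U (up x i' 1) 2)) := by
  unfold tot at ht
  obtain ⟨r1, r2, r3⟩ := hF.row (U x 0) (U x 2) (by omega)
  have a0 : U (up x 0 1) 0 = U x 0 + 1 := U_up_same _ _ _
  have a1 : U (up x 0 1) 2 = U x 2 := U_up_ne x (by decide) _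
  have a2 : U (up x 1 1) 0 = U x 0 := U_up_ne x (by decide) _
  have a3 : U (up x 1 1) 2 = U x 2 := U_up_ne x (by decide) _
  have a4 : U (up x 2 1) 0 = U x 0 := U_up_ne x (by decide) _
  have a5 : U (up x 2 1) 2 = U x 2 + 1 := U_up_same _ _ _
  match i, i' with
  | 0, 0 => exact hr _
  | 1, 1 => exact hr _
  | 2, 2 => exact hr _
  | 0, 1 => rw [a0, a1, a2, a3]; exact r2
  | 0, 2 => rw [a0, a1, a4, a5]; exact r3
  | 1, 2 => rw [a2, a3, a4, a5]; exact r1
  | 1, 0 => rw [a0, a1, a2, a3]; exact hs _ _ r2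
  | 2, 0 => rw [a0, a1, a4, a5]; exact hs _ _ r3
  | 2, 1 => rw [a2, a3, a4, a5]; exact hs _ _ r1

theorem vadj_up (hr : ∀ u, adj u u) (hs : ∀ u v, adj u v → adj v u) {x : Pt m}
    (hx : Flat x) (ht : tot x + 1 = N) {i i' : Fin 3} (hne : i ≠ i') :
    Vadj adj (lenOf w) (pathOf star w) (lam N H j (up x i 1)) (lam N H j (up x i' 1)) := by
  have hN := hF.pos
  have n1 : ∀ k : Fin 3, k ≠ k + 1 := by decide
  have n2 : ∀ k : Fin 3, k ≠ k + 2 := by decide
  have n3 : ∀ k : Fin 3, k + 1 ≠ k + 2 := by decide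
  have hadj := adj_up hF hr hs ht (m := m)
  by_cases hk : ∃ k, U x k = 0
  · obtain ⟨k, hk⟩ := hk
    have htk := tot_eq x k
    by_cases hgen : 1 ≤ U x (k + 1) ∧ 1 ≤ U x (k + 2)
    · -- one vanishing coordinate
      obtain ⟨g1, g2⟩ := hgen
      have e0 := lam_I (x := up x k 1) N H j hN (flat_up hx _ _) (by
        intro i
        rcases tri i k with rfl | rfl | rfl
        · rw [U_up_same]; omega
        · rw [U_up_ne x (n1 _).symm]; exact g1
        · rw [U_up_ne x (n2 _).symm]; exact g2) (by rw [tot_up]; exact ht)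
      have e1 := lam_W (x := up x (k + 1) 1) (k := k) N H j hN (flat_up hx _ _)
        (by rw [U_up_ne x (n1 _)]; exact hk) (by rw [U_up_same]; omega)
        (by rw [U_up_ne x (n3 _).symm]; exact g2)
        (by rw [U_up_same, U_up_ne x (n3 _).symm]; omega)
      have e2 := lam_W (x := up x (k + 2) 1) (k := k) N H j hN (flat_up hx _ _)
        (by rw [U_up_ne x (n2 _)]; exact hk) (by rw [U_up_ne x (n3 _)]; exact g1)
        (by rw [U_up_same]; omega)
        (by rw [U_up_same, U_up_ne x (n3 _)]; omega)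
      have p1 := path_eq hF (y := up x (k + 1) 1) (k := k)
        (by rw [U_up_ne x (n1 _)]; exact hk) (by rw [U_up_same]; omega)
        (by rw [U_up_ne x (n3 _).symm]; exact g2)
        (by rw [U_up_same, U_up_ne x (n3 _).symm]; omega)
      have p2 := path_eq hF (y := up x (k + 2) 1) (k := k)
        (by rw [U_up_ne x (n2 _)]; exact hk) (by rw [U_up_ne x (n3 _)]; exact g1)
        (by rw [U_up_same]; omega)
        (by rw [U_up_same, U_up_ne x (n3 _)]; omega)
      have hst := jj_step hF (k := k) g2 (show U x (k + 2) < N - 1 by omega)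
      have u1 : U (up x (k + 1) 1) (k + 2) = U x (k + 2) := U_up_ne x (n3 _).symm _
      have u2 : U (up x (k + 2) 1) (k + 2) = U x (k + 2) + 1 := U_up_same _ _ _
      rcases tri i k with rfl | rfl | rfl
      · rcases tri i' i with rfl | rfl | rfl
        · exact absurd rfl hne
        · rw [e0, e1]
          show adj _ (pathOf star w i _)
          rw [p1]
          exact hadj i (i + 1)
        · rw [e0, e2]
          show adj _ (pathOf star w i _)
          rw [p2]
          exact hadj i (i + 2)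
      · rcases tri i' k with rfl | rfl | rfl
        · rw [e0, e1]
          show adj (pathOf star w i' _) _
          rw [p1]
          exact hadj _ _
        · exact absurd rfl hne
        · rw [e1, e2, u1, u2]
          refine Or.inl ⟨rfl, ?_⟩
          rcases hst with h | h | h
          · exact Or.inl h.symm
          · exact Or.inr (Or.inr h)
          · exact Or.inr (Or.inl h)
      · rcases tri i' k with rfl | rfl | rfl
        · rw [e0, e2]
          show adj (pathOf star w i' _) _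
          rw [p2]
          exact hadj _ _
        · rw [e1, e2, u1, u2]
          refine Or.inl ⟨rfl, ?_⟩
          rcases hst with h | h | h
          · exact Or.inl h
          · exact Or.inr (Or.inl h)
          · exact Or.inr (Or.inr h)
        · exact absurd rfl hne
    · -- a point of an axis
      have hax : ∃ t, U x (t + 1) = 0 ∧ U x (t + 2) = 0 := by
        by_cases h1 : U x (k + 1) = 0
        · refine ⟨k + 2, ?_, ?_⟩
          · rw [k21]; exact hk
          · rw [k22]; exact h1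
        · refine ⟨k + 1, ?_, ?_⟩
          · rw [k11]; omega
          · rw [k12]; exact hk
      obtain ⟨t, t1, t2⟩ := hax
      have htt := tot_eq x t
      have e0 := lam_R (x := up x t 1) (i := t) N H j hN (flat_up hx _ _)
        (by rw [U_up_same]; omega) (by rw [U_up_ne x (n1 _).symm]; exact t1)
        (by rw [U_up_ne x (n2 _).symm]; exact t2)
      have e1 := lam_W (x := up x (t + 1) 1) (k := t + 2) N H j hN (flat_up hx _ _)
        (by rw [U_up_ne x (n3 _).symm]; exact t2)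
        (by rw [k21, U_up_ne x (n1 _)]; omega)
        (by rw [k22, U_up_same]; omega)
        (by rw [k21, k22, U_up_same, U_up_ne x (n1 _)]; omega)
      have e2 := lam_W (x := up x (t + 2) 1) (k := t + 1) N H j hN (flat_up hx _ _)
        (by rw [U_up_ne x (n3 _)]; exact t1)
        (by rw [k11, U_up_same]; omega)
        (by rw [k12, U_up_ne x (n2 _)]; omega)
        (by rw [k11, k12, U_up_same, U_up_ne x (n2 _)]; omega)
      rw [k22, U_up_same, t1, Nat.zero_add, jj_one hF] at e1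
      rw [k12, U_up_ne x (n2 _), show U x t = N - 1 by omega, jj_last hF] at e2
      rcases tri i t with rfl | rfl | rfl
      · rcases tri i' i with rfl | rfl | rfl
        · exact absurd rfl hne
        · rw [e0, e1]; exact Or.inl ⟨rfl, rfl⟩
        · rw [e0, e2]; exact Or.inr ⟨rfl, rfl⟩
      · rcases tri i' t with rfl | rfl | rfl
        · rw [e0, e1]; exact Or.inl ⟨rfl, rfl⟩
        · exact absurd rfl hne
        · rw [e1, e2]
          exact Or.inr (Or.inr ⟨(k11 t).symm, rfl, rfl⟩)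
      · rcases tri i' t with rfl | rfl | rfl
        · rw [e0, e2]; exact Or.inr ⟨rfl, rfl⟩
        · rw [e1, e2]
          exact Or.inr (Or.inl ⟨(k11 t).symm, rfl, rfl⟩)
        · exact absurd rfl hne
  · -- all positive
    have hpos : ∀ i, 1 ≤ U x i := by
      intro i
      by_contra h
      exact hk ⟨i, by omega⟩
    have e : ∀ i, lam N H j (up x i 1) =
        I (H (U (up x i 1) 0) (U (up x i 1) 2)) (cl (up x i 1)) := by
      intro i
      exact lam_I N H j hN (flat_up hx _ _)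
        (fun i' => le_trans (hpos i') (U_mono (le_up _ _ _) i')) (by rw [tot_up]; exact ht)
    rw [e, e]
    exact hadj i i'

end fill

end Can

open Can Lab in
theorem m4 : M4 := by
  intro m V adj star w N H j hr hs _ hF
  have hN := hF.pos
  refine ⟨lam N H j, ?_, ?_⟩
  · refine
      { may := fun x c h => Can.may N H j hN x c h
        P_must := ?_
        E_must := ?_
        W_must := ?_
        W_le := ?_
        Ph_ex := ?_
        Ph_adj := ?_
        Rh_must := ?_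
        O_must := ?_
        G1 := ?_
        G2 := ?_
        G3 := ?_
        G6 := ?_
        G7 := ?_ }
    · intro x k e b h b'
      match e, h with
      | true, h =>
        obtain ⟨h1, h2, h3, h4, h5⟩ := inv_Pt N H j hN h
        exact (sees_Pt N H j hN).2 ⟨h1, h2, h4⟩
      | false, h =>
        obtain ⟨h1, h2, h3, h4, h5⟩ := inv_Pf N H j hN h
        exact (sees_Pf N H j hN).2 ⟨h1, h2, h4⟩
    · intro x k h e
      obtain ⟨h1, h2, h3, h4, h5, h6, h7⟩ := inv_E N H j hN h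
      match e with
      | true => exact (sees_Pt N H j hN).2 ⟨h1, h2, h5⟩
      | false => exact (sees_Pf N H j hN).2 ⟨h1, h2, h6⟩
    · intro x k i q h
      obtain ⟨h1, h2, h3, h4, h5, h6, h7⟩ := inv_W N H j hN h
      exact (sees_E N H j hN).2 ⟨h1, h2, by omega, by omega⟩
    · intro x k i q h
      obtain ⟨h1, h2, h3, h4, h5, h6, h7⟩ := inv_W N H j hN h
      rw [h6]
      exact jj_le hF h4 (by omega)
    · intro x h q
      obtain ⟨h1, h2⟩ := inv_Ph N H j hN h
      obtain ⟨i, hi⟩ := cl_up_ex x q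
      obtain ⟨g1, g2⟩ := vert_cls N H j hN hF.mod (flat_up h1 i 1) (by rw [tot_up]; exact h2)
      exact ⟨_, g1, by rw [g2, hi], _, le_up _ _ _, rfl⟩
    · intro x h c c' hc hc' sc sc' hne
      obtain ⟨h1, h2⟩ := inv_Ph N H j hN h
      obtain ⟨i, rfl⟩ := sees_vert N H j hN h1 h2 hc sc
      obtain ⟨i', rfl⟩ := sees_vert N H j hN h1 h2 hc' sc'
      have hii : i ≠ i' := by
        rintro rfl
        exact hne rfl
      obtain ⟨_, g2⟩ := vert_cls N H j hN hF.mod (flat_up h1 i 1) (by rw [tot_up]; exact h2)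
      obtain ⟨_, g4⟩ := vert_cls N H j hN hF.mod (flat_up h1 i' 1) (by rw [tot_up]; exact h2)
      refine ⟨?_, vadj_up hF hr hs h1 h2 hii⟩
      rw [g2, g4]
      exact cl_up_ne x hii
    · intro x h
      obtain ⟨h1, h2, h3⟩ := inv_Rh N H j hN h
      exact (sees_Ph N H j hN).2 ⟨h1, by omega⟩
    · intro x h
      obtain ⟨h1, h2⟩ := inv_O N H j hN h
      refine ⟨(sees_Ph N H j hN).2 ⟨h1, by omega⟩, ?_⟩
      intro c hc
      match c, hc with
      | R i, _ =>
        have := tot_eq x i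
        exact (sees_R N H j hN).2 ⟨h1, by omega, by omega⟩
      | X l, _ =>
        refine (sees_X N H j hN).2 ?_
        rw [le_iff]
        refine ⟨fun i => ?_, fun l => ?_⟩
        · have := tot_eq x i
          rw [show U x i = 0 by omega]
          exact Nat.zero_le _
        · rw [h1 l]
          exact Nat.zero_le _
    · intro x c c' hc hc' hne sc sc'
      match c, c', hc, hc', hne, sc, sc' with
      | R i, R i', _, _, hne, sc, sc' =>
        obtain ⟨a1, a2, a3⟩ := (sees_R N H j hN).1 sc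
        obtain ⟨b1, b2, b3⟩ := (sees_R N H j hN).1 sc'
        have ht := tot_eq x i
        refine lam_O N H j a1 ?_
        rcases tri i i' with h | h | h
        · exact absurd (by rw [h]) hne
        · rw [← h] at b2; omega
        · rw [← h] at b3; omega
      | R i, X l, _, _, hne, sc, sc' =>
        obtain ⟨a1, a2, a3⟩ := (sees_R N H j hN).1 sc
        rcases le_single ((sees_X N H j hN).1 sc') with e | ⟨e1, e2⟩
        · rw [e] at a1
          exact absurd a1 (not_flat_single l)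
        · exact lam_O N H j e1 e2
      | X l, R i, _, _, hne, sc, sc' =>
        obtain ⟨a1, a2, a3⟩ := (sees_R N H j hN).1 sc'
        rcases le_single ((sees_X N H j hN).1 sc) with e | ⟨e1, e2⟩
        · rw [e] at a1
          exact absurd a1 (not_flat_single l)
        · exact lam_O N H j e1 e2
      | X l, X l', _, _, hne, sc, sc' =>
        rcases le_single ((sees_X N H j hN).1 sc) with e | ⟨e1, e2⟩
        · rcases le_single ((sees_X N H j hN).1 sc') with e' | ⟨e1', e2'⟩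
          · rw [e] at e'
            have h4 : (Pi.single (axX m l) 1 : Pt m) (axX m l) =
              (Pi.single (axX m l') 1 : Pt m) (axX m l) := congrFun e' _
            rw [Pi.single_eq_same, Pi.single_apply] at h4
            split_ifs at h4 with h5
            exact absurd (by rw [axX_inj h5]) hne
          · exact lam_O N H j e1' e2'
        · exact lam_O N H j e1 e2
    · intro x i sc hO
      obtain ⟨a1, a2, a3⟩ := (sees_R N H j hN).1 sc
      have ht := tot_eq x i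
      have hpos : U x i ≠ 0 := by
        intro h0
        exact hO (lam_O N H j a1 (by omega))
      refine ⟨fun b => ⟨(sees_Pt N H j hN).2 ⟨a1, a2, ?_⟩, (sees_Pf N H j hN).2 ⟨a1, a3, ?_⟩⟩, ?_⟩
      · rw [k11]; omega
      · rw [k22]; omega
      · intro e b h
        match e, h with
        | true, h => exact hpos ((sees_Pt N H j hN).1 h).2.1
        | false, h => exact hpos ((sees_Pf N H j hN).1 h).2.1
    · intro x l sc hO c hc
      rcases le_single ((sees_X N H j hN).1 sc) with e | ⟨e1, e2⟩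
      · have := Can.may N H j hN x c hc
        rw [e, lam_X] at this
        exact this
      · exact absurd (lam_O N H j e1 e2) hO
    · intro x i s1 s2
      obtain ⟨a1, a2, a3⟩ := (sees_Pt N H j hN).1 s1
      obtain ⟨b1, b2, b3⟩ := (sees_Pf N H j hN).1 s2
      exact (sees_R N H j hN).2 ⟨a1, a2, b2⟩
    · intro x k s1 s2
      obtain ⟨a1, a2, a3⟩ := (sees_Pf N H j hN).1 s1
      obtain ⟨b1, b2, b3⟩ := (sees_Pt N H j hN).1 s2
      exact (sees_E N H j hN).2 ⟨a1, a2, b3, a3⟩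
  · exact lam_O N H j (fun l => rfl) rfl

end Pool.Agent.OM
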