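import Pool.Agent.OM.M5g

/-!
# M5, last part: the hexagon
-/

namespace Pool.Agent.OM

open Lab

variable {V : Type} {m : ℕ}

section
variable {G : Type} [Group G]
variable {g : V → V → G} {len : Fin 3 → ℕ} {path : Fin 3 → ℕ → V}
variable {adj : V → V → Prop} {star : V} {lam : P3 → Lab V m}

theorem le_ee_add (x y : P3) : x ≤ y + x := by
  intro l; simp only [Pi.add_apply]; omega

theorem lam_ne_T_of_sees (hg : Good3 adj len path lam) {x : P3} {c : Lab V m}
    (h : Sees lam x c) (hc : c ≠ T) : lam x ≠ T := by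
  obtain ⟨y, hy, hyl⟩ := h
  exact Z_mono hg hy (by rw [hyl]; exact hc)

theorem pair_P (hg : Good3 adj len path lam) {bb : Fin 3 → Bool → ℕ} (hb1 : ∀ k e, 1 ≤ bb k e)
    (hbb : ∀ k e b x, Sees lam x (P k e b) ↔ x k = 0 ∧ x (be k e) ≤ bb k e) (k : Fin 3)
    (e b : Bool) : Sees lam (ee (k + 1) + ee (k + 2)) (P k e b) := by
  rw [hbb]
  constructor
  · simp [ee, Pi.single_apply, (add1_ne k).symm, (add2_ne k).symm]
  · have h1 := hb1 k e
    cases e
    · show (ee (k + 1) + ee (k + 2)) (k + 2) ≤ _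
      simpa [ee, Pi.single_apply, (add12_ne k).symm] using h1
    · show (ee (k + 1) + ee (k + 2)) (k + 1) ≤ _
      simpa [ee, Pi.single_apply, (add12_ne k)] using h1

theorem ee_P (hg : Good3 adj len path lam) {bb : Fin 3 → Bool → ℕ} (hb1 : ∀ k e, 1 ≤ bb k e)
    (hbb : ∀ k e b x, Sees lam x (P k e b) ↔ x k = 0 ∧ x (be k e) ≤ bb k e) (k : Fin 3)
    (e b : Bool) (i : Fin 3) (hi : i ≠ k) : Sees lam (ee i) (P k e b) := by
  refine (pair_P hg hb1 hbb k e b).mono ?_
  rcases fin3_cases k i with rfl | rfl | rfl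
  · exact absurd rfl hi
  · exact le_add_ee _ _
  · exact le_ee_add _ _

/-- no triple point: all side paths have length zero -/
theorem no_triple (hg : Good3 adj len path lam) (hlen : ∃ k, 0 < len k)
    {bb : Fin 3 → Bool → ℕ} (hb1 : ∀ k e, 1 ≤ bb k e)
    (hbb : ∀ k e b x, Sees lam x (P k e b) ↔ x k = 0 ∧ x (be k e) ≤ bb k e) :
    lam (ee 0 + ee 1 + ee 2) ≠ T := by
  intro h111
  have hy111 : ∀ k, ee (k + 1) + ee (k + 2) + ee k = ee 0 + ee 1 + ee 2 := by
    intro k
    rcases fin012 k with rfl | rfl | rfl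
    · show ee 1 + ee 2 + ee 0 = _; abel
    · show ee 2 + ee 0 + ee 1 = _; abel
    · rfl
  have hyD : ∀ k, ¬ Sees lam (ee (k + 1) + ee (k + 2)) Ph := by
    intro k h
    have := V2Z hg h k
    rw [hy111] at this
    exact this h111
  -- vertex labelled pairs are side vertices
  have hW : ∀ k, (∃ v, IsVert v ∧ Sees lam (ee (k + 1) + ee (k + 2)) v) →
      ∃ j q, lam (ee (k + 1) + ee (k + 2)) = W k j q := by
    rintro k ⟨v, hv, hs⟩
    have h1 := one_vert hg (hyD k) hv hs
    have h2 := hg.may _ _ (pair_P hg hb1 hbb k false false)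
    have hc1 : (ee (k + 1) + ee (k + 2)) (k + 1) ≠ 0 := by
      simp [ee, Pi.single_apply]
    have hc2 : (ee (k + 1) + ee (k + 2)) (k + 2) ≠ 0 := by
      simp [ee, Pi.single_apply]
    cases hl : lam (ee (k + 1) + ee (k + 2)) with
    | I v' q =>
      rw [hl] at h2
      simp [May] at h2
    | W k' j q =>
      rw [hl] at h2
      simp only [May] at h2
      rcases h2 with h2 | h2 | h2 | ⟨e, b, h2⟩
      · cases h2
      · cases h2
      · cases h2
      · injection h2 with h2
        subst h2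
        exact ⟨j, q, rfl⟩
    | R i =>
      have hax := R_axis hg hl
      by_cases hik : k + 1 = i
      · exact absurd (hax (k + 2) (by rw [← hik]; exact (add12_ne k).symm)) hc2
      · exact absurd (hax (k + 1) hik) hc1
    | _ => rw [← h1, hl] at hv; exact absurd hv (by simp [IsVert])
  -- one e_i in D implies the next in D
  have hstep1 : ∀ i, Sees lam (ee i) Ph → Sees lam (ee (i + 1)) Ph := by
    intro i hi
    by_contra hn
    obtain ⟨v, hv, hs⟩ := V2 hg hi (i + 1)
    -- e_i + e_(i+1) = y_(i+2)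
    have e1 : ee i + ee (i + 1) = ee (i + 2 + 1) + ee (i + 2 + 2) := by rw [a21, a22]
    rw [e1] at hs
    obtain ⟨j, q, hl⟩ := hW (i + 2) ⟨v, hv, hs⟩
    rw [← e1] at hl
    have h1 : lam (ee (i + 1)) = W (i + 2) j q := by
      apply one_vert hg hn (by simp [IsVert])
      exact ⟨_, le_ee_add _ _, hl⟩
    have h2 : lam (ee (i + 1)) = R (i + 1) :=
      one_vert hg hn (by simp [IsVert]) (hg.ax_see (i + 1))
    rw [h1] at h2
    cases h2
  have hall : ∀ i, Sees lam (ee i) Ph := by
    obtain ⟨z, hz, hzl⟩ := hg.O_ph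
    have hz0 : z ≠ 0 := by
      rintro rfl
      rw [hg.root] at hzl
      cases hzl
    obtain ⟨i, hi⟩ : ∃ i, z i ≠ 0 := by
      by_contra hcon
      push Not at hcon
      exact hz0 (funext hcon)
    have h0 : Sees lam (ee i) Ph := ⟨z, ee_le hi, hzl⟩
    have h1 := hstep1 i h0
    have h2 := hstep1 _ h1
    rw [a11] at h2
    exact all3 i (p := fun i => Sees lam (ee i) Ph) h0 h1 h2
  have hlab : ∀ k, ∃ j q, lam (ee (k + 1) + ee (k + 2)) = W k j q := by
    intro k
    exact hW k (V2 hg (hall (k + 1)) (k + 2))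
  choose J Qc hJ using hlab
  have hax : ∀ i, J (i + 2) = 0 ∧ J (i + 1) = len (i + 1) := by
    intro i
    obtain ⟨q, hq, hm⟩ := Q hg (hall i)
    have h1 := hJ (i + 2)
    have h2 := hJ (i + 1)
    have hD1 := hyD (i + 2)
    have hD2 := hyD (i + 1)
    rw [a21, a22] at h1 hD1
    rw [a11, a12, add_comm] at h2 hD2
    have e1 : lam (q + ee (i + 1)) = W (i + 2) (J (i + 2)) (Qc (i + 2)) := by
      rw [← h1]
      exact (one_vert hg hD1 (hm.vert _) ⟨_, add_ee_mono _ hq, rfl⟩).symm
    have e2 : lam (q + ee (i + 2)) = W (i + 1) (J (i + 1)) (Qc (i + 1)) := by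
      rw [← h2]
      exact (one_vert hg hD2 (hm.vert _) ⟨_, add_ee_mono _ hq, rfl⟩).symm
    have h3 := hm.vadj _ _ (add12_ne i)
    rw [e1, e2] at h3
    simp only [Vadj] at h3
    rcases h3 with ⟨h, -⟩ | ⟨h, -⟩ | ⟨-, h, h'⟩
    · exact absurd h (add12_ne i).symm
    · rw [a21] at h
      exact absurd h (add1_ne i)
    · exact ⟨h', h⟩
  obtain ⟨k, hk⟩ := hlen
  have h1 := (hax (k + 1)).1
  have h2 := (hax (k + 2)).2
  rw [a12] at h1
  rw [a21] at h2
  omega

theorem hexagon (hg : Good3 adj len path lam) (H : Hyp adj star len path g)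
    (hlen : ∃ k, 0 < len k) :
    pv g (path 2) (len 2) * pv g (path 0) (len 0) * pv g (path 1) (len 1) = 1 := by
  obtain ⟨c, hc⟩ := coc_exists hg H
  obtain ⟨bb, hb1, hbb⟩ := strips hg
  have hnt := no_triple hg hlen hb1 hbb
  have hU : ∀ x, x ≠ 0 → lam x ≠ T → U lam 0 x := fun x h1 h2 => ⟨h1, h2, fun _ => Nat.zero_le _⟩
  have hU1 : ∀ i, U lam 0 (ee i) := fun i =>
    hU _ (ee_ne_zero i) (lam_ne_T_of_sees hg (hg.ax_see i) (by simp))
  have hnDP : ∀ {z k e b}, lam z = P k e b → ¬ Sees lam z Ph := by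
    intro z k e b h hs
    have := hg.may _ _ hs
    rw [h] at this
    simp [May] at this
  -- K k e i
  have hK : ∀ k e i, ∃ K : G, i ≠ k → ∀ z b, ee i ≤ z → lam z = P k e b → c (ee i) z = K := by
    intro k e i
    by_cases hik : i = k
    · exact ⟨1, fun h => absurd hik h⟩
    · obtain ⟨z0, hz0, hz0l⟩ := ee_P hg hb1 hbb k e false i hik
      refine ⟨c (ee i) z0, fun _ z b hz hzl => ?_⟩
      have hs : Sees lam (z ⊔ z0) (P k e false) := by
        rw [hbb]
        have h1 := (hbb k e b z).1 (sees_of hzl)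
        have h2 := (hbb k e false z0).1 (sees_of hz0l)
        constructor
        · simp only [Pi.sup_apply, h1.1, h2.1]
          rfl
        · exact sup_le h1.2 h2.2
      obtain ⟨w, hw, hwl⟩ := hs
      have hzw : z ≤ w := le_sup_left.trans hw
      have hz0w : z0 ≤ w := le_sup_right.trans hw
      have hwT : lam w ≠ T := by rw [hwl]; simp
      have e1 := hc.mul _ _ _ (hU1 i) hz hzw hwT
      have e2 := hc.mul _ _ _ (hU1 i) hz0 hz0w hwT
      have b1 := hc.base z w (ne_zero_of_le (ee_ne_zero i) hz) (hnDP hzl) hzw hwT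
      have b2 := hc.base z0 w (ne_zero_of_le (ee_ne_zero i) hz0) (hnDP hz0l) hz0w hwT
      have t1 : ∀ b, tr g len path (P k e b : Lab V m) (P k e false) = 1 := by
        intro b
        cases e <;> simp [tr, val]
      rw [hzl, hwl, t1] at b1
      rw [hz0l, hwl, t1] at b2
      rw [b1, mul_one] at e1
      rw [b2, mul_one] at e2
      rw [e1, e2]
  choose K hK using hK
  -- axes
  have hA : ∀ i, K (i + 1) true i = K (i + 2) false i := by
    intro i
    obtain ⟨r, hr, hrl⟩ := hg.ax_see i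
    have hr0 : r ≠ 0 := ne_zero_of_le (ee_ne_zero i) hr
    have hrD : ¬ Sees lam r Ph := by
      intro hs
      have := hg.may _ _ hs
      rw [hrl] at this
      simp [May] at this
    have hG := (hg.G2 r i hr0 (sees_of hrl)).1 false
    obtain ⟨⟨z, hz, hzl⟩, ⟨z', hz', hzl'⟩⟩ := hG
    have hzT : lam z ≠ T := by rw [hzl]; simp
    have hzT' : lam z' ≠ T := by rw [hzl']; simp
    have e1 := hc.mul _ _ _ (hU1 i) hr hz hzT
    have e2 := hc.mul _ _ _ (hU1 i) hr hz' hzT'
    have b1 := hc.base r z hr0 hrD hz hzT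
    have b2 := hc.base r z' hr0 hrD hz' hzT'
    rw [hrl, hzl] at b1
    rw [hrl, hzl'] at b2
    have t1 : tr g len path (R i : Lab V m) (P (i + 1) true false) = 1 := by simp [tr]
    have t2 : tr g len path (R i : Lab V m) (P (i + 2) false false) = 1 := by simp [tr]
    rw [t1] at b1
    rw [t2] at b2
    rw [b1, mul_one] at e1
    rw [b2, mul_one] at e2
    rw [← hK (i + 1) true i (add1_ne i).symm z false (hr.trans hz) hzl,
      ← hK (i + 2) false i (add2_ne i).symm z' false (hr.trans hz') hzl', ← e1, ← e2]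
  -- planes
  have hP : ∀ k i, i ≠ k → K k true i = K k false i * pv g (path k) (len k) := by
    intro k i hik
    have hml := corner_lab hg hbb k
    have hle : ee i ≤ corner bb k := by
      rcases fin3_cases k i with rfl | rfl | rfl
      · exact absurd rfl hik
      · apply ee_le
        rw [corner_1]
        have := hb1 k true
        omega
      · apply ee_le
        rw [corner_2]
        have := hb1 k false
        omega
    have hm0 : corner bb k ≠ 0 := ne_zero_of_le (ee_ne_zero i) hle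
    have hmD : ¬ Sees lam (corner bb k) Ph := by
      intro hs
      have := hg.may _ _ hs
      rw [hml] at this
      simp [May] at this
    obtain ⟨z, hz, hzl⟩ := hg.E_must _ _ hml false
    obtain ⟨z', hz', hzl'⟩ := hg.E_must _ _ hml true
    have hzT : lam z ≠ T := by rw [hzl]; simp
    have hzT' : lam z' ≠ T := by rw [hzl']; simp
    have e1 := hc.mul _ _ _ (hU1 i) hle hz hzT
    have e2 := hc.mul _ _ _ (hU1 i) hle hz' hzT'
    have b1 := hc.base _ z hm0 hmD hz hzT
    have b2 := hc.base _ z' hm0 hmD hz' hzT'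
    rw [hml, hzl] at b1
    rw [hml, hzl'] at b2
    have t1 : tr g len path (E k : Lab V m) (P k false false) = 1 := by simp [tr, val]
    have t2 : tr g len path (E k : Lab V m) (P k true false) = pv g (path k) (len k) := by
      simp [tr, val]
    rw [t1] at b1
    rw [t2] at b2
    rw [b1, mul_one] at e1
    rw [b2] at e2
    rw [← hK k true i hik z' false (hle.trans hz') hzl',
      ← hK k false i hik z false (hle.trans hz) hzl, ← e1, ← e2]
  -- pairs
  have hyT : ∀ k, lam (ee (k + 1) + ee (k + 2)) ≠ T := fun k =>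
    lam_ne_T_of_sees hg (pair_P hg hb1 hbb k false false) (by simp)
  have ht : ∀ k, c (ee (k + 1)) (ee (k + 1) + ee (k + 2)) *
      (c (ee (k + 2)) (ee (k + 1) + ee (k + 2)))⁻¹ =
      K k false (k + 1) * (K k false (k + 2))⁻¹ := by
    intro k
    obtain ⟨z, hz, hzl⟩ := pair_P hg hb1 hbb k false false
    have hzT : lam z ≠ T := by rw [hzl]; simp
    have hle1 : ee (k + 1) ≤ ee (k + 1) + ee (k + 2) := le_add_ee _ _
    have hle2 : ee (k + 2) ≤ ee (k + 1) + ee (k + 2) := le_ee_add _ _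
    have e1 := hc.mul _ _ _ (hU1 (k + 1)) hle1 hz hzT
    have e2 := hc.mul _ _ _ (hU1 (k + 2)) hle2 hz hzT
    rw [← hK k false (k + 1) (add1_ne k) z false (hle1.trans hz) hzl,
      ← hK k false (k + 2) (add2_ne k) z false (hle2.trans hz) hzl, ← e1, ← e2]
    group
  -- telescope
  have hle : ∀ k, ee (k + 1) + ee (k + 2) ≤ ee 0 + ee 1 + ee 2 := by
    intro k
    rcases fin012 k with rfl | rfl | rfl
    · show ee 1 + ee 2 ≤ _
      rw [show ee 0 + ee 1 + ee 2 = ee 1 + ee 2 + ee 0 by abel]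
      exact le_add_ee _ _
    · show ee 2 + ee 0 ≤ _
      rw [show ee 0 + ee 1 + ee 2 = ee 2 + ee 0 + ee 1 by abel]
      exact le_add_ee _ _
    · show ee 0 + ee 1 ≤ _
      exact le_add_ee _ _
  have h3 : ∀ k, c (ee (k + 1)) (ee (k + 1) + ee (k + 2)) *
      (c (ee (k + 2)) (ee (k + 1) + ee (k + 2)))⁻¹ =
      c (ee (k + 1)) (ee 0 + ee 1 + ee 2) * (c (ee (k + 2)) (ee 0 + ee 1 + ee 2))⁻¹ := by
    intro k
    have h1 := hc.mul _ _ _ (hU1 (k + 1)) (le_add_ee (ee (k + 1)) (k + 2)) (hle k) hnt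
    have h2 := hc.mul (ee (k + 2)) (ee (k + 1) + ee (k + 2)) _ (hU1 (k + 2))
      (le_ee_add _ _) (hle k) hnt
    rw [← h1, ← h2]
    group
  have hprod : (K 0 false 1 * (K 0 false 2)⁻¹) * (K 1 false 2 * (K 1 false 0)⁻¹) *
      (K 2 false 0 * (K 2 false 1)⁻¹) = 1 := by
    have t0 := (ht 0).symm.trans (h3 0)
    have t1 := (ht 1).symm.trans (h3 1)
    have t2 := (ht 2).symm.trans (h3 2)
    have e01 : (0 : Fin 3) + 1 = 1 := rfl
    have e02 : (0 : Fin 3) + 2 = 2 := rfl
    have e11 : (1 : Fin 3) + 1 = 2 := rfl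
    have e12 : (1 : Fin 3) + 2 = 0 := rfl
    have e21 : (2 : Fin 3) + 1 = 0 := rfl
    have e22 : (2 : Fin 3) + 2 = 1 := rfl
    rw [e01, e02] at t0
    rw [e11, e12] at t1
    rw [e21, e22] at t2
    rw [t0, t1, t2]
    group
  have a0 := hA 0
  have a1 := hA 1
  have a2 := hA 2
  have p0 := hP 0 2 (by decide)
  have p1 := hP 1 0 (by decide)
  have p2 := hP 2 1 (by decide)
  have e01 : (0 : Fin 3) + 1 = 1 := rfl
  have e02 : (0 : Fin 3) + 2 = 2 := rfl
  have e11 : (1 : Fin 3) + 1 = 2 := rfl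
  have e12 : (1 : Fin 3) + 2 = 0 := rfl
  have e21 : (2 : Fin 3) + 1 = 0 := rfl
  have e22 : (2 : Fin 3) + 2 = 1 := rfl
  rw [e01, e02] at a0
  rw [e11, e12] at a1
  rw [e21, e22] at a2
  rw [a0] at p1
  rw [a1] at p2
  rw [a2] at p0
  rw [p0, p1, p2] at hprod
  have : K 2 false 1 * (pv g (path 2) (len 2) * pv g (path 0) (len 0) *
      pv g (path 1) (len 1)) * (K 2 false 1)⁻¹ = 1 := by
    rw [← hprod]
    group
  have h4 := congrArg (fun z => (K 2 false 1)⁻¹ * z * K 2 false 1) this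
  simpa [mul_assoc] using h4

end

/-- Module M5. -/
theorem m5 : M5 := by
  intro m V adj star len path lam hr hs hp0 hp1 hps hlen hg hO G _ g hc
  obtain ⟨lam3, hg3⟩ := reduce adj len path lam hg hO
  exact hexagon hg3 ⟨hr, hs, hp0, hp1, hps, hc⟩ hlen

end Pool.Agent.OM
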