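import Pool.Agent.OM.M6b

/-!
# Module M6: the formula
-/

namespace Pool.Agent.OM.M6

open Pool.Agent.OM Pool.Agent.OM.Lab

variable {n m N0 : ℕ}

/-- forbidden pairs of vertex labels below a face -/
def BadV (adj : Fin N0 → Fin N0 → Prop) (star : Fin N0) (w : List (Fin N0))
    (c c' : Lab (Fin N0) m) : Prop :=
  IsVert c ∧ IsVert c' ∧ c ≠ c' ∧ ¬ (cls c ≠ cls c' ∧ Vadj adj (lenOf w) (pathOf star w) c c')

/-- the rules at one point: `h c` says that the label is `c`, `s c` that `c` is seen -/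
structure LR (adj : Fin N0 → Fin N0 → Prop) (star : Fin N0) (w : List (Fin N0))
    (h s : Lab (Fin N0) m → Prop) : Prop where
  one : ∃ c, Lg w c ∧ h c
  uni : ∀ c, Lg w c → ∀ c', Lg w c' → c ≠ c' → h c → ¬ h c'
  may : ∀ c, Lg w c → ∀ c', Lg w c' → ¬ May c c' → h c → ¬ s c'
  P_must : ∀ (k : Fin 3) (e b b' : Bool), h (P k e b) → s (P k e b')
  E_must : ∀ (k : Fin 3) (e : Bool), h (E k) → s (P k e false)
  W_must : ∀ (k : Fin 3) c, Lg w c → (∃ j q, c = W k j q) → h c → s (E k)
  Ph_ex : ∀ q : Fin 3, h Ph → ∃ c, Lg w c ∧ (IsVert c ∧ cls c = q) ∧ s c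
  Ph_adj : ∀ c, Lg w c → ∀ c', Lg w c' → BadV adj star w c c' → h Ph → s c → ¬ s c'
  Rh_must : h Rh → s Ph
  O_must1 : h O → s Ph
  O_must2 : ∀ c : {c : Lab (Fin N0) m // Fxd c}, IsAx c.1 → h O → s c.1
  G1 : ∀ c c' : {c : Lab (Fin N0) m // Fxd c}, (IsAx c.1 ∧ IsAx c'.1 ∧ c.1 ≠ c'.1) →
    s c.1 → s c'.1 → h O
  G2a : ∀ (i : Fin 3) (b : Bool), s (R i) → ¬ h O →
    s (P (i + 1) true b) ∧ s (P (i + 2) false b)
  G2b : ∀ (i : Fin 3) (e b : Bool), s (R i) → ¬ h O → ¬ s (P i e b)
  G3 : ∀ (l : Fin m) c, Lg w c → (¬ (c = T ∨ c = X l)) → s (X l) → ¬ h O → ¬ s c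
  G6 : ∀ i : Fin 3, s (P (i + 1) true false) → s (P (i + 2) false false) → s (R i)
  G7 : ∀ k : Fin 3, s (P k false false) → s (P k true false) → s (E k)

theorem isAx_fxd {c : Lab (Fin N0) m} (h : IsAx c) : Fxd c := by
  cases c <;> trivial

section
variable {adj : Fin N0 → Fin N0 → Prop} {star : Fin N0} {w : List (Fin N0)}
  {lam : Pt m → Lab (Fin N0) m}

theorem lg_of_good (hg : Good adj (lenOf w) (pathOf star w) lam) (x : Pt m) : Lg w (lam x) :=
  fun k j q h => hg.W_le x k j q h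

theorem LR_of_good (hg : Good adj (lenOf w) (pathOf star w) lam) (x : Pt m) :
    LR adj star w (fun c => lam x = c) (fun c => Sees lam x c) where
  one := ⟨lam x, lg_of_good hg x, rfl⟩
  uni := fun c _ c' _ hne h h' => hne (h.symm.trans h')
  may := fun c _ c' _ hm h hs => by
    have h : lam x = c := h
    subst h
    exact hm (hg.may x c' hs)
  P_must := fun k e b b' h => hg.P_must x k e b h b'
  E_must := fun k e h => hg.E_must x k h e
  W_must := fun k c _ hc h => by
    obtain ⟨j, q, rfl⟩ := hc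
    exact hg.W_must x k j q h
  Ph_ex := fun q h => by
    obtain ⟨c, h1, h2, h3⟩ := hg.Ph_ex x h q
    refine ⟨c, ?_, ⟨h1, h2⟩, h3⟩
    obtain ⟨y, _, rfl⟩ := h3
    exact lg_of_good hg y
  Ph_adj := fun c _ c' _ hb h hs hs' =>
    hb.2.2.2 (hg.Ph_adj x h c c' hb.1 hb.2.1 hs hs' hb.2.2.1)
  Rh_must := fun h => hg.Rh_must x h
  O_must1 := fun h => (hg.O_must x h).1
  O_must2 := fun c hc h => (hg.O_must x h).2 c.1 hc
  G1 := fun c c' hc hs hs' => hg.G1 x c.1 c'.1 hc.1 hc.2.1 hc.2.2 hs hs'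
  G2a := fun i b hs ho => (hg.G2 x i hs ho).1 b
  G2b := fun i e b hs ho => (hg.G2 x i hs ho).2 e b
  G3 := fun l c _ hc hs ho h => hc (hg.G3 x l hs ho c h)
  G6 := fun i h h' => hg.G6 x i h h'
  G7 := fun k h h' => hg.G7 x k h h'

theorem good_of_LR {h s : Pt m → Lab (Fin N0) m → Prop}
    (hlg : ∀ x, Lg w (lam x)) (hh : ∀ x c, Lg w c → (lam x = c ↔ h x c))
    (hs : ∀ x c, Lg w c → (Sees lam x c ↔ s x c)) (hr : ∀ x, LR adj star w (h x) (s x)) :
    Good adj (lenOf w) (pathOf star w) lam := by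
  have lgs : ∀ x c, Sees lam x c → Lg w c := by
    rintro x c ⟨y, _, rfl⟩
    exact hlg y
  have lgx : ∀ x c, lam x = c → Lg w c := by
    rintro x c rfl
    exact hlg x
  have hh' : ∀ x c, lam x = c → h x c := fun x c e => (hh x c (lgx x c e)).1 e
  have hs' : ∀ x c, Sees lam x c → s x c := fun x c e => (hs x c (lgs x c e)).1 e
  have hf : ∀ x c, Fxd c → h x c → lam x = c := fun x c e => (hh x c (lg_of_fxd e)).2
  have sf : ∀ x c, Fxd c → s x c → Sees lam x c := fun x c e => (hs x c (lg_of_fxd e)).2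
  have ho : ∀ x, lam x ≠ O → ¬ h x O := fun x e e' => e (hf x O trivial e')
  constructor
  · intro x c hc
    by_contra hn
    exact (hr x).may _ (hlg x) c (lgs x c hc) hn (hh' x _ rfl) (hs' x c hc)
  · intro x k e b hx b'
    exact sf x _ trivial ((hr x).P_must k e b b' (hh' x _ hx))
  · intro x k hx e
    exact sf x _ trivial ((hr x).E_must k e (hh' x _ hx))
  · intro x k j q hx
    exact sf x _ trivial ((hr x).W_must k _ (lgx x _ hx) ⟨j, q, rfl⟩ (hh' x _ hx))
  · intro x k j q hx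
    exact hlg x k j q hx
  · intro x hx q
    obtain ⟨c, h1, h2, h3⟩ := (hr x).Ph_ex q (hh' x _ hx)
    exact ⟨c, h2.1, h2.2, (hs x c h1).2 h3⟩
  · intro x hx c c' hc hc' hsc hsc' hne
    by_contra hn
    exact (hr x).Ph_adj c (lgs x c hsc) c' (lgs x c' hsc') ⟨hc, hc', hne, hn⟩ (hh' x _ hx)
      (hs' x c hsc) (hs' x c' hsc')
  · intro x hx
    exact sf x _ trivial ((hr x).Rh_must (hh' x _ hx))
  · intro x hx
    refine ⟨sf x _ trivial ((hr x).O_must1 (hh' x _ hx)), fun c hc => ?_⟩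
    exact sf x _ (isAx_fxd hc) ((hr x).O_must2 ⟨c, isAx_fxd hc⟩ hc (hh' x _ hx))
  · intro x c c' hc hc' hne h1 h2
    exact hf x _ trivial ((hr x).G1 ⟨c, isAx_fxd hc⟩ ⟨c', isAx_fxd hc'⟩ ⟨hc, hc', hne⟩
      (hs' x c h1) (hs' x c' h2))
  · intro x i hx hO
    refine ⟨fun b => ⟨sf x _ trivial ?_, sf x _ trivial ?_⟩, fun e b hb => ?_⟩
    · exact ((hr x).G2a i b (hs' x _ hx) (ho x hO)).1
    · exact ((hr x).G2a i b (hs' x _ hx) (ho x hO)).2
    · exact (hr x).G2b i e b (hs' x _ hx) (ho x hO) (hs' x _ hb)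
  · intro x l hx hO c hc
    by_contra hn
    exact (hr x).G3 l c (lgs x c hc) hn (hs' x _ hx) (ho x hO) (hs' x c hc)
  · intro x i h1 h2
    exact sf x _ trivial ((hr x).G6 i (hs' x _ h1) (hs' x _ h2))
  · intro x k h1 h2
    exact sf x _ trivial ((hr x).G7 k (hs' x _ h1) (hs' x _ h2))

end

/-! ### the rules as a family of formulas -/

/-- `c` is the label -/
abbrev hV (V : Val n) (x : Fin n → ℕ) (c : Lab (Fin N0) m) : Prop := V (enc c) x

/-- `c` is seen -/
abbrev sV (V : Val n) (x : Fin n → ℕ) (c : Lab (Fin N0) m) : Prop := ∃ y, x ≤ y ∧ V (enc c) y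

section
variable {α : Type} [Primcodable α]

theorem rh {c : α → Lab (Fin N0) m} (hc : Primrec (fun a => enc (c a))) :
    Rep n (fun a V x => hV V x (c a)) := Rep.var hc

theorem rs {c : α → Lab (Fin N0) m} (hc : Primrec (fun a => enc (c a))) :
    Rep n (fun a V x => sV V x (c a)) := (Rep.var hc).dia

theorem rh0 (c : Lab (Fin N0) m) : Rep n (fun (_ : α) V x => hV V x c) :=
  rh (c := fun _ => c) (Primrec.const _)

theorem rs0 (c : Lab (Fin N0) m) : Rep n (fun (_ : α) V x => sV V x c) :=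
  rs (c := fun _ => c) (Primrec.const _)

end

theorem rep_LR (adj : Fin N0 → Fin N0 → Prop) (star : Fin N0) :
    Rep n (fun (w : List (Fin N0)) V x =>
      LR adj star w (hV (m := m) V x) (sV V x)) := by
  have a1 : Rep n (fun (w : List (Fin N0)) V x => ∃ c : Lab (Fin N0) m, Lg w c ∧ hV V x c) :=
    rep_exists (wd := fun w => w) (B := fun _ c V x => hV V x c) Primrec.id (fun c _ => rh0 c)
      (fun q => rh (enc_W Primrec.snd 0 q))
  have a2 : Rep n (fun (w : List (Fin N0)) V x => ∀ c : Lab (Fin N0) m, Lg w c →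
      ∀ c', Lg w c' → c ≠ c' → hV V x c → ¬ hV V x c') := by
    refine rep_pairs (S := fun _ c c' => c ≠ c') (B := fun c c' V x => hV V x c → ¬ hV V x c')
      ?_ ?_ ?_ ?_ ?_
    · intro α _ c c' hc hc'
      exact (rh hc).imp (rh hc').neg
    · intro c c'
      exact ppc _
    · intro c q'
      exact (pp_eq1 c 0 q' Primrec.snd).not
    · intro q c'
      exact (pp_eq1 c' 0 q Primrec.snd).not.of_eq (fun p => by
        rw [not_iff_not]; exact eq_comm)
    · intro q q'
      exact (pp_eq2 0 q 0 q' (Primrec.snd.comp Primrec.fst) Primrec.snd).not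
  have a3 : Rep n (fun (w : List (Fin N0)) V x => ∀ c : Lab (Fin N0) m, Lg w c →
      ∀ c', Lg w c' → ¬ May c c' → hV V x c → ¬ sV V x c') := by
    refine rep_pairs (S := fun _ c c' => ¬ May c c')
      (B := fun c c' V x => hV V x c → ¬ sV V x c') ?_ ?_ ?_ ?_ ?_
    · intro α _ c c' hc hc'
      exact (rh hc).imp (rs hc').neg
    · intro c c'
      exact ppc _
    · intro c q'
      exact (pp_may1 c 0 q' Primrec.snd).not
    · intro q c'
      exact (pp_may2 0 q c' Primrec.snd).not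
    · intro q q'
      exact (pp_may3 0 q 0 q' (Primrec.snd.comp Primrec.fst) Primrec.snd).not
  have a4 : Rep n (fun (_ : List (Fin N0)) V x => ∀ (k : Fin 3) (e b b' : Bool),
      hV V x (P k e b : Lab (Fin N0) m) → sV V x (P k e b' : Lab (Fin N0) m)) :=
    Rep.all fun k => Rep.all fun e => Rep.all fun b => Rep.all fun b' => (rh0 _).imp (rs0 _)
  have a5 : Rep n (fun (_ : List (Fin N0)) V x => ∀ (k : Fin 3) (e : Bool),
      hV V x (E k : Lab (Fin N0) m) → sV V x (P k e false : Lab (Fin N0) m)) :=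
    Rep.all fun k => Rep.all fun e => (rh0 _).imp (rs0 _)
  have a6 : Rep n (fun (w : List (Fin N0)) V x => ∀ (k : Fin 3) (c : Lab (Fin N0) m), Lg w c →
      (∃ j q, c = W k j q) → hV V x c → sV V x (E k : Lab (Fin N0) m)) := by
    refine Rep.all fun k => ?_
    refine rep_forall (wd := fun w => w)
      (B := fun _ c V x => (∃ j q, c = W k j q) → hV V x c → sV V x (E k : Lab (Fin N0) m))
      Primrec.id (fun c _ => (Rep.cst _).imp ((rh0 _).imp (rs0 _))) (fun q => ?_)
    refine Rep.imp (Rep.sta ?_) ((rh (enc_W Primrec.snd 0 q)).imp (rs0 _))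
    refine (ppc (0 = k)).of_eq fun p => ?_
    constructor
    · rintro rfl; exact ⟨_, _, rfl⟩
    · rintro ⟨j, q', h⟩
      simp only [W.injEq] at h
      exact h.1
  have a7 : Rep n (fun (w : List (Fin N0)) V x => ∀ q : Fin 3, hV V x (Ph : Lab (Fin N0) m) →
      ∃ c : Lab (Fin N0) m, Lg w c ∧ (IsVert c ∧ cls c = q) ∧ sV V x c) := by
    refine Rep.all fun q => (rh0 _).imp ?_
    refine rep_exists (wd := fun w => w) (B := fun _ c V x => (IsVert c ∧ cls c = q) ∧ sV V x c)
      Primrec.id (fun c _ => (Rep.cst _).and (rs0 _)) (fun q' => ?_)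
    exact Rep.and (Rep.sta (ppc (IsVert (W 0 0 q' : Lab (Fin N0) m) ∧
      cls (W 0 0 q' : Lab (Fin N0) m) = q))) (rs (enc_W Primrec.snd 0 q'))
  have a8 : Rep n (fun (w : List (Fin N0)) V x => ∀ c : Lab (Fin N0) m, Lg w c →
      ∀ c', Lg w c' → BadV adj star w c c' → hV V x (Ph : Lab (Fin N0) m) → sV V x c →
        ¬ sV V x c') := by
    refine rep_pairs (S := fun w c c' => BadV adj star w c c')
      (B := fun c c' V x => hV V x (Ph : Lab (Fin N0) m) → sV V x c → ¬ sV V x c') ?_ ?_ ?_ ?_ ?_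
    · intro α _ c c' hc hc'
      exact (rh0 _).imp ((rs hc).imp (rs hc').neg)
    · intro c c'
      exact (ppc _).and ((ppc _).and ((ppc _).and (PrimrecPred.not ((ppc _).and
        (pp_vadj0 adj star Primrec.id c c')))))
    · intro c q'
      have h : PrimrecPred (fun p : List (Fin N0) × ℕ =>
          IsVert c ∧ IsVert (W 0 0 q' : Lab (Fin N0) m) ∧ ¬ (c = W 0 p.2 q') ∧
            ¬ (cls c ≠ cls (W 0 0 q' : Lab (Fin N0) m) ∧
              Vadj adj (lenOf p.1) (pathOf star p.1) c (W 0 p.2 q'))) :=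
        (ppc _).and ((ppc _).and ((pp_eq1 c 0 q' Primrec.snd).not.and (PrimrecPred.not
          ((ppc _).and (pp_vadj1 adj star Primrec.fst c 0 q' Primrec.snd)))))
      exact h
    · intro q c'
      have h : PrimrecPred (fun p : List (Fin N0) × ℕ =>
          IsVert (W 0 0 q : Lab (Fin N0) m) ∧ IsVert c' ∧ ¬ (c' = W 0 p.2 q) ∧
            ¬ (cls (W 0 0 q : Lab (Fin N0) m) ≠ cls c' ∧
              Vadj adj (lenOf p.1) (pathOf star p.1) (W 0 p.2 q) c')) :=
        (ppc _).and ((ppc _).and ((pp_eq1 c' 0 q Primrec.snd).not.and (PrimrecPred.not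
          ((ppc _).and (pp_vadj2 adj star Primrec.fst 0 q c' Primrec.snd)))))
      refine h.of_eq fun p => ?_
      constructor
      · rintro ⟨h1, h2, h3, h4⟩
        exact ⟨h1, h2, fun e => h3 e.symm, h4⟩
      · rintro ⟨h1, h2, h3, h4⟩
        exact ⟨h1, h2, fun e => h3 e.symm, h4⟩
    · intro q q'
      have h : PrimrecPred (fun p : (List (Fin N0) × ℕ) × ℕ =>
          IsVert (W 0 0 q : Lab (Fin N0) m) ∧ IsVert (W 0 0 q' : Lab (Fin N0) m) ∧
            ¬ ((W 0 p.1.2 q : Lab (Fin N0) m) = W 0 p.2 q') ∧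
            ¬ (cls (W 0 0 q : Lab (Fin N0) m) ≠ cls (W 0 0 q' : Lab (Fin N0) m) ∧
              Vadj adj (lenOf p.1.1) (pathOf star p.1.1) (W 0 p.1.2 q : Lab (Fin N0) m)
                (W 0 p.2 q'))) :=
        (ppc _).and ((ppc _).and ((pp_eq2 0 q 0 q' (Primrec.snd.comp Primrec.fst)
          Primrec.snd).not.and (PrimrecPred.not ((ppc _).and (pp_vadj3 adj star
            (Primrec.fst.comp Primrec.fst) 0 q 0 q' (Primrec.snd.comp Primrec.fst)
            Primrec.snd)))))
      exact h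
  have a9 : Rep n (fun (_ : List (Fin N0)) V x => hV V x (Rh : Lab (Fin N0) m) →
      sV V x (Ph : Lab (Fin N0) m)) := (rh0 _).imp (rs0 _)
  have a10 : Rep n (fun (_ : List (Fin N0)) V x => hV V x (O : Lab (Fin N0) m) →
      sV V x (Ph : Lab (Fin N0) m)) := (rh0 _).imp (rs0 _)
  have a11 : Rep n (fun (_ : List (Fin N0)) V x => ∀ c : {c : Lab (Fin N0) m // Fxd c},
      IsAx c.1 → hV V x (O : Lab (Fin N0) m) → sV V x c.1) :=
    Rep.all fun c => (Rep.cst _).imp ((rh0 _).imp (rs0 _))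
  have a12 : Rep n (fun (_ : List (Fin N0)) V x => ∀ c c' : {c : Lab (Fin N0) m // Fxd c},
      (IsAx c.1 ∧ IsAx c'.1 ∧ c.1 ≠ c'.1) → sV V x c.1 → sV V x c'.1 →
        hV V x (O : Lab (Fin N0) m)) :=
    Rep.all fun c => Rep.all fun c' => (Rep.cst _).imp ((rs0 _).imp ((rs0 _).imp (rh0 _)))
  have a13 : Rep n (fun (_ : List (Fin N0)) V x => ∀ (i : Fin 3) (b : Bool),
      sV V x (R i : Lab (Fin N0) m) → ¬ hV V x (O : Lab (Fin N0) m) →
        sV V x (P (i + 1) true b : Lab (Fin N0) m) ∧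
          sV V x (P (i + 2) false b : Lab (Fin N0) m)) :=
    Rep.all fun i => Rep.all fun b => (rs0 _).imp ((rh0 _).neg.imp ((rs0 _).and (rs0 _)))
  have a14 : Rep n (fun (_ : List (Fin N0)) V x => ∀ (i : Fin 3) (e b : Bool),
      sV V x (R i : Lab (Fin N0) m) → ¬ hV V x (O : Lab (Fin N0) m) →
        ¬ sV V x (P i e b : Lab (Fin N0) m)) :=
    Rep.all fun i => Rep.all fun e => Rep.all fun b =>
      (rs0 _).imp ((rh0 _).neg.imp (rs0 _).neg)
  have a15 : Rep n (fun (w : List (Fin N0)) V x => ∀ (l : Fin m) (c : Lab (Fin N0) m), Lg w c →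
      (¬ (c = T ∨ c = X l)) → sV V x (X l : Lab (Fin N0) m) →
        ¬ hV V x (O : Lab (Fin N0) m) → ¬ sV V x c) := by
    refine Rep.all fun l => ?_
    refine rep_forall (wd := fun w => w)
      (B := fun _ c V x => (¬ (c = T ∨ c = X l)) → sV V x (X l : Lab (Fin N0) m) →
        ¬ hV V x (O : Lab (Fin N0) m) → ¬ sV V x c)
      Primrec.id (fun c _ => (Rep.cst _).imp ((rs0 _).imp ((rh0 _).neg.imp (rs0 _).neg)))
      (fun q => ?_)
    refine Rep.imp (Rep.sta (pp_true ?_)) ((rs0 _).imp ((rh0 _).neg.imp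
      (rs (enc_W Primrec.snd 0 q)).neg))
    intro p
    simp
  have a16 : Rep n (fun (_ : List (Fin N0)) V x => ∀ i : Fin 3,
      sV V x (P (i + 1) true false : Lab (Fin N0) m) →
        sV V x (P (i + 2) false false : Lab (Fin N0) m) → sV V x (R i : Lab (Fin N0) m)) :=
    Rep.all fun i => (rs0 _).imp ((rs0 _).imp (rs0 _))
  have a17 : Rep n (fun (_ : List (Fin N0)) V x => ∀ k : Fin 3,
      sV V x (P k false false : Lab (Fin N0) m) →
        sV V x (P k true false : Lab (Fin N0) m) → sV V x (E k : Lab (Fin N0) m)) :=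
    Rep.all fun k => (rs0 _).imp ((rs0 _).imp (rs0 _))
  refine (a1.and (a2.and (a3.and (a4.and (a5.and (a6.and (a7.and (a8.and (a9.and (a10.and
    (a11.and (a12.and (a13.and (a14.and (a15.and (a16.and a17)))))))))))))))).congr ?_
  intro w V x
  constructor
  · rintro ⟨b1, b2, b3, b4, b5, b6, b7, b8, b9, b10, b11, b12, b13, b14, b15, b16, b17⟩
    exact ⟨b1, b2, b3, b4, b5, b6, b7, b8, b9, b10, b11, b12, b13, b14, b15, b16, b17⟩
  · rintro ⟨b1, b2, b3, b4, b5, b6, b7, b8, b9, b10, b11, b12, b13, b14, b15, b16, b17⟩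
    exact ⟨b1, b2, b3, b4, b5, b6, b7, b8, b9, b10, b11, b12, b13, b14, b15, b16, b17⟩

theorem m6 : M6 := by
  intro m N0 adj star
  obtain ⟨f, hf, hs⟩ : Rep (3 + m) (fun (w : List (Fin N0)) V x =>
      V (enc (O : Lab (Fin N0) m)) x → ¬ ∀ y, x ≤ y → LR adj star w (hV (m := m) V y) (sV V y)) :=
    (Rep.var (Primrec.const _)).imp (rep_LR adj star).box.neg
  refine ⟨fun w => code (f w), hf.to_comp, fun w _ => ?_⟩
  rw [mem_L]
  constructor
  · rintro hv ⟨lam, hlam, x, hx⟩
    have h1 := (hs w (fun i y => enc (lam y) = i) x).1 (hv _ x)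
    refine h1 (show enc (lam x) = enc O by rw [hx]) (fun y _ => ?_)
    have e1 : (hV (m := m) (N0 := N0) (fun i y => enc (lam y) = i) y) = fun c => lam y = c := by
      funext c
      exact propext enc_inj
    have e2 : (sV (m := m) (N0 := N0) (fun i y => enc (lam y) = i) y) =
        fun c => Sees lam y c := by
      funext c
      exact propext (exists_congr fun z => and_congr_right fun _ => enc_inj)
    rw [e1, e2]
    exact LR_of_good hlam y
  · intro hn V x
    rw [hs]
    intro hO hr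
    apply hn
    have h1 : ∀ y : Pt m, ∃ c : Lab (Fin N0) m, Lg w c ∧ V (enc c) (x + y) :=
      fun y => (hr (x + y) le_self_add).one
    choose lam hlg hlam using h1
    have hh : ∀ (y : Pt m) (c : Lab (Fin N0) m), Lg w c → (lam y = c ↔ V (enc c) (x + y)) := by
      intro y c hc
      constructor
      · rintro rfl; exact hlam y
      · intro h
        by_contra hne
        exact (hr (x + y) le_self_add).uni _ (hlg y) c hc hne (hlam y) h
    refine ⟨lam, ?_, 0, ?_⟩
    · refine good_of_LR (h := fun y c => V (enc c) (x + y))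
        (s := fun y c => ∃ z, x + y ≤ z ∧ V (enc c) z) hlg hh ?_ ?_
      · intro y c hc
        constructor
        · rintro ⟨z, hz, rfl⟩
          exact ⟨x + z, add_le_add_right hz x, hlam z⟩
        · rintro ⟨z, hz, hV⟩
          have hxz : x ≤ z := le_trans le_self_add hz
          refine ⟨z - x, ?_, ?_⟩
          · intro i
            have := hz i
            simp only [Pi.add_apply, Pi.sub_apply] at this ⊢
            omega
          · rw [hh _ _ hc]
            have e : x + (z - x) = z := by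
              funext i
              have h3 : x i ≤ z i := hxz i
              simp only [Pi.add_apply, Pi.sub_apply]
              omega
            rw [e]; exact hV
      · intro y
        exact hr (x + y) le_self_add
    · rw [hh 0 O (lg_of_fxd trivial)]
      rw [add_zero]
      exact hO

end Pool.Agent.OM.M6
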