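import Pool.Agent.OM.M7a

/-!
# Module M7: a computable bound for `n = 2`
-/

namespace Pool.Agent.OM.M7

open Function

/-! ### Computability of the bound -/

theorem primrec_pow {f g : ℕ → ℕ} (hf : Primrec f) (hg : Primrec g) :
    Primrec (fun k => f k ^ g k) := by
  have h : Nat.Primrec (Nat.unpaired (· ^ ·)) := Nat.Primrec.pow
  have h2 : Primrec₂ (fun a b : ℕ => a ^ b) := Primrec₂.unpaired'.1 h
  exact h2.comp hf hg

/-- number of types -/
def sOf (k : ℕ) : ℕ := 2 ^ (k + 1)

/-- bound for the rows -/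
def nOf (k : ℕ) : ℕ := 2 ^ (2 ^ sOf k)

/-- bound for the columns -/
def mOf (k : ℕ) : ℕ := (2 ^ sOf k) ^ (nOf k + 1)

/-- the bound -/
def bd (k : ℕ) : ℕ := nOf k * sOf k + mOf k * sOf k + sOf k + nOf k + mOf k

theorem primrec_sOf : Primrec sOf := primrec_pow (Primrec.const 2) Primrec.succ

theorem primrec_nOf : Primrec nOf :=
  primrec_pow (Primrec.const 2) (primrec_pow (Primrec.const 2) primrec_sOf)

theorem primrec_mOf : Primrec mOf :=
  primrec_pow (primrec_pow (Primrec.const 2) primrec_sOf) (Primrec.succ.comp primrec_nOf)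

theorem primrec_bd : Primrec bd :=
  Primrec.nat_add.comp (Primrec.nat_add.comp (Primrec.nat_add.comp (Primrec.nat_add.comp
    (Primrec.nat_mul.comp primrec_nOf primrec_sOf) (Primrec.nat_mul.comp primrec_mOf primrec_sOf))
    primrec_sOf) primrec_nOf) primrec_mOf

/-! ### From `ω ^ 2` to the lasso squares -/

theorem tr_pmorph {X Y : Type} (R : X → X → Prop) (R' : Y → Y → Prop) (pi : X → Y)
    (h1 : ∀ x x', R x x' → R' (pi x) (pi x'))
    (h2 : ∀ x y', R' (pi x) y' → ∃ x', R x x' ∧ pi x' = y') (V : ℕ → Y → Prop) (a : Fm) :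
    ∀ x : X, Tr R' V a (pi x) ↔ Tr R (fun i x => V i (pi x)) a x := by
  induction a with
  | var i => intro x; exact Iff.rfl
  | bot => intro x; exact Iff.rfl
  | imp a b iha ihb =>
    intro x
    simp only [Tr]
    rw [iha x, ihb x]
  | box a ih =>
    intro x
    simp only [Tr]
    constructor
    · intro h x' hx
      exact (ih x').1 (h _ (h1 x x' hx))
    · intro h y' hy
      obtain ⟨x', hx, rfl⟩ := h2 x y' hy
      exact (ih x').2 (h x' hx)

/-- the map of the line to the lasso -/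
def lm (s i : ℕ) : ℕ := if i < s then i else s + (i - s) % s

theorem lm_lt {s : ℕ} (hs : 0 < s) (i : ℕ) : lm s i < 2 * s := by
  unfold lm
  split_ifs with h
  · omega
  · have := Nat.mod_lt (i - s) hs
    omega

theorem lm_mono {s : ℕ} {i j : ℕ} (hij : i ≤ j) : lassoLE s (lm s i) (lm s j) := by
  unfold lm lassoLE
  by_cases hi : i < s
  · by_cases hj : j < s
    · rw [if_pos hi, if_pos hj]; exact Or.inl hij
    · rw [if_pos hi, if_neg hj]; left; omega
  · rw [if_neg hi, if_neg (by omega : ¬ j < s)]; right; omega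

theorem lm_back {s : ℕ} (hs : 0 < s) {i j : ℕ} (hj : j < 2 * s) (h : lassoLE s (lm s i) j) :
    ∃ i', i ≤ i' ∧ lm s i' = j := by
  by_cases hjs : j < s
  · have hi : i ≤ j := by
      unfold lm lassoLE at h
      by_cases hi : i < s
      · rw [if_pos hi] at h
        rcases h with h | h <;> omega
      · rw [if_neg hi] at h
        exfalso
        rcases h with h | h
        · have : s ≤ s + (i - s) % s := Nat.le_add_right _ _
          omega
        · omega
    exact ⟨j, hi, by unfold lm; rw [if_pos hjs]⟩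
  · refine ⟨j + s * i, ?_, ?_⟩
    · have : i ≤ s * i := Nat.le_mul_of_pos_left i hs
      omega
    · unfold lm
      rw [if_neg (by omega), show j + s * i - s = (j - s) + s * i by omega,
        Nat.add_mul_mod_self_left, Nat.mod_eq_of_lt (by omega)]
      omega

theorem lm_self {s : ℕ} {j : ℕ} (hj : j < 2 * s) : lm s j = j := by
  unfold lm
  split_ifs with h
  · rfl
  · rw [Nat.mod_eq_of_lt (by omega)]; omega

theorem validSq_of_valid (s : ℕ) (a : Fm) (h : Valid 2 a) : ValidSq s a := by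
  intro V z
  have hs : 0 < s := by
    have := z.1.2
    omega
  let pi : (Fin 2 → ℕ) → Fin (2 * s) × Fin (2 * s) :=
    fun x => (⟨lm s (x 0), lm_lt hs _⟩, ⟨lm s (x 1), lm_lt hs _⟩)
  have hz : pi ![(z.1 : ℕ), (z.2 : ℕ)] = z := by
    apply Prod.ext
    · apply Fin.ext
      exact lm_self z.1.2
    · apply Fin.ext
      exact lm_self z.2.2
  rw [← hz]
  refine (tr_pmorph (fun p q : Fin 2 → ℕ => p ≤ q) (sqLE s) pi ?_ ?_ V a _).2 (h _ _)
  · intro x x' hx
    exact ⟨lm_mono (hx 0), lm_mono (hx 1)⟩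
  · intro x y' hy
    obtain ⟨i, hi, hi'⟩ := lm_back hs y'.1.2 hy.1
    obtain ⟨j, hj, hj'⟩ := lm_back hs y'.2.2 hy.2
    refine ⟨![i, j], ?_, ?_⟩
    · intro k
      fin_cases k
      · exact hi
      · exact hj
    · apply Prod.ext
      · apply Fin.ext
        exact hi'
      · apply Fin.ext
        exact hj'

/-! ### From the lasso squares to `ω ^ 2` -/

/-- points above `x0` -/
def pt (x0 : Fin 2 → ℕ) (p q : ℕ) : Fin 2 → ℕ := ![x0 0 + p, x0 1 + q]

/-- types -/
def tp (K : ℕ) (V : ℕ → (Fin 2 → ℕ) → Prop) (x0 : Fin 2 → ℕ) (p q : ℕ) : Set (Fin (K + 1)) :=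
  {i | ∃ b, code b = i ∧ Tr (fun p q => p ≤ q) V b (pt x0 p q)}

theorem mem_tp {K : ℕ} {V : ℕ → (Fin 2 → ℕ) → Prop} {x0 : Fin 2 → ℕ} {p q : ℕ} {b : Fm}
    (hb : code b < K + 1) :
    (⟨code b, hb⟩ : Fin (K + 1)) ∈ tp K V x0 p q ↔ Tr (fun p q => p ≤ q) V b (pt x0 p q) := by
  constructor
  · rintro ⟨b', hb', h⟩
    have : b' = b := code_inj hb'
    rwa [← this]
  · intro h
    exact ⟨b, rfl, h⟩

theorem valid_of_validSq (a : Fm) (h : ValidSq (bd (code a)) a) : Valid 2 a := by
  classical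
  intro V x0
  by_contra hno
  set K := code a with hK
  have hcard : Fintype.card (Set (Fin (K + 1))) = sOf K := by
    rw [Fintype.card_set, Fintype.card_fin]; rfl
  have hNN : NN (Set (Fin (K + 1))) = nOf K := by
    unfold NN nOf; rw [hcard]
  have hMM : MM (Set (Fin (K + 1))) = mOf K := by
    unfold MM mOf; rw [hcard, hNN]
  have hspos : 0 < sOf K := by unfold sOf; positivity
  obtain ⟨lam', hred, hR, hC⟩ := reduce (tp K V x0)
  rw [hNN] at hR
  rw [hMM] at hC
  obtain ⟨mu, A, B, -, -, h00, hmu⟩ := quotient lam' (nOf K) (mOf K) (bd K) hR hC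
    (by unfold bd; omega) (by unfold bd; omega) (by unfold bd; omega)
    (by rw [hcard]; unfold bd; omega) (by rw [hcard]; unfold bd; omega)
    (by rw [hcard]; unfold bd; omega)
  have hpos : 0 < 2 * bd K := by unfold bd; omega
  have hpair : ∀ z : Fin (2 * bd K) × Fin (2 * bd K), ∃ a0 b0, mu z.1 z.2 = tp K V x0 a0 b0 ∧
      SL (bd K) mu z.1 z.2 = SS (tp K V x0) a0 b0 := by
    intro z
    obtain ⟨⟨a1, b1, h1, h2⟩, -⟩ := hmu z.1 z.2 z.1.2 z.2.2
    obtain ⟨a0, b0, h3, h4⟩ := hred.1 a1 b1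
    exact ⟨a0, b0, h1.trans h3, h2.trans h4⟩
  let V' : ℕ → Fin (2 * bd K) × Fin (2 * bd K) → Prop :=
    fun i z => ∃ h : code (Fm.var i) < K + 1, (⟨code (Fm.var i), h⟩ : Fin (K + 1)) ∈ mu z.1 z.2
  have key : ∀ (b : Fm) (hb : code b < K + 1) (z : Fin (2 * bd K) × Fin (2 * bd K)),
      Tr (sqLE (bd K)) V' b z ↔ (⟨code b, hb⟩ : Fin (K + 1)) ∈ mu z.1 z.2 := by
    intro b
    induction b with
    | var i =>
      intro hb z
      constructor
      · rintro ⟨_, h2⟩; exact h2
      · intro h2; exact ⟨hb, h2⟩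
    | bot =>
      intro hb z
      obtain ⟨a0, b0, h1, -⟩ := hpair z
      rw [h1, mem_tp hb]
      exact Iff.rfl
    | imp b1 b2 ih1 ih2 =>
      intro hb z
      obtain ⟨a0, b0, h1, -⟩ := hpair z
      have hb' := hb
      simp only [code] at hb'
      have hl := Nat.left_le_pair (code b1) (code b2)
      have hr := Nat.right_le_pair (code b1) (code b2)
      have e1 := ih1 (by omega) z
      have e2 := ih2 (by omega) z
      rw [h1, mem_tp] at e1 e2
      rw [h1, mem_tp hb]
      simp only [Tr]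
      rw [e1, e2]
    | box b1 ih =>
      intro hb z
      obtain ⟨a0, b0, h1, h2⟩ := hpair z
      have hb' := hb
      simp only [code] at hb'
      have hb1 : code b1 < K + 1 := by omega
      rw [h1, mem_tp hb]
      simp only [Tr]
      constructor
      · intro hall u hu
        have h3 : tp K V x0 (u 0 - x0 0) (u 1 - x0 1) ∈ SS (tp K V x0) a0 b0 := by
          refine ⟨u 0 - x0 0, u 1 - x0 1, ?_, ?_, rfl⟩
          · have : x0 0 + a0 ≤ u 0 := hu 0
            omega
          · have : x0 1 + b0 ≤ u 1 := hu 1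
            omega
        rw [← h2] at h3
        obtain ⟨p', q', hp', hq', h4, h5, h6⟩ := h3
        have h7 := hall (⟨p', hp'⟩, ⟨q', hq'⟩) ⟨h4, h5⟩
        rw [ih hb1] at h7
        simp only at h7
        rw [h6, mem_tp hb1] at h7
        have hu' : pt x0 (u 0 - x0 0) (u 1 - x0 1) = u := by
          have e0 : x0 0 + a0 ≤ u 0 := hu 0
          have e1 : x0 1 + b0 ≤ u 1 := hu 1
          funext k
          fin_cases k
          · change x0 0 + (u 0 - x0 0) = u 0
            omega
          · change x0 1 + (u 1 - x0 1) = u 1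
            omega
        rwa [hu'] at h7
      · intro hall z' hz'
        rw [ih hb1]
        have h3 : mu z'.1 z'.2 ∈ SL (bd K) mu z.1 z.2 :=
          ⟨z'.1, z'.2, z'.1.2, z'.2.2, hz'.1, hz'.2, rfl⟩
        rw [h2] at h3
        obtain ⟨a', b', ha', hb'', h4⟩ := h3
        rw [← h4, mem_tp hb1]
        apply hall
        intro k
        fin_cases k
        · change x0 0 + a0 ≤ x0 0 + a'
          omega
        · change x0 1 + b0 ≤ x0 1 + b'
          omega
  have h1 := h V' (⟨0, hpos⟩, ⟨0, hpos⟩)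
  rw [key a (by omega)] at h1
  simp only at h1
  rw [h00, hred.2.1, mem_tp] at h1
  apply hno
  have hx : pt x0 0 0 = x0 := by
    funext k
    fin_cases k
    · change x0 0 + 0 = x0 0
      omega
    · change x0 1 + 0 = x0 1
      omega
  rwa [hx] at h1

theorem m7 : M7 :=
  ⟨bd, primrec_bd.to_comp, fun a => ⟨validSq_of_valid _ a, valid_of_validSq a⟩⟩

end Pool.Agent.OM.M7
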