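import Pool.Agent.OM.Spec

/-!
# Module M8: validity in the lasso squares is computable
-/

namespace Pool.Agent.OM.M8

/-- number of points -/
def K (s : ℕ) : ℕ := 2 * s * (2 * s)

/-- the order on the numbers of the points -/
def RN (s x y : ℕ) : Prop :=
  lassoLE s (x / (2 * s)) (y / (2 * s)) ∧ lassoLE s (x % (2 * s)) (y % (2 * s))

/-- truth at the point number `x`; the valuation is the sequence of the bits of `v` -/
def TrN (s v : ℕ) : Fm → ℕ → Prop
  | .var i, x => v / 2 ^ (i * K s + x) % 2 = 1
  | .bot, _ => False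
  | .imp a b, x => TrN s v a x → TrN s v b x
  | .box a, x => ∀ y < K s, RN s x y → TrN s v a y

theorem code_surj : ∀ k : ℕ, ∃ a, code a = k := by
  intro k
  induction k using Nat.strong_induction_on with
  | _ k ih =>
    rcases k with _ | m
    · exact ⟨.bot, rfl⟩
    · have hm := Nat.div_add_mod m 3
      have h3 := Nat.mod_lt m (show 3 > 0 by norm_num)
      have h4 : m / 3 ≤ m := Nat.div_le_self m 3
      obtain h | h | h : m % 3 = 0 ∨ m % 3 = 1 ∨ m % 3 = 2 := by omega
      · exact ⟨.var (m / 3), by simp only [code]; omega⟩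
      · obtain ⟨a, ha⟩ := ih (Nat.unpair (m / 3)).1 (by
          have := Nat.unpair_left_le (m / 3); omega)
        obtain ⟨b, hb⟩ := ih (Nat.unpair (m / 3)).2 (by
          have := Nat.unpair_right_le (m / 3); omega)
        refine ⟨.imp a b, ?_⟩
        simp only [code, ha, hb, Nat.pair_unpair]
        omega
      · obtain ⟨a, ha⟩ := ih (m / 3) (by omega)
        exact ⟨.box a, by simp only [code, ha]; omega⟩

/-- the formula with a given number -/
noncomputable def dec (k : ℕ) : Fm := (code_surj k).choose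

theorem code_dec (k : ℕ) : code (dec k) = k := (code_surj k).choose_spec

theorem dec_code (a : Fm) : dec (code a) = a := code_inj (code_dec _)

open Classical in
/-- list of the truth values of the formula number `k` -/
noncomputable def f (p : ℕ × ℕ) (k : ℕ) : List Bool :=
  (List.range (K p.1)).map (fun x => decide (TrN p.1 p.2 (dec k) x))

/-! ### Primitive recursion -/

theorem primrec_pow {α : Type} [Primcodable α] {f g : α → ℕ} (hf : Primrec f) (hg : Primrec g) :
    Primrec (fun k => f k ^ g k) := by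
  have h : Nat.Primrec (Nat.unpaired (· ^ ·)) := Nat.Primrec.pow
  have h2 : Primrec₂ (fun a b : ℕ => a ^ b) := Primrec₂.unpaired'.1 h
  exact h2.comp hf hg

theorem primrec_K {α : Type} [Primcodable α] {f : α → ℕ} (hf : Primrec f) :
    Primrec (fun k => K (f k)) := by
  have h2 : Primrec (fun k => 2 * f k) := Primrec.nat_mul.comp (Primrec.const 2) hf
  exact Primrec.nat_mul.comp h2 h2

theorem pr_lasso {α : Type} [Primcodable α] {s f g : α → ℕ} (hs : Primrec s) (hf : Primrec f)
    (hg : Primrec g) : PrimrecPred (fun k => lassoLE (s k) (f k) (g k)) :=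
  (Primrec.nat_le.comp hf hg).or ((Primrec.nat_le.comp hs hf).and (Primrec.nat_le.comp hs hg))

theorem pr_RN {α : Type} [Primcodable α] {s f g : α → ℕ} (hs : Primrec s) (hf : Primrec f)
    (hg : Primrec g) : PrimrecPred (fun k => RN (s k) (f k) (g k)) := by
  have h2 : Primrec (fun k => 2 * s k) := Primrec.nat_mul.comp (Primrec.const 2) hs
  exact (pr_lasso hs (Primrec.nat_div.comp hf h2) (Primrec.nat_div.comp hg h2)).and
    (pr_lasso hs (Primrec.nat_mod.comp hf h2) (Primrec.nat_mod.comp hg h2))

/-- lookup in the list of the previous values -/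
def look (l : List (List Bool)) (k x : ℕ) : Prop := (l.getD k []).getD x false = true

instance (l : List (List Bool)) (k x : ℕ) : Decidable (look l k x) := by
  unfold look; infer_instance

theorem pr_look {α : Type} [Primcodable α] {l : α → List (List Bool)} {f g : α → ℕ}
    (hl : Primrec l) (hf : Primrec f) (hg : Primrec g) :
    PrimrecPred (fun k => look (l k) (f k) (g k)) :=
  Primrec.eq.comp ((Primrec.list_getD false).comp ((Primrec.list_getD []).comp hl hf) hg)
    (Primrec.const true)

/-- the recursion step as a predicate: truth of the formula number `m + 1` -/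
def Step (s v : ℕ) (l : List (List Bool)) (m x : ℕ) : Prop :=
  (m % 3 = 0 ∧ v / 2 ^ (m / 3 * K s + x) % 2 = 1) ∨
  (m % 3 = 1 ∧ (¬ look l (Nat.unpair (m / 3)).1 x ∨ look l (Nat.unpair (m / 3)).2 x)) ∨
  (m % 3 = 2 ∧ ∀ y ∈ List.range (K s), ¬ RN s x y ∨ look l (m / 3) y)

/-- the recursion step -/
def Step0 (s v : ℕ) (l : List (List Bool)) (x : ℕ) : Prop :=
  l.length ≠ 0 ∧ Step s v l (l.length - 1) x

/-- parameters of the step -/
abbrev Par : Type := ((ℕ × ℕ) × List (List Bool)) × ℕ

theorem pr_box : PrimrecPred (fun p : Par =>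
    ∀ y ∈ List.range (K p.1.1.1), ¬ RN p.1.1.1 p.2 y ∨ look p.1.2 ((p.1.2.length - 1) / 3) y) := by
  have hs : Primrec (fun p : ℕ × Par => p.2.1.1.1) :=
    Primrec.fst.comp (Primrec.fst.comp (Primrec.fst.comp Primrec.snd))
  have hl : Primrec (fun p : ℕ × Par => p.2.1.2) :=
    Primrec.snd.comp (Primrec.fst.comp Primrec.snd)
  have hm : Primrec (fun p : ℕ × Par => (p.2.1.2.length - 1) / 3) :=
    Primrec.nat_div.comp (Primrec.nat_sub.comp (Primrec.list_length.comp hl) (Primrec.const 1))
      (Primrec.const 3)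
  have hR : PrimrecRel (fun (y : ℕ) (p : Par) =>
      ¬ RN p.1.1.1 p.2 y ∨ look p.1.2 ((p.1.2.length - 1) / 3) y) :=
    ((pr_RN hs (Primrec.snd.comp Primrec.snd) Primrec.fst).not.or (pr_look hl hm Primrec.fst))
  have h := hR.forall_mem_list
  exact h.comp (Primrec.list_range.comp
    (primrec_K (Primrec.fst.comp (Primrec.fst.comp Primrec.fst)))) Primrec.id

theorem pr_step : PrimrecPred (fun p : Par => Step0 p.1.1.1 p.1.1.2 p.1.2 p.2) := by
  have hs : Primrec (fun p : Par => p.1.1.1) := Primrec.fst.comp (Primrec.fst.comp Primrec.fst)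
  have hv : Primrec (fun p : Par => p.1.1.2) := Primrec.snd.comp (Primrec.fst.comp Primrec.fst)
  have hl : Primrec (fun p : Par => p.1.2) := Primrec.snd.comp Primrec.fst
  have hx : Primrec (fun p : Par => p.2) := Primrec.snd
  have hm : Primrec (fun p : Par => p.1.2.length - 1) :=
    Primrec.nat_sub.comp (Primrec.list_length.comp hl) (Primrec.const 1)
  have hd : Primrec (fun p : Par => (p.1.2.length - 1) / 3) :=
    Primrec.nat_div.comp hm (Primrec.const 3)
  have hr : Primrec (fun p : Par => (p.1.2.length - 1) % 3) :=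
    Primrec.nat_mod.comp hm (Primrec.const 3)
  have hu : Primrec (fun p : Par => Nat.unpair ((p.1.2.length - 1) / 3)) :=
    Primrec.unpair.comp hd
  have hbit : Primrec (fun p : Par => p.1.1.2 / 2 ^ ((p.1.2.length - 1) / 3 * K p.1.1.1 + p.2) % 2) :=
    Primrec.nat_mod.comp (Primrec.nat_div.comp hv (primrec_pow (Primrec.const 2)
      (Primrec.nat_add.comp (Primrec.nat_mul.comp hd (primrec_K hs)) hx))) (Primrec.const 2)
  refine (Primrec.eq.comp (Primrec.list_length.comp hl) (Primrec.const 0)).not.and ?_
  refine ((Primrec.eq.comp hr (Primrec.const 0)).and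
    (Primrec.eq.comp hbit (Primrec.const 1))).or ?_
  refine ((Primrec.eq.comp hr (Primrec.const 1)).and
    ((pr_look hl (Primrec.fst.comp hu) hx).not.or (pr_look hl (Primrec.snd.comp hu) hx))).or ?_
  exact (Primrec.eq.comp hr (Primrec.const 2)).and pr_box

open Classical in
theorem pr_g : Primrec₂ (fun (p : ℕ × ℕ) (l : List (List Bool)) =>
    some ((List.range (K p.1)).map (fun x => decide (Step0 p.1 p.2 l x)))) := by
  have h := pr_step.decide
  have h2 : Primrec₂ (fun (q : (ℕ × ℕ) × List (List Bool)) (x : ℕ) =>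
      decide (Step0 q.1.1 q.1.2 q.2 x)) := by
    refine Primrec.of_eq h ?_
    intro p
    congr
  exact Primrec.option_some.comp (Primrec.list_map (Primrec.list_range.comp
    (primrec_K (Primrec.fst.comp Primrec.fst))) h2)


/-! ### The step computes the truth values -/

theorem dec_zero : dec 0 = .bot := dec_code .bot

theorem dec_var {m : ℕ} (h : m % 3 = 0) : dec (m + 1) = .var (m / 3) := by
  have : m + 1 = code (.var (m / 3)) := by simp only [code]; omega
  rw [this, dec_code]

theorem dec_imp {m : ℕ} (h : m % 3 = 1) :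
    dec (m + 1) = .imp (dec (Nat.unpair (m / 3)).1) (dec (Nat.unpair (m / 3)).2) := by
  have : m + 1 = code (.imp (dec (Nat.unpair (m / 3)).1) (dec (Nat.unpair (m / 3)).2)) := by
    simp only [code, code_dec, Nat.pair_unpair]; omega
  rw [this, dec_code]

theorem dec_box {m : ℕ} (h : m % 3 = 2) : dec (m + 1) = .box (dec (m / 3)) := by
  have : m + 1 = code (.box (dec (m / 3))) := by
    simp only [code, code_dec]; omega
  rw [this, dec_code]

theorem look_f {s v n k x : ℕ} (hk : k < n) (hx : x < K s) :
    look ((List.range n).map (f (s, v))) k x ↔ TrN s v (dec k) x := by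
  classical
  have h1 : ((List.range n).map (f (s, v))).getD k [] = f (s, v) k := by
    rw [List.getD_eq_getElem _ _ (by simpa using hk), List.getElem_map, List.getElem_range]
  have h2 : (f (s, v) k).getD x false = decide (TrN s v (dec k) x) := by
    unfold f
    rw [List.getD_eq_getElem _ _ (by simpa using hx), List.getElem_map, List.getElem_range]
  unfold look
  rw [h1, h2, decide_eq_true_eq]

theorem step_iff {s v n x : ℕ} (hx : x < K s) :
    Step0 s v ((List.range n).map (f (s, v))) x ↔ TrN s v (dec n) x := by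
  unfold Step0 Step
  rw [List.length_map, List.length_range]
  rcases n with _ | m
  · rw [dec_zero]
    simp [TrN]
  · have h3 := Nat.mod_lt m (show 3 > 0 by norm_num)
    have h4 : m / 3 ≤ m := Nat.div_le_self m 3
    have e : m + 1 - 1 = m := rfl
    rw [e]
    obtain h | h | h : m % 3 = 0 ∨ m % 3 = 1 ∨ m % 3 = 2 := by omega
    · rw [dec_var h]
      simp [h, TrN]
    · rw [dec_imp h, look_f (Nat.lt_succ_of_le ((Nat.unpair_left_le _).trans h4)) hx,
        look_f (Nat.lt_succ_of_le ((Nat.unpair_right_le _).trans h4)) hx]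
      simp only [h, TrN]
      simp [imp_iff_not_or]
    · rw [dec_box h]
      simp only [h, TrN]
      have h5 : (∀ y ∈ List.range (K s), ¬ RN s x y ∨
          look ((List.range (m + 1)).map (f (s, v))) (m / 3) y) ↔
          ∀ y < K s, RN s x y → TrN s v (dec (m / 3)) y := by
        constructor
        · intro h6 y hy hR
          have := h6 y (List.mem_range.2 hy)
          rw [look_f (Nat.lt_succ_of_le h4) hy] at this
          exact this.resolve_left (fun h => h hR)
        · intro h6 y hy
          rw [List.mem_range] at hy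
          rw [look_f (Nat.lt_succ_of_le h4) hy]
          exact imp_iff_not_or.1 (h6 y hy)
      rw [h5]
      simp

theorem primrec_f : Primrec₂ f := by
  classical
  refine Primrec.nat_strong_rec f pr_g ?_
  rintro ⟨s, v⟩ n
  simp only [f]
  congr 1
  apply List.map_congr_left
  intro x hx
  rw [List.mem_range] at hx
  rw [decide_eq_decide]
  exact step_iff hx

/-! ### Semantics -/

/-- number of a point -/
def idx {s : ℕ} (p : Fin (2 * s) × Fin (2 * s)) : ℕ := p.1.1 * (2 * s) + p.2.1

theorem idx_lt {s : ℕ} (p : Fin (2 * s) × Fin (2 * s)) : idx p < K s := by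
  obtain ⟨⟨a, ha⟩, ⟨b, hb⟩⟩ := p
  unfold idx K
  simp only
  calc a * (2 * s) + b < a * (2 * s) + 2 * s := by omega
    _ = (a + 1) * (2 * s) := by ring
    _ ≤ 2 * s * (2 * s) := Nat.mul_le_mul_right _ ha

theorem idx_div {s : ℕ} (p : Fin (2 * s) × Fin (2 * s)) : idx p / (2 * s) = p.1.1 := by
  obtain ⟨⟨a, ha⟩, ⟨b, hb⟩⟩ := p
  unfold idx
  simp only
  rw [mul_comm, Nat.mul_add_div (by omega), Nat.div_eq_of_lt hb, add_zero]

theorem idx_mod {s : ℕ} (p : Fin (2 * s) × Fin (2 * s)) : idx p % (2 * s) = p.2.1 := by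
  obtain ⟨⟨a, ha⟩, ⟨b, hb⟩⟩ := p
  unfold idx
  simp only
  rw [mul_comm, Nat.mul_add_mod, Nat.mod_eq_of_lt hb]

theorem idx_surj {s y : ℕ} (hy : y < K s) : ∃ p : Fin (2 * s) × Fin (2 * s), idx p = y := by
  unfold K at hy
  have h0 : 0 < 2 * s := by
    rcases Nat.eq_zero_or_pos (2 * s) with h | h
    · rw [h] at hy; simp at hy
    · exact h
  refine ⟨(⟨y / (2 * s), Nat.div_lt_of_lt_mul hy⟩, ⟨y % (2 * s), Nat.mod_lt _ h0⟩), ?_⟩
  unfold idx
  simp only
  rw [mul_comm]
  exact Nat.div_add_mod y (2 * s)

theorem RN_idx {s : ℕ} (p q : Fin (2 * s) × Fin (2 * s)) :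
    RN s (idx p) (idx q) ↔ sqLE s p q := by
  unfold RN sqLE
  rw [idx_div, idx_div, idx_mod, idx_mod]

theorem tr_iff {s v : ℕ} (a : Fm) (p : Fin (2 * s) × Fin (2 * s)) :
    TrN s v a (idx p) ↔ Tr (sqLE s) (fun i q => v / 2 ^ (i * K s + idx q) % 2 = 1) a p := by
  induction a generalizing p with
  | var i => exact Iff.rfl
  | bot => exact Iff.rfl
  | imp a b iha ihb =>
    simp only [TrN, Tr]
    rw [iha, ihb]
  | box a ih =>
    simp only [TrN, Tr]
    constructor
    · intro h q hq
      exact (ih q).1 (h (idx q) (idx_lt q) ((RN_idx p q).2 hq))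
    · intro h y hy hR
      obtain ⟨q, rfl⟩ := idx_surj hy
      exact (ih q).2 (h q ((RN_idx p q).1 hR))

theorem tr_congr {W : Type} (R : W → W → Prop) {V V' : ℕ → W → Prop} (a : Fm) :
    (∀ i ≤ code a, ∀ w, V i w ↔ V' i w) → ∀ w, Tr R V a w ↔ Tr R V' a w := by
  induction a with
  | var i =>
    intro h w
    exact h i (by simp only [code]; omega) w
  | bot => intro h w; exact Iff.rfl
  | imp a b iha ihb =>
    intro h w
    have h1 := Nat.left_le_pair (code a) (code b)
    have h2 := Nat.right_le_pair (code a) (code b)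
    simp only [Tr]
    rw [iha (fun i hi => h i (by simp only [code]; omega)) w,
      ihb (fun i hi => h i (by simp only [code]; omega)) w]
  | box a ih =>
    intro h w
    simp only [Tr]
    exact forall_congr' (fun u => by
      rw [ih (fun i hi => h i (by simp only [code]; omega)) u])

open Classical in
theorem exists_bits {s k : ℕ} (V : ℕ → (Fin (2 * s) × Fin (2 * s)) → Prop) :
    ∃ v < 2 ^ ((k + 1) * K s), ∀ i ≤ k, ∀ q, (v / 2 ^ (i * K s + idx q) % 2 = 1) ↔ V i q := by
  refine ⟨Nat.ofBits (n := (k + 1) * K s) (fun j =>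
    decide (∃ i q, i * K s + idx q = j.1 ∧ V i q)), Nat.ofBits_lt_two_pow _, ?_⟩
  intro i hi q
  have hlt : i * K s + idx q < (k + 1) * K s := by
    have h1 := idx_lt q
    have h2 : (i + 1) * K s ≤ (k + 1) * K s := Nat.mul_le_mul_right _ (by omega)
    have h3 : (i + 1) * K s = i * K s + K s := by ring
    omega
  have h := Nat.testBit_ofBits_lt (n := (k + 1) * K s) (fun j : Fin ((k + 1) * K s) =>
    decide (∃ i q, i * K s + idx q = j.1 ∧ V i q)) (i * K s + idx q) hlt
  rw [Nat.testBit_eq_decide_div_mod_eq, decide_eq_decide] at h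
  rw [h]
  constructor
  · rintro ⟨i', q', he, hV⟩
    change i' * K s + idx q' = i * K s + idx q at he
    have hK : 0 < K s := lt_of_le_of_lt (Nat.zero_le _) (idx_lt q)
    have e1 : i' = i := by
      have := congrArg (fun z => z / K s) he
      beta_reduce at this
      rw [mul_comm i', mul_comm i, Nat.mul_add_div hK, Nat.mul_add_div hK,
        Nat.div_eq_of_lt (idx_lt q'), Nat.div_eq_of_lt (idx_lt q)] at this
      omega
    subst e1
    have e2 : idx q' = idx q := by omega
    have e3 : q' = q := by
      have h4 := congrArg (fun z => z / (2 * s)) e2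
      have h5 := congrArg (fun z => z % (2 * s)) e2
      simp only [idx_div, idx_mod] at h4 h5
      exact Prod.ext (Fin.ext h4) (Fin.ext h5)
    rwa [e3] at hV
  · intro hV
    exact ⟨i, q, rfl, hV⟩

theorem valid_iff (s : ℕ) (a : Fm) :
    ValidSq s a ↔ ∀ v ∈ List.range (2 ^ ((code a + 1) * K s)), ∀ b ∈ f (s, v) (code a),
      b = true := by
  classical
  constructor
  · intro h v _ b hb
    simp only [f, List.mem_map, List.mem_range] at hb
    obtain ⟨x, hx, rfl⟩ := hb
    obtain ⟨p, rfl⟩ := idx_surj hx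
    rw [dec_code]
    simp only [decide_eq_true_eq]
    exact (tr_iff a p).2 (h _ p)
  · intro h V p
    obtain ⟨v, hv, hV⟩ := exists_bits (k := code a) V
    have h1 := h v (List.mem_range.2 hv) (decide (TrN s v a (idx p))) (by
      simp only [f, List.mem_map, List.mem_range]
      refine ⟨idx p, idx_lt p, ?_⟩
      rw [dec_code])
    simp only [decide_eq_true_eq] at h1
    exact (tr_congr (sqLE s) a (fun i hi w => hV i hi w) p).1 ((tr_iff a p).1 h1)

end Pool.Agent.OM.M8

namespace Pool.Agent.OM

open M8 in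
theorem m8 : M8 := by
  classical
  have h0 : PrimrecRel (fun (v : ℕ) (p : ℕ × ℕ) => ∀ b ∈ f (p.1, v) p.2, b = true) := by
    have h1 : PrimrecPred (fun L : List Bool => ∀ b ∈ L, b = true) :=
      PrimrecPred.forall_mem_list (Primrec.eq.comp Primrec.id (Primrec.const true))
    have h2 : Primrec (fun q : ℕ × ℕ × ℕ => f (q.2.1, q.1) q.2.2) :=
      primrec_f.comp ((Primrec.fst.comp Primrec.snd).pair Primrec.fst)
        (Primrec.snd.comp Primrec.snd)
    exact h1.comp h2
  have h3 : PrimrecPred (fun p : ℕ × ℕ => ∀ v ∈ List.range (2 ^ ((p.2 + 1) * K p.1)),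
      ∀ b ∈ f (p.1, v) p.2, b = true) :=
    h0.forall_mem_list.comp (Primrec.list_range.comp (primrec_pow (Primrec.const 2)
      (Primrec.nat_mul.comp (Primrec.succ.comp Primrec.snd) (primrec_K Primrec.fst)))) Primrec.id
  have h4 : PrimrecPred (fun p : ℕ × ℕ => ∃ a, code a = p.2 ∧ ValidSq p.1 a) := by
    refine h3.of_eq ?_
    rintro ⟨s, k⟩
    constructor
    · intro h
      refine ⟨dec k, code_dec k, ?_⟩
      rw [valid_iff, code_dec]
      exact h
    · rintro ⟨a, ha, h⟩
      simp only at ha
      subst ha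
      exact (valid_iff s a).1 h
  exact h4.computablePred

end Pool.Agent.OM
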