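import Pool.Agent.OM.Spec

/-!
# Recursive axiomatizability (module M10: statement and use)
-/

namespace Pool.Agent.OM

/-- Module M10a: the set of theorems of a recursive set is recursively enumerable. -/
def M10a : Prop :=
  ∀ Γ : Set Fm, ComputablePred (fun k => ∃ a ∈ Γ, code a = k) →
    REPred (fun k => ∃ a, code a = k ∧ Der Γ a)

/-- Module M10b: validity in `ω ^ n` is closed under the rules. -/
def M10b : Prop := ∀ n a, Der {a | Valid n a} a → Valid n a

theorem recAx_of_computable (h : M10b) (n : ℕ) (hc : ComputablePred (fun k => k ∈ L n)) :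
    RecAx n := by
  refine ⟨{a | Valid n a}, ?_, fun a => ⟨fun h => Der.ax a h, h n a⟩⟩
  refine ComputablePred.of_eq hc ?_
  intro k
  constructor
  · rintro ⟨a, ha, hv⟩; exact ⟨a, hv, ha⟩
  · rintro ⟨a, hv, ha⟩; exact ⟨a, ha, hv⟩

theorem re_of_recAx (h : M10a) (n : ℕ) (hr : RecAx n) : REPred (fun k => k ∈ L n) := by
  obtain ⟨Γ, hΓ, hd⟩ := hr
  have h1 := h Γ hΓ
  have h2 : (fun k => ∃ a, code a = k ∧ Der Γ a) = fun k => k ∈ L n := by
    funext k
    apply propext
    constructor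
    · rintro ⟨a, ha, hv⟩; exact ⟨a, ha, (hd a).2 hv⟩
    · rintro ⟨a, ha, hv⟩; exact ⟨a, ha, (hd a).1 hv⟩
  rwa [h2] at h1

/-- Final form: decidable iff `n = 2`, recursively axiomatizable iff `n = 2`. -/
theorem main' (h12 : M12) (h3 : M3) (h4 : M4) (h5 : M5) (h6 : M6) (h7 : M7) (h8 : M8)
    (h10a : M10a) (h10b : M10b) (n : ℕ) (hn : 1 < n) :
    (ComputablePred (fun k => k ∈ L n) ↔ n = 2) ∧ (RecAx n ↔ n = 2) ∧
      (REPred (fun k => k ∈ L n) ↔ n = 2) := by
  have h := main h12 h3 h4 h5 h6 h7 h8 n hn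
  refine ⟨h.1, ⟨fun hr => h.2.1 (re_of_recAx h10a n hr), fun h2 => ?_⟩, h.2⟩
  exact recAx_of_computable h10b n (h.1.2 h2)

end Pool.Agent.OM
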