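import Pool.Agent.OM.M1
import Pool.Agent.OM.M2
import Pool.Agent.OM.M3a
import Pool.Agent.OM.M3b
import Pool.Agent.OM.M4
import Pool.Agent.OM.M5
import Pool.Agent.OM.M6
import Pool.Agent.OM.M7
import Pool.Agent.OM.M8
import Pool.Agent.OM.M10a
import Pool.Agent.OM.M10b
import Pool.Agent.OM.RecAx

/-!
# Assembly
-/

namespace Pool.Agent.OM

theorem all_main (n : ℕ) (hn : 1 < n) :
    (ComputablePred (fun k => k ∈ L n) ↔ n = 2) ∧ (RecAx n ↔ n = 2) ∧
      (REPred (fun k => k ∈ L n) ↔ n = 2) :=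
  main' (m12_of m1 m2) (m3_of m3a m3b) m4 m5 M6.m6 M7.m7 m8 m10a m10b n hn

theorem recursive_iff (n : ℕ) : Recursive (Logic n) ↔ ComputablePred (fun k => k ∈ L n) := by
  constructor
  · intro h
    refine ComputablePred.of_eq h ?_
    intro k
    constructor
    · rintro ⟨a, ha, hv⟩; exact ⟨a, hv, ha⟩
    · rintro ⟨a, ha, hv⟩; exact ⟨a, hv, ha⟩
  · intro h
    refine ComputablePred.of_eq h ?_
    intro k
    constructor
    · rintro ⟨a, ha, hv⟩; exact ⟨a, hv, ha⟩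
    · rintro ⟨a, ha, hv⟩; exact ⟨a, hv, ha⟩

end Pool.Agent.OM
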