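import Mathlib

/-!
# The modal logics of the product order on `ω ^ n`

All definitions that are used in the statements of the hand-ins for MP_d4a114_lc.
-/

namespace Pool.Agent.OM

/-- Modal formulas: variables `0, 1, 2, ...`, falsum, implication, and one box. -/
inductive Fm : Type
  | var : ℕ → Fm
  | bot : Fm
  | imp : Fm → Fm → Fm
  | box : Fm → Fm

/-- Truth of a formula at a point of the frame `(W, R)` with the valuation `V`. -/
def Tr {W : Type} (R : W → W → Prop) (V : ℕ → W → Prop) : Fm → W → Prop
  | .var i, w => V i w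
  | .bot, _ => False
  | .imp a b, w => Tr R V a w → Tr R V b w
  | .box a, w => ∀ u, R w u → Tr R V a u

/-- Validity in the frame `(ω ^ n, ≤)`, the `n`-fold direct power of `(ω, ≤)`: truth at every
point under every valuation. (The order of `Fin n → ℕ` is the product order.) -/
def Valid (n : ℕ) (a : Fm) : Prop :=
  ∀ (V : ℕ → (Fin n → ℕ) → Prop) (x : Fin n → ℕ), Tr (fun p q => p ≤ q) V a x

/-- The number of a formula. This is a bijection between formulas and natural numbers. -/
def code : Fm → ℕ
  | .bot => 0
  | .var i => 3 * i + 1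
  | .imp a b => 3 * Nat.pair (code a) (code b) + 2
  | .box a => 3 * code a + 3

/-- Substitution of the formulas `σ i` for the variables `i`. -/
def Fm.subst (σ : ℕ → Fm) : Fm → Fm
  | .var i => σ i
  | .bot => .bot
  | .imp a b => .imp (a.subst σ) (b.subst σ)
  | .box a => .box (a.subst σ)

/-- Derivability from `Γ` and the axioms of the modal logic `K` (a complete set of axiom schemes
for classical propositional logic and the scheme `□ (a → b) → □ a → □ b`) by modus ponens,
substitution and necessitation. -/
inductive Der (Γ : Set Fm) : Fm → Prop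
  | ax (a : Fm) : a ∈ Γ → Der Γ a
  | p1 (a b : Fm) : Der Γ (.imp a (.imp b a))
  | p2 (a b c : Fm) : Der Γ (.imp (.imp a (.imp b c)) (.imp (.imp a b) (.imp a c)))
  | p3 (a : Fm) : Der Γ (.imp (.imp (.imp a .bot) .bot) a)
  | k (a b : Fm) : Der Γ (.imp (.box (.imp a b)) (.imp (.box a) (.box b)))
  | mp (a b : Fm) : Der Γ (.imp a b) → Der Γ a → Der Γ b
  | sub (a : Fm) (σ : ℕ → Fm) : Der Γ a → Der Γ (a.subst σ)
  | nec (a : Fm) : Der Γ a → Der Γ (.box a)

/-- A set of formulas is recursive. -/
def Recursive (Γ : Set Fm) : Prop := ComputablePred (fun k : ℕ => ∃ a ∈ Γ, code a = k)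

/-- The logic `L_n` of `(ω ^ n, ≤)`: the set of the valid formulas. -/
def Logic (n : ℕ) : Set Fm := {a | Valid n a}

/-- `L_n` is recursively axiomatizable: for some recursive set `Γ` of formulas, the closure of `Γ`
and the axioms of `K` under modus ponens, substitution and necessitation is exactly `L_n`. -/
def RecAx (n : ℕ) : Prop := ∃ Γ : Set Fm, Recursive Γ ∧ ∀ a, a ∈ Logic n ↔ Der Γ a

end Pool.Agent.OM
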