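import Pool.Agent.OM.M1Def

/-!
# M1: presentation, universal property, the easy direction, assembly
-/

namespace Pool.Agent.OM

/-- The relations of the group of an affine system. -/
structure ARels {nQ d : ℕ} (rules : List (ARule nQ d)) (h : Fin nQ) {G : Type} [Group G]
    (x : Fin d → G) (t : Fin nQ → G) (s : Fin rules.length → G) (κ : G) : Prop where
  xx : ∀ i j, x i * x j = x j * x i
  st : ∀ i, (s i)⁻¹ * ((x (rules.get i).k) ^ (-(rules.get i).a) * t (rules.get i).s *
      (x (rules.get i).k) ^ (rules.get i).a) * s i =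
    (x (rules.get i).k) ^ (-(rules.get i).a') * t (rules.get i).s' *
      (x (rules.get i).k) ^ (rules.get i).a'
  sx : ∀ i, (s i)⁻¹ * (x (rules.get i).k) ^ (rules.get i).c * s i =
    (x (rules.get i).k) ^ (rules.get i).c'
  sl : ∀ i l, l ≠ (rules.get i).k → (s i)⁻¹ * x l * s i = x l
  ks : ∀ i, κ * s i = s i * κ
  kt : κ * t h = t h * κ

section easy

variable {nQ d : ℕ} {rules : List (ARule nQ d)} {h : Fin nQ} {G : Type} [Group G]
  {x : Fin d → G} {t : Fin nQ → G} {s : Fin rules.length → G} {κ : G}

/-- the homomorphism `N ↦ ∏ x i ^ N i` -/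
noncomputable def xHom (x : Fin d → G) (hx : ∀ i j, x i * x j = x j * x i) :
    (Fin d → Multiplicative ℤ) →* G :=
  MonoidHom.noncommPiCoprod (fun i => zpowersHom G (x i)) (by
    intro i j _ a b
    simp only [zpowersHom_apply]
    exact (Commute.zpow_zpow (hx i j) _ _))

theorem xHom_single (hx : ∀ i j, x i * x j = x j * x i) (i : Fin d) (v : ℤ) :
    xHom x hx (Pi.mulSingle i (Multiplicative.ofAdd v)) = x i ^ v := by
  unfold xHom
  rw [MonoidHom.noncommPiCoprod_mulSingle]
  simp

/-- the element `t (q, N)` -/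
noncomputable def tc (t : Fin nQ → G) (hx : ∀ i j, x i * x j = x j * x i)
    (y : Fin nQ × (Fin d → ℤ)) : G :=
  (xHom x hx (fun i => Multiplicative.ofAdd (y.2 i)))⁻¹ * t y.1 *
    xHom x hx (fun i => Multiplicative.ofAdd (y.2 i))

theorem xHom_conj (hx : ∀ i j, x i * x j = x j * x i) (f : G ≃* G) (N : Fin d → ℤ)
    (hf : ∀ i, f (x i ^ N i) = x i ^ N i) :
    f (xHom x hx (fun i => Multiplicative.ofAdd (N i))) =
      xHom x hx (fun i => Multiplicative.ofAdd (N i)) := by
  unfold xHom MonoidHom.noncommPiCoprod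
  simp only [MonoidHom.coe_mk, OneHom.coe_mk]
  rw [Finset.map_noncommProd]
  refine Finset.noncommProd_congr rfl ?_ _
  intro i _
  simpa using hf i

theorem update_eq (N : Fin d → ℤ) (k : Fin d) (v : ℤ) :
    (fun i => Multiplicative.ofAdd (Function.update N k v i)) =
      Pi.mulSingle k (Multiplicative.ofAdd v) *
        (fun i => Multiplicative.ofAdd (Function.update N k 0 i)) := by
  funext i
  by_cases hi : i = k
  · subst hi
    simp
  · simp [hi]

theorem step_conj (H : ARels rules h x t s κ) (i : Fin rules.length)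
    (y y' : Fin nQ × (Fin d → ℤ)) (z : ℤ) (h1 : y.1 = (rules.get i).s)
    (h2 : y'.1 = (rules.get i).s') (h3 : y.2 (rules.get i).k = (rules.get i).c * z + (rules.get i).a)
    (h4 : y'.2 = Function.update y.2 (rules.get i).k ((rules.get i).c' * z + (rules.get i).a')) :
    MulAut.conj (s i)⁻¹ (tc t H.xx y) = tc t H.xx y' := by
  set ρ := rules.get i with hρ
  set f : G ≃* G := MulAut.conj (s i)⁻¹ with hf
  have hfa : ∀ g, f g = (s i)⁻¹ * g * s i := by intro g; simp [hf]
  set R : G := xHom x H.xx (fun i => Multiplicative.ofAdd (Function.update y.2 ρ.k 0 i)) with hR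
  have e1 : xHom x H.xx (fun i => Multiplicative.ofAdd (y.2 i)) =
      x ρ.k ^ ρ.a * (x ρ.k ^ ρ.c) ^ z * R := by
    have : y.2 = Function.update y.2 ρ.k (ρ.c * z + ρ.a) := by
      rw [← h3, Function.update_eq_self]
    have h5 : (fun i => Multiplicative.ofAdd (y.2 i)) =
      (fun i => Multiplicative.ofAdd (Function.update y.2 ρ.k (ρ.c * z + ρ.a) i)) := by
      rw [← this]
    rw [h5, update_eq, map_mul, xHom_single, ← hR, ← zpow_mul, ← zpow_add, add_comm]
  have e2 : xHom x H.xx (fun i => Multiplicative.ofAdd (y'.2 i)) =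
      x ρ.k ^ ρ.a' * (x ρ.k ^ ρ.c') ^ z * R := by
    rw [h4, update_eq, map_mul, xHom_single, ← hR, ← zpow_mul, ← zpow_add, add_comm]
  have hfR : f R = R := by
    rw [hR]
    refine xHom_conj H.xx f _ ?_
    intro j
    by_cases hj : j = ρ.k
    · subst hj
      simp
    · rw [map_zpow, hfa, H.sl i j hj]
  have hfc : f (x ρ.k ^ ρ.c) = x ρ.k ^ ρ.c' := by rw [hfa]; exact H.sx i
  have hft : f (x ρ.k ^ (-ρ.a) * t ρ.s * x ρ.k ^ ρ.a) =
      x ρ.k ^ (-ρ.a') * t ρ.s' * x ρ.k ^ ρ.a' := by rw [hfa]; exact H.st i
  have e3 : tc t H.xx y = R⁻¹ * ((x ρ.k ^ ρ.c) ^ z)⁻¹ *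
      (x ρ.k ^ (-ρ.a) * t ρ.s * x ρ.k ^ ρ.a) * (x ρ.k ^ ρ.c) ^ z * R := by
    unfold tc
    rw [e1, h1]
    group
  have e4 : tc t H.xx y' = R⁻¹ * ((x ρ.k ^ ρ.c') ^ z)⁻¹ *
      (x ρ.k ^ (-ρ.a') * t ρ.s' * x ρ.k ^ ρ.a') * (x ρ.k ^ ρ.c') ^ z * R := by
    unfold tc
    rw [e2, h2]
    group
  rw [e3, e4]
  generalize x ρ.k ^ (-ρ.a) * t ρ.s * x ρ.k ^ ρ.a = M at hft ⊢
  generalize x ρ.k ^ ρ.c = C at hfc ⊢
  rw [map_mul f, map_mul f, map_mul f, map_mul f, map_inv f, map_inv f, map_zpow f, hfR, hfc, hft]

theorem step_comm (H : ARels rules h x t s κ) {y y' : Fin nQ × (Fin d → ℤ)}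
    (hs : AStep rules y y') :
    κ * tc t H.xx y = tc t H.xx y * κ ↔ κ * tc t H.xx y' = tc t H.xx y' * κ := by
  obtain ⟨ρ, hρ, z, h1, h2, h3, h4⟩ := hs
  obtain ⟨i, rfl⟩ := List.get_of_mem hρ
  have hc := step_conj H i y y' z h1 h2 h3 h4
  have hk : MulAut.conj (s i)⁻¹ κ = κ := by
    rw [MulAut.conj_apply, inv_inv, mul_assoc, H.ks i, ← mul_assoc, inv_mul_cancel, one_mul]
  rw [← hc]
  constructor
  · intro h5
    have := congrArg (MulAut.conj (s i)⁻¹) h5
    rwa [map_mul, map_mul, hk] at this
  · intro h5
    apply (MulAut.conj (s i)⁻¹).injective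
    rw [map_mul, map_mul, hk]
    exact h5

theorem easy (H : ARels rules h x t s κ) {y : Fin nQ × (Fin d → ℤ)}
    (hs : Relation.EqvGen (AStep rules) y (h, 0)) :
    κ * tc t H.xx y = tc t H.xx y * κ := by
  have key : ∀ a b, Relation.EqvGen (AStep rules) a b →
      (κ * tc t H.xx a = tc t H.xx a * κ ↔ κ * tc t H.xx b = tc t H.xx b * κ) := by
    intro a b hab
    induction hab with
    | rel a b hab => exact step_comm H hab
    | refl a => exact Iff.rfl
    | symm a b _ ih => exact ih.symm
    | trans a b c _ _ ih1 ih2 => exact ih1.trans ih2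
  rw [key _ _ hs]
  have e : tc t H.xx ((h, 0) : Fin nQ × (Fin d → ℤ)) = t h := by
    unfold tc
    have : (fun i => Multiplicative.ofAdd ((0 : Fin d → ℤ) i)) =
      (1 : Fin d → Multiplicative ℤ) := by
      funext i; simp
    simp only [this, map_one]
    simp
  rw [e]
  exact H.kt

theorem tc_single (hx : ∀ i j, x i * x j = x j * x i) (q : Fin nQ) (k : Fin d) (v : ℤ) :
    tc t hx (q, Pi.single k v) = (x k) ^ (-v) * t q * (x k) ^ v := by
  unfold tc
  have : (fun i => Multiplicative.ofAdd ((Pi.single k v : Fin d → ℤ) i)) =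
      Pi.mulSingle k (Multiplicative.ofAdd v) := by
    funext i
    by_cases hi : i = k
    · subst hi; simp
    · simp [hi]
  simp only [this, xHom_single, zpow_neg]

end easy

/-! ### Words -/

section words

variable {N : ℕ} {G : Type} [Group G]

/-- evaluation of a word -/
def ev (f : Fin N → G) (w : List (Fin N × Bool)) : G := FreeGroup.lift f (FreeGroup.mk w)

theorem ev_append (f : Fin N → G) (u v : List (Fin N × Bool)) :
    ev f (u ++ v) = ev f u * ev f v := by
  unfold ev
  rw [← FreeGroup.mul_mk, map_mul]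

theorem ev_true (f : Fin N → G) (a : Fin N) : ev f [(a, true)] = f a := by
  unfold ev
  simp

theorem ev_false (f : Fin N → G) (a : Fin N) : ev f [(a, false)] = (f a)⁻¹ := by
  unfold ev
  simp

theorem ev_cons (f : Fin N → G) (p : Fin N × Bool) (v : List (Fin N × Bool)) :
    ev f (p :: v) = ev f [p] * ev f v := by
  rw [← ev_append]
  rfl

theorem ev_nil (f : Fin N → G) : ev f [] = 1 := by
  unfold ev
  simp

theorem ev_inv (f : Fin N → G) (u : List (Fin N × Bool)) :
    ev f (FreeGroup.invRev u) = (ev f u)⁻¹ := by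
  unfold ev
  rw [← map_inv, FreeGroup.inv_mk]

theorem ev_rep_true (f : Fin N → G) (a : Fin N) (n : ℕ) :
    ev f (List.replicate n (a, true)) = f a ^ (n : ℤ) := by
  induction n with
  | zero => simp [ev_nil]
  | succ n ih =>
    rw [List.replicate_succ, ev_cons, ih, ev_true]
    push_cast
    rw [add_comm, zpow_add, zpow_one]

theorem ev_rep_false (f : Fin N → G) (a : Fin N) (n : ℕ) :
    ev f (List.replicate n (a, false)) = f a ^ (-(n : ℤ)) := by
  induction n with
  | zero => simp [ev_nil]
  | succ n ih =>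
    rw [List.replicate_succ, ev_cons, ih, ev_false]
    push_cast
    rw [neg_add, add_comm, zpow_add, zpow_neg_one]

/-- power word -/
def pw (a : Fin N) (n : ℤ) : List (Fin N × Bool) :=
  if 0 ≤ n then List.replicate n.toNat (a, true) else List.replicate (-n).toNat (a, false)

theorem ev_pw (f : Fin N → G) (a : Fin N) (n : ℤ) : ev f (pw a n) = f a ^ n := by
  unfold pw
  split_ifs with h
  · rw [ev_rep_true, Int.toNat_of_nonneg h]
  · rw [ev_rep_false, Int.toNat_of_nonneg (by omega), neg_neg]

end words

/-- A finite family of relations `u i = v i` as a list of relators. -/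
theorem presentation {N : ℕ} {I : Type} [Fintype I] (u v : I → List (Fin N × Bool)) :
    ∃ rels : List (List (Fin N × Bool)),
      (∃ f : Fin N → PresentedGroup (relSet rels),
        (∀ w, wv rels w = ev f w) ∧ ∀ i, ev f (u i) = ev f (v i)) ∧
      ∀ (G : Type) [Group G] (f : Fin N → G), (∀ i, ev f (u i) = ev f (v i)) →
        ∀ w, wv rels w = 1 → ev f w = 1 := by
  classical
  refine ⟨(Finset.univ : Finset I).toList.map (fun i => u i ++ FreeGroup.invRev (v i)),
    ⟨PresentedGroup.of, ?_, ?_⟩, ?_⟩
  · intro w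
    unfold wv ev
    have : (FreeGroup.lift (PresentedGroup.of (rels := relSet
        ((Finset.univ : Finset I).toList.map (fun i => u i ++ FreeGroup.invRev (v i)))))) =
        PresentedGroup.mk _ := by
      ext a
      simp [PresentedGroup.of]
    rw [this]
  · intro i
    have h1 : ∀ w, ev (PresentedGroup.of (rels := relSet
        ((Finset.univ : Finset I).toList.map (fun i => u i ++ FreeGroup.invRev (v i))))) w =
        PresentedGroup.mk _ (FreeGroup.mk w) := by
      intro w
      unfold ev
      have : (FreeGroup.lift (PresentedGroup.of (rels := relSet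
        ((Finset.univ : Finset I).toList.map (fun i => u i ++ FreeGroup.invRev (v i)))))) =
        PresentedGroup.mk _ := by
        ext a
        simp [PresentedGroup.of]
      rw [this]
    have h2 : ev (PresentedGroup.of (rels := relSet
        ((Finset.univ : Finset I).toList.map (fun i => u i ++ FreeGroup.invRev (v i)))))
        (u i ++ FreeGroup.invRev (v i)) = 1 := by
      rw [h1]
      apply PresentedGroup.one_of_mem
      exact ⟨u i ++ FreeGroup.invRev (v i), List.mem_map.2 ⟨i, by simp, rfl⟩, rfl⟩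
    rw [ev_append, ev_inv, mul_inv_eq_one] at h2
    exact h2
  · intro G _ f hf w hw
    have h : ∀ r ∈ relSet ((Finset.univ : Finset I).toList.map
        (fun i => u i ++ FreeGroup.invRev (v i))), FreeGroup.lift f r = 1 := by
      rintro r ⟨y, hy, rfl⟩
      obtain ⟨i, -, rfl⟩ := List.mem_map.1 hy
      change ev f _ = 1
      rw [ev_append, ev_inv, hf i, mul_inv_cancel]
    have h2 : PresentedGroup.toGroup h (wv _ w) = 1 := by rw [hw, map_one]
    exact h2

section assembly

variable {nQ d : ℕ} (rules : List (ARule nQ d)) (h : Fin nQ)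

/-- number of generators -/
abbrev nG : ℕ := d + (nQ + (rules.length + 1))

/-- generator `x i` -/
def gx (i : Fin d) : Fin (nG rules) := Fin.castAdd _ i

/-- generator `t q` -/
def gt (q : Fin nQ) : Fin (nG rules) := Fin.natAdd d (Fin.castAdd _ q)

/-- generator `s i` -/
def gs (i : Fin rules.length) : Fin (nG rules) := Fin.natAdd d (Fin.natAdd nQ (Fin.castAdd 1 i))

/-- generator `κ` -/
def gk : Fin (nG rules) := Fin.natAdd d (Fin.natAdd nQ (Fin.natAdd rules.length 0))

/-- index of the relations -/
abbrev RI : Type :=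
  (Fin d × Fin d) ⊕ Fin rules.length ⊕ Fin rules.length ⊕ (Fin rules.length × Fin d) ⊕
    Fin rules.length ⊕ Unit

/-- left sides -/
def ru : RI rules → List (Fin (nG rules) × Bool)
  | .inl (i, j) => [(gx rules i, true)] ++ [(gx rules j, true)]
  | .inr (.inl i) => [(gs rules i, false)] ++ (pw (gx rules (rules.get i).k) (-(rules.get i).a) ++
      [(gt rules (rules.get i).s, true)] ++ pw (gx rules (rules.get i).k) (rules.get i).a) ++
      [(gs rules i, true)]
  | .inr (.inr (.inl i)) => [(gs rules i, false)] ++ pw (gx rules (rules.get i).k) (rules.get i).c ++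
      [(gs rules i, true)]
  | .inr (.inr (.inr (.inl (i, l)))) =>
      if l = (rules.get i).k then [] else
        [(gs rules i, false)] ++ [(gx rules l, true)] ++ [(gs rules i, true)]
  | .inr (.inr (.inr (.inr (.inl i)))) => [(gk rules, true)] ++ [(gs rules i, true)]
  | .inr (.inr (.inr (.inr (.inr _)))) => [(gk rules, true)] ++ [(gt rules h, true)]

/-- right sides -/
def rv : RI rules → List (Fin (nG rules) × Bool)
  | .inl (i, j) => [(gx rules j, true)] ++ [(gx rules i, true)]
  | .inr (.inl i) => pw (gx rules (rules.get i).k) (-(rules.get i).a') ++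
      [(gt rules (rules.get i).s', true)] ++ pw (gx rules (rules.get i).k) (rules.get i).a'
  | .inr (.inr (.inl i)) => pw (gx rules (rules.get i).k) (rules.get i).c'
  | .inr (.inr (.inr (.inl (i, l)))) =>
      if l = (rules.get i).k then [] else [(gx rules l, true)]
  | .inr (.inr (.inr (.inr (.inl i)))) => [(gs rules i, true)] ++ [(gk rules, true)]
  | .inr (.inr (.inr (.inr (.inr _)))) => [(gt rules h, true)] ++ [(gk rules, true)]

theorem rels_iff {G : Type} [Group G] (f : Fin (nG rules) → G) :
    (∀ i, ev f (ru rules h i) = ev f (rv rules h i)) ↔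
      ARels rules h (fun i => f (gx rules i)) (fun q => f (gt rules q))
        (fun i => f (gs rules i)) (f (gk rules)) := by
  constructor
  · intro H
    refine ⟨?_, ?_, ?_, ?_, ?_, ?_⟩
    · intro i j
      have := H (.inl (i, j))
      simpa only [ru, rv, ev_append, ev_true, ev_false, ev_pw] using this
    · intro i
      have := H (.inr (.inl i))
      simpa only [ru, rv, ev_append, ev_true, ev_false, ev_pw] using this
    · intro i
      have := H (.inr (.inr (.inl i)))
      simpa only [ru, rv, ev_append, ev_true, ev_false, ev_pw] using this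
    · intro i l hl
      have := H (.inr (.inr (.inr (.inl (i, l)))))
      simpa only [ru, rv, if_neg hl, ev_append, ev_true, ev_false, ev_pw] using this
    · intro i
      have := H (.inr (.inr (.inr (.inr (.inl i)))))
      simpa only [ru, rv, ev_append, ev_true, ev_false, ev_pw] using this
    · have := H (.inr (.inr (.inr (.inr (.inr ())))))
      simpa only [ru, rv, ev_append, ev_true, ev_false, ev_pw] using this
  · intro H i
    rcases i with ⟨i, j⟩ | i | i | ⟨i, l⟩ | i | _
    · simp only [ru, rv, ev_append, ev_true]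
      exact H.xx i j
    · simp only [ru, rv, ev_append, ev_true, ev_false, ev_pw]
      exact H.st i
    · simp only [ru, rv, ev_append, ev_true, ev_false, ev_pw]
      exact H.sx i
    · by_cases hl : l = (rules.get i).k
      · simp only [ru, rv, if_pos hl]
      · simp only [ru, rv, if_neg hl, ev_append, ev_true, ev_false]
        exact H.sl i l hl
    · simp only [ru, rv, ev_append, ev_true]
      exact H.ks i
    · simp only [ru, rv, ev_append, ev_true]
      exact H.kt

end assembly

theorem ev_comWord {N : ℕ} {G : Type} [Group G] (f : Fin N → G) (t kk x : Fin N) (v : ℕ) :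
    ev f (comWord t kk x v) = 1 ↔
      f kk * ((f x) ^ (-(v : ℤ)) * f t * (f x) ^ (v : ℤ)) =
        ((f x) ^ (-(v : ℤ)) * f t * (f x) ^ (v : ℤ)) * f kk := by
  have e : ev f (comWord t kk x v) = (f kk)⁻¹ *
      (((f x) ^ (-(v : ℤ)) * f t * (f x) ^ (v : ℤ))⁻¹ * f kk *
        ((f x) ^ (-(v : ℤ)) * f t * (f x) ^ (v : ℤ))) := by
    unfold comWord
    rw [ev_cons]
    simp only [ev_append, ev_true, ev_false, ev_rep_true, ev_rep_false]
    group
  rw [e]
  generalize (f x) ^ (-(v : ℤ)) * f t * (f x) ^ (v : ℤ) = T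
  constructor
  · intro h
    rw [inv_mul_eq_one, eq_comm, mul_assoc, inv_mul_eq_iff_eq_mul] at h
    exact h
  · intro h
    rw [mul_assoc, h]
    group

theorem m1_of (ha : M1a) (hd : M1d) : M1 := by
  intro nQ d rules hpos q0 h k0
  obtain ⟨rels, ⟨f, hf, hfr⟩, huniv⟩ := presentation (ru rules h) (rv rules h)
  refine ⟨nG rules, rels, gt rules q0, gk rules, gx rules k0, ?_⟩
  intro v
  constructor
  · intro hw
    let S : Set (Fin nQ × (Fin d → ℤ)) := {y | Relation.EqvGen (AStep rules) y (h, 0)}
    have hS : ∀ x y, AStep rules x y → (x ∈ S ↔ y ∈ S) := by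
      intro x y hxy
      constructor
      · intro hx
        exact Relation.EqvGen.trans _ _ _ (Relation.EqvGen.symm _ _ (Relation.EqvGen.rel _ _ hxy)) hx
      · intro hy
        exact Relation.EqvGen.trans _ _ _ (Relation.EqvGen.rel _ _ hxy) hy
    obtain ⟨F, K, _, _, x, t, H, α, β, hα, hβ, hH, hxx, hst, hsx, hsl, hmem⟩ :=
      hd nQ d rules hpos S hS
    obtain ⟨G, _, ι, s, κ, hrel, hks, hκ⟩ := ha F K rules.length H α β hα hβ hH
    have hA : ARels rules h (fun i => ι (x i)) (fun q => ι (t q)) s κ := by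
      refine ⟨?_, ?_, ?_, ?_, hks, ?_⟩
      · intro i j
        rw [← map_mul, ← map_mul, hxx]
      · intro i
        obtain ⟨u, h1, h2⟩ := hst i
        have := hrel i u
        rw [h1, h2] at this
        simpa only [map_mul, map_zpow] using this
      · intro i
        obtain ⟨u, h1, h2⟩ := hsx i
        have := hrel i u
        rw [h1, h2] at this
        simpa only [map_mul, map_zpow] using this
      · intro i l hl
        obtain ⟨u, h1, h2⟩ := hsl i l hl
        have := hrel i u
        rwa [h1, h2] at this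
      · rw [hκ]
        have h0 := (hmem h k0 0).2 (by
          have e : (Pi.single k0 (0 : ℤ) : Fin d → ℤ) = 0 := Pi.single_zero k0
          rw [e]
          exact Relation.EqvGen.refl _)
        simpa using h0
    let g : Fin (nG rules) → G := Fin.addCases (fun i => ι (x i))
      (Fin.addCases (fun q => ι (t q)) (Fin.addCases s (fun _ => κ)))
    have gx' : ∀ i, g (gx rules i) = ι (x i) := by
      intro i; simp only [g, gx, Fin.addCases_left]
    have gt' : ∀ i, g (gt rules i) = ι (t i) := by
      intro i; simp only [g, gt, Fin.addCases_left, Fin.addCases_right]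
    have gs' : ∀ i, g (gs rules i) = s i := by
      intro i; simp only [g, gs, Fin.addCases_left, Fin.addCases_right]
    have gk' : g (gk rules) = κ := by
      simp only [g, gk, Fin.addCases_right]
    have hg := (rels_iff rules h g).2 (by
      simp only [gx', gt', gs', gk']
      exact hA)
    have h1 := huniv G g hg _ hw
    rw [ev_comWord, gx', gt', gk'] at h1
    have h2 := (hκ ((x k0) ^ (-(v : ℤ)) * t q0 * (x k0) ^ (v : ℤ))).1 (by
      simpa only [map_mul, map_zpow] using h1)
    exact (hmem q0 k0 v).1 h2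
  · intro he
    rw [hf, ev_comWord]
    have hA := (rels_iff rules h f).1 hfr
    have := easy hA he
    rwa [tc_single] at this

end Pool.Agent.OM
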