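import Pool.Agent.OM.M1Def

/-!
# M1d: the base group `FreeGroup (β × ℤ^d) ⋊ ℤ^d` of an affine system
-/

namespace Pool.Agent.OM

/-! ### A subset of the basis of a free group -/

section free

variable {I J : Type}

/-- the retraction killing the letters outside `S` -/
noncomputable def ret (S : Set I) : FreeGroup I →* FreeGroup I := by
  classical
  exact FreeGroup.lift (fun i => if i ∈ S then FreeGroup.of i else 1)

theorem ret_of (S : Set I) (i : I) [Decidable (i ∈ S)] :
    ret S (FreeGroup.of i) = if i ∈ S then FreeGroup.of i else 1 := by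
  unfold ret
  rw [FreeGroup.lift_apply_of]
  congr

theorem ret_mem (S : Set I) (w : FreeGroup I) :
    ret S w ∈ Subgroup.closure (FreeGroup.of '' S) := by
  classical
  induction w using FreeGroup.induction_on with
  | C1 => rw [map_one]; exact Subgroup.one_mem _
  | of i =>
    rw [ret_of]
    split_ifs with h
    · exact Subgroup.subset_closure ⟨i, h, rfl⟩
    · exact Subgroup.one_mem _
  | inv_of i h => rw [map_inv]; exact Subgroup.inv_mem _ h
  | mul x y hx hy => rw [map_mul]; exact Subgroup.mul_mem _ hx hy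

theorem mem_iff (S : Set I) (w : FreeGroup I) :
    w ∈ Subgroup.closure (FreeGroup.of '' S) ↔ ret S w = w := by
  classical
  constructor
  · intro hw
    induction hw using Subgroup.closure_induction with
    | mem x hx =>
      obtain ⟨i, hi, rfl⟩ := hx
      rw [ret_of, if_pos hi]
    | one => rw [map_one]
    | mul x y _ _ hx hy => rw [map_mul, hx, hy]
    | inv x _ hx => rw [map_inv, hx]
  · intro h
    rw [← h]
    exact ret_mem S w

theorem ret_map (S : Set I) (f : J → I) (w : FreeGroup J) :
    ret S (FreeGroup.map f w) = FreeGroup.map f (ret (f ⁻¹' S) w) := by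
  classical
  have h : (ret S).comp (FreeGroup.map f) = (FreeGroup.map f).comp (ret (f ⁻¹' S)) := by
    apply FreeGroup.ext_hom
    intro j
    rw [MonoidHom.comp_apply, MonoidHom.comp_apply, FreeGroup.map.of, ret_of, ret_of]
    by_cases hj : f j ∈ S
    · rw [if_pos hj, if_pos (show j ∈ f ⁻¹' S from hj), FreeGroup.map.of]
    · rw [if_neg hj, if_neg (show ¬ j ∈ f ⁻¹' S from hj), map_one]
  exact DFunLike.congr_fun h w

theorem map_mem_iff (S : Set I) (f : J → I) (hf : Function.Injective f) (w : FreeGroup J) :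
    FreeGroup.map f w ∈ Subgroup.closure (FreeGroup.of '' S) ↔
      w ∈ Subgroup.closure (FreeGroup.of '' (f ⁻¹' S)) := by
  rw [mem_iff, mem_iff, ret_map]
  exact (FreeGroup.map_injective hf).eq_iff

theorem of_mem_iff (S : Set I) (i : I) :
    FreeGroup.of i ∈ Subgroup.closure (FreeGroup.of '' S) ↔ i ∈ S := by
  classical
  rw [mem_iff, ret_of]
  by_cases h : i ∈ S
  · simp [h]
  · rw [if_neg h]
    exact ⟨fun h1 => absurd h1.symm (FreeGroup.of_ne_one i), fun h1 => absurd h1 h⟩

end free

/-! ### The group -/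

section base

variable (β : Type) (d : ℕ)

/-- shift of the second component -/
def shE (v : Fin d → ℤ) : β × (Fin d → ℤ) ≃ β × (Fin d → ℤ) where
  toFun p := (p.1, p.2 - v)
  invFun p := (p.1, p.2 + v)
  left_inv p := by simp
  right_inv p := by simp

/-- shift action on the free group -/
def shA : Multiplicative (Fin d → ℤ) →* MulAut (FreeGroup (β × (Fin d → ℤ))) where
  toFun v := FreeGroup.freeGroupCongr (shE β d v.toAdd)
  map_one' := by
    ext p
    simp [shE]
  map_mul' v w := by
    ext p
    simp only [toAdd_mul, FreeGroup.freeGroupCongr_apply, MulAut.mul_apply, FreeGroup.map.comp]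
    congr 1
    congr 1
    funext q
    simp [shE, sub_sub, add_comm]

theorem shA_of (v : Multiplicative (Fin d → ℤ)) (p : β × (Fin d → ℤ)) :
    shA β d v (FreeGroup.of p) = FreeGroup.of (p.1, p.2 - v.toAdd) := by
  simp [shA, shE]

/-- the base group -/
abbrev Bs : Type := FreeGroup (β × (Fin d → ℤ)) ⋊[shA β d] Multiplicative (Fin d → ℤ)

end base

section maps

variable {β γ : Type} {d : ℕ}

/-- scaling of the coordinate `k` by `c` -/
def sc (k : Fin d) (c : ℤ) : (Fin d → ℤ) →+ (Fin d → ℤ) where
  toFun v := Function.update v k (c * v k)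
  map_zero' := by
    ext j
    by_cases h : j = k
    · subst h; simp
    · simp [h]
  map_add' v w := by
    ext j
    by_cases h : j = k
    · subst h; simp [mul_add]
    · simp [h]

theorem sc_apply (k : Fin d) (c : ℤ) (v : Fin d → ℤ) : sc k c v = Function.update v k (c * v k) :=
  rfl

theorem sc_inj (k : Fin d) (c : ℤ) (hc : 0 < c) : Function.Injective (sc k c) := by
  intro v w h
  ext j
  have hj := congrFun h j
  rw [sc_apply, sc_apply] at hj
  by_cases h1 : j = k
  · subst h1
    simp only [Function.update_self] at hj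
    exact mul_left_cancel₀ hc.ne' hj
  · simpa [Function.update_of_ne h1] using hj

/-- the map on the basis: `M ↦ (s, sc M + a e_k)` -/
def fb (s : β) (k : Fin d) (c a : ℤ) (p : Unit × (Fin d → ℤ)) : β × (Fin d → ℤ) :=
  (s, sc k c p.2 + Pi.single k a)

theorem fb_inj (s : β) (k : Fin d) (c a : ℤ) (hc : 0 < c) : Function.Injective (fb s k c a) := by
  intro p q h
  have h2 : sc k c p.2 = sc k c q.2 := add_right_cancel (congrArg Prod.snd h)
  exact Prod.ext rfl (sc_inj k c hc h2)

/-- the map of base groups -/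
def mp (s : β) (k : Fin d) (c a : ℤ) : Bs Unit d →* Bs β d :=
  SemidirectProduct.map (FreeGroup.map (fb s k c a)) (AddMonoidHom.toMultiplicative (sc k c)) (by
    intro g
    apply FreeGroup.ext_hom
    intro p
    simp only [MonoidHom.comp_apply, MulEquiv.toMonoidHom_eq_coe, MonoidHom.coe_coe,
      FreeGroup.map.of, shA_of]
    congr 1
    refine Prod.ext rfl ?_
    simp only [fb]
    change sc k c (p.2 - g.toAdd) + _ = sc k c p.2 + _ - sc k c g.toAdd
    rw [map_sub]
    abel)

theorem mp_inj (s : β) (k : Fin d) (c a : ℤ) (hc : 0 < c) :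
    Function.Injective (mp s k c a : Bs Unit d →* Bs β d) := by
  intro x y h
  have h1 : FreeGroup.map (fb s k c a) x.left = FreeGroup.map (fb s k c a) y.left :=
    congrArg SemidirectProduct.left h
  have h2 : sc k c x.right.toAdd = sc k c y.right.toAdd :=
    congrArg SemidirectProduct.right h
  exact SemidirectProduct.ext (FreeGroup.map_injective (fb_inj s k c a hc) h1)
    (sc_inj k c hc h2)

/-- the subgroup of a set of configurations -/
def HS (S : Set (β × (Fin d → ℤ))) : Subgroup (Bs β d) :=
  (Subgroup.closure (FreeGroup.of '' S)).map SemidirectProduct.inl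

theorem mem_HS (S : Set (β × (Fin d → ℤ))) (x : Bs β d) :
    x ∈ HS S ↔ x.right = 1 ∧ x.left ∈ Subgroup.closure (FreeGroup.of '' S) := by
  constructor
  · rintro ⟨w, hw, rfl⟩
    exact ⟨rfl, hw⟩
  · rintro ⟨h1, h2⟩
    exact ⟨x.left, h2, SemidirectProduct.ext rfl h1.symm⟩

theorem mp_mem (S : Set (β × (Fin d → ℤ))) (s : β) (k : Fin d) (c a : ℤ) (hc : 0 < c)
    (u : Bs Unit d) :
    mp s k c a u ∈ HS S ↔
      u.right = 1 ∧ u.left ∈ Subgroup.closure (FreeGroup.of '' (fb s k c a ⁻¹' S)) := by
  rw [mem_HS]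
  have h1 : (mp s k c a u).left = FreeGroup.map (fb s k c a) u.left := rfl
  have h2 : (mp s k c a u).right = Multiplicative.ofAdd (sc k c u.right.toAdd) := rfl
  rw [h1, h2, map_mem_iff S _ (fb_inj s k c a hc)]
  refine and_congr_left fun _ => ?_
  constructor
  · intro h
    have h3 : sc k c u.right.toAdd = sc k c 0 := by
      rw [map_zero]
      exact h
    exact sc_inj k c hc h3
  · intro h
    rw [h]
    change sc k c 0 = 0
    exact map_zero _

end maps

/-! ### M1d -/

/-- `x_i` -/
def xx (β : Type) {d : ℕ} (i : Fin d) : Bs β d :=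
  SemidirectProduct.inr (Multiplicative.ofAdd (Pi.single i 1))

/-- `t_q` -/
def tt {β : Type} (d : ℕ) (q : β) : Bs β d := SemidirectProduct.inl (FreeGroup.of (q, 0))

theorem xx_zpow (β : Type) {d : ℕ} (i : Fin d) (v : ℤ) :
    (xx β i) ^ v = SemidirectProduct.inr (Multiplicative.ofAdd (Pi.single i v)) := by
  unfold xx
  rw [← map_zpow, ← ofAdd_zsmul]
  congr 2
  rw [← Pi.single_smul]
  simp

theorem conj_tt {β : Type} {d : ℕ} (i : Fin d) (v : ℤ) (q : β) :
    (xx β i) ^ (-v) * tt d q * (xx β i) ^ v =
      SemidirectProduct.inl (FreeGroup.of (q, Pi.single i v)) := by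
  have h1 : (xx β i) ^ v = ((xx β i) ^ (-v))⁻¹ := by
    rw [zpow_neg, inv_inv]
  rw [h1, xx_zpow, tt]
  refine (SemidirectProduct.inl_aut (φ := shA β d) (Multiplicative.ofAdd (Pi.single i (-v)))
    (FreeGroup.of (q, 0))).symm.trans ?_
  rw [shA_of]
  simp [Pi.single_neg]

theorem mp_xx {β : Type} {d : ℕ} (s : β) (k : Fin d) (c a : ℤ) (l : Fin d) :
    mp s k c a (xx Unit l) =
      SemidirectProduct.inr (Multiplicative.ofAdd (sc k c (Pi.single l 1))) := by
  unfold mp xx
  rw [SemidirectProduct.map_inr]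
  rfl

theorem mp_tt {β : Type} {d : ℕ} (s : β) (k : Fin d) (c a : ℤ) :
    mp s k c a (tt d ()) = (xx β k) ^ (-a) * tt d s * (xx β k) ^ a := by
  rw [conj_tt]
  unfold mp tt
  rw [SemidirectProduct.map_inl, FreeGroup.map.of]
  simp [fb]

theorem mp_xx_self {β : Type} {d : ℕ} (s : β) (k : Fin d) (c a : ℤ) :
    mp s k c a (xx Unit k) = (xx β k) ^ c := by
  rw [xx_zpow, mp_xx, sc_apply]
  congr 2
  ext j
  by_cases hj : j = k
  · subst hj; simp
  · simp [hj]

theorem mp_xx_ne {β : Type} {d : ℕ} (s : β) (k : Fin d) (c a : ℤ) (l : Fin d) (hl : l ≠ k) :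
    mp s k c a (xx Unit l) = xx β l := by
  rw [mp_xx, sc_apply]
  unfold xx
  congr 2
  ext j
  by_cases hj : j = k
  · subst hj; simp [hl.symm]
  · simp [hj]

theorem m1d : M1d := by
  intro nQ d rules hpos S hS
  have hp : ∀ i : Fin rules.length, 0 < (rules.get i).c ∧ 0 < (rules.get i).c' := fun i =>
    hpos _ (List.get_mem _ _)
  refine ⟨Bs (Fin nQ) d, Bs Unit d, inferInstance, inferInstance, xx (Fin nQ), tt d, HS S,
    fun i => mp (rules.get i).s (rules.get i).k (rules.get i).c (rules.get i).a,
    fun i => mp (rules.get i).s' (rules.get i).k (rules.get i).c' (rules.get i).a',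
    fun i => mp_inj _ _ _ _ (hp i).1, fun i => mp_inj _ _ _ _ (hp i).2, ?_, ?_,
    fun i => ⟨tt d (), mp_tt _ _ _ _, mp_tt _ _ _ _⟩,
    fun i => ⟨xx Unit (rules.get i).k, mp_xx_self _ _ _ _, mp_xx_self _ _ _ _⟩,
    fun i l hl => ⟨xx Unit l, mp_xx_ne _ _ _ _ l hl, mp_xx_ne _ _ _ _ l hl⟩, ?_⟩
  · intro i u
    rw [mp_mem _ _ _ _ _ (hp i).1, mp_mem _ _ _ _ _ (hp i).2]
    have e : fb (rules.get i).s (rules.get i).k (rules.get i).c (rules.get i).a ⁻¹' S =
        fb (rules.get i).s' (rules.get i).k (rules.get i).c' (rules.get i).a' ⁻¹' S := by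
      ext p
      apply hS
      refine ⟨rules.get i, List.get_mem _ _, p.2 (rules.get i).k, rfl, rfl, ?_, ?_⟩
      · simp [fb, sc_apply]
      · generalize rules.get i = ρ
        ext j
        by_cases hj : j = ρ.k
        · subst hj
          simp [fb, sc_apply]
        · simp [fb, sc_apply, hj]
    rw [e]
  · intro i j
    unfold xx
    have h : ∀ g g' : Multiplicative (Fin d → ℤ),
        (SemidirectProduct.inr g : Bs (Fin nQ) d) * SemidirectProduct.inr g' =
          SemidirectProduct.inr g' * SemidirectProduct.inr g := by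
      intro g g'
      rw [← map_mul, ← map_mul, mul_comm]
    exact h _ _
  · intro q k0 v
    rw [conj_tt, mem_HS, SemidirectProduct.left_inl, SemidirectProduct.right_inl, of_mem_iff]
    simp

end Pool.Agent.OM
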