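import Pool.Agent.OM.M1a
import Pool.Agent.OM.M1b
import Pool.Agent.OM.M1d

/-!
# M1: the group side
-/

namespace Pool.Agent.OM

theorem m1 : M1 := m1_of m1a m1d

end Pool.Agent.OM
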