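import Pool.Agent.OM.Aff

/-!
# Interface of the group side M1

`M1a` : tower of HNN extensions with control of a subgroup, and the permutation step.
`M1d` : the base group of an affine system.
-/

namespace Pool.Agent.OM

/-- Tower: `n` partial isomorphisms `α i k ↦ β i k` that respect the subgroup `H`. -/
def M1a : Prop :=
  ∀ (F K : Type) [Group F] [Group K] (n : ℕ) (H : Subgroup F) (α β : Fin n → K →* F),
    (∀ i, Function.Injective (α i)) → (∀ i, Function.Injective (β i)) →
    (∀ i k, α i k ∈ H ↔ β i k ∈ H) →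
    ∃ (G : Type) (_ : Group G) (ι : F →* G) (s : Fin n → G) (κ : G),
      (∀ i k, (s i)⁻¹ * ι (α i k) * s i = ι (β i k)) ∧
      (∀ i, κ * s i = s i * κ) ∧ (∀ x, κ * ι x = ι x * κ ↔ x ∈ H)

/-- Base group of an affine system, with the subgroup of a closed set of configurations. -/
def M1d : Prop :=
  ∀ (nQ d : ℕ) (rules : List (ARule nQ d)), (∀ ρ ∈ rules, 0 < ρ.c ∧ 0 < ρ.c') →
    ∀ (S : Set (Fin nQ × (Fin d → ℤ))), (∀ x y, AStep rules x y → (x ∈ S ↔ y ∈ S)) →
      ∃ (F K : Type) (_ : Group F) (_ : Group K) (x : Fin d → F) (t : Fin nQ → F)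
        (H : Subgroup F) (α β : Fin rules.length → K →* F),
        (∀ i, Function.Injective (α i)) ∧ (∀ i, Function.Injective (β i)) ∧
        (∀ i k, α i k ∈ H ↔ β i k ∈ H) ∧
        (∀ i j, x i * x j = x j * x i) ∧
        (∀ i, ∃ u, α i u = (x (rules.get i).k) ^ (-(rules.get i).a) * t (rules.get i).s *
              (x (rules.get i).k) ^ (rules.get i).a ∧
            β i u = (x (rules.get i).k) ^ (-(rules.get i).a') * t (rules.get i).s' *
              (x (rules.get i).k) ^ (rules.get i).a') ∧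
        (∀ i, ∃ u, α i u = (x (rules.get i).k) ^ (rules.get i).c ∧
            β i u = (x (rules.get i).k) ^ (rules.get i).c') ∧
        (∀ i l, l ≠ (rules.get i).k → ∃ u, α i u = x l ∧ β i u = x l) ∧
        (∀ q k0 (v : ℤ), (x k0) ^ (-v) * t q * (x k0) ^ v ∈ H ↔ (q, Pi.single k0 v) ∈ S)

end Pool.Agent.OM
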