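import Pool.Agent.OM.M1Def

/-!
# M1a: HNN extensions with control of a subgroup; the tower; the permutation step
-/

namespace Pool.Agent.OM

open HNNExtension HNNExtension.NormalWord

section hnn

variable {G : Type} [Group G] {A B : Subgroup G} (φ : A ≃* B)

/-- words with all letters in `H` -/
def HasWord (H : Subgroup G) (x : HNNExtension G A B φ) : Prop :=
  ∃ w : ReducedWord G A B, w.prod φ = x ∧ w.head ∈ H ∧ ∀ p ∈ w.toList, p.2 ∈ H

theorem hasWord_one (H : Subgroup G) : HasWord φ H 1 :=
  ⟨ReducedWord.empty G A B, by simp [ReducedWord.prod], by simp [H.one_mem], by simp⟩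

theorem hasWord_of_mul (H : Subgroup G) {h : G} (hh : h ∈ H) {x : HNNExtension G A B φ}
    (hx : HasWord φ H x) : HasWord φ H (of h * x) := by
  obtain ⟨w, hw, h1, h2⟩ := hx
  refine ⟨⟨h * w.head, w.toList, w.chain⟩, ?_, H.mul_mem hh h1, h2⟩
  rw [← hw]
  simp [ReducedWord.prod, mul_assoc]

theorem conj_eq (u : ℤˣ) (a : toSubgroup A B u) :
    (t : HNNExtension G A B φ) ^ (u : ℤ) * of (a : G) =
      of (toSubgroupEquiv φ u a : G) * t ^ (u : ℤ) := by
  rcases Int.units_eq_one_or u with rfl | rfl
  · rw [Units.val_one, zpow_one]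
    exact t_mul_of (φ := φ) a
  · rw [Units.val_neg, Units.val_one, zpow_neg, zpow_one]
    exact inv_t_mul_of (φ := φ) a

theorem equiv_mem (H : Subgroup G) (hH : ∀ a : A, (a : G) ∈ H ↔ (φ a : G) ∈ H) (u : ℤˣ)
    (a : toSubgroup A B u) (ha : (a : G) ∈ H) : (toSubgroupEquiv φ u a : G) ∈ H := by
  rcases Int.units_eq_one_or u with rfl | rfl
  · exact (hH a).1 ha
  · have h2 : ((φ.symm a : A) : G) ∈ H := by
      rw [hH, MulEquiv.apply_symm_apply]
      exact ha
    exact h2

theorem hasWord_t_mul (H : Subgroup G) (hH : ∀ a : A, (a : G) ∈ H ↔ (φ a : G) ∈ H) (u : ℤˣ)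
    {x : HNNExtension G A B φ} (hx : HasWord φ H x) : HasWord φ H (t ^ (u : ℤ) * x) := by
  obtain ⟨⟨g, l, hc⟩, hw, h1, h2⟩ := hx
  simp only at h1 h2
  by_cases hb : ∃ p l', l = p :: l' ∧ g ∈ toSubgroup A B u ∧ u ≠ p.1
  · obtain ⟨⟨u', g'⟩, l', rfl, hg, hu⟩ := hb
    have hu' : u' = -u := by
      rcases Int.units_eq_one_or u with rfl | rfl <;>
        rcases Int.units_eq_one_or u' with rfl | rfl <;> simp_all
    subst hu'
    refine ⟨⟨(toSubgroupEquiv φ u ⟨g, hg⟩ : G) * g', l', (List.isChain_cons.1 hc).2⟩, ?_, ?_, ?_⟩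
    · rw [← hw]
      have h3 := conj_eq φ u ⟨g, hg⟩
      simp only at h3
      simp only [ReducedWord.prod, List.map_cons, List.prod_cons, map_mul, Units.val_neg,
        zpow_neg]
      rw [← mul_assoc (t ^ (u : ℤ)), h3]
      group
    · exact H.mul_mem (equiv_mem φ H hH u ⟨g, hg⟩ h1) (h2 (-u, g') (by simp))
    · intro p hp
      exact h2 p (by simp [hp])
  · refine ⟨⟨1, (u, g) :: l, ?_⟩, ?_, H.one_mem, ?_⟩
    · rw [List.isChain_cons]
      refine ⟨?_, hc⟩
      intro y hy hg
      obtain ⟨l', rfl⟩ : ∃ l', l = y :: l' := List.head?_eq_some_iff.1 hy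
      by_contra hne
      exact hb ⟨y, l', rfl, hg, hne⟩
    · subst hw
      simp [ReducedWord.prod, mul_assoc]
    · intro p hp
      rcases List.mem_cons.1 hp with rfl | hp
      · exact h1
      · exact h2 p hp

/-- HNN lemma: `⟨of H, t⟩ ∩ of G = of H`. -/
theorem hnn_mem (H : Subgroup G) (hH : ∀ a : A, (a : G) ∈ H ↔ (φ a : G) ∈ H) {g : G}
    (hg : (of g : HNNExtension G A B φ) ∈
      Subgroup.closure ((of '' (H : Set G)) ∪ {(t : HNNExtension G A B φ)})) : g ∈ H := by
  have key : ∀ x : HNNExtension G A B φ,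
      x ∈ Subgroup.closure ((of '' (H : Set G)) ∪ {(t : HNNExtension G A B φ)}) →
      HasWord φ H x := by
    intro x hx
    induction hx using Subgroup.closure_induction_left with
    | one => exact hasWord_one φ H
    | mul_left x hx y _ ih =>
      rcases hx with ⟨h, hh, rfl⟩ | hx
      · exact hasWord_of_mul φ H hh ih
      · rw [Set.mem_singleton_iff] at hx
        subst hx
        simpa using hasWord_t_mul φ H hH 1 ih
    | inv_mul_cancel x hx y _ ih =>
      rcases hx with ⟨h, hh, rfl⟩ | hx
      · rw [← map_inv]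
        exact hasWord_of_mul φ H (H.inv_mem hh) ih
      · rw [Set.mem_singleton_iff] at hx
        subst hx
        simpa using hasWord_t_mul φ H hH (-1) ih
  obtain ⟨w, hw, h1, -⟩ := key _ hg
  have hnil : w.toList = [] :=
    ReducedWord.toList_eq_nil_of_mem_of_range φ w ⟨g, hw.symm⟩
  have h2 : (of w.head : HNNExtension G A B φ) = of g := by
    rw [← hw]
    simp [ReducedWord.prod, hnil]
  rw [← of_injective (φ := φ) h2]
  exact h1

end hnn

/-- The tower. -/
theorem tower {F K : Type} [Group F] [Group K] (H : Subgroup F) (n : ℕ) (α β : Fin n → K →* F)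
    (hα : ∀ i, Function.Injective (α i)) (hβ : ∀ i, Function.Injective (β i))
    (hH : ∀ i k, α i k ∈ H ↔ β i k ∈ H) :
    ∃ (G : Type) (_ : Group G) (ι : F →* G) (s : Fin n → G), Function.Injective ι ∧
      (∀ i k, (s i)⁻¹ * ι (α i k) * s i = ι (β i k)) ∧
      ∀ x, ι x ∈ Subgroup.closure ((ι '' (H : Set F)) ∪ Set.range s) → x ∈ H := by
  induction n with
  | zero =>
    refine ⟨F, inferInstance, MonoidHom.id F, Fin.elim0, fun _ _ h => h, fun i => i.elim0, ?_⟩
    intro x hx
    have hr : Set.range (Fin.elim0 : Fin 0 → F) = ∅ := Set.range_eq_empty _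
    rw [hr, Set.union_empty] at hx
    simpa using hx
  | succ n ih =>
    obtain ⟨G, _, ι, s, hι, hrel, hmem⟩ := ih (fun i => α i.castSucc) (fun i => β i.castSucc)
      (fun i => hα _) (fun i => hβ _) (fun i => hH _)
    have ha : Function.Injective (ι.comp (α (Fin.last n))) := hι.comp (hα _)
    have hb : Function.Injective (ι.comp (β (Fin.last n))) := hι.comp (hβ _)
    let ea := MonoidHom.ofInjective ha
    let eb := MonoidHom.ofInjective hb
    let φ := ea.symm.trans eb
    have hφ : ∀ k, φ (ea k) = eb k := by intro k; simp [φ]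
    set H' : Subgroup G := Subgroup.closure ((ι '' (H : Set F)) ∪ Set.range s) with hH'
    have hmem' : ∀ x, ι x ∈ H' ↔ x ∈ H := by
      intro x
      refine ⟨hmem x, fun hx => Subgroup.subset_closure (Or.inl ⟨x, hx, rfl⟩)⟩
    have hcond : ∀ a : (ι.comp (α (Fin.last n))).range, (a : G) ∈ H' ↔ (φ a : G) ∈ H' := by
      intro a
      obtain ⟨k, rfl⟩ := ea.surjective a
      rw [hφ]
      have e1 : ((ea k : (ι.comp (α (Fin.last n))).range) : G) = ι (α (Fin.last n) k) := rfl
      have e2 : ((eb k : (ι.comp (β (Fin.last n))).range) : G) = ι (β (Fin.last n) k) := rfl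
      rw [e1, e2, hmem', hmem', hH]
    refine ⟨HNNExtension G _ _ φ, inferInstance, (of : G →* HNNExtension G _ _ φ).comp ι,
      Fin.snoc (α := fun _ => HNNExtension G _ _ φ) (fun i => of (s i)) t⁻¹,
      (of_injective (φ := φ)).comp hι, ?_, ?_⟩
    · intro i
      refine Fin.lastCases ?_ ?_ i
      · intro k
        have h1 := equiv_eq_conj (φ := φ) (ea k)
        rw [hφ] at h1
        have e1 : ((ea k : (ι.comp (α (Fin.last n))).range) : G) = ι (α (Fin.last n) k) := rfl
        have e2 : ((eb k : (ι.comp (β (Fin.last n))).range) : G) = ι (β (Fin.last n) k) := rfl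
        rw [e1, e2] at h1
        simp only [Fin.snoc_last, MonoidHom.comp_apply, inv_inv]
        exact h1.symm
      · intro i k
        simp only [Fin.snoc_castSucc, MonoidHom.comp_apply]
        rw [← map_inv, ← map_mul, ← map_mul, hrel]
    · intro x hx
      have h1 : (of (ι x) : HNNExtension G _ _ φ) ∈
          Subgroup.closure ((of '' (H' : Set G)) ∪ {(t : HNNExtension G _ _ φ)}) := by
        have hle : Subgroup.closure
            (((of : G →* HNNExtension G _ _ φ).comp ι '' (H : Set F)) ∪
              Set.range (Fin.snoc (α := fun _ => HNNExtension G _ _ φ) (fun i => of (s i)) t⁻¹)) ≤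
            Subgroup.closure ((of '' (H' : Set G)) ∪ {(t : HNNExtension G _ _ φ)}) := by
          rw [Subgroup.closure_le]
          rintro y (⟨z, hz, rfl⟩ | ⟨i, rfl⟩)
          · exact Subgroup.subset_closure (Or.inl ⟨ι z, (hmem' z).2 hz, rfl⟩)
          · refine Fin.lastCases ?_ ?_ i
            · simp only [Fin.snoc_last]
              exact Subgroup.inv_mem _ (Subgroup.subset_closure (Or.inr rfl))
            · intro i
              simp only [Fin.snoc_castSucc]
              exact Subgroup.subset_closure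
                (Or.inl ⟨s i, Subgroup.subset_closure (Or.inr ⟨i, rfl⟩), rfl⟩)
        exact hle hx
      exact (hmem' x).1 (hnn_mem φ H' hcond h1)

/-- The permutation step: an element that commutes exactly with a subgroup. -/
theorem perm_step {G : Type} [Group G] (B : Subgroup G) :
    ∃ (P : Type) (_ : Group P) (f : G →* P) (κ : P), ∀ x, κ * f x = f x * κ ↔ x ∈ B := by
  classical
  let X := (G ⧸ B) × Bool
  let f : G →* Equiv.Perm X :=
    { toFun := fun g =>
        { toFun := fun p => (g • p.1, p.2)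
          invFun := fun p => (g⁻¹ • p.1, p.2)
          left_inv := by intro p; simp
          right_inv := by intro p; simp }
      map_one' := by ext p <;> simp
      map_mul' := by intro a b; ext p <;> simp [mul_smul] }
  have hf : ∀ g (p : X), f g p = (g • p.1, p.2) := fun g p => rfl
  let b0 : G ⧸ B := ((1 : G) : G ⧸ B)
  refine ⟨Equiv.Perm X, inferInstance, f, Equiv.swap (b0, false) (b0, true), ?_⟩
  intro x
  constructor
  · intro h
    by_contra hx
    have hne : x • b0 ≠ b0 := by
      intro h1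
      have h2 : ((x * 1 : G) : G ⧸ B) = ((1 : G) : G ⧸ B) := h1
      rw [QuotientGroup.eq] at h2
      apply hx
      have h3 := B.inv_mem h2
      simpa using h3
    have h1 := congrArg (fun σ : Equiv.Perm X => σ (b0, false)) h
    simp only [Equiv.Perm.mul_apply, hf, Equiv.swap_apply_left] at h1
    rw [Equiv.swap_apply_of_ne_of_ne] at h1
    · exact Bool.false_ne_true (congrArg Prod.snd h1)
    · intro h2
      exact hne (congrArg Prod.fst h2)
    · intro h2
      exact hne (congrArg Prod.fst h2)
  · intro hx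
    have hfix : x • b0 = b0 := by
      have h2 : ((x * 1 : G) : G ⧸ B) = ((1 : G) : G ⧸ B) := by
        rw [QuotientGroup.eq]
        simpa using B.inv_mem hx
      exact h2
    have h3 : f x * Equiv.swap (b0, false) (b0, true) * (f x)⁻¹ =
        Equiv.swap (b0, false) (b0, true) := by
      rw [← Equiv.swap_apply_apply, hf, hf, hfix]
    rw [mul_inv_eq_iff_eq_mul] at h3
    exact h3.symm

theorem m1a : M1a := by
  intro F K _ _ n H α β hα hβ hH
  obtain ⟨G, _, ι, s, hι, hrel, hmem⟩ := tower H n α β hα hβ hH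
  obtain ⟨P, _, f, κ, hκ⟩ :=
    perm_step (Subgroup.closure ((ι '' (H : Set F)) ∪ Set.range s))
  refine ⟨P, inferInstance, f.comp ι, fun i => f (s i), κ, ?_, ?_, ?_⟩
  · intro i k
    simp only [MonoidHom.comp_apply]
    rw [← map_inv, ← map_mul, ← map_mul, hrel]
  · intro i
    rw [hκ]
    exact Subgroup.subset_closure (Or.inr ⟨i, rfl⟩)
  · intro x
    simp only [MonoidHom.comp_apply]
    rw [hκ]
    refine ⟨hmem x, fun hx => Subgroup.subset_closure (Or.inl ⟨x, hx, rfl⟩)⟩

end Pool.Agent.OM
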