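import Pool.Agent.OM.Aff

/-!
# Digit machines: the link inside the machine side M2

In state `q` with `M q = some (k, f)` the machine reads the digit `a = N k % m`, puts
`z = N k / m`, `(q', c', a') = f a`, and goes to the state `q'` with `N k := c' z + a'`.
`M q = none` : halt.
-/

namespace Pool.Agent.OM

/-- One step of the digit machine. -/
def dstep {Q D : Type} [DecidableEq D] (m : ℕ) (M : Q → Option (D × (ℕ → Q × ℕ × ℕ)))
    (x : Q × (D → ℕ)) : Option (Q × (D → ℕ)) :=
  (M x.1).map (fun p => ((p.2 (x.2 p.1 % m)).1,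
    Function.update x.2 p.1 ((p.2 (x.2 p.1 % m)).2.1 * (x.2 p.1 / m) + (p.2 (x.2 p.1 % m)).2.2)))

end Pool.Agent.OM
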