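import Pool.Agent.OM.M2Def

/-!
# Module M2a: deterministic digit machines give affine systems
-/

namespace Pool.Agent.OM

open StateTransition

namespace M2A

/-- the same machine with integers in the registers -/
def zstep {Q D : Type} [DecidableEq D] (m : ℕ) (M : Q → Option (D × (ℕ → Q × ℕ × ℕ)))
    (x : Q × (D → ℤ)) : Option (Q × (D → ℤ)) :=
  (M x.1).map (fun p => ((p.2 (x.2 p.1 % m).toNat).1,
    Function.update x.2 p.1 (((p.2 (x.2 p.1 % m).toNat).2.1 : ℤ) * (x.2 p.1 / m) +
      ((p.2 (x.2 p.1 % m).toNat).2.2 : ℤ))))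

/-- rules with arbitrary index types -/
structure GRule (Q D : Type) where
  s : Q
  s' : Q
  k : D
  c : ℤ
  a : ℤ
  c' : ℤ
  a' : ℤ

/-- one step of a system of rules -/
def GStep {Q D : Type} [DecidableEq D] (rules : List (GRule Q D)) (x y : Q × (D → ℤ)) : Prop :=
  ∃ ρ ∈ rules, ∃ z : ℤ, x.1 = ρ.s ∧ y.1 = ρ.s' ∧ x.2 ρ.k = ρ.c * z + ρ.a ∧
    y.2 = Function.update x.2 ρ.k (ρ.c' * z + ρ.a')

theorem eqv_map {α β : Type} (φ : α ≃ β) (r : α → α → Prop) (r' : β → β → Prop)
    (h : ∀ x y, r' (φ x) (φ y) ↔ r x y) (x y : α) :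
    Relation.EqvGen r' (φ x) (φ y) ↔ Relation.EqvGen r x y := by
  constructor
  · intro hxy
    have key : ∀ u v, Relation.EqvGen r' u v → Relation.EqvGen r (φ.symm u) (φ.symm v) := by
      intro u v huv
      induction huv with
      | rel u v huv =>
        refine Relation.EqvGen.rel _ _ ((h _ _).1 ?_)
        rwa [φ.apply_symm_apply, φ.apply_symm_apply]
      | refl u => exact Relation.EqvGen.refl _
      | symm u v _ ih => exact ih.symm
      | trans u v w _ _ ih1 ih2 => exact ih1.trans _ _ _ ih2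
    have := key _ _ hxy
    rwa [φ.symm_apply_apply, φ.symm_apply_apply] at this
  · intro hxy
    induction hxy with
    | rel u v huv => exact Relation.EqvGen.rel _ _ ((h _ _).2 huv)
    | refl u => exact Relation.EqvGen.refl _
    | symm u v _ ih => exact ih.symm
    | trans u v w _ _ ih1 ih2 => exact ih1.trans _ _ _ ih2

theorem transport {Q D : Type} [DecidableEq D] {nQ d : ℕ} (eQ : Q ≃ Fin nQ) (eD : D ≃ Fin d)
    (rules : List (GRule Q D)) (x y : Q × (D → ℤ)) :
    Relation.EqvGen (AStep (rules.map fun ρ =>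
      (⟨eQ ρ.s, eQ ρ.s', eD ρ.k, ρ.c, ρ.a, ρ.c', ρ.a'⟩ : ARule nQ d)))
      (eQ x.1, fun i => x.2 (eD.symm i)) (eQ y.1, fun i => y.2 (eD.symm i)) ↔
    Relation.EqvGen (GStep rules) x y := by
  refine eqv_map (Equiv.prodCongr eQ (Equiv.arrowCongr eD (Equiv.refl ℤ))) (GStep rules) _ ?_ x y
  intro x y
  have hupd : ∀ (f : D → ℤ) (k : D) (v : ℤ),
      (fun i => Function.update f k v (eD.symm i)) =
        Function.update (fun i => f (eD.symm i)) (eD k) v := by
    intro f k v
    funext i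
    by_cases hi : i = eD k
    · subst hi
      rw [Function.update_self, eD.symm_apply_apply, Function.update_self]
    · rw [Function.update_of_ne hi, Function.update_of_ne]
      intro h
      exact hi (by rw [← h, eD.apply_symm_apply])
  constructor
  · rintro ⟨ρ', hρ', z, h1, h2, h3, h4⟩
    obtain ⟨ρ, hρ, rfl⟩ := List.mem_map.1 hρ'
    refine ⟨ρ, hρ, z, eQ.injective h1, eQ.injective h2, ?_, ?_⟩
    · have h3' : x.2 (eD.symm (eD ρ.k)) = ρ.c * z + ρ.a := h3
      rwa [eD.symm_apply_apply] at h3'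
    · have h4' : (fun i => y.2 (eD.symm i)) =
          Function.update (fun i => x.2 (eD.symm i)) (eD ρ.k) (ρ.c' * z + ρ.a') := h4
      rw [← hupd] at h4'
      funext k
      have := congrFun h4' (eD k)
      simp only [eD.symm_apply_apply] at this
      exact this
  · rintro ⟨ρ, hρ, z, h1, h2, h3, h4⟩
    refine ⟨_, List.mem_map.2 ⟨ρ, hρ, rfl⟩, z, congrArg eQ h1, congrArg eQ h2, ?_, ?_⟩
    · change x.2 (eD.symm (eD ρ.k)) = ρ.c * z + ρ.a
      rwa [eD.symm_apply_apply]
    · change (fun i => y.2 (eD.symm i)) =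
          Function.update (fun i => x.2 (eD.symm i)) (eD ρ.k) (ρ.c' * z + ρ.a')
      rw [← hupd, h4]

section

variable {Q D : Type} [DecidableEq D] (m : ℕ) (M : Q → Option (D × (ℕ → Q × ℕ × ℕ)))
  (S : Finset Q) (k0 : D)

open Classical in
/-- states -/
noncomputable def enc (q : Q) : Option {q // q ∈ S} := if h : q ∈ S then some ⟨q, h⟩ else none

/-- rules of the state `q` and the digit `a` -/
noncomputable def r1 (x : {q // q ∈ S} × Fin m) : GRule (Option {q // q ∈ S}) D :=
  match M x.1 with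
  | some (k, f) => ⟨some x.1, enc S (f x.2).1, k, m, (x.2 : ℕ), (f x.2).2.1, (f x.2).2.2⟩
  | none => ⟨some x.1, none, k0, 1, 0, 1, 0⟩

/-- cleaning rules -/
def r2 (x : D × Fin m) : GRule (Option {q // q ∈ S}) D := ⟨none, none, x.1, m, (x.2 : ℕ), 1, 0⟩

/-- all rules -/
noncomputable def rr [Fintype D] : List (GRule (Option {q // q ∈ S}) D) :=
  (Finset.univ : Finset ({q // q ∈ S} × Fin m)).toList.map (r1 m M S k0) ++
    (Finset.univ : Finset (D × Fin m)).toList.map (r2 m S)

omit [DecidableEq D] in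
theorem mem_rr [Fintype D] (ρ : GRule (Option {q // q ∈ S}) D) :
    ρ ∈ rr m M S k0 ↔ (∃ x, r1 m M S k0 x = ρ) ∨ ∃ x, r2 m S x = ρ := by
  unfold rr
  rw [List.mem_append, List.mem_map, List.mem_map]
  simp only [Finset.mem_toList, Finset.mem_univ, true_and]

/-- halting configurations -/
def Hlt (x : Option {q // q ∈ S} × (D → ℤ)) : Prop :=
  match x.1 with
  | some q => (eval (zstep m M) (q.1, x.2)).Dom
  | none => True

variable {m M S k0}

theorem hlt_step [Fintype D] (hm : 1 < m)
    (hS : ∀ q ∈ S, ∀ k f, M q = some (k, f) → ∀ a, (f a).1 ∈ S ∧ 0 < (f a).2.1)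
    {x y : Option {q // q ∈ S} × (D → ℤ)} (h : GStep (rr m M S k0) x y) :
    Hlt m M S x ↔ Hlt m M S y := by
  obtain ⟨ρ, hρ, z, h1, h2, h3, h4⟩ := h
  obtain ⟨x1, x2⟩ := x
  obtain ⟨y1, y2⟩ := y
  simp only at h1 h2 h3 h4
  rcases (mem_rr m M S k0 ρ).1 hρ with ⟨⟨q, a⟩, rfl⟩ | ⟨⟨k, a⟩, rfl⟩
  · rcases hM : M q.1 with _ | ⟨k, f⟩
    · have e : r1 m M S k0 (q, a) = ⟨some q, none, k0, 1, 0, 1, 0⟩ := by
        unfold r1
        simp only [hM]
      rw [e] at h1 h2
      simp only at h1 h2
      subst h1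
      subst h2
      have hz : zstep m M (q.1, x2) = none := by
        unfold zstep
        simp only [hM, Option.map_none]
      constructor
      · intro _; trivial
      · intro _
        change (eval (zstep m M) (q.1, x2)).Dom
        have := mem_eval.2 ⟨Relation.ReflTransGen.refl, hz⟩
        exact Part.dom_iff_mem.2 ⟨_, this⟩
    · have e : r1 m M S k0 (q, a) = ⟨some q, enc S (f a).1, k, m, (a : ℕ), (f a).2.1,
          (f a).2.2⟩ := by
        unfold r1
        simp only [hM]
      rw [e] at h1 h2 h3 h4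
      simp only at h1 h2 h3 h4
      subst h1
      have hq' := (hS q.1 q.2 k f hM a).1
      have e2 : enc S (f a).1 = some ⟨(f a).1, hq'⟩ := by
        unfold enc
        rw [dif_pos hq']
      rw [e2] at h2
      subst h2
      have hmpos : (0 : ℤ) < m := by exact_mod_cast (by omega : 0 < m)
      have ha0 : (0 : ℤ) ≤ ((a : ℕ) : ℤ) := Int.natCast_nonneg _
      have ham : ((a : ℕ) : ℤ) < m := by exact_mod_cast a.2
      have hmod : x2 k % m = ((a : ℕ) : ℤ) := by
        rw [h3, add_comm, Int.add_mul_emod_self_left]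
        exact Int.emod_eq_of_lt ha0 ham
      have hdiv : x2 k / m = z := by
        rw [h3, add_comm, Int.add_mul_ediv_left _ _ hmpos.ne', Int.ediv_eq_zero_of_lt ha0 ham,
          zero_add]
      have hz : zstep m M (q.1, x2) = some ((f a).1, y2) := by
        unfold zstep
        simp only [hM, Option.map_some, hmod, hdiv, Int.toNat_natCast, h4]
      change (eval (zstep m M) (q.1, x2)).Dom ↔ (eval (zstep m M) ((f a).1, y2)).Dom
      rw [reaches_eval (f := zstep m M) (a := (q.1, x2)) (b := ((f a).1, y2))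
        (Relation.ReflTransGen.single hz)]
  · have e1 : x1 = none := h1
    have e2 : y1 = none := h2
    subst e1
    subst e2
    exact Iff.rfl

/-- from numbers to integers -/
def cst {Q D : Type} (x : Q × (D → ℕ)) : Q × (D → ℤ) := (x.1, fun k => (x.2 k : ℤ))

theorem zstep_cst (x : Q × (D → ℕ)) : zstep m M (cst x) = (dstep m M x).map cst := by
  unfold zstep dstep cst
  rcases hM : M x.1 with _ | ⟨k, f⟩
  · simp only [Option.map_none]
  · simp only [Option.map_some]
    have h1 : (((x.2 k : ℕ) : ℤ) % m).toNat = x.2 k % m := by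
      rw [← Int.natCast_mod, Int.toNat_natCast]
    have h2 : ((x.2 k : ℕ) : ℤ) / m = ((x.2 k / m : ℕ) : ℤ) := (Int.natCast_div _ _).symm
    rw [h1, h2]
    congr 2
    funext j
    by_cases hj : j = k
    · subst hj
      rw [Function.update_self, Function.update_self]
      push_cast
      rfl
    · rw [Function.update_of_ne hj, Function.update_of_ne hj]

theorem dom_cst (x : Q × (D → ℕ)) :
    (eval (zstep m M) (cst x)).Dom ↔ (eval (dstep m M) x).Dom := by
  have hresp : Respects (dstep m M) (zstep m M) (fun a b => cst a = b) := by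
    rw [fun_respects]
    intro a
    rcases h : dstep m M a with _ | b
    · change zstep m M (cst a) = none
      rw [zstep_cst, h, Option.map_none]
    · change Reaches₁ (zstep m M) (cst a) (cst b)
      refine Relation.TransGen.single ?_
      rw [zstep_cst, h, Option.map_some]
      rfl
  exact tr_eval_dom hresp rfl

theorem clean [Fintype D] (hm : 1 < m) : ∀ (n : ℕ) (N : D → ℕ), ∑ k, N k = n →
    Relation.EqvGen (GStep (rr m M S k0)) (none, fun k => (N k : ℤ)) (none, 0) := by
  intro n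
  induction n using Nat.strong_induction_on with
  | _ n ih =>
    intro N hN
    by_cases h0 : ∀ k, N k = 0
    · have : (fun k => (N k : ℤ)) = 0 := by
        funext k
        rw [h0 k]; rfl
      rw [this]
      exact Relation.EqvGen.refl _
    · push Not at h0
      obtain ⟨k, hk⟩ := h0
      have hlt : N k / m < N k := Nat.div_lt_self (by omega) hm
      have hsum : ∑ j, Function.update N k (N k / m) j < n := by
        rw [← hN]
        refine Finset.sum_lt_sum (fun j _ => ?_) ⟨k, Finset.mem_univ _, ?_⟩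
        · by_cases hj : j = k
          · subst hj; rw [Function.update_self]; omega
          · rw [Function.update_of_ne hj]
        · rw [Function.update_self]; exact hlt
      have h1 := ih _ hsum (Function.update N k (N k / m)) rfl
      refine Relation.EqvGen.trans _ _ _ (Relation.EqvGen.rel _ _ ?_) h1
      refine ⟨r2 m S (k, ⟨N k % m, Nat.mod_lt _ (by omega)⟩), ?_, ((N k / m : ℕ) : ℤ), rfl, rfl,
        ?_, ?_⟩
      · rw [mem_rr]
        exact Or.inr ⟨_, rfl⟩
      · change (N k : ℤ) = (m : ℤ) * ((N k / m : ℕ) : ℤ) + ((N k % m : ℕ) : ℤ)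
        have := Nat.div_add_mod (N k) m
        exact_mod_cast this.symm
      · change (fun j => ((Function.update N k (N k / m) j : ℕ) : ℤ)) =
          Function.update (fun j => (N j : ℤ)) k (1 * ((N k / m : ℕ) : ℤ) + 0)
        funext j
        by_cases hj : j = k
        · subst hj
          rw [Function.update_self, Function.update_self]
          ring
        · rw [Function.update_of_ne hj, Function.update_of_ne hj]

theorem step_of [Fintype D] (hm : 1 < m)
    (hS : ∀ q ∈ S, ∀ k f, M q = some (k, f) → ∀ a, (f a).1 ∈ S ∧ 0 < (f a).2.1)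
    {x y : Q × (D → ℕ)} (hx : x.1 ∈ S) (h : dstep m M x = some y) :
    y.1 ∈ S ∧ GStep (rr m M S k0) (enc S x.1, fun k => (x.2 k : ℤ))
      (enc S y.1, fun k => (y.2 k : ℤ)) := by
  obtain ⟨q, N⟩ := x
  simp only at hx
  unfold dstep at h
  simp only at h
  rcases hM : M q with _ | ⟨k, f⟩
  · rw [hM] at h
    exact absurd h (by simp)
  · rw [hM] at h
    simp only [Option.map_some, Option.some.injEq] at h
    subst h
    refine ⟨(hS q hx k f hM _).1, ?_⟩
    have ex : enc S q = some ⟨q, hx⟩ := by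
      unfold enc
      rw [dif_pos hx]
    let a : Fin m := ⟨N k % m, Nat.mod_lt _ (by omega)⟩
    have e : r1 m M S k0 (⟨q, hx⟩, a) = ⟨some ⟨q, hx⟩, enc S (f a).1, k, m, (a : ℕ), (f a).2.1,
        (f a).2.2⟩ := by
      unfold r1
      simp only [hM]
    refine ⟨r1 m M S k0 (⟨q, hx⟩, a), (mem_rr _ _ _ _ _).2 (Or.inl ⟨_, rfl⟩),
      ((N k / m : ℕ) : ℤ), ?_, ?_, ?_, ?_⟩
    · rw [e]; exact ex
    · rw [e]
    · rw [e]
      change (N k : ℤ) = (m : ℤ) * ((N k / m : ℕ) : ℤ) + ((N k % m : ℕ) : ℤ)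
      have := Nat.div_add_mod (N k) m
      exact_mod_cast this.symm
    · rw [e]
      funext j
      change ((Function.update N k ((f (N k % m)).2.1 * (N k / m) + (f (N k % m)).2.2) j : ℕ) : ℤ) =
        Function.update (fun j => (N j : ℤ)) k
          (((f (N k % m)).2.1 : ℤ) * ((N k / m : ℕ) : ℤ) + ((f (N k % m)).2.2 : ℤ)) j
      by_cases hj : j = k
      · subst hj
        rw [Function.update_self, Function.update_self]
        push_cast
        rfl
      · rw [Function.update_of_ne hj, Function.update_of_ne hj]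

theorem reach_of [Fintype D] (hm : 1 < m)
    (hS : ∀ q ∈ S, ∀ k f, M q = some (k, f) → ∀ a, (f a).1 ∈ S ∧ 0 < (f a).2.1)
    {x y : Q × (D → ℕ)} (hx : x.1 ∈ S) (h : Reaches (dstep m M) x y) :
    y.1 ∈ S ∧ Relation.EqvGen (GStep (rr m M S k0)) (enc S x.1, fun k => (x.2 k : ℤ))
      (enc S y.1, fun k => (y.2 k : ℤ)) := by
  induction h with
  | refl => exact ⟨hx, Relation.EqvGen.refl _⟩
  | tail _ h2 ih =>
    obtain ⟨h3, h4⟩ := step_of (k0 := k0) hm hS ih.1 h2
    exact ⟨h3, ih.2.trans _ _ _ (Relation.EqvGen.rel _ _ h4)⟩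

theorem generic [Fintype D] (hm : 1 < m)
    (hS : ∀ q ∈ S, ∀ k f, M q = some (k, f) → ∀ a, (f a).1 ∈ S ∧ 0 < (f a).2.1)
    (q0 : Q) (hq0 : q0 ∈ S) (N : D → ℕ) :
    Relation.EqvGen (GStep (rr m M S k0)) (enc S q0, fun k => (N k : ℤ)) (none, 0) ↔
      (eval (dstep m M) (q0, N)).Dom := by
  have ex : enc S q0 = some ⟨q0, hq0⟩ := by
    unfold enc
    rw [dif_pos hq0]
  constructor
  · intro h
    have key : ∀ x y, Relation.EqvGen (GStep (rr m M S k0)) x y →
        (Hlt m M S x ↔ Hlt m M S y) := by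
      intro x y hxy
      induction hxy with
      | rel x y h => exact hlt_step hm hS h
      | refl x => exact Iff.rfl
      | symm x y _ ih => exact ih.symm
      | trans x y z _ _ ih1 ih2 => exact ih1.trans ih2
    have h1 := (key _ _ h).2 trivial
    rw [ex] at h1
    have h2 : (eval (zstep m M) (cst (q0, N))).Dom := h1
    exact (dom_cst _).1 h2
  · intro h
    obtain ⟨y, hy⟩ := Part.dom_iff_mem.1 h
    obtain ⟨h1, h2⟩ := mem_eval.1 hy
    obtain ⟨h3, h4⟩ := reach_of (k0 := k0) hm hS (x := (q0, N)) hq0 h1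
    refine h4.trans _ _ _ (Relation.EqvGen.trans _ (none, fun k => (y.2 k : ℤ)) _ ?_
      (clean hm _ y.2 rfl))
    refine Relation.EqvGen.rel _ _ ?_
    have hM : M y.1 = none := by
      unfold dstep at h2
      simpa using h2
    have hm0 : 0 < m := by omega
    let a : Fin m := ⟨0, hm0⟩
    have e : r1 m M S k0 (⟨y.1, h3⟩, a) = ⟨some ⟨y.1, h3⟩, none, k0, 1, 0, 1, 0⟩ := by
      unfold r1
      simp only [hM]
    have ey : enc S y.1 = some ⟨y.1, h3⟩ := by
      unfold enc
      rw [dif_pos h3]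
    refine ⟨r1 m M S k0 (⟨y.1, h3⟩, a), (mem_rr _ _ _ _ _).2 (Or.inl ⟨_, rfl⟩),
      (y.2 k0 : ℤ), ?_, ?_, ?_, ?_⟩
    · rw [e]; exact ey
    · rw [e]
    · rw [e]
      change (y.2 k0 : ℤ) = 1 * (y.2 k0 : ℤ) + 0
      ring
    · rw [e]
      change (fun k => (y.2 k : ℤ)) = Function.update (fun k => (y.2 k : ℤ)) k0
        (1 * (y.2 k0 : ℤ) + 0)
      rw [one_mul, add_zero, Function.update_eq_self]

end

end M2A

open M2A in
theorem m2a {Q D : Type} [Fintype D] [DecidableEq D] (m : ℕ) (hm : 1 < m)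
    (M : Q → Option (D × (ℕ → Q × ℕ × ℕ))) (S : Finset Q)
    (hS : ∀ q ∈ S, ∀ k f, M q = some (k, f) → ∀ a, (f a).1 ∈ S ∧ 0 < (f a).2.1)
    (q0 : Q) (hq0 : q0 ∈ S) (k0 : D) :
    ∃ (nQ d : ℕ) (rules : List (ARule nQ d)) (q0' h : Fin nQ) (k0' : Fin d),
      (∀ r ∈ rules, 0 < r.c ∧ 0 < r.c') ∧
      ∀ v : ℕ, Relation.EqvGen (AStep rules) (q0', Pi.single k0' (v : ℤ)) (h, 0) ↔
        (StateTransition.eval (dstep m M) (q0, Pi.single k0 v)).Dom := by
  let eQ := Fintype.equivFin (Option {q // q ∈ S})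
  let eD := Fintype.equivFin D
  refine ⟨_, _, (rr m M S k0).map fun ρ => ⟨eQ ρ.s, eQ ρ.s', eD ρ.k, ρ.c, ρ.a, ρ.c', ρ.a'⟩,
    eQ (enc S q0), eQ none, eD k0, ?_, ?_⟩
  · intro r hr
    obtain ⟨ρ, hρ, rfl⟩ := List.mem_map.1 hr
    simp only
    have hmpos : (0 : ℤ) < m := by exact_mod_cast (by omega : 0 < m)
    rcases (mem_rr m M S k0 ρ).1 hρ with ⟨⟨q, a⟩, rfl⟩ | ⟨⟨k, a⟩, rfl⟩
    · rcases hM : M q.1 with _ | ⟨k, f⟩
      · have e : r1 m M S k0 (q, a) = ⟨some q, none, k0, 1, 0, 1, 0⟩ := by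
          unfold r1
          simp only [hM]
        rw [e]
        exact ⟨one_pos, one_pos⟩
      · have e : r1 m M S k0 (q, a) = ⟨some q, enc S (f a).1, k, m, (a : ℕ), (f a).2.1,
            (f a).2.2⟩ := by
          unfold r1
          simp only [hM]
        rw [e]
        exact ⟨hmpos, Int.natCast_pos.2 (hS q.1 q.2 k f hM a).2⟩
    · exact ⟨hmpos, one_pos⟩
  · intro v
    rw [← generic (k0 := k0) hm hS q0 hq0, ← transport eQ eD]
    have e1 : (fun i => ((Pi.single k0 v : D → ℕ) (eD.symm i) : ℤ)) =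
        Pi.single (eD k0) (v : ℤ) := by
      funext i
      by_cases hi : i = eD k0
      · subst hi
        rw [Pi.single_eq_same, eD.symm_apply_apply, Pi.single_eq_same]
      · rw [Pi.single_eq_of_ne hi, Pi.single_eq_of_ne]
        · rfl
        · intro h
          exact hi (by rw [← h, eD.apply_symm_apply])
    simp only
    rw [e1]
    exact Iff.rfl

end Pool.Agent.OM
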