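import Pool.Agent.OM.M2Def

/-!
# M2b: a stack machine (TM2) is simulated by a digit machine
-/

namespace Pool.Agent.OM

open Turing StateTransition

section

variable {K A Λ σ : Type} [DecidableEq K]

/-- Number of a stack. -/
def enc (m : ℕ) (dig : A → ℕ) (L : List A) : ℕ := L.foldr (fun a acc => dig a + m * acc) 0

/-- state of the digit machine -/
abbrev DQ (K A Λ σ : Type) : Type := Option (TM2.Stmt (fun _ : K => A) Λ σ) × σ

/-- The digit machine of a stack machine. -/
def dmach (m : ℕ) (dig : A → ℕ) (sym : ℕ → Option A) (k0 : K)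
    (tr : Λ → TM2.Stmt (fun _ : K => A) Λ σ) :
    DQ K A Λ σ → Option (K × (ℕ → DQ K A Λ σ × ℕ × ℕ))
  | (some (TM2.Stmt.push k f q), v) => some (k, fun a => ((some q, v), m * m, m * a + dig (f v)))
  | (some (TM2.Stmt.peek k f q), v) => some (k, fun a => ((some q, f v (sym a)), m, a))
  | (some (TM2.Stmt.pop k f q), v) => some (k, fun a => ((some q, f v (sym a)), 1, 0))
  | (some (TM2.Stmt.load g q), v) => some (k0, fun a => ((some q, g v), m, a))
  | (some (TM2.Stmt.branch f q1 q2), v) =>
      some (k0, fun a => ((some (cond (f v) q1 q2), v), m, a))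
  | (some (TM2.Stmt.goto f), v) => some (k0, fun a => ((some (tr (f v)), v), m, a))
  | (some TM2.Stmt.halt, v) => some (k0, fun a => ((none, v), m, a))
  | (none, _) => none

/-- translation of configurations -/
def trc (m : ℕ) (dig : A → ℕ) (tr : Λ → TM2.Stmt (fun _ : K => A) Λ σ)
    (c : TM2.Cfg (fun _ : K => A) Λ σ) : DQ K A Λ σ × (K → ℕ) :=
  ((c.l.map tr, c.var), fun k => enc m dig (c.stk k))

variable {m : ℕ} {dig : A → ℕ} {sym : ℕ → Option A} {k0 : K}
  {tr : Λ → TM2.Stmt (fun _ : K => A) Λ σ}

theorem sym_enc (hm : ∀ a, dig a < m) (h0 : sym 0 = none) (hs : ∀ a, sym (dig a) = some a)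
    (L : List A) : sym (enc m dig L % m) = L.head? := by
  cases L with
  | nil => simpa [enc] using h0
  | cons a L =>
    have : enc m dig (a :: L) % m = dig a := by
      simp only [enc, List.foldr_cons, Nat.add_mul_mod_self_left]
      exact Nat.mod_eq_of_lt (hm a)
    rw [this, hs a]; rfl

theorem enc_tail (hm : ∀ a, dig a < m) (L : List A) : enc m dig L / m = enc m dig L.tail := by
  cases L with
  | nil => simp [enc]
  | cons a L =>
    have hpos : 0 < m := lt_of_le_of_lt (Nat.zero_le _) (hm a)
    simp only [enc, List.foldr_cons, List.tail_cons]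
    rw [Nat.add_mul_div_left _ _ hpos, Nat.div_eq_of_lt (hm a), zero_add]

theorem stepAux_reaches (hm : ∀ a, dig a < m) (h0 : sym 0 = none)
    (hs : ∀ a, sym (dig a) = some a) (q : TM2.Stmt (fun _ : K => A) Λ σ) :
    ∀ (v : σ) (S : K → List A),
      Reaches₁ (dstep m (dmach m dig sym k0 tr)) ((some q, v), fun k => enc m dig (S k))
        (trc m dig tr (TM2.stepAux q v S)) := by
  have hupd : ∀ (N : K → ℕ) (k : K), Function.update N k (m * (N k / m) + N k % m) = N := by
    intro N k
    rw [Nat.div_add_mod, Function.update_eq_self]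
  induction q with
  | push k f q ih =>
    intro v S
    have h := ih v (Function.update S k (f v :: S k))
    refine Relation.TransGen.head ?_ h
    show _ = some _
    simp only [dstep, dmach, Option.map_some, Option.some.injEq, Prod.mk.injEq, true_and]
    funext k'
    by_cases hk : k' = k
    · subst hk
      simp only [Function.update_self]
      simp only [enc, List.foldr_cons]
      have := Nat.div_add_mod (enc m dig (S k')) m
      simp only [enc] at this
      calc _ = dig (f v) + m * (m * (List.foldr (fun a acc => dig a + m * acc) 0 (S k') / m) +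
            List.foldr (fun a acc => dig a + m * acc) 0 (S k') % m) := by ring
        _ = _ := by rw [this]
    · rw [Function.update_of_ne hk, Function.update_of_ne hk]
  | peek k f q ih =>
    intro v S
    have h := ih (f v (S k).head?) S
    refine Relation.TransGen.head ?_ h
    show _ = some _
    simp only [dstep, dmach, Option.map_some, sym_enc hm h0 hs]
    rw [hupd (fun k => enc m dig (S k)) k]
  | pop k f q ih =>
    intro v S
    have h := ih (f v (S k).head?) (Function.update S k (S k).tail)
    refine Relation.TransGen.head ?_ h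
    show _ = some _
    simp only [dstep, dmach, Option.map_some, sym_enc hm h0 hs, one_mul, add_zero,
      Option.some.injEq, Prod.mk.injEq, true_and]
    funext k'
    by_cases hk : k' = k
    · subst hk
      simp only [Function.update_self]
      exact enc_tail hm _
    · rw [Function.update_of_ne hk, Function.update_of_ne hk]
  | load g q ih =>
    intro v S
    have h := ih (g v) S
    refine Relation.TransGen.head ?_ h
    show _ = some _
    simp only [dstep, dmach, Option.map_some]
    rw [hupd (fun k => enc m dig (S k)) k0]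
  | branch f q1 q2 ih1 ih2 =>
    intro v S
    cases hb : f v with
    | true =>
      have h := ih1 v S
      simp only [TM2.stepAux, hb, cond_true]
      refine Relation.TransGen.head ?_ h
      show _ = some _
      simp only [dstep, dmach, Option.map_some, hb, cond_true]
      rw [hupd (fun k => enc m dig (S k)) k0]
    | false =>
      have h := ih2 v S
      simp only [TM2.stepAux, hb, cond_false]
      refine Relation.TransGen.head ?_ h
      show _ = some _
      simp only [dstep, dmach, Option.map_some, hb, cond_false]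
      rw [hupd (fun k => enc m dig (S k)) k0]
  | goto f =>
    intro v S
    refine Relation.TransGen.single ?_
    show _ = some _
    simp only [dstep, dmach, Option.map_some, TM2.stepAux, trc]
    rw [hupd (fun k => enc m dig (S k)) k0]
  | halt =>
    intro v S
    refine Relation.TransGen.single ?_
    show _ = some _
    simp only [dstep, dmach, Option.map_some, TM2.stepAux, trc, Option.map_none]
    rw [hupd (fun k => enc m dig (S k)) k0]

theorem dmach_respects (hm : ∀ a, dig a < m) (h0 : sym 0 = none)
    (hs : ∀ a, sym (dig a) = some a) :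
    Respects (TM2.step tr) (dstep m (dmach m dig sym k0 tr)) (fun a b => trc m dig tr a = b) := by
  rintro ⟨l, v, S⟩ b rfl
  cases l with
  | none => simp [dstep, dmach, trc]
  | some l =>
    exact ⟨_, rfl, stepAux_reaches hm h0 hs (tr l) v S⟩

theorem dmach_dom (hm : ∀ a, dig a < m) (h0 : sym 0 = none) (hs : ∀ a, sym (dig a) = some a)
    (c : TM2.Cfg (fun _ : K => A) Λ σ) :
    (eval (dstep m (dmach m dig sym k0 tr)) (trc m dig tr c)).Dom ↔ (eval (TM2.step tr) c).Dom :=
  tr_eval_dom (dmach_respects hm h0 hs) rfl

/-- The finite set of states. -/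
noncomputable def dstates [Fintype σ] (tr : Λ → TM2.Stmt (fun _ : K => A) Λ σ) (S : Finset Λ) :
    Finset (DQ K A Λ σ) := TM2.stmts tr S ×ˢ Finset.univ

omit [DecidableEq K] in
theorem dstates_closed [Fintype σ] [Inhabited Λ] (hm0 : 0 < m) (S : Finset Λ)
    (hS : TM2.Supports tr S) : ∀ q ∈ dstates tr S, ∀ k f,
      dmach m dig sym k0 tr q = some (k, f) → ∀ a, (f a).1 ∈ dstates tr S ∧ 0 < (f a).2.1 := by
  rintro ⟨q, v⟩ hq k f hf a
  have hq' : q ∈ TM2.stmts tr S := (Finset.mem_product.1 hq).1
  have key : ∀ q1 q2 : TM2.Stmt (fun _ : K => A) Λ σ, q1 ∈ TM2.stmts₁ q2 →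
      some q2 ∈ TM2.stmts tr S → ∀ v', (some q1, v') ∈ dstates tr S := by
    intro q1 q2 h1 h2 v'
    exact Finset.mem_product.2 ⟨TM2.stmts_trans h1 h2, Finset.mem_univ _⟩
  cases q with
  | none => simp [dmach] at hf
  | some q =>
    cases q with
    | push k' g q =>
      simp only [dmach, Option.some.injEq, Prod.mk.injEq] at hf
      obtain ⟨rfl, rfl⟩ := hf
      refine ⟨key _ _ ?_ hq' _, Nat.mul_pos hm0 hm0⟩
      simp [TM2.stmts₁, TM2.stmts₁_self]
    | peek k' g q =>
      simp only [dmach, Option.some.injEq, Prod.mk.injEq] at hf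
      obtain ⟨rfl, rfl⟩ := hf
      refine ⟨key _ _ ?_ hq' _, hm0⟩
      simp [TM2.stmts₁, TM2.stmts₁_self]
    | pop k' g q =>
      simp only [dmach, Option.some.injEq, Prod.mk.injEq] at hf
      obtain ⟨rfl, rfl⟩ := hf
      refine ⟨key _ _ ?_ hq' _, one_pos⟩
      simp [TM2.stmts₁, TM2.stmts₁_self]
    | load g q =>
      simp only [dmach, Option.some.injEq, Prod.mk.injEq] at hf
      obtain ⟨rfl, rfl⟩ := hf
      refine ⟨key _ _ ?_ hq' _, hm0⟩
      simp [TM2.stmts₁, TM2.stmts₁_self]
    | branch g q1 q2 =>
      simp only [dmach, Option.some.injEq, Prod.mk.injEq] at hf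
      obtain ⟨rfl, rfl⟩ := hf
      refine ⟨key _ _ ?_ hq' _, hm0⟩
      cases g v <;> simp [TM2.stmts₁, TM2.stmts₁_self]
    | goto g =>
      simp only [dmach, Option.some.injEq, Prod.mk.injEq] at hf
      obtain ⟨rfl, rfl⟩ := hf
      refine ⟨Finset.mem_product.2 ⟨?_, Finset.mem_univ _⟩, hm0⟩
      have hsup := TM2.stmts_supportsStmt hS hq'
      have hg : g v ∈ S := hsup v
      simp only [TM2.stmts, Finset.some_mem_insertNone, Finset.mem_biUnion]
      exact ⟨g v, hg, TM2.stmts₁_self⟩
    | halt =>
      simp only [dmach, Option.some.injEq, Prod.mk.injEq] at hf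
      obtain ⟨rfl, rfl⟩ := hf
      refine ⟨Finset.mem_product.2 ⟨?_, Finset.mem_univ _⟩, hm0⟩
      simp [TM2.stmts]

end

end Pool.Agent.OM
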