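import Pool.Agent.OM.M2b

/-!
# M2c: the computable input and the assembly of the machine side
-/

namespace Pool.Agent.OM

open Turing StateTransition

/-- digits -/
def digG : PartrecToTM2.Γ' → ℕ
  | .consₗ => 1
  | .cons => 2
  | .bit0 => 3
  | .bit1 => 4

/-- letters -/
def symG : ℕ → Option PartrecToTM2.Γ'
  | 1 => some .consₗ
  | 2 => some .cons
  | 3 => some .bit0
  | 4 => some .bit1
  | _ => none

theorem digG_lt (a : PartrecToTM2.Γ') : digG a < 5 := by cases a <;> simp [digG]

theorem symG_dig (a : PartrecToTM2.Γ') : symG (digG a) = some a := by cases a <;> rfl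

/-- the input number: code of the list `[2 ^ n]` -/
def vin (n : ℕ) : ℕ := Nat.rec 14 (fun _ x => 3 + 5 * x) n

theorem vin_primrec : Primrec vin := by
  have h : Primrec₂ (fun (_ x : ℕ) => 3 + 5 * x) :=
    Primrec.nat_add.comp (Primrec.const 3)
      (Primrec.nat_mul.comp (Primrec.const 5) Primrec.snd)
  exact Primrec.nat_rec₁ 14 h

theorem trNat_two_pow (n : ℕ) : ∃ p : PosNum, ((2 ^ n : ℕ) : Num) = Num.pos p ∧
    PartrecToTM2.trPosNum p = List.replicate n PartrecToTM2.Γ'.bit0 ++ [PartrecToTM2.Γ'.bit1] := by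
  induction n with
  | zero => exact ⟨PosNum.one, by rfl, rfl⟩
  | succ n ih =>
    obtain ⟨p, hp, hl⟩ := ih
    refine ⟨PosNum.bit0 p, ?_, ?_⟩
    · have : (2 ^ (n + 1) : ℕ) = 2 ^ n + 2 ^ n := by ring
      rw [this, Nat.cast_add, hp]
      show Num.pos (p + p) = _
      rw [PosNum.bit0_of_bit0]
    · simp [PartrecToTM2.trPosNum, hl, List.replicate_succ]

theorem enc_vin (n : ℕ) : enc 5 digG (PartrecToTM2.trList [2 ^ n]) = vin n := by
  obtain ⟨p, hp, hl⟩ := trNat_two_pow n
  have h1 : PartrecToTM2.trList [2 ^ n] =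
      List.replicate n PartrecToTM2.Γ'.bit0 ++ [PartrecToTM2.Γ'.bit1, PartrecToTM2.Γ'.cons] := by
    simp only [PartrecToTM2.trList, PartrecToTM2.trNat]
    rw [hp]
    simp only [PartrecToTM2.trNum, hl, List.append_assoc, List.cons_append, List.nil_append]
  rw [h1]
  clear h1 hl hp p
  induction n with
  | zero => simp [enc, digG, vin]
  | succ n ih =>
    have : vin (n + 1) = 3 + 5 * vin n := rfl
    rw [this, ← ih]
    simp [enc, digG, List.replicate_succ]

end Pool.Agent.OM
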