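import Pool.Agent.OM.Spec

/-!
# Interface between M3a (graph, moves) and M3b (moves give a filling)
-/

namespace Pool.Agent.OM

/-- Elementary moves on walks (insertions; deletions are the reverse). The first and the last
vertex do not change. -/
inductive Move {V : Type} (adj : V → V → Prop) : List V → List V → Prop
  | ins (u v : List V) (p q r : V) : adj p q → adj q r → adj p r →
      Move adj (u ++ p :: r :: v) (u ++ p :: q :: r :: v)
  | stut (u v : List V) (p : V) : Move adj (u ++ p :: v) (u ++ p :: p :: v)

/-- M3b: a walk that is contractible by moves has a filling. -/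
def M3b : Prop :=
  ∀ (V : Type) (adj : V → V → Prop) (star : V) (w : List V), (∀ u, adj u u) →
    (∀ u v, adj u v → adj v u) → List.IsChain adj (star :: w) →
    (star :: w).getLast (by simp) = star →
    Relation.EqvGen (Move adj) (star :: w) [star] →
    ∃ N H j, Filling adj star w.length (fun i => (star :: w).getD i star) N H j

/-- M3a: the graph of a presentation, with contractions by moves. -/
def M3a : Prop :=
  ∀ (N1 : ℕ) (rels : List (List (Fin N1 × Bool))),
    ∃ (N0 : ℕ) (adj : Fin N0 → Fin N0 → Prop) (star : Fin N0) (A B C : Fin N1 × Bool → Fin N0),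
      (∀ u, adj u u) ∧ (∀ u v, adj u v → adj v u) ∧
      (∀ l, adj star (A l) ∧ adj (A l) (B l) ∧ adj (B l) (C l) ∧ adj (C l) star) ∧
      (∃ g : Fin N0 → Fin N0 → PresentedGroup (relSet rels), Coh adj g ∧
        ∀ w, pv g (fun j => (pword star A B C w).getD j star) (4 * w.length) = wv rels w) ∧
      (∀ w, wv rels w = 1 → Relation.EqvGen (Move adj) (pword star A B C w) [star])

theorem m3_of (ha : M3a) (hb : M3b) : M3 := by
  intro N1 rels
  obtain ⟨N0, adj, star, A, B, C, hr, hs, hl, hg, hm⟩ := ha N1 rels
  refine ⟨N0, adj, star, A, B, C, hr, hs, hl, hg, ?_⟩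
  intro w hw
  have hchain : ∀ v : List (Fin N1 × Bool),
      List.IsChain adj (star :: v.flatMap (fun l => [A l, B l, C l, star])) := by
    intro v
    induction v with
    | nil => simp
    | cons l v ih =>
      simp only [List.flatMap_cons, List.cons_append, List.nil_append]
      rw [List.isChain_cons_cons, List.isChain_cons_cons, List.isChain_cons_cons,
        List.isChain_cons_cons]
      exact ⟨(hl l).1, (hl l).2.1, (hl l).2.2.1, (hl l).2.2.2, ih⟩
  have hlast : ∀ v : List (Fin N1 × Bool),
      (star :: v.flatMap (fun l => [A l, B l, C l, star])).getLast (by simp) = star := by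
    intro v
    induction v with
    | nil => simp
    | cons l v ih =>
      simp only [List.flatMap_cons, List.cons_append, List.nil_append]
      rw [List.getLast_cons (by simp), List.getLast_cons (by simp), List.getLast_cons (by simp),
        List.getLast_cons (by simp)]
      exact ih
  obtain ⟨N, H, j, hf⟩ := hb (Fin N0) adj star (w.flatMap (fun l => [A l, B l, C l, star])) hr hs
    (hchain w) (hlast w) (hm w hw)
  have hlen : (w.flatMap (fun l => [A l, B l, C l, star])).length = 4 * w.length := by
    simp [List.length_flatMap, mul_comm]
  rw [hlen] at hf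
  exact ⟨N, H, j, hf⟩

end Pool.Agent.OM
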