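import Pool.Agent.OM.M3Def

/-!
# Module M3a, first half: the graph of a presentation and its labelling

Base vertices: the base point `none` and three vertices on the loop of every generator.
For every relator a disc: a collar of vertices (one for every position of the boundary path) and
a centre.
-/

set_option autoImplicit false

namespace Pool.Agent.OM.M3aG

/-- base vertices -/
abbrev Base (N1 : ℕ) := Option (Fin N1 × Fin 3)

/-- adjacency of base vertices -/
def badj {N1 : ℕ} : Base N1 → Base N1 → Prop
  | none, none => True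
  | none, some (_, i) => i ≠ 1
  | some (_, i), none => i ≠ 1
  | some (x, i), some (y, j) => x = y ∧ (i = j ∨ i = 1 ∨ j = 1)

/-- labels of base edges -/
def gb {N1 : ℕ} {G : Type} [Group G] (a : Fin N1 → G) : Base N1 → Base N1 → G
  | none, none => 1
  | none, some (x, i) => if i = 0 then a x else 1
  | some (x, i), none => if i = 0 then (a x)⁻¹ else 1
  | some _, some _ => 1

/-- first vertex of a letter -/
def bA {N1 : ℕ} (l : Fin N1 × Bool) : Base N1 := some (l.1, if l.2 then 0 else 2)

/-- second vertex of a letter -/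
def bB {N1 : ℕ} (l : Fin N1 × Bool) : Base N1 := some (l.1, 1)

/-- third vertex of a letter -/
def bC {N1 : ℕ} (l : Fin N1 × Bool) : Base N1 := some (l.1, if l.2 then 2 else 0)

/-- base path of a word -/
def bp {N1 : ℕ} (w : List (Fin N1 × Bool)) : List (Base N1) :=
  none :: w.flatMap (fun l => [bA l, bB l, bC l, none])

section base

variable {N1 : ℕ} {G : Type} [Group G] (a : Fin N1 → G)

theorem badj_refl (u : Base N1) : badj u u := by
  rcases u with _ | ⟨x, i⟩ <;> simp [badj]

theorem badj_symm (u v : Base N1) (h : badj u v) : badj v u := by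
  rcases u with _ | ⟨x, i⟩ <;> rcases v with _ | ⟨y, j⟩ <;> simp only [badj] at h ⊢
  · exact h
  · exact h
  · obtain ⟨h1, h2⟩ := h
    refine ⟨h1.symm, ?_⟩
    rcases h2 with h2 | h2 | h2
    · exact Or.inl h2.symm
    · exact Or.inr (Or.inr h2)
    · exact Or.inr (Or.inl h2)

theorem gb_self (u : Base N1) : gb a u u = 1 := by
  rcases u with _ | ⟨x, i⟩ <;> rfl

theorem gb_inv (u v : Base N1) : gb a u v * gb a v u = 1 := by
  rcases u with _ | ⟨x, i⟩ <;> rcases v with _ | ⟨y, j⟩ <;> simp only [gb]
  · simp
  · split_ifs <;> simp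
  · split_ifs <;> simp
  · simp

theorem gb_three (u v w : Base N1) (h1 : badj u v) (h2 : badj v w) (h3 : badj w u) :
    gb a u v * gb a v w * gb a w u = 1 := by
  rcases u with _ | ⟨x, i⟩ <;> rcases v with _ | ⟨y, j⟩ <;> rcases w with _ | ⟨z, k⟩ <;>
    simp only [badj] at h1 h2 h3 <;> simp only [gb]
  · simp
  · split_ifs <;> simp
  · split_ifs <;> simp
  · obtain ⟨rfl, h2⟩ := h2
    have hjk : j = k := by
      rcases h2 with h2 | h2 | h2
      · exact h2
      · exact absurd h2 h1
      · exact absurd h2 h3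
    subst hjk
    split_ifs <;> simp
  · split_ifs <;> simp
  · obtain ⟨rfl, h3⟩ := h3
    have hjk : k = i := by
      rcases h3 with h3 | h3 | h3
      · exact h3
      · exact absurd h3 h2
      · exact absurd h3 h1
    subst hjk
    split_ifs <;> simp
  · obtain ⟨rfl, h1⟩ := h1
    have hjk : i = j := by
      rcases h1 with h1 | h1 | h1
      · exact h1
      · exact absurd h1 h3
      · exact absurd h1 h2
    subst hjk
    split_ifs <;> simp
  · simp

theorem bl_adj (l : Fin N1 × Bool) : badj none (bA l) ∧ badj (bA l) (bB l) ∧ badj (bB l) (bC l) ∧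
    badj (bC l) none := by
  rcases l with ⟨x, _ | _⟩ <;> simp [badj, bA, bB, bC]

theorem bl_val (l : Fin N1 × Bool) : gb a none (bA l) * gb a (bA l) (bB l) * gb a (bB l) (bC l) *
    gb a (bC l) none = cond l.2 (a l.1) (a l.1)⁻¹ := by
  rcases l with ⟨x, _ | _⟩ <;> simp [gb, bA, bB, bC]

end base

section paths

theorem pv_add {V : Type} {G : Type} [Group G] (g : V → V → G) (p : ℕ → V) (n m : ℕ) :
    pv g p (n + m) = pv g p n * pv g (fun j => p (n + j)) m := by
  induction m with
  | zero => simp [pv]
  | succ m ih =>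
    rw [← add_assoc]
    simp only [pv]
    rw [ih, mul_assoc]
    rfl

theorem pv_congr {V : Type} {G : Type} [Group G] (g : V → V → G) (p q : ℕ → V) (n : ℕ)
    (h : ∀ j ≤ n, p j = q j) : pv g p n = pv g q n := by
  induction n with
  | zero => rfl
  | succ n ih =>
    simp only [pv]
    rw [ih (fun j hj => h j (by omega)), h n (by omega), h (n + 1) (by omega)]

variable {N1 : ℕ} {V : Type} (s : V) (A B C : Fin N1 × Bool → V)

theorem getD_four (w : List (Fin N1 × Bool)) (l : Fin N1 × Bool) (j : ℕ) :
    (s :: (l :: w).flatMap (fun l => [A l, B l, C l, s])).getD (4 + j) s =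
      (s :: w.flatMap (fun l => [A l, B l, C l, s])).getD j s := by
  have : 4 + j = j + 4 := by ring
  rw [this]
  cases j <;> simp

theorem pv_word {G : Type} [Group G] (g : V → V → G) (w : List (Fin N1 × Bool)) :
    pv g (fun j => (s :: w.flatMap (fun l => [A l, B l, C l, s])).getD j s) (4 * w.length) =
      (w.map (fun l => g s (A l) * g (A l) (B l) * g (B l) (C l) * g (C l) s)).prod := by
  induction w with
  | nil => simp [pv]
  | cons l w ih =>
    have h4 : 4 * (l :: w).length = 4 + 4 * w.length := by simp; ring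
    rw [h4, pv_add, List.map_cons, List.prod_cons, ← ih]
    congr 1
    · simp [pv]
    · refine pv_congr g _ _ _ ?_
      intro j _
      exact getD_four s A B C w l j

theorem word_end (w : List (Fin N1 × Bool)) :
    (s :: w.flatMap (fun l => [A l, B l, C l, s])).getD (4 * w.length) s = s := by
  induction w with
  | nil => simp
  | cons l w ih =>
    have h4 : 4 * (l :: w).length = 4 + 4 * w.length := by simp; ring
    rw [h4, getD_four]
    exact ih

theorem word_adj (adj : V → V → Prop)
    (hl : ∀ l, adj s (A l) ∧ adj (A l) (B l) ∧ adj (B l) (C l) ∧ adj (C l) s)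
    (w : List (Fin N1 × Bool)) : ∀ j < 4 * w.length,
    adj ((s :: w.flatMap (fun l => [A l, B l, C l, s])).getD j s)
      ((s :: w.flatMap (fun l => [A l, B l, C l, s])).getD (j + 1) s) := by
  induction w with
  | nil => intro j hj; simp at hj
  | cons l w ih =>
    intro j hj
    match j, hj with
    | 0, _ => simpa using (hl l).1
    | 1, _ => simpa using (hl l).2.1
    | 2, _ => simpa using (hl l).2.2.1
    | 3, _ => simpa using (hl l).2.2.2
    | j + 4, hj =>
      have := ih j (by simp at hj; omega)
      simpa using this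

end paths

section disc

variable {N1 : ℕ} {G : Type} [Group G] (a : Fin N1 → G) (w : List (Fin N1 × Bool))

/-- periodic boundary path -/
def bt (i : ℕ) : Base N1 := (bp w).getD (i % (4 * w.length)) none

/-- value of the periodic boundary path -/
def PP (i : ℕ) : G := pv (gb a) (fun j => (bp w).getD j none) (i % (4 * w.length))

theorem bt_congr {i j : ℕ} (h : i ≡ j [MOD (4 * w.length)]) : bt w i = bt w j := by
  unfold bt; rw [show i % (4 * w.length) = j % (4 * w.length) from h]

theorem PP_congr {i j : ℕ} (h : i ≡ j [MOD (4 * w.length)]) : PP a w i = PP a w j := by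
  unfold PP; rw [show i % (4 * w.length) = j % (4 * w.length) from h]

theorem step (h1 : (w.map (fun l => cond l.2 (a l.1) (a l.1)⁻¹)).prod = 1) (i : ℕ) :
    badj (bt w i) (bt w (i + 1)) ∧ PP a w (i + 1) = PP a w i * gb a (bt w i) (bt w (i + 1)) := by
  rcases Nat.eq_zero_or_pos (4 * w.length) with h0 | hpos
  · have hw : w = [] := List.length_eq_zero_iff.1 (by omega)
    subst hw
    constructor
    · have h : ∀ i, bt ([] : List (Fin N1 × Bool)) i = none := by
        intro i
        unfold bt bp
        simp only [List.length_nil, mul_zero, Nat.mod_zero, List.flatMap_nil]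
        cases i <;> simp
      rw [h, h]; trivial
    · unfold PP bt
      simp only [List.length_nil, mul_zero, Nat.mod_zero, pv]
  · set n := 4 * w.length with hn
    have ht : i % n < n := Nat.mod_lt _ hpos
    have hend : (bp w).getD n none = none := word_end none bA bB bC w
    have hval : pv (gb a) (fun j => (bp w).getD j none) n = 1 := by
      have := pv_word (none : Base N1) bA bB bC (gb a) w
      rw [← hn] at this
      unfold bp
      rw [this, ← h1]
      congr 1
      refine List.map_congr_left ?_
      intro l _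
      exact bl_val a l
    have hadj := word_adj (none : Base N1) bA bB bC badj bl_adj w (i % n) ht
    have hmod : (i + 1) % n = (i % n + 1) % n := by rw [Nat.mod_add_mod]
    by_cases hlt : i % n + 1 < n
    · have h2 : (i + 1) % n = i % n + 1 := by rw [hmod, Nat.mod_eq_of_lt hlt]
      refine ⟨?_, ?_⟩
      · unfold bt
        rw [← hn, h2]
        exact hadj
      · unfold PP bt
        rw [← hn, h2]
        rfl
    · have h3 : i % n + 1 = n := by omega
      have h2 : (i + 1) % n = 0 := by rw [hmod, h3, Nat.mod_self]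
      have h4 : bt w (i + 1) = (bp w).getD (i % n + 1) none := by
        unfold bt
        rw [← hn, h2, h3, hend]
        rfl
      refine ⟨?_, ?_⟩
      · rw [h4]
        unfold bt
        rw [← hn]
        exact hadj
      · rw [h4]
        have h5 : PP a w (i + 1) = 1 := by
          unfold PP; rw [← hn, h2]; rfl
        rw [h5, ← hval]
        unfold PP bt
        rw [← hn]
        conv_lhs => rw [← h3]
        rfl

variable (h1 : (w.map (fun l => cond l.2 (a l.1) (a l.1)⁻¹)).prod = 1)

include h1

theorem near_one (i : ℕ) (h : bt w i = bt w (i + 1)) : PP a w (i + 1) = PP a w i := by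
  rw [(step a w h1 i).2, ← h, gb_self, mul_one]

theorem near_two (i : ℕ) (h : bt w i = bt w (i + 2)) : PP a w (i + 2) = PP a w i := by
  rw [(step a w h1 (i + 1)).2, (step a w h1 i).2, show i + 1 + 1 = i + 2 from rfl, ← h, mul_assoc,
    gb_inv, mul_one]

/-- equal vertices at nearby positions have equal values -/
theorem close (j k i i' : ℕ) (hjk : j ≡ k [MOD (4 * w.length)] ∨ j + 1 ≡ k [MOD (4 * w.length)])
    (hi : i = j ∨ i = j + 1) (hi' : i' = k ∨ i' = k + 1) (h : bt w i = bt w i') :
    PP a w i = PP a w i' := by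
  -- replace `k` by `j` or `j + 1`
  have key : ∀ k', (k' = j ∨ k' = j + 1) → ∀ m, (m = k' ∨ m = k' + 1) → bt w i = bt w m →
      PP a w i = PP a w m := by
    intro k' hk' m hm hb
    rcases hk' with rfl | rfl <;> rcases hi with rfl | rfl <;> rcases hm with rfl | rfl
    · rfl
    · exact (near_one a w h1 _ hb).symm
    · exact near_one a w h1 _ hb.symm
    · rfl
    · exact (near_one a w h1 _ hb).symm
    · exact (near_two a w h1 _ hb).symm
    · rfl
    · exact (near_one a w h1 _ hb).symm
  rcases hjk with hjk | hjk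
  · rcases hi' with rfl | rfl
    · rw [← PP_congr a w hjk]
      exact key j (Or.inl rfl) j (Or.inl rfl) (h.trans (bt_congr w hjk).symm)
    · rw [← PP_congr a w (hjk.add_right 1)]
      exact key j (Or.inl rfl) (j + 1) (Or.inr rfl) (h.trans (bt_congr w (hjk.add_right 1)).symm)
  · rcases hi' with rfl | rfl
    · rw [← PP_congr a w hjk]
      exact key (j + 1) (Or.inr rfl) (j + 1) (Or.inl rfl) (h.trans (bt_congr w hjk).symm)
    · rw [← PP_congr a w (hjk.add_right 1)]
      exact key (j + 1) (Or.inr rfl) (j + 1 + 1) (Or.inr rfl)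
        (h.trans (bt_congr w (hjk.add_right 1)).symm)

end disc

section graph

variable {N1 R M : ℕ} (W : Fin R → List (Fin N1 × Bool))

/-- vertices of the graph -/
abbrev Vx (N1 R M : ℕ) := Base N1 ⊕ (Fin R × Option (Fin M))

/-- adjacency of collar vertices -/
def cadj (n j k : ℕ) : Prop := j ≡ k [MOD n] ∨ j + 1 ≡ k [MOD n] ∨ j ≡ k + 1 [MOD n]

/-- adjacency -/
def vadj : Vx N1 R M → Vx N1 R M → Prop
  | Sum.inl u, Sum.inl v => badj u v
  | Sum.inl u, Sum.inr (r, some j) => u = bt (W r) j ∨ u = bt (W r) (j + 1)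
  | Sum.inr (r, some j), Sum.inl u => u = bt (W r) j ∨ u = bt (W r) (j + 1)
  | Sum.inl _, Sum.inr (_, none) => False
  | Sum.inr (_, none), Sum.inl _ => False
  | Sum.inr (r, some j), Sum.inr (s, some k) => r = s ∧ cadj (4 * (W r).length) j k
  | Sum.inr (r, none), Sum.inr (s, none) => r = s
  | Sum.inr (r, none), Sum.inr (s, some _) => r = s
  | Sum.inr (r, some _), Sum.inr (s, none) => r = s

variable {G : Type} [Group G] (a : Fin N1 → G)

open Classical in
/-- label of an edge from a base vertex to a collar vertex -/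
noncomputable def hh (w : List (Fin N1 × Bool)) (u : Base N1) (j : ℕ) : G :=
  if u = bt w j then (PP a w j)⁻¹ else (PP a w (j + 1))⁻¹

theorem hh_spec (w : List (Fin N1 × Bool)) (u : Base N1) (j : ℕ)
    (h : u = bt w j ∨ u = bt w (j + 1)) :
    ∃ i, (i = j ∨ i = j + 1) ∧ u = bt w i ∧ hh a w u j = (PP a w i)⁻¹ := by
  unfold hh
  split_ifs with h1
  · exact ⟨j, Or.inl rfl, h1, rfl⟩
  · rcases h with h | h
    · exact absurd h h1
    · exact ⟨j + 1, Or.inr rfl, h, rfl⟩

/-- labels -/
noncomputable def vg : Vx N1 R M → Vx N1 R M → G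
  | Sum.inl u, Sum.inl v => gb a u v
  | Sum.inl u, Sum.inr (r, some j) => hh a (W r) u j
  | Sum.inr (r, some j), Sum.inl u => (hh a (W r) u j)⁻¹
  | Sum.inl _, Sum.inr (_, none) => 1
  | Sum.inr (_, none), Sum.inl _ => 1
  | Sum.inr _, Sum.inr _ => 1

theorem vadj_refl (u : Vx N1 R M) : vadj W u u := by
  rcases u with u | ⟨r, _ | j⟩
  · exact badj_refl u
  · rfl
  · exact ⟨rfl, Or.inl rfl⟩

theorem vadj_symm (u v : Vx N1 R M) (h : vadj W u v) : vadj W v u := by
  rcases u with u | ⟨r, _ | j⟩ <;> rcases v with v | ⟨s, _ | k⟩ <;> simp only [vadj] at h ⊢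
  · exact badj_symm u v h
  · exact h
  · exact h.symm
  · exact h.symm
  · exact h
  · exact h.symm
  · obtain ⟨rfl, h⟩ := h
    refine ⟨rfl, ?_⟩
    rcases h with h | h | h
    · exact Or.inl h.symm
    · exact Or.inr (Or.inr h.symm)
    · exact Or.inr (Or.inl h.symm)

theorem vg_coh (h1 : ∀ r, ((W r).map (fun l => cond l.2 (a l.1) (a l.1)⁻¹)).prod = 1) :
    Coh (vadj (M := M) W) (vg W a) := by
  have htwo : ∀ u v : Vx N1 R M, vg W a u v * vg W a v u = 1 := by
    intro u v
    rcases u with u | ⟨r, _ | j⟩ <;> rcases v with v | ⟨s, _ | k⟩ <;> simp only [vg]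
    · exact gb_inv a u v
    all_goals simp
  -- two base vertices and a collar vertex
  have hbbd : ∀ (u v : Base N1) (r : Fin R) (j : ℕ), badj u v →
      (v = bt (W r) j ∨ v = bt (W r) (j + 1)) → (u = bt (W r) j ∨ u = bt (W r) (j + 1)) →
      gb a u v * hh a (W r) v j * (hh a (W r) u j)⁻¹ = 1 := by
    intro u v r j huv hv hu
    obtain ⟨i, hi, rfl, h2⟩ := hh_spec a (W r) u j hu
    obtain ⟨i', hi', rfl, h3⟩ := hh_spec a (W r) v j hv
    rw [h2, h3, inv_inv]
    rcases hi with rfl | rfl <;> rcases hi' with rfl | rfl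
    · rw [gb_self]; simp
    · rw [(step a (W r) (h1 r) i).2]
      rw [mul_inv_rev, ← mul_assoc, mul_inv_cancel, one_mul, inv_mul_cancel]
    · rw [(step a (W r) (h1 r) i').2]
      have := gb_inv a (bt (W r) (i' + 1)) (bt (W r) i')
      rw [mul_assoc, inv_mul_cancel_left]
      exact this
    · rw [gb_self]; simp
  -- one base vertex and two collar vertices
  have hbdd : ∀ (u : Base N1) (r : Fin R) (j k : ℕ), cadj (4 * (W r).length) j k →
      (u = bt (W r) j ∨ u = bt (W r) (j + 1)) → (u = bt (W r) k ∨ u = bt (W r) (k + 1)) →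
      hh a (W r) u j = hh a (W r) u k := by
    intro u r j k hjk hj hk
    obtain ⟨i, hi, h4, h2⟩ := hh_spec a (W r) u j hj
    obtain ⟨i', hi', h5, h3⟩ := hh_spec a (W r) u k hk
    rw [h2, h3]
    congr 1
    rcases hjk with h | h | h
    · exact close a (W r) (h1 r) j k i i' (Or.inl h) hi hi' (h4.symm.trans h5)
    · exact close a (W r) (h1 r) j k i i' (Or.inr h) hi hi' (h4.symm.trans h5)
    · exact (close a (W r) (h1 r) k j i' i (Or.inr h.symm) hi' hi (h5.symm.trans h4)).symm
  refine ⟨?_, ?_, ?_⟩
  · intro v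
    rcases v with v | ⟨s, _ | k⟩ <;> simp only [vg]
    exact gb_self a v
  · intro u v _
    exact htwo u v
  · intro u v w huv hvw hwu
    rcases u with u | ⟨r, _ | j⟩ <;> rcases v with v | ⟨s, _ | k⟩ <;> rcases w with w | ⟨t, _ | l⟩ <;>
      simp only [vadj] at huv hvw hwu <;> simp only [vg]
    · exact gb_three a u v w huv hvw hwu
    · exact hbbd u v t l huv hvw hwu
    · -- u base, v collar, w base
      have := hbbd w u s k hwu huv hvw
      rw [mul_assoc] at this
      rw [mul_assoc, ← this]
      have h2 : gb a w u * (hh a (W s) u ↑k * (hh a (W s) w ↑k)⁻¹) = 1 := this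
      have h3 : (hh a (W s) u ↑k * (hh a (W s) w ↑k)⁻¹) * gb a w u = 1 := by
        rw [mul_eq_one_iff_eq_inv] at h2 ⊢
        rw [h2, inv_inv]
      rw [← mul_assoc, h3, h2]
    · obtain ⟨rfl, hvw⟩ := hvw
      rw [hbdd u s k l hvw huv hwu]; simp
    · simp
    · simp
    · simp
    · simp
    · -- u collar, v base, w base
      have h2 : gb a v w * hh a (W r) w ↑j * (hh a (W r) v ↑j)⁻¹ = 1 :=
        hbbd v w r j hvw hwu huv
      rw [mul_assoc]
      rw [mul_eq_one_iff_eq_inv] at h2
      rw [h2, inv_inv]
      simp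
    · obtain ⟨rfl, hwu⟩ := hwu
      rw [hbdd v t l j hwu hvw huv]; simp
    · simp
    · simp
    · obtain ⟨rfl, huv⟩ := huv
      rw [hbdd w r j k huv hwu hvw]; simp
    all_goals simp

end graph

end Pool.Agent.OM.M3aG
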