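import Pool.Agent.OM.Spec

/-!
# M5, part a: generic points of down-sets of `ω ^ n`
-/

namespace Pool.Agent.OM

/-- `v` is supported in `J` -/
def Supp {n : ℕ} (J : Finset (Fin n)) (v : Fin n → ℕ) : Prop := ∀ k, k ∉ J → v k = 0

theorem lemmaC {n : ℕ} (D : (Fin n → ℕ) → Prop) (hD : ∀ x y, x ≤ y → D y → D x)
    (x : Fin n → ℕ) (J0 : Finset (Fin n)) (hx : ∀ v, Supp J0 v → D (x + v)) :
    ∃ (J : Finset (Fin n)) (y : Fin n → ℕ), J0 ⊆ J ∧ x ≤ y ∧ (∀ v, Supp J v → D (y + v)) ∧
      ∀ k, k ∉ J → ¬ D (y + Pi.single k 1) := by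
  classical
  let 𝒥 : Finset (Finset (Fin n)) :=
    Finset.univ.filter (fun J => J0 ⊆ J ∧ ∃ x', x ≤ x' ∧ ∀ v, Supp J v → D (x' + v))
  have hne : 𝒥.Nonempty := ⟨J0, by
    simp only [𝒥, Finset.mem_filter, Finset.mem_univ, true_and]
    exact ⟨Finset.Subset.refl _, x, le_refl _, hx⟩⟩
  obtain ⟨J, hJ, hmax⟩ := 𝒥.exists_max_image Finset.card hne
  simp only [𝒥, Finset.mem_filter, Finset.mem_univ, true_and] at hJ hmax
  obtain ⟨hJ0, x', hxx', hx'⟩ := hJ
  -- bounds
  have hs : ∀ k, k ∉ J → ∃ s : ℕ, ¬ ∀ v, Supp J v → D (x' + Pi.single k s + v) := by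
    intro k hk
    by_contra hcon
    push Not at hcon
    have h1 : (insert k J).card ≤ J.card := by
      apply hmax
      refine ⟨hJ0.trans (Finset.subset_insert _ _), x', hxx', ?_⟩
      intro v hv
      refine hD _ _ ?_ (hcon (v k) (fun l => if l ∈ J then v l else 0) ?_)
      · intro l
        simp only [Pi.add_apply]
        by_cases hlJ : l ∈ J
        · simp [hlJ]
        · by_cases hlk : l = k
          · subst hlk; simp
          · have : v l = 0 := hv l (by simp [hlk, hlJ])
            simp [this]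
      · intro l hl
        simp [hl]
    rw [Finset.card_insert_of_notMem hk] at h1
    omega
  choose! s hs using hs
  let C : Set (Fin n → ℕ) :=
    {c | (∀ k, k ∈ J → c k = 0) ∧ ∀ v, Supp J v → D (x' + c + v)}
  have h0 : (0 : Fin n → ℕ) ∈ C := by
    refine ⟨fun _ _ => rfl, ?_⟩
    intro v hv
    simpa using hx' v hv
  have hb : ∀ c ∈ C, ∀ k, c k ≤ s k := by
    intro c hc k
    by_cases hk : k ∈ J
    · rw [hc.1 k hk]; exact Nat.zero_le _
    · by_contra hlt
      push Not at hlt
      apply hs k hk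
      intro v hv
      refine hD _ _ ?_ (hc.2 v hv)
      intro l
      simp only [Pi.add_apply]
      by_cases hlk : l = k
      · subst hlk; simp; omega
      · simp [hlk]
  obtain ⟨c, hc, hcmax⟩ : ∃ c ∈ C, ∀ c' ∈ C, ∑ k, c' k ≤ ∑ k, c k := by
    have hbdd : BddAbove ((fun c : Fin n → ℕ => ∑ k, c k) '' C) := by
      refine ⟨∑ k, s k, ?_⟩
      rintro _ ⟨c, hc, rfl⟩
      exact Finset.sum_le_sum (fun k _ => hb c hc k)
    obtain ⟨c, hc, hce⟩ := Nat.sSup_mem (⟨_, 0, h0, rfl⟩ :
      ((fun c : Fin n → ℕ => ∑ k, c k) '' C).Nonempty) hbdd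
    refine ⟨c, hc, ?_⟩
    intro c' hc'
    have := le_csSup hbdd ⟨c', hc', rfl⟩
    simpa [← hce] using this
  have hv : ∀ k, k ∉ J → ∃ v, Supp J v ∧ ¬ D (x' + c + Pi.single k 1 + v) := by
    intro k hk
    by_contra hcon
    push Not at hcon
    have hmem : c + Pi.single k 1 ∈ C := by
      refine ⟨?_, ?_⟩
      · intro l hl
        have : l ≠ k := fun h => hk (h ▸ hl)
        simp [hc.1 l hl, this]
      · intro v hv
        have := hcon v hv
        rwa [add_assoc x' c] at this
    have := hcmax _ hmem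
    simp only [Pi.add_apply, Finset.sum_add_distrib] at this
    have h2 : ∑ l, (Pi.single k 1 : Fin n → ℕ) l = 1 := by simp
    omega
  choose! v hvJ hvD using hv
  let w : Fin n → ℕ := fun l => ∑ k ∈ Finset.univ.filter (fun k => k ∉ J), v k l
  have hw : Supp J w := by
    intro l hl
    apply Finset.sum_eq_zero
    intro k hk
    exact hvJ k (by simpa using hk) l hl
  refine ⟨J, x' + c + w, hJ0, ?_, ?_, ?_⟩
  · intro l
    have h4 : x l ≤ x' l := hxx' l
    simp only [Pi.add_apply]
    omega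
  · intro u hu
    rw [add_assoc (x' + c)]
    apply hc.2
    intro l hl
    simp [hw l hl, hu l hl]
  · intro k hk hcon
    apply hvD k hk
    refine hD _ _ ?_ hcon
    intro l
    have h3 : v k l ≤ w l :=
      Finset.single_le_sum (f := fun k => v k l) (fun _ _ => Nat.zero_le _)
        (by simpa using hk : k ∈ Finset.univ.filter (fun k => k ∉ J))
    simp only [Pi.add_apply]
    omega

/-- A point that is above `y` is in `y + ω ^ J` or above `y + e_k` for some `k ∉ J`. -/
theorem supp_or {n : ℕ} (J : Finset (Fin n)) (y z : Fin n → ℕ) (h : y ≤ z) :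
    (∃ v, Supp J v ∧ z = y + v) ∨ ∃ k, k ∉ J ∧ y + Pi.single k 1 ≤ z := by
  classical
  by_cases hk : ∃ k, k ∉ J ∧ y k < z k
  · obtain ⟨k, hk, hlt⟩ := hk
    refine Or.inr ⟨k, hk, ?_⟩
    intro l
    by_cases hlk : l = k
    · subst hlk; simp; omega
    · simpa [hlk] using h l
  · push Not at hk
    refine Or.inl ⟨fun l => z l - y l, ?_, ?_⟩
    · intro l hl
      have h1 : z l ≤ y l := hk l hl
      show z l - y l = 0
      omega
    · funext l
      have h1 : y l ≤ z l := h l
      simp only [Pi.add_apply]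
      omega

end Pool.Agent.OM
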