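import Pool.Agent.OM.M5a

/-!
# M5, part b: reduction to a three-dimensional labelling with root `0`
-/

namespace Pool.Agent.OM

open Lab

variable {V : Type} {m : ℕ}

/-- points of the facet -/
abbrev P3 : Type := Fin 3 → ℕ

/-- unit vectors -/
def ee (i : Fin 3) : P3 := Pi.single i 1

/-- The rules in the facet. -/
structure Good3 (adj : V → V → Prop) (len : Fin 3 → ℕ) (path : Fin 3 → ℕ → V)
    (lam : P3 → Lab V m) : Prop where
  root : lam 0 = O
  ne_root : ∀ x, x ≠ 0 → lam x ≠ O
  ax : ∀ x i, x ≠ 0 → Sees lam x (R i) → ∀ j, j ≠ i → x j = 0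
  ax_see : ∀ i, Sees lam (ee i) (R i)
  noX : ∀ x l, lam x ≠ X l
  may : ∀ x c, Sees lam x c → May (lam x) c
  P_must : ∀ x k e b, lam x = P k e b → ∀ b', Sees lam x (P k e b')
  E_must : ∀ x k, lam x = E k → ∀ e, Sees lam x (P k e false)
  W_must : ∀ x k j q, lam x = W k j q → Sees lam x (E k)
  W_le : ∀ x k j q, lam x = W k j q → j ≤ len k
  Ph_ex : ∀ x, lam x = Ph → ∀ q, ∃ c, IsVert c ∧ cls c = q ∧ Sees lam x c
  Ph_adj : ∀ x, lam x = Ph → ∀ c c', IsVert c → IsVert c' → Sees lam x c → Sees lam x c' →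
    c ≠ c' → cls c ≠ cls c' ∧ Vadj adj len path c c'
  Rh_must : ∀ x, lam x = Rh → Sees lam x Ph
  O_ph : Sees lam 0 Ph
  G2 : ∀ x i, x ≠ 0 → Sees lam x (R i) →
    (∀ b, Sees lam x (P (i + 1) true b) ∧ Sees lam x (P (i + 2) false b)) ∧
      ∀ e b, ¬ Sees lam x (P i e b)
  G6 : ∀ x i, Sees lam x (P (i + 1) true false) → Sees lam x (P (i + 2) false false) →
    Sees lam x (R i)
  G7 : ∀ x k, Sees lam x (P k false false) → Sees lam x (P k true false) → Sees lam x (E k)

theorem Sees.mono {A : Type} [Preorder A] {C : Type} {lam : A → C} {x y : A} {c : C} (h : x ≤ y)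
    (hs : Sees lam y c) : Sees lam x c := by
  obtain ⟨z, hz, hc⟩ := hs
  exact ⟨z, le_trans h hz, hc⟩

/-- the label of an axis index -/
def axl : Fin 3 ⊕ Fin m → Lab V m
  | Sum.inl i => R i
  | Sum.inr l => X l

theorem axl_inj {c c' : Fin 3 ⊕ Fin m} (h : (axl c : Lab V m) = axl c') : c = c' := by
  rcases c with i | l <;> rcases c' with i' | l' <;> simp only [axl] at h
  · injection h with h; rw [h]
  · exact absurd h (by simp)
  · exact absurd h (by simp)
  · injection h with h; rw [h]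

theorem axl_isAx (c : Fin 3 ⊕ Fin m) : IsAx (axl c : Lab V m) := by
  rcases c with i | l <;> simp [axl, IsAx]

theorem axl_not_may (c : Fin 3 ⊕ Fin m) : ¬ May (axl c : Lab V m) O := by
  rcases c with i | l <;> simp [axl, May]

theorem reduce (adj : V → V → Prop) (len : Fin 3 → ℕ) (path : Fin 3 → ℕ → V)
    (lam : Pt m → Lab V m) (hg : Good adj len path lam) (hO : ∃ x, lam x = O) :
    ∃ lam3 : P3 → Lab V m, Good3 adj len path lam3 := by
  classical
  obtain ⟨x, hx⟩ := hO
  obtain ⟨J, y, -, hxy, hJ, hk⟩ := lemmaC (fun z => Sees lam z O)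
    (fun a b hab hb => hb.mono hab) x ∅ (by
      intro v hv
      have : v = 0 := by
        funext l; exact hv l (by simp)
      subst this
      show Sees lam (x + 0) O
      rw [add_zero]
      exact ⟨x, le_refl _, hx⟩)
  obtain ⟨z, hyz, hz⟩ : Sees lam y O := by
    have := hJ 0 (fun _ _ => rfl)
    simpa using this
  -- z = y + v
  obtain ⟨x0, hx0, hJ0, hk0⟩ : ∃ x0 : Pt m, lam x0 = O ∧ (∀ v, Supp J v → Sees lam (x0 + v) O) ∧
      ∀ k, k ∉ J → ¬ Sees lam (x0 + Pi.single k 1) O := by
    rcases supp_or J y z hyz with ⟨v, hv, rfl⟩ | ⟨k, hkJ, hkz⟩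
    · refine ⟨_, hz, ?_, ?_⟩
      · intro u hu
        rw [add_assoc]
        apply hJ
        intro l hl
        simp [hv l hl, hu l hl]
      · intro k hkJ hs
        apply hk k hkJ
        refine hs.mono ?_
        intro l
        simp only [Pi.add_apply]
        omega
    · exact absurd ⟨z, hkz, hz⟩ (hk k hkJ)
  clear hk hJ hyz hz hxy hx
  have hOm := hg.O_must x0 hx0
  have hw : ∀ c : Fin 3 ⊕ Fin m, ∃ k, k ∉ J ∧ Sees lam (x0 + Pi.single k 1) (axl c) := by
    intro c
    obtain ⟨w, hw, hwl⟩ := hOm.2 (axl c) (axl_isAx c)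
    rcases supp_or J x0 w hw with ⟨v, hv, rfl⟩ | ⟨k, hkJ, hkz⟩
    · exfalso
      apply axl_not_may (V := V) c
      rw [← hwl]
      exact hg.may _ _ (hJ0 v hv)
    · exact ⟨k, hkJ, w, hkz, hwl⟩
  choose K hKJ hK using hw
  have hKinj : Function.Injective K := by
    intro c c' hcc
    by_contra hne
    apply hk0 (K c) (hKJ c)
    refine ⟨_, le_refl _, ?_⟩
    refine hg.G1 _ (axl c) (axl c') (axl_isAx c) (axl_isAx c') (fun h => hne (axl_inj h))
      (hK c) ?_
    rw [hcc]
    exact hK c'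
  have hKbij : Function.Bijective K := by
    rw [Fintype.bijective_iff_injective_and_card]
    exact ⟨hKinj, by simp⟩
  let KE : Fin 3 ⊕ Fin m ≃ Fin (3 + m) := Equiv.ofBijective K hKbij
  have hKE : ∀ c, KE c = K c := fun c => rfl
  have hnotD : ∀ c, ¬ Sees lam (x0 + Pi.single (K c) 1) O := fun c => hk0 _ (hKJ c)
  have huniq : ∀ c c', Sees lam (x0 + Pi.single (K c) 1) (axl c') → c' = c := by
    intro c c' h
    by_contra hne
    apply hnotD c
    exact ⟨_, le_refl _, hg.G1 _ (axl c') (axl c) (axl_isAx _) (axl_isAx _)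
      (fun h => hne (axl_inj h)) h (hK c)⟩
  have hneO : ∀ c, lam (x0 + Pi.single (K c) 1) ≠ O := by
    intro c h
    exact hnotD c ⟨_, le_refl _, h⟩
  let ι : P3 → Pt m := fun u a => x0 a + Sum.elim u (fun _ => 0) (KE.symm a)
  have hιl : ∀ u i, ι u (K (Sum.inl i)) = x0 (K (Sum.inl i)) + u i := by
    intro u i
    show _ + Sum.elim u (fun _ => 0) (KE.symm (KE (Sum.inl i))) = _
    rw [Equiv.symm_apply_apply]
    rfl
  have hιr : ∀ u l, ι u (K (Sum.inr l)) = x0 (K (Sum.inr l)) := by
    intro u l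
    show _ + Sum.elim u (fun _ => 0) (KE.symm (KE (Sum.inr l))) = _
    rw [Equiv.symm_apply_apply]
    rfl
  have hall : ∀ (a b : Pt m), (∀ c, a (K c) ≤ b (K c)) → a ≤ b := by
    intro a b h k
    obtain ⟨c, rfl⟩ := hKbij.2 k
    exact h c
  have hιmono : ∀ u v, u ≤ v → ι u ≤ ι v := by
    intro u v huv
    apply hall
    rintro (i | l)
    · rw [hιl, hιl]; exact Nat.add_le_add_left (huv i) _
    · rw [hιr, hιr]
  have hι0 : ι 0 = x0 := by
    funext a
    obtain ⟨c, rfl⟩ := hKbij.2 a
    rcases c with i | l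
    · rw [hιl]; rfl
    · rw [hιr]
  have hιe : ∀ i, ι (ee i) = x0 + Pi.single (K (Sum.inl i)) 1 := by
    intro i
    funext a
    obtain ⟨c, rfl⟩ := hKbij.2 a
    rcases c with i' | l
    · rw [hιl]
      simp only [Pi.add_apply, ee]
      congr 1
      by_cases h : i' = i
      · subst h; simp
      · have : K (Sum.inl i') ≠ K (Sum.inl i) := fun h' => h (by
          have := hKinj h'; injection this)
        simp [Pi.single_apply, h, this]
    · rw [hιr]
      have : K (Sum.inr l) ≠ K (Sum.inl i) := fun h' => by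
        have := hKinj h'; cases this
      simp [Pi.single_apply, this]
  have hge : ∀ u i, u i ≠ 0 → x0 + Pi.single (K (Sum.inl i)) 1 ≤ ι u := by
    intro u i hi
    rw [← hιe i]
    apply hιmono
    intro l
    by_cases hl : l = i
    · subst hl; simp [ee]; omega
    · simp [ee, Pi.single_apply, hl]
  have hup : ∀ u c, Sees (fun x => lam (ι x)) u c → Sees lam (ι u) c := by
    rintro u c ⟨v, huv, hv⟩
    exact ⟨ι v, hιmono _ _ huv, hv⟩
  have hdown : ∀ u c, c ≠ T → (∀ l, c ≠ X l) → Sees lam (ι u) c →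
      Sees (fun x => lam (ι x)) u c := by
    rintro u c hcT hcX ⟨w, hw, hwc⟩
    by_cases hex : ∃ l, w (K (Sum.inr l)) ≠ x0 (K (Sum.inr l))
    · exfalso
      obtain ⟨l, hl⟩ := hex
      have h1 : x0 + Pi.single (K (Sum.inr l)) 1 ≤ w := by
        intro a
        have hwa : ι u a ≤ w a := hw a
        have h0a : x0 a ≤ ι u a := Nat.le_add_right _ _
        by_cases ha : a = K (Sum.inr l)
        · subst ha
          simp only [Pi.add_apply, Pi.single_eq_same]
          omega
        · simp only [Pi.add_apply, Pi.single_apply, ha, if_false, add_zero]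
          omega
      have h2 := hg.G3 _ l (hK (Sum.inr l)) (hneO (Sum.inr l)) c ⟨w, h1, hwc⟩
      rcases h2 with h2 | h2
      · exact hcT h2
      · exact hcX l h2
    · push Not at hex
      refine ⟨fun i => w (K (Sum.inl i)) - x0 (K (Sum.inl i)), ?_, ?_⟩
      · intro i
        have h1 : ι u (K (Sum.inl i)) ≤ w (K (Sum.inl i)) := hw _
        rw [hιl] at h1
        show u i ≤ w (K (Sum.inl i)) - x0 (K (Sum.inl i))
        omega
      · have h2 : ι (fun i => w (K (Sum.inl i)) - x0 (K (Sum.inl i))) = w := by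
          funext a
          obtain ⟨c, rfl⟩ := hKbij.2 a
          rcases c with i | l
          · rw [hιl]
            have h1 : ι u (K (Sum.inl i)) ≤ w (K (Sum.inl i)) := hw _
            rw [hιl] at h1
            omega
          · rw [hιr, hex l]
        show lam (ι _) = c
        rw [h2, hwc]
  have hne : ∀ u : P3, u ≠ 0 → ∃ i, u i ≠ 0 := by
    intro u hu
    by_contra hcon
    push Not at hcon
    exact hu (funext hcon)
  refine ⟨fun x => lam (ι x), ?_⟩
  have hneroot : ∀ u : P3, u ≠ 0 → lam (ι u) ≠ O := by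
    intro u hu h
    obtain ⟨i, hi⟩ := hne u hu
    exact hnotD (Sum.inl i) ⟨ι u, hge u i hi, h⟩
  refine
    { root := ?_
      ne_root := hneroot
      ax := ?_
      ax_see := ?_
      noX := ?_
      may := fun u c h => hg.may _ _ (hup u c h)
      P_must := fun u k e b h b' => hdown _ _ (by simp) (by simp) (hg.P_must _ k e b h b')
      E_must := fun u k h e => hdown _ _ (by simp) (by simp) (hg.E_must _ k h e)
      W_must := fun u k j q h => hdown _ _ (by simp) (by simp) (hg.W_must _ k j q h)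
      W_le := fun u k j q h => hg.W_le _ k j q h
      Ph_ex := ?_
      Ph_adj := fun u h c c' hc hc' hs hs' hcc =>
        hg.Ph_adj _ h c c' hc hc' (hup _ _ hs) (hup _ _ hs') hcc
      Rh_must := fun u h => hdown _ _ (by simp) (by simp) (hg.Rh_must _ h)
      O_ph := ?_
      G2 := ?_
      G6 := fun u i h1 h2 => hdown _ _ (by simp) (by simp) (hg.G6 _ i (hup _ _ h1) (hup _ _ h2))
      G7 := fun u k h1 h2 => hdown _ _ (by simp) (by simp) (hg.G7 _ k (hup _ _ h1) (hup _ _ h2)) }
  · show lam (ι 0) = O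
    rw [hι0, hx0]
  · intro u i hu hs j hji
    by_contra hj
    have h1 := (hup _ _ hs).mono (hge u j hj)
    have h2 := huniq (Sum.inl j) (Sum.inl i) h1
    injection h2 with h2
    exact hji h2.symm
  · intro i
    apply hdown _ _ (by simp) (by simp)
    rw [hιe]
    exact hK (Sum.inl i)
  · intro u l h
    have h' : lam (ι u) = X l := h
    by_cases hu : u = 0
    · subst hu
      rw [hι0, hx0] at h'
      cases h'
    · obtain ⟨i, hi⟩ := hne u hu
      have := huniq (Sum.inl i) (Sum.inr l) ⟨ι u, hge u i hi, h'⟩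
      cases this
  · intro u h q
    obtain ⟨c, hc, hq, hs⟩ := hg.Ph_ex _ h q
    refine ⟨c, hc, hq, hdown _ _ ?_ ?_ hs⟩
    · rintro rfl; exact hc
    · rintro l rfl; exact hc
  · apply hdown _ _ (by simp) (by simp)
    rw [hι0]
    exact hOm.1
  · intro u i hu hs
    have h1 := hg.G2 _ i (hup _ _ hs) (hneroot u hu)
    refine ⟨fun b => ⟨hdown _ _ (by simp) (by simp) (h1.1 b).1,
      hdown _ _ (by simp) (by simp) (h1.1 b).2⟩, ?_⟩
    intro e b h
    exact h1.2 e b (hup _ _ h)

end Pool.Agent.OM
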