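import Pool.Agent.OM.M5b

/-!
# M5, part c: the strips, the axes and the corners
-/

namespace Pool.Agent.OM

open Lab

variable {V : Type} {m : ℕ}

/-- the axis along which the strip `P k e` runs -/
def al (k : Fin 3) (e : Bool) : Fin 3 := if e then k + 2 else k + 1

/-- the other axis of the plane `k` -/
def be (k : Fin 3) (e : Bool) : Fin 3 := if e then k + 1 else k + 2

theorem fin3_cases (k l : Fin 3) : l = k ∨ l = k + 1 ∨ l = k + 2 := by revert k l; decide

theorem all3 (k : Fin 3) {p : Fin 3 → Prop} (h0 : p k) (h1 : p (k + 1)) (h2 : p (k + 2)) :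
    ∀ l, p l := by
  intro l
  rcases fin3_cases k l with rfl | rfl | rfl <;> assumption

theorem all3e (k : Fin 3) (e : Bool) {p : Fin 3 → Prop} (h0 : p k) (h1 : p (al k e))
    (h2 : p (be k e)) : ∀ l, p l := by
  cases e
  · exact all3 k h0 h1 h2
  · exact all3 k h0 h2 h1

theorem ext3e (k : Fin 3) (e : Bool) {x y : Fin 3 → ℕ} (h0 : x k = y k)
    (h1 : x (al k e) = y (al k e)) (h2 : x (be k e) = y (be k e)) : x = y :=
  funext (all3e k e (p := fun l => x l = y l) h0 h1 h2)

theorem le3e (k : Fin 3) (e : Bool) {x y : Fin 3 → ℕ} (h0 : x k ≤ y k)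
    (h1 : x (al k e) ≤ y (al k e)) (h2 : x (be k e) ≤ y (be k e)) : x ≤ y :=
  all3e k e (p := fun l => x l ≤ y l) h0 h1 h2

theorem ext3 (k : Fin 3) {x y : Fin 3 → ℕ} (h0 : x k = y k)
    (h1 : x (k + 1) = y (k + 1)) (h2 : x (k + 2) = y (k + 2)) : x = y :=
  funext (all3 k (p := fun l => x l = y l) h0 h1 h2)

theorem le3 (k : Fin 3) {x y : Fin 3 → ℕ} (h0 : x k ≤ y k)
    (h1 : x (k + 1) ≤ y (k + 1)) (h2 : x (k + 2) ≤ y (k + 2)) : x ≤ y :=
  all3 k (p := fun l => x l ≤ y l) h0 h1 h2

theorem al_false_add (k : Fin 3) : al k false + 2 = k := by revert k; decide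
theorem al_true_add (k : Fin 3) : al k true + 1 = k := by revert k; decide
theorem add1_ne (k : Fin 3) : k + 1 ≠ k := by revert k; decide
theorem add2_ne (k : Fin 3) : k + 2 ≠ k := by revert k; decide
theorem add12_ne (k : Fin 3) : k + 1 ≠ k + 2 := by revert k; decide
theorem be1_ne (k : Fin 3) : be (k + 1) true ≠ k := by revert k; decide
theorem be2_ne (k : Fin 3) : be (k + 2) false ≠ k := by revert k; decide

theorem al_ne (k : Fin 3) (e : Bool) : al k e ≠ k := by revert k e; decide
theorem be_ne (k : Fin 3) (e : Bool) : be k e ≠ k := by revert k e; decide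
theorem al_ne_be (k : Fin 3) (e : Bool) : al k e ≠ be k e := by revert k e; decide

section
variable {adj : V → V → Prop} {len : Fin 3 → ℕ} {path : Fin 3 → ℕ → V} {lam : P3 → Lab V m}

theorem ee_ne_zero (i : Fin 3) : ee i ≠ 0 := by
  intro h
  have := congrFun h i
  simp [ee] at this

theorem ee_le {i : Fin 3} {x : P3} (h : x i ≠ 0) : ee i ≤ x := by
  intro l
  by_cases hl : l = i
  · subst hl; simp [ee]; omega
  · simp [ee, Pi.single_apply, hl]

theorem self_sees (lam : P3 → Lab V m) (x : P3) : Sees lam x (lam x) := ⟨x, le_refl _, rfl⟩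

theorem sees_of {x : P3} {c : Lab V m} (h : lam x = c) : Sees lam x c := ⟨x, le_refl _, h⟩

theorem P_plane (hg : Good3 adj len path lam) {x : P3} {k : Fin 3} {e b : Bool}
    (h : Sees lam x (P k e b)) : x k = 0 := by
  by_contra hk
  exact (hg.G2 (ee k) k (ee_ne_zero k) (hg.ax_see k)).2 e b (h.mono (ee_le hk))

theorem P_noMax (hg : Good3 adj len path lam) {x : P3} {k : Fin 3} {e b : Bool}
    (h : Sees lam x (P k e b)) (b' : Bool) : ∃ y, x ≤ y ∧ x ≠ y ∧ Sees lam y (P k e b') := by
  obtain ⟨z, hz, hzl⟩ := h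
  obtain ⟨z', hz', hzl'⟩ := hg.P_must z k e b hzl (!b)
  refine ⟨z', hz.trans hz', ?_, hg.P_must z' k e _ hzl' b'⟩
  rintro rfl
  have : z = x := le_antisymm hz' hz
  subst this
  rw [hzl] at hzl'
  injection hzl' with _ _ h3
  cases b <;> cases h3

theorem P_ax (hg : Good3 adj len path lam) (k : Fin 3) (e b : Bool) :
    Sees lam (ee (al k e)) (P k e b) := by
  have h := (hg.G2 (ee (al k e)) (al k e) (ee_ne_zero _) (hg.ax_see _)).1 b
  cases e
  · have h2 := h.2
    rwa [al_false_add] at h2
  · have h2 := h.1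
    rwa [al_true_add] at h2

theorem R_not_may (k : Fin 3) (e b : Bool) : ¬ May (R (be k e) : Lab V m) (P k e b) := by
  intro h
  simp only [May] at h
  rcases h with h | h | ⟨b', h⟩ | ⟨b', h⟩
  · cases h
  · cases h
  · injection h with h1 h2 h3
    subst h2
    revert h1; revert k; decide
  · injection h with h1 h2 h3
    subst h2
    revert h1; revert k; decide

theorem strip_exists (hg : Good3 adj len path lam) (k : Fin 3) (e : Bool) :
    ∃ bb : ℕ, ∀ x b, Sees lam x (P k e b) ↔ x k = 0 ∧ x (be k e) ≤ bb := by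
  classical
  obtain ⟨z, hz, hzl⟩ := hg.ax_see (be k e)
  have hz0 : z ≠ 0 := by
    rintro rfl
    rw [hg.root] at hzl
    cases hzl
  have hzax := hg.ax z (be k e) hz0 (sees_of hzl)
  have hzn : ∀ b, ¬ Sees lam z (P k e b) := by
    intro b h
    apply R_not_may (V := V) (m := m) k e b
    rw [← hzl]
    exact hg.may _ _ h
  have hbound : ∀ t, z (be k e) ≤ t → ¬ Sees lam (Pi.single (be k e) t) (P k e false) := by
    intro t ht h
    apply hzn false
    refine h.mono ?_
    intro l
    by_cases hl : l = be k e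
    · subst hl; simpa using ht
    · rw [hzax l hl]; exact Nat.zero_le _
  let bb := Nat.findGreatest (fun t => Sees lam (Pi.single (be k e) t) (P k e false))
    (z (be k e))
  have h0 : Sees lam (Pi.single (be k e) 0) (P k e false) := by
    refine (P_ax hg k e false).mono ?_
    intro l
    simp [Pi.single_apply]
  have hbb : Sees lam (Pi.single (be k e) bb) (P k e false) :=
    Nat.findGreatest_spec (P := fun t => Sees lam (Pi.single (be k e) t) (P k e false))
      (Nat.zero_le _) h0
  have hle : ∀ t, Sees lam (Pi.single (be k e) t) (P k e false) → t ≤ bb := by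
    intro t ht
    by_cases h : t ≤ z (be k e)
    · exact Nat.le_findGreatest h ht
    · exact absurd ht (hbound t (by omega))
  have hle' : ∀ x, Sees lam x (P k e false) → x (be k e) ≤ bb := by
    intro x hx
    apply hle
    refine hx.mono ?_
    intro l
    by_cases hl : l = be k e
    · subst hl; simp
    · simp [Pi.single_apply, hl]
  have hstep : ∀ s, Sees lam (Pi.single (al k e) s + Pi.single (be k e) bb) (P k e false) := by
    intro s
    induction s with
    | zero => simpa using hbb
    | succ s ih =>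
      obtain ⟨y, hxy, hne, hy⟩ := P_noMax hg ih false
      refine hy.mono ?_
      have hk := P_plane hg hy
      have hb := hle' y hy
      have h1 := hxy (be k e)
      have h2 := hxy (al k e)
      simp only [Pi.add_apply, Pi.single_eq_same, Pi.single_apply, al_ne_be k e,
        (al_ne_be k e).symm, if_false, add_zero, zero_add] at h1 h2
      have h3 : y (al k e) ≠ s := by
        intro h
        apply hne
        apply ext3e k e
        · simp [Pi.single_apply, (al_ne k e).symm, (be_ne k e).symm, hk]
        · simp [Pi.single_apply, al_ne_be k e, h]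
        · simp only [Pi.add_apply, Pi.single_eq_same, Pi.single_apply, (al_ne_be k e).symm,
            if_false, zero_add]
          omega
      apply le3e k e
      · simp [Pi.single_apply, (al_ne k e).symm, (be_ne k e).symm]
      · simp only [Pi.add_apply, Pi.single_eq_same, Pi.single_apply, al_ne_be k e, if_false,
          add_zero]
        omega
      · simp only [Pi.add_apply, Pi.single_eq_same, Pi.single_apply, (al_ne_be k e).symm,
          if_false, zero_add]
        omega
  refine ⟨bb, ?_⟩
  have hfalse : ∀ x, Sees lam x (P k e false) ↔ x k = 0 ∧ x (be k e) ≤ bb := by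
    intro x
    constructor
    · intro h
      exact ⟨P_plane hg h, hle' x h⟩
    · rintro ⟨h1, h2⟩
      refine (hstep (x (al k e))).mono ?_
      apply le3e k e
      · rw [h1]; exact Nat.zero_le _
      · simp [Pi.single_apply, al_ne_be k e]
      · simpa [Pi.single_apply, (al_ne_be k e).symm] using h2
  intro x b
  rw [← hfalse x]
  constructor
  · rintro ⟨y, hy, hyl⟩
    exact (hg.P_must y k e b hyl false).mono hy
  · rintro ⟨y, hy, hyl⟩
    exact (hg.P_must y k e false hyl b).mono hy

/-- `Strip bb`: the width function of the strips -/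
theorem axis_sees (hg : Good3 adj len path lam) (i : Fin 3) (s : ℕ) :
    Sees lam (Pi.single i s) (R i) := by
  apply hg.G6
  · obtain ⟨bb, h⟩ := strip_exists hg (i + 1) true
    rw [h]
    simp [Pi.single_apply, add1_ne i, be1_ne i]
  · obtain ⟨bb, h⟩ := strip_exists hg (i + 2) false
    rw [h]
    simp [Pi.single_apply, add2_ne i, be2_ne i]

theorem strips (hg : Good3 adj len path lam) :
    ∃ bb : Fin 3 → Bool → ℕ, (∀ k e, 1 ≤ bb k e) ∧
      ∀ k e b x, Sees lam x (P k e b) ↔ x k = 0 ∧ x (be k e) ≤ bb k e := by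
  have h := fun k e => strip_exists hg k e
  choose bb hbb using h
  refine ⟨bb, ?_, fun k e b x => hbb k e x b⟩
  intro k e
  obtain ⟨z, hz, hzl⟩ := P_ax hg k e false
  have h1 := (hbb k e z false).1 (sees_of hzl)
  by_contra hlt
  have h2 : z (be k e) = 0 := by omega
  have h3 : z = Pi.single (al k e) (z (al k e)) := by
    apply ext3e k e
    · simp [Pi.single_apply, (al_ne k e).symm, h1.1]
    · simp
    · simp [Pi.single_apply, (al_ne_be k e).symm, h2]
  have h4 : Sees lam z (R (al k e)) := by
    rw [h3]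
    exact axis_sees hg _ _
  have h5 := hg.may _ _ h4
  rw [hzl] at h5
  simp [May] at h5

theorem E_plane (hg : Good3 adj len path lam) {x : P3} {k : Fin 3} (h : Sees lam x (E k)) :
    x k = 0 := by
  obtain ⟨z, hz, hzl⟩ := h
  have h1 := P_plane hg (hg.E_must z k hzl false)
  have h2 : x k ≤ z k := hz k
  omega

theorem W_plane (hg : Good3 adj len path lam) {x : P3} {k : Fin 3} {j : ℕ} {q : Fin 3}
    (h : lam x = W k j q) : x k = 0 := E_plane hg (hg.W_must x k j q h)

theorem R_axis (hg : Good3 adj len path lam) {x : P3} {i : Fin 3} (h : lam x = R i) :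
    ∀ j, j ≠ i → x j = 0 := by
  apply hg.ax x i
  · rintro rfl
    rw [hg.root] at h
    cases h
  · exact sees_of h

/-- the corner of plane `k` -/
def corner (bb : Fin 3 → Bool → ℕ) (k : Fin 3) : P3 :=
  Pi.single (k + 1) (bb k true) + Pi.single (k + 2) (bb k false)

theorem corner_k (bb : Fin 3 → Bool → ℕ) (k : Fin 3) : corner bb k k = 0 := by
  simp [corner, Pi.single_apply, (add1_ne k).symm, (add2_ne k).symm]

theorem corner_1 (bb : Fin 3 → Bool → ℕ) (k : Fin 3) : corner bb k (k + 1) = bb k true := by
  simp [corner, Pi.single_apply, add12_ne k]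

theorem corner_2 (bb : Fin 3 → Bool → ℕ) (k : Fin 3) : corner bb k (k + 2) = bb k false := by
  simp [corner, Pi.single_apply, (add12_ne k).symm]

theorem corner_lab (hg : Good3 adj len path lam) {bb : Fin 3 → Bool → ℕ}
    (hbb : ∀ k e b x, Sees lam x (P k e b) ↔ x k = 0 ∧ x (be k e) ≤ bb k e) (k : Fin 3) :
    lam (corner bb k) = E k := by
  have h1 : Sees lam (corner bb k) (P k false false) := by
    rw [hbb]
    exact ⟨corner_k bb k, by show corner bb k (k + 2) ≤ _; rw [corner_2]⟩
  have h2 : Sees lam (corner bb k) (P k true false) := by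
    rw [hbb]
    exact ⟨corner_k bb k, by show corner bb k (k + 1) ≤ _; rw [corner_1]⟩
  obtain ⟨z, hz, hzl⟩ := hg.G7 _ k h1 h2
  have h3 := (hbb _ _ _ _).1 (hg.E_must z k hzl false)
  have h4 := (hbb _ _ _ _).1 (hg.E_must z k hzl true)
  have h5 : z = corner bb k := by
    apply le_antisymm _ hz
    apply le3 k
    · rw [h3.1]; exact Nat.zero_le _
    · rw [corner_1]; exact h4.2
    · rw [corner_2]; exact h3.2
  rw [← h5]
  exact hzl

end

end Pool.Agent.OM
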