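import Pool.Agent.OM.M5c

/-!
# M5, part d: the face region
-/

namespace Pool.Agent.OM

open Lab

variable {V : Type} {m : ℕ}

section
variable {adj : V → V → Prop} {len : Fin 3 → ℕ} {path : Fin 3 → ℕ → V} {lam : P3 → Lab V m}

theorem Z_mono (hg : Good3 adj len path lam) {x y : P3} (h : x ≤ y) (hy : lam y ≠ T) :
    lam x ≠ T := by
  intro hx
  have h1 := hg.may x (lam y) ⟨y, h, rfl⟩
  rw [hx] at h1
  exact hy h1

theorem not_special (hg : Good3 adj len path lam) {p : P3} (hp : ¬ Sees lam p Ph) :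
    lam p ≠ Ph ∧ lam p ≠ Rh ∧ lam p ≠ O := by
  refine ⟨fun h => hp (sees_of h), fun h => hp (hg.Rh_must p h), ?_⟩
  intro h
  by_cases h0 : p = 0
  · subst h0; exact hp hg.O_ph
  · exact hg.ne_root p h0 h

theorem one_vert (hg : Good3 adj len path lam) {p : P3} (hp : ¬ Sees lam p Ph) {c : Lab V m}
    (hc : IsVert c) (hs : Sees lam p c) : lam p = c := by
  have h1 := hg.may p c hs
  have h2 := not_special hg hp
  have h3 := hg.noX p
  cases hl : lam p with
  | T => rw [hl] at h1; simp only [May] at h1; subst h1; exact absurd hc (by simp [IsVert])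
  | P k e b =>
    rw [hl] at h1; simp only [May] at h1
    rcases h1 with rfl | ⟨b, rfl⟩ <;> exact absurd hc (by simp [IsVert])
  | E k =>
    rw [hl] at h1; simp only [May] at h1
    rcases h1 with rfl | rfl | ⟨e, b, rfl⟩ <;> exact absurd hc (by simp [IsVert])
  | I v q =>
    rw [hl] at h1; simp only [May] at h1
    rcases h1 with rfl | rfl
    · exact absurd hc (by simp [IsVert])
    · rfl
  | W k j q =>
    rw [hl] at h1; simp only [May] at h1
    rcases h1 with rfl | rfl | rfl | ⟨e, b, rfl⟩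
    · exact absurd hc (by simp [IsVert])
    · rfl
    · exact absurd hc (by simp [IsVert])
    · exact absurd hc (by simp [IsVert])
  | R i =>
    rw [hl] at h1; simp only [May] at h1
    rcases h1 with rfl | rfl | ⟨b, rfl⟩ | ⟨b, rfl⟩
    · exact absurd hc (by simp [IsVert])
    · rfl
    · exact absurd hc (by simp [IsVert])
    · exact absurd hc (by simp [IsVert])
  | X l => exact absurd hl (h3 l)
  | Ph => exact absurd hl h2.1
  | Rh => exact absurd hl h2.2.1
  | O => exact absurd hl h2.2.2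

theorem vert_no_Ph (hg : Good3 adj len path lam) {p : P3} (hp : IsVert (lam p)) :
    ¬ Sees lam p Ph := by
  intro h
  have h1 := hg.may p _ h
  cases hl : lam p <;> rw [hl] at h1 hp <;> simp [May, IsVert] at h1 hp

/-- a maximal face point -/
structure MaxPh (adj : V → V → Prop) (len : Fin 3 → ℕ) (path : Fin 3 → ℕ → V)
    (lam : P3 → Lab V m) (q : P3) : Prop where
  ph : lam q = Ph
  notD : ∀ k, ¬ Sees lam (q + ee k) Ph
  vert : ∀ k, IsVert (lam (q + ee k))
  dist : ∀ k k', k ≠ k' → lam (q + ee k) ≠ lam (q + ee k')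
  vadj : ∀ k k', k ≠ k' → Vadj adj len path (lam (q + ee k)) (lam (q + ee k'))

theorem Q_aux (hg : Good3 adj len path lam) (x : P3) (J0 : Finset (Fin 3))
    (hx : ∀ v, Supp J0 v → Sees lam (x + v) Ph) :
    J0 = ∅ ∧ ∃ q, x ≤ q ∧ MaxPh adj len path lam q := by
  obtain ⟨J, y, hJ0, hxy, hJ, hk⟩ := lemmaC (fun z => Sees lam z Ph)
    (fun a b hab hb => hb.mono hab) x J0 hx
  obtain ⟨z, hyz, hz⟩ : Sees lam y Ph := by
    have := hJ 0 (fun _ _ => rfl)
    simpa using this
  rcases supp_or J y z hyz with ⟨v, hv, rfl⟩ | ⟨k, hkJ, hkz⟩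
  swap
  · exact absurd ⟨z, hkz, hz⟩ (hk k hkJ)
  have hJ' : ∀ u, Supp J u → Sees lam (y + v + u) Ph := by
    intro u hu
    rw [add_assoc]
    apply hJ
    intro l hl
    simp [hv l hl, hu l hl]
  have hk' : ∀ k, k ∉ J → ¬ Sees lam (y + v + ee k) Ph := by
    intro k hkJ hs
    apply hk k hkJ
    refine hs.mono ?_
    intro l
    simp only [Pi.add_apply, ee]
    omega
  have hw : ∀ c : Fin 3, ∃ k, k ∉ J ∧ ∃ ℓ : Lab V m, IsVert ℓ ∧ cls ℓ = c ∧
      lam (y + v + ee k) = ℓ := by
    intro c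
    obtain ⟨ℓ, hℓ, hc, w, hw, hwl⟩ := hg.Ph_ex _ hz c
    rcases supp_or J _ w hw with ⟨u, hu, rfl⟩ | ⟨k, hkJ, hkw⟩
    · exfalso
      exact vert_no_Ph hg (by rw [hwl]; exact hℓ) (hJ' u hu)
    · exact ⟨k, hkJ, ℓ, hℓ, hc, one_vert hg (hk' k hkJ) hℓ ⟨w, hkw, hwl⟩⟩
  choose K hKJ ℓ hℓ hc hKl using hw
  have hKinj : Function.Injective K := by
    intro c c' hcc
    have h1 : ℓ c = ℓ c' := by rw [← hKl c, ← hKl c', hcc]
    rw [← hc c, ← hc c', h1]
  have hKsurj : Function.Surjective K := Finite.surjective_of_injective hKinj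
  have hJe : J = ∅ := by
    rw [Finset.eq_empty_iff_forall_notMem]
    intro k
    obtain ⟨c, rfl⟩ := hKsurj k
    exact hKJ c
  have hdist : ∀ k k', k ≠ k' → lam (y + v + ee k) ≠ lam (y + v + ee k') := by
    intro k k' hne h
    obtain ⟨c, rfl⟩ := hKsurj k
    obtain ⟨c', rfl⟩ := hKsurj k'
    apply hne
    rw [hKl, hKl] at h
    have : c = c' := by rw [← hc c, ← hc c', h]
    rw [this]
  have hvert : ∀ k, IsVert (lam (y + v + ee k)) := by
    intro k
    obtain ⟨c, rfl⟩ := hKsurj k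
    rw [hKl]
    exact hℓ c
  have hle : ∀ k, y + v ≤ y + v + ee k := by
    intro k l
    simp only [Pi.add_apply]
    omega
  refine ⟨?_, y + v, hxy.trans ?_, ⟨hz, ?_, hvert, hdist, ?_⟩⟩
  · rw [hJe] at hJ0
    exact Finset.subset_empty.1 hJ0
  · intro l
    simp only [Pi.add_apply]
    omega
  · intro k
    apply hk'
    rw [hJe]
    simp
  · intro k k' hne
    exact (hg.Ph_adj _ hz _ _ (hvert k) (hvert k') ⟨_, hle k, rfl⟩ ⟨_, hle k', rfl⟩
      (hdist k k' hne)).2

theorem Q (hg : Good3 adj len path lam) {x : P3} (hx : Sees lam x Ph) :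
    ∃ q, x ≤ q ∧ MaxPh adj len path lam q := by
  refine (Q_aux hg x ∅ ?_).2
  intro v hv
  have : v = 0 := by
    funext l; exact hv l (by simp)
  subst this
  rw [add_zero]
  exact hx

theorem V2 (hg : Good3 adj len path lam) {x : P3} (hx : Sees lam x Ph) (k : Fin 3) :
    ∃ c, IsVert c ∧ Sees lam (x + ee k) c := by
  obtain ⟨q, hq, hm⟩ := Q hg hx
  refine ⟨_, hm.vert k, q + ee k, ?_, rfl⟩
  intro l
  have h1 : x l ≤ q l := hq l
  simp only [Pi.add_apply]
  omega

theorem V2Z (hg : Good3 adj len path lam) {x : P3} (hx : Sees lam x Ph) (k : Fin 3) :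
    lam (x + ee k) ≠ T := by
  obtain ⟨c, hc, y, hy, hyl⟩ := V2 hg hx k
  refine Z_mono hg hy ?_
  rw [hyl]
  rintro rfl
  exact hc

/-- size -/
def sz (x : P3) : ℕ := x 0 + x 1 + x 2

theorem sz_ee (x : P3) (i : Fin 3) : sz (x + ee i) = sz x + 1 := by
  have h : i = 0 ∨ i = 1 ∨ i = 2 := by revert i; decide
  rcases h with rfl | rfl | rfl <;> simp [sz, ee, Pi.single_apply] <;> omega

theorem sz_mono {x y : P3} (h : x ≤ y) : sz x ≤ sz y := by
  have h0 : x 0 ≤ y 0 := h 0
  have h1 : x 1 ≤ y 1 := h 1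
  have h2 : x 2 ≤ y 2 := h 2
  unfold sz; omega

theorem sz_lt {x y : P3} (h : x ≤ y) (hne : x ≠ y) : sz x < sz y := by
  have h0 : x 0 ≤ y 0 := h 0
  have h1 : x 1 ≤ y 1 := h 1
  have h2 : x 2 ≤ y 2 := h 2
  by_contra hlt
  apply hne
  unfold sz at hlt
  apply ext3 0
  · omega
  · show x 1 = y 1; omega
  · show x 2 = y 2; omega

theorem D_bdd (hg : Good3 adj len path lam) : ∃ N, ∀ x, Sees lam x Ph → sz x < N := by
  have h : ∀ k : Fin 3, ∃ s, ¬ Sees lam (Pi.single k s) Ph := by
    intro k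
    by_contra hcon
    push Not at hcon
    have := (Q_aux hg 0 {k} ?_).1
    · exact absurd this (Finset.singleton_ne_empty k)
    · intro v hv
      refine (hcon (v k)).mono ?_
      intro l
      by_cases hl : l = k
      · subst hl; simp
      · have : v l = 0 := hv l (by simpa using hl)
        simp [this]
  choose s hs using h
  have hlt : ∀ x k, Sees lam x Ph → x k < s k := by
    intro x k hx
    by_contra hge
    apply hs k
    refine hx.mono ?_
    intro l
    by_cases hl : l = k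
    · subst hl; simpa using hge
    · simp [Pi.single_apply, hl]
  refine ⟨s 0 + s 1 + s 2, ?_⟩
  intro x hx
  have h0 := hlt x 0 hx
  have h1 := hlt x 1 hx
  have h2 := hlt x 2 hx
  unfold sz
  omega

end

end Pool.Agent.OM
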