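import Pool.Agent.OM.M5d

/-!
# M5, part e: extension of the cocycle
-/

namespace Pool.Agent.OM

open Lab

variable {V : Type} {m : ℕ}

section
variable {G : Type} [Group G]

/-- value of a boundary label or side vertex in the frame of its side -/
def val (g : V → V → G) (len : Fin 3 → ℕ) (path : Fin 3 → ℕ → V) : Lab V m → G
  | W k j _ => pv g (path k) j
  | P k true _ => pv g (path k) (len k)
  | _ => 1

/-- transition between labels -/
def tr (g : V → V → G) (len : Fin 3 → ℕ) (path : Fin 3 → ℕ → V) : Lab V m → Lab V m → G
  | W k j q, l' => (val g len path (W k j q : Lab V m))⁻¹ * val g len path l'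
  | E k, l' => (val g len path (E k : Lab V m))⁻¹ * val g len path l'
  | P k e b, l' => (val g len path (P k e b : Lab V m))⁻¹ * val g len path l'
  | _, _ => 1

/-- projection of vertex labels to vertices -/
def pr (star : V) (path : Fin 3 → ℕ → V) : Lab V m → V
  | I v _ => v
  | W k j _ => path k j
  | _ => star

variable {g : V → V → G} {len : Fin 3 → ℕ} {path : Fin 3 → ℕ → V}

theorem tr_self (l : Lab V m) : tr g len path l l = 1 := by
  cases l <;> simp [tr]

theorem tr_mul {l l' l'' : Lab V m} (h1 : May l l') (h2 : May l' l'') (hT : l'' ≠ T)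
    (hl : l ≠ Ph ∧ l ≠ Rh ∧ l ≠ O) :
    tr g len path l l' * tr g len path l' l'' = tr g len path l l'' := by
  have hT' : l' ≠ T := by
    rintro rfl
    exact hT h2
  cases l with
  | T => exact absurd h1 hT'
  | P k e b =>
    simp only [May] at h1
    rcases h1 with rfl | ⟨b', rfl⟩
    · exact absurd rfl hT'
    · simp only [tr]; group
  | E k =>
    simp only [May] at h1
    rcases h1 with rfl | rfl | ⟨e, b', rfl⟩
    · exact absurd rfl hT'
    · simp only [tr]; group
    · simp only [tr]; group
  | I v q =>
    simp only [May] at h1
    rcases h1 with rfl | rfl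
    · exact absurd rfl hT'
    · simp only [tr]; group
  | W k j q =>
    simp only [May] at h1
    rcases h1 with rfl | rfl | rfl | ⟨e, b', rfl⟩
    · exact absurd rfl hT'
    · simp only [tr]; group
    · simp only [tr]; group
    · simp only [tr]; group
  | R i =>
    simp only [May] at h1
    rcases h1 with rfl | rfl | ⟨b', rfl⟩ | ⟨b', rfl⟩
    · exact absurd rfl hT'
    · simp only [tr]; group
    · simp only [May] at h2
      rcases h2 with rfl | ⟨b'', rfl⟩
      · exact absurd rfl hT
      · simp [tr, val]
    · simp only [May] at h2
      rcases h2 with rfl | ⟨b'', rfl⟩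
      · exact absurd rfl hT
      · simp [tr, val]
  | X l =>
    simp only [May] at h1
    rcases h1 with rfl | rfl
    · exact absurd rfl hT'
    · simp only [tr]; group
  | Ph => exact absurd rfl hl.1
  | Rh => exact absurd rfl hl.2.1
  | O => exact absurd rfl hl.2.2

variable {adj : V → V → Prop} {star : V}

/-- hypotheses on the data -/
structure Hyp (adj : V → V → Prop) (star : V) (len : Fin 3 → ℕ) (path : Fin 3 → ℕ → V)
    (g : V → V → G) : Prop where
  refl : ∀ u, adj u u
  symm : ∀ u v, adj u v → adj v u
  p0 : ∀ k, path k 0 = star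
  p1 : ∀ k, path k (len k) = star
  ps : ∀ k j, j < len k → adj (path k j) (path k (j + 1))
  coh : Coh adj g

theorem pr_adj (H : Hyp adj star len path g) {l l' : Lab V m}
    (hl : ∀ k j q, l = W k j q → j ≤ len k) (hl' : ∀ k j q, l' = W k j q → j ≤ len k)
    (h : Vadj adj len path l l') : adj (pr star path l) (pr star path l') := by
  cases l with
  | I v q =>
    cases l' with
    | I v' q' => exact h
    | W k j q' => exact h
    | _ => exact absurd h (by simp [Vadj])
  | W k j q =>
    cases l' with
    | I v' q' => exact h
    | W k' j' q' =>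
      simp only [Vadj] at h
      simp only [pr]
      rcases h with ⟨rfl, rfl | rfl | rfl⟩ | ⟨rfl, rfl, rfl⟩ | ⟨rfl, rfl, rfl⟩
      · exact H.refl _
      · apply H.symm
        apply H.ps
        have := hl _ _ _ rfl
        omega
      · apply H.ps
        have := hl' _ _ _ rfl
        omega
      · rw [H.p1, H.p0]; exact H.refl _
      · rw [H.p1, H.p0]; exact H.refl _
    | R i =>
      simp only [Vadj] at h
      simp only [pr]
      rcases h with ⟨rfl, rfl⟩ | ⟨rfl, rfl⟩
      · rw [H.p0]; exact H.refl _
      · rw [H.p1]; exact H.refl _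
    | _ => exact absurd h (by simp [Vadj])
  | R i =>
    cases l' with
    | W k j q =>
      simp only [Vadj] at h
      simp only [pr]
      rcases h with ⟨rfl, rfl⟩ | ⟨rfl, rfl⟩
      · rw [H.p0]; exact H.refl _
      · rw [H.p1]; exact H.refl _
    | _ => exact absurd h (by simp [Vadj])
  | _ => exact absurd h (by simp [Vadj])

theorem CC (H : Hyp adj star len path g) {l l' f : Lab V m}
    (hl : ∀ k j q, l = W k j q → j ≤ len k) (hl' : ∀ k j q, l' = W k j q → j ≤ len k)
    (h : Vadj adj len path l l') (hf : ¬ IsVert f) (hfT : f ≠ T) (h1 : May l f) (h2 : May l' f) :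
    tr g len path l f * (tr g len path l' f)⁻¹ = g (pr star path l) (pr star path l') := by
  cases l with
  | I v q =>
    simp only [May] at h1
    rcases h1 with rfl | rfl
    · exact absurd rfl hfT
    · exact absurd (by simp [IsVert]) hf
  | W k j q =>
    cases l' with
    | I v q =>
      simp only [May] at h2
      rcases h2 with rfl | rfl
      · exact absurd rfl hfT
      · exact absurd (by simp [IsVert]) hf
    | W k' j' q' =>
      have hkk : k = k' := by
        simp only [May] at h1 h2
        rcases h1 with rfl | rfl | rfl | ⟨e, b, rfl⟩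
        · exact absurd rfl hfT
        · exact absurd (by simp [IsVert]) hf
        · rcases h2 with h2 | h2 | h2 | ⟨e, b, h2⟩
          · cases h2
          · cases h2
          · injection h2
          · cases h2
        · rcases h2 with h2 | h2 | h2 | ⟨e, b, h2⟩
          · cases h2
          · cases h2
          · cases h2
          · injection h2
      subst hkk
      simp only [Vadj] at h
      have hs1 : k ≠ k + 1 := (add1_ne k).symm
      simp only [tr, pr]
      have e1 : (val g len path (W k j q : Lab V m))⁻¹ * val g len path f *
          ((val g len path (W k j' q' : Lab V m))⁻¹ * val g len path f)⁻¹ =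
          (pv g (path k) j)⁻¹ * pv g (path k) j' := by
        simp only [val]
        group
      rw [e1]
      rcases h with ⟨-, rfl | rfl | rfl⟩ | ⟨h, -⟩ | ⟨h, -⟩
      · rw [H.coh.one]; group
      · have h3 := H.coh.two _ _ (H.ps k j' (by have := hl _ _ _ rfl; omega))
        have h4 : g (path k (j' + 1)) (path k j') = (g (path k j') (path k (j' + 1)))⁻¹ :=
          eq_inv_of_mul_eq_one_right h3
        rw [h4]
        simp only [pv]
        group
      · simp only [pv]
        group
      · exact absurd h hs1
      · exact absurd h hs1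
    | R i =>
      simp only [Vadj] at h
      simp only [tr, pr, val]
      simp only [May] at h1 h2
      have hne : i + 1 ≠ i + 2 := add12_ne i
      rcases h2 with rfl | rfl | ⟨b, rfl⟩ | ⟨b, rfl⟩
      · exact absurd rfl hfT
      · exact absurd (by simp [IsVert]) hf
      · rcases h1 with h1 | h1 | h1 | ⟨e, b', h1⟩
        · cases h1
        · cases h1
        · cases h1
        · injection h1 with h1 h3 h4
          subst h1
          rcases h with ⟨h, -⟩ | ⟨-, rfl⟩
          · exact absurd h hne
          · rw [H.p1, H.coh.one]
            simp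
      · rcases h1 with h1 | h1 | h1 | ⟨e, b', h1⟩
        · cases h1
        · cases h1
        · cases h1
        · injection h1 with h1 h3 h4
          subst h1
          rcases h with ⟨-, rfl⟩ | ⟨h, -⟩
          · rw [H.p0, H.coh.one]
            simp [pv]
          · exact absurd h hne.symm
    | _ => exact absurd h (by simp [Vadj])
  | R i =>
    cases l' with
    | W k j q =>
      simp only [Vadj] at h
      simp only [tr, pr, val]
      simp only [May] at h1 h2
      have hne : i + 1 ≠ i + 2 := add12_ne i
      rcases h1 with rfl | rfl | ⟨b, rfl⟩ | ⟨b, rfl⟩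
      · exact absurd rfl hfT
      · exact absurd (by simp [IsVert]) hf
      · rcases h2 with h2 | h2 | h2 | ⟨e, b', h2⟩
        · cases h2
        · cases h2
        · cases h2
        · injection h2 with h2 h3 h4
          subst h2
          rcases h with ⟨h, -⟩ | ⟨-, rfl⟩
          · exact absurd h hne
          · rw [H.p1, H.coh.one]
            simp
      · rcases h2 with h2 | h2 | h2 | ⟨e, b', h2⟩
        · cases h2
        · cases h2
        · cases h2
        · injection h2 with h2 h3 h4
          subst h2
          rcases h with ⟨-, rfl⟩ | ⟨h, -⟩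
          · rw [H.p0, H.coh.one]
            simp [pv]
          · exact absurd h hne.symm
    | _ => exact absurd h (by simp [Vadj])
  | _ => exact absurd h (by simp [Vadj])

theorem coh_tri (H : Hyp adj star len path g) {u v w : V} (h1 : adj u v) (h2 : adj v w)
    (h3 : adj w u) : (g u v)⁻¹ * g u w = g v w := by
  have h4 := H.coh.three u v w h1 h2 h3
  have h5 := H.coh.two w u h3
  have h6 : g u w = (g w u)⁻¹ := eq_inv_of_mul_eq_one_right h5
  rw [h6, inv_mul_eq_iff_eq_mul]
  exact (eq_inv_of_mul_eq_one_left h4).symm

theorem a11 (k : Fin 3) : k + 1 + 1 = k + 2 := by revert k; decide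
theorem a12 (k : Fin 3) : k + 1 + 2 = k := by revert k; decide
theorem a21 (k : Fin 3) : k + 2 + 1 = k := by revert k; decide
theorem a22 (k : Fin 3) : k + 2 + 2 = k + 1 := by revert k; decide
theorem fin012 (l : Fin 3) : l = 0 ∨ l = 1 ∨ l = 2 := by revert l; decide

/-- solving the pair equations -/
theorem solve3 (present : Fin 3 → Prop) (τ : Fin 3 → G)
    (h : (∃ k, ¬ present k) ∨ τ 0 * τ 1 * τ 2 = 1) :
    ∃ a : Fin 3 → G, ∀ k, present k → (a (k + 1))⁻¹ * a (k + 2) = τ k := by
  rcases h with ⟨k, hk⟩ | h
  · refine ⟨fun l => if l = k then 1 else if l = k + 1 then τ (k + 2) else (τ (k + 1))⁻¹, ?_⟩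
    intro l hl
    rcases fin3_cases k l with rfl | rfl | rfl
    · exact absurd hl hk
    · rw [a11, a12]
      simp [add2_ne k, (add12_ne k).symm]
    · rw [a21, a22]
      simp [add1_ne k]
  · refine ⟨fun l => if l = 1 then 1 else if l = 2 then τ 0 else τ 0 * τ 1, ?_⟩
    intro l _
    rcases fin012 l with rfl | rfl | rfl
    · simp
    · simp
    · have e1 : (2 : Fin 3) + 1 = 0 := by decide
      have e2 : (2 : Fin 3) + 2 = 1 := by decide
      rw [e1, e2]
      simp only [if_true, mul_one]
      have h0 : (0 : Fin 3) ≠ 1 := by decide
      have h1 : (0 : Fin 3) ≠ 2 := by decide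
      simp only [h0, h1, if_false]
      exact inv_eq_of_mul_eq_one_right h

end

end Pool.Agent.OM
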