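import Pool.Agent.OM.M5e

/-!
# M5, part f: top-down extension of the cocycle
-/

namespace Pool.Agent.OM

open Lab

variable {V : Type} {m : ℕ}

section
variable {G : Type} [Group G]
variable {g : V → V → G} {len : Fin 3 → ℕ} {path : Fin 3 → ℕ → V}
variable {adj : V → V → Prop} {star : V} {lam : P3 → Lab V m}

/-- the region where the cocycle is defined at stage `t` -/
structure U (lam : P3 → Lab V m) (t : ℕ) (x : P3) : Prop where
  ne : x ≠ 0
  z : lam x ≠ T
  d : Sees lam x Ph → t ≤ sz x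

/-- the cocycle at stage `t` -/
structure Coc (adj : V → V → Prop) (star : V) (len : Fin 3 → ℕ) (path : Fin 3 → ℕ → V)
    (g : V → V → G) (lam : P3 → Lab V m) (t : ℕ) (c : P3 → P3 → G) : Prop where
  mul : ∀ x y z, U lam t x → x ≤ y → y ≤ z → lam z ≠ T → c x y * c y z = c x z
  base : ∀ x y, x ≠ 0 → ¬ Sees lam x Ph → x ≤ y → lam y ≠ T →
    c x y = tr g len path (lam x) (lam y)
  dag : ∀ q, q ≠ 0 → MaxPh adj len path lam q → t ≤ sz q → ∀ i j,
    (c q (q + ee i))⁻¹ * c q (q + ee j) =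
      g (pr star path (lam (q + ee i))) (pr star path (lam (q + ee j)))

theorem le_add_ee (x : P3) (i : Fin 3) : x ≤ x + ee i := by
  intro l; simp only [Pi.add_apply]; omega

theorem add_ee_le {x y : P3} {i : Fin 3} (h : x ≤ y) (hi : x i < y i) : x + ee i ≤ y := by
  intro l
  have h1 : x l ≤ y l := h l
  by_cases hl : l = i
  · subst hl
    simp only [Pi.add_apply, ee, Pi.single_eq_same]
    omega
  · simp only [Pi.add_apply, ee, Pi.single_apply, hl, if_false, add_zero]
    exact h1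

theorem add_ee_mono {x y : P3} (i : Fin 3) (h : x ≤ y) : x + ee i ≤ y + ee i := by
  intro l
  have h1 : x l ≤ y l := h l
  simp only [Pi.add_apply]
  omega

theorem add_ee_self (x : P3) (i : Fin 3) : (x + ee i) i = x i + 1 := by simp [ee]

theorem add_ee_ne {x : P3} {i j : Fin 3} (h : j ≠ i) : (x + ee i) j = x j := by
  simp [ee, Pi.single_apply, h]

theorem add_ee_ne_zero (x : P3) (i : Fin 3) : x + ee i ≠ 0 := by
  intro h
  have := congrFun h i
  rw [add_ee_self] at this
  simp at this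

theorem ne_zero_of_le {x y : P3} (hx : x ≠ 0) (h : x ≤ y) : y ≠ 0 := by
  rintro rfl
  apply hx
  funext l
  exact Nat.le_zero.1 (h l)

theorem Coc.one {t : ℕ} {c : P3 → P3 → G} (hc : Coc adj star len path g lam t c) {x : P3}
    (hx : U lam t x) : c x x = 1 := by
  have := hc.mul x x x hx (le_refl _) (le_refl _) hx.z
  simpa using this

theorem W_le' (hg : Good3 adj len path lam) (x : P3) :
    ∀ k j q, lam x = W k j q → j ≤ len k := fun k j q h => hg.W_le x k j q h

theorem coc_start (hg : Good3 adj len path lam) :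
    ∃ t, Coc adj star len path g lam t (fun x y => tr g len path (lam x) (lam y)) := by
  obtain ⟨N, hN⟩ := D_bdd hg
  refine ⟨N, ?_, ?_, ?_⟩
  · intro x y z hx hxy hyz hz
    have hnD : ¬ Sees lam x Ph := fun h => by
      have h1 := hN x h
      have h2 := hx.d h
      omega
    exact tr_mul (hg.may _ _ ⟨y, hxy, rfl⟩) (hg.may _ _ ⟨z, hyz, rfl⟩) hz (not_special hg hnD)
  · intro x y _ _ _ _
    rfl
  · intro q _ hq ht
    have := hN q (sees_of hq.ph)
    omega

/-- two directions -/
theorem pair_le {d y : P3} {i j : Fin 3} (hij : i ≠ j) (h1 : d + ee i ≤ y) (h2 : d + ee j ≤ y) :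
    d + ee i + ee j ≤ y := by
  apply add_ee_le h1
  rw [add_ee_ne hij.symm]
  have h3 : (d + ee j) j ≤ y j := h2 j
  rw [add_ee_self] at h3
  omega

theorem not_vert_of_two (hg : Good3 adj len path lam) {p q y : P3} (hp : ¬ Sees lam p Ph)
    (hq : ¬ Sees lam q Ph) (h1 : p ≤ y) (h2 : q ≤ y) (hne : lam p ≠ lam q) :
    ¬ IsVert (lam y) := by
  intro hv
  apply hne
  rw [one_vert hg hp hv ⟨y, h1, rfl⟩, one_vert hg hq hv ⟨y, h2, rfl⟩]

/-- the last case: all pairs are present, the triple is not -/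
theorem last_case (hg : Good3 adj len path lam) (H : Hyp adj star len path g) {t : ℕ}
    {c : P3 → P3 → G} (hc : Coc adj star len path g lam (t + 1) c) {d : P3}
    (hD : Sees lam d Ph) (hd : sz d = t) (hnm : ¬ MaxPh adj len path lam d)
    (hall : ∀ k, lam (d + ee (k + 1) + ee (k + 2)) ≠ T)
    (h111 : lam (d + ee 0 + ee 1 + ee 2) = T) :
    (c (d + ee 1) (d + ee 1 + ee 2) * (c (d + ee 2) (d + ee 1 + ee 2))⁻¹) *
      (c (d + ee 2) (d + ee 2 + ee 0) * (c (d + ee 0) (d + ee 2 + ee 0))⁻¹) *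
      (c (d + ee 0) (d + ee 0 + ee 1) * (c (d + ee 1) (d + ee 0 + ee 1))⁻¹) = 1 := by
  -- abbreviations
  have hp0 : ∀ i, d + ee i ≠ 0 := fun i => add_ee_ne_zero d i
  have hpZ : ∀ i, lam (d + ee i) ≠ T := fun i => V2Z hg hD i
  have hpU : ∀ i, U lam (t + 1) (d + ee i) := fun i => ⟨hp0 i, hpZ i, fun _ => by
    rw [sz_ee, hd]⟩
  have hy111 : ∀ k, d + ee (k + 1) + ee (k + 2) + ee k = d + ee 0 + ee 1 + ee 2 := by
    intro k
    rcases fin012 k with rfl | rfl | rfl
    · have e1 : (0 : Fin 3) + 1 = 1 := rfl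
      have e2 : (0 : Fin 3) + 2 = 2 := rfl
      rw [e1, e2]; abel
    · have e1 : (1 : Fin 3) + 1 = 2 := rfl
      have e2 : (1 : Fin 3) + 2 = 0 := rfl
      rw [e1, e2]; abel
    · have e1 : (2 : Fin 3) + 1 = 0 := rfl
      have e2 : (2 : Fin 3) + 2 = 1 := rfl
      rw [e1, e2]
  have hyD : ∀ k, ¬ Sees lam (d + ee (k + 1) + ee (k + 2)) Ph := by
    intro k h
    have := V2Z hg h k
    rw [hy111] at this
    exact this h111
  -- the point y_k as seen from p_(k+1) and p_(k+2)
  have hcomm : ∀ k, d + ee (k + 2) + ee (k + 1) = d + ee (k + 1) + ee (k + 2) :=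
    fun k => add_right_comm _ _ _
  have hle1 : ∀ k, d + ee (k + 1) ≤ d + ee (k + 1) + ee (k + 2) := fun k => le_add_ee _ _
  have hle2 : ∀ k, d + ee (k + 2) ≤ d + ee (k + 1) + ee (k + 2) := fun k => by
    rw [← hcomm]; exact le_add_ee _ _
  obtain ⟨q, hdq, hq⟩ := Q hg hD
  have hqD : Sees lam q Ph := sees_of hq.ph
  -- y_k sees a vertex if one of p_(k+1), p_(k+2) is in D
  have hvert1 : ∀ k, Sees lam (d + ee (k + 1)) Ph → IsVert (lam (d + ee (k + 1) + ee (k + 2))) := by
    intro k h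
    obtain ⟨v, hv, hs⟩ := V2 hg h (k + 2)
    rw [one_vert hg (hyD k) hv hs]
    exact hv
  have hvert2 : ∀ k, Sees lam (d + ee (k + 2)) Ph → IsVert (lam (d + ee (k + 1) + ee (k + 2))) := by
    intro k h
    obtain ⟨v, hv, hs⟩ := V2 hg h (k + 1)
    rw [hcomm] at hs
    rw [one_vert hg (hyD k) hv hs]
    exact hv
  have hclaim : ∀ k, Sees lam (d + ee (k + 1)) Ph ∨ Sees lam (d + ee (k + 2)) Ph := by
    intro k
    by_contra hcon
    push Not at hcon
    obtain ⟨hn1, hn2⟩ := hcon
    have hq1 : q (k + 1) = d (k + 1) := by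
      by_contra hne
      have h1 : d (k + 1) ≤ q (k + 1) := hdq _
      exact hn1 (hqD.mono (add_ee_le hdq (by omega)))
    have hq2 : q (k + 2) = d (k + 2) := by
      by_contra hne
      have h1 : d (k + 2) ≤ q (k + 2) := hdq _
      exact hn2 (hqD.mono (add_ee_le hdq (by omega)))
    have hqk : d k < q k := by
      by_contra hne
      have h1 : d k ≤ q k := hdq _
      have h2 : d = q := ext3 k (by omega) hq1.symm hq2.symm
      rw [h2] at hnm
      exact hnm hq
    have hpk : d + ee k ≤ q := add_ee_le hdq hqk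
    have hpkD : Sees lam (d + ee k) Ph := hqD.mono hpk
    -- y_(k+2) = d + e_k + e_(k+1),  y_(k+1) = d + e_(k+2) + e_k
    have hv2 := hvert1 (k + 2) (by rw [a21]; exact hpkD)
    have hv1 := hvert2 (k + 1) (by rw [a12]; exact hpkD)
    have hD2 := hyD (k + 2)
    have hD1 := hyD (k + 1)
    rw [a21, a22] at hv2 hD2
    rw [a11, a12] at hv1 hD1
    have hl1 : lam (d + ee (k + 1)) = lam (d + ee k + ee (k + 1)) :=
      one_vert hg hn1 hv2 ⟨_, by rw [add_right_comm]; exact le_add_ee _ _, rfl⟩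
    have hl2 : lam (d + ee (k + 2)) = lam (d + ee (k + 2) + ee k) :=
      one_vert hg hn2 hv1 ⟨_, le_add_ee _ _, rfl⟩
    have hm1 : lam (d + ee k + ee (k + 1)) = lam (q + ee (k + 1)) :=
      one_vert hg hD2 (hq.vert (k + 1)) ⟨_, add_ee_mono _ hpk, rfl⟩
    have hm2 : lam (d + ee (k + 2) + ee k) = lam (q + ee (k + 2)) := by
      apply one_vert hg hD1 (hq.vert (k + 2))
      refine ⟨_, ?_, rfl⟩
      rw [add_right_comm]
      exact add_ee_mono _ hpk
    have hne : lam (d + ee (k + 1)) ≠ lam (d + ee (k + 2)) := by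
      rw [hl1, hl2, hm1, hm2]
      exact hq.dist _ _ (add12_ne k)
    have hnv := not_vert_of_two hg hn1 hn2 (hle1 k) (hle2 k) hne
    have hmay : May (lam (d + ee (k + 1))) (lam (d + ee (k + 1) + ee (k + 2))) :=
      hg.may _ _ ⟨_, hle1 k, rfl⟩
    have hZ := hall k
    have hc1 : (d + ee (k + 1) + ee (k + 2)) (k + 1) ≠ 0 := by
      rw [add_ee_ne (add12_ne k), add_ee_self]; omega
    have hc2 : (d + ee (k + 1) + ee (k + 2)) (k + 2) ≠ 0 := by
      rw [add_ee_self]; omega
    have hplane : ∀ k', (d + ee (k + 1) + ee (k + 2)) k' = 0 → k' = k := by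
      intro k' h'
      rcases fin3_cases k k' with rfl | rfl | rfl
      · rfl
      · exact absurd h' hc1
      · exact absurd h' hc2
    -- label of p_(k+1) = label of y_(k+2), which has coordinates k, k+1 positive
    have hck : (d + ee k + ee (k + 1)) k ≠ 0 := by
      rw [add_ee_ne (add1_ne k).symm, add_ee_self]; omega
    have hck1 : (d + ee k + ee (k + 1)) (k + 1) ≠ 0 := by
      rw [add_ee_self]; omega
    have hvp : IsVert (lam (d + ee (k + 1))) := by rw [hl1]; exact hv2
    have hplane2 : ∀ (k' : Fin 3) (e b : Bool),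
        lam (d + ee (k + 1) + ee (k + 2)) = P k' e b → k' = k := fun k' e b h =>
      hplane k' (P_plane hg (sees_of h))
    have hplane3 : ∀ (k' : Fin 3),
        lam (d + ee (k + 1) + ee (k + 2)) = E k' → k' = k := fun k' h =>
      hplane k' (E_plane hg (sees_of h))
    cases hlp : lam (d + ee (k + 1)) with
    | I v r =>
      rw [hlp] at hmay
      rcases hmay with h | h
      · exact hZ h
      · rw [h] at hnv; exact hnv (by simp [IsVert])
    | W k' j r =>
      have hk' : (d + ee k + ee (k + 1)) k' = 0 := W_plane hg (hl1.symm.trans hlp)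
      rw [hlp] at hmay
      rcases hmay with h | h | h | ⟨e, b, h⟩
      · exact hZ h
      · rw [h] at hnv; exact hnv (by simp [IsVert])
      · have := hplane3 k' h
        subst this
        exact hck hk'
      · have := hplane2 k' e b h
        subst this
        exact hck hk'
    | R i =>
      have hax := R_axis hg (hl1.symm.trans hlp)
      by_cases hik : k = i
      · exact hck1 (hax _ (by rw [← hik]; exact add1_ne k))
      · exact hck (hax _ hik)
    | _ => rw [hlp] at hvp; exact absurd hvp (by simp [IsVert])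
  -- all y_k are vertex labelled
  have hyv : ∀ k, IsVert (lam (d + ee (k + 1) + ee (k + 2))) := by
    intro k
    rcases hclaim k with h | h
    · exact hvert1 k h
    · exact hvert2 k h
  -- transitions at p_i between y_(i+1) = p_i + e_(i+2) and y_(i+2) = p_i + e_(i+1)
  have htrans : ∀ i, (c (d + ee i) (d + ee i + ee (i + 2)))⁻¹ *
        c (d + ee i) (d + ee i + ee (i + 1)) =
      g (pr star path (lam (d + ee i + ee (i + 2)))) (pr star path (lam (d + ee i + ee (i + 1)))) ∧
      adj (pr star path (lam (d + ee i + ee (i + 2))))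
        (pr star path (lam (d + ee i + ee (i + 1)))) := by
    intro i
    have hv1 := hyv (i + 1)
    have hD1 := hyD (i + 1)
    have hv2 := hyv (i + 2)
    have hD2 := hyD (i + 2)
    rw [a11, a12, add_right_comm] at hv1 hD1
    rw [a21, a22] at hv2 hD2
    have hZ1 : lam (d + ee i + ee (i + 2)) ≠ T := by
      intro h; rw [h] at hv1; exact hv1
    have hZ2 : lam (d + ee i + ee (i + 1)) ≠ T := by
      intro h; rw [h] at hv2; exact hv2
    by_cases hpD : Sees lam (d + ee i) Ph
    · obtain ⟨q', hq', hm'⟩ := Q hg hpD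
      have hq'D : Sees lam q' Ph := sees_of hm'.ph
      have hm1 : lam (d + ee i + ee (i + 2)) = lam (q' + ee (i + 2)) :=
        one_vert hg hD1 (hm'.vert _) ⟨_, add_ee_mono _ hq', rfl⟩
      have hm2 : lam (d + ee i + ee (i + 1)) = lam (q' + ee (i + 1)) :=
        one_vert hg hD2 (hm'.vert _) ⟨_, add_ee_mono _ hq', rfl⟩
      have hne1 : d + ee i + ee (i + 2) ≠ 0 := add_ee_ne_zero _ _
      have hne2 : d + ee i + ee (i + 1) ≠ 0 := add_ee_ne_zero _ _
      have hq'Z : lam q' ≠ T := by rw [hm'.ph]; simp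
      have hZ1' : lam (q' + ee (i + 2)) ≠ T := by rw [← hm1]; exact hZ1
      have hZ2' : lam (q' + ee (i + 1)) ≠ T := by rw [← hm2]; exact hZ2
      have e1 := hc.mul _ _ _ (hpU i) (le_add_ee (d + ee i) (i + 2)) (add_ee_mono (i + 2) hq') hZ1'
      have e2 := hc.mul _ _ _ (hpU i) hq' (le_add_ee q' (i + 2)) hZ1'
      have e3 := hc.mul _ _ _ (hpU i) (le_add_ee (d + ee i) (i + 1)) (add_ee_mono (i + 1) hq') hZ2'
      have e4 := hc.mul _ _ _ (hpU i) hq' (le_add_ee q' (i + 1)) hZ2'
      have b1 := hc.base _ _ hne1 hD1 (add_ee_mono (i + 2) hq') hZ1'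
      have b2 := hc.base _ _ hne2 hD2 (add_ee_mono (i + 1) hq') hZ2'
      rw [← hm1, tr_self] at b1
      rw [← hm2, tr_self] at b2
      rw [b1, mul_one] at e1
      rw [b2, mul_one] at e3
      have hsz : t + 1 ≤ sz q' := by
        have := sz_mono hq'
        rw [sz_ee, hd] at this
        exact this
      have hdag := hc.dag q' (ne_zero_of_le (hp0 i) hq') hm' hsz (i + 2) (i + 1)
      constructor
      · rw [e1, e3, ← e2, ← e4, hm1, hm2, ← hdag]
        group
      · rw [hm1, hm2]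
        exact pr_adj H (W_le' hg _) (W_le' hg _) (hm'.vadj _ _ (add12_ne i).symm)
    · have h1 : lam (d + ee i) = lam (d + ee i + ee (i + 2)) :=
        one_vert hg hpD hv1 ⟨_, le_add_ee _ _, rfl⟩
      have h2 : lam (d + ee i) = lam (d + ee i + ee (i + 1)) :=
        one_vert hg hpD hv2 ⟨_, le_add_ee _ _, rfl⟩
      have b1 := hc.base _ _ (hp0 i) hpD (le_add_ee (d + ee i) (i + 2)) hZ1
      have b2 := hc.base _ _ (hp0 i) hpD (le_add_ee (d + ee i) (i + 1)) hZ2
      rw [← h1, tr_self] at b1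
      rw [← h2, tr_self] at b2
      rw [b1, b2, ← h1, ← h2, H.coh.one]
      exact ⟨by simp, H.refl _⟩
  have t0 := htrans 0
  have t1 := htrans 1
  have t2 := htrans 2
  have e01 : (0 : Fin 3) + 1 = 1 := rfl
  have e02 : (0 : Fin 3) + 2 = 2 := rfl
  have e11 : (1 : Fin 3) + 1 = 2 := rfl
  have e12 : (1 : Fin 3) + 2 = 0 := rfl
  have e21 : (2 : Fin 3) + 1 = 0 := rfl
  have e22 : (2 : Fin 3) + 2 = 1 := rfl
  rw [e01, e02] at t0
  rw [e11, e12] at t1
  rw [e21, e22] at t2
  -- normal forms: y0 = d+1+2, y1 = d+2+0, y2 = d+0+1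
  rw [add_right_comm d (ee 0) (ee 2)] at t0
  rw [add_right_comm d (ee 1) (ee 0)] at t1
  rw [add_right_comm d (ee 2) (ee 1)] at t2
  have hcoh := H.coh.three _ _ _ t2.2 t0.2 t1.2
  have s1 : (c (d + ee 1) (d + ee 0 + ee 1))⁻¹ =
      g (pr star path (lam (d + ee 0 + ee 1))) (pr star path (lam (d + ee 1 + ee 2))) *
        (c (d + ee 1) (d + ee 1 + ee 2))⁻¹ := by
    rw [← t1.1]; group
  rw [s1]
  calc c (d + ee 1) (d + ee 1 + ee 2) * (c (d + ee 2) (d + ee 1 + ee 2))⁻¹ *
        (c (d + ee 2) (d + ee 2 + ee 0) * (c (d + ee 0) (d + ee 2 + ee 0))⁻¹) *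
        (c (d + ee 0) (d + ee 0 + ee 1) *
          (g (pr star path (lam (d + ee 0 + ee 1))) (pr star path (lam (d + ee 1 + ee 2))) *
            (c (d + ee 1) (d + ee 1 + ee 2))⁻¹))
      = c (d + ee 1) (d + ee 1 + ee 2) *
        (((c (d + ee 2) (d + ee 1 + ee 2))⁻¹ * c (d + ee 2) (d + ee 2 + ee 0)) *
        ((c (d + ee 0) (d + ee 2 + ee 0))⁻¹ * c (d + ee 0) (d + ee 0 + ee 1)) *
          g (pr star path (lam (d + ee 0 + ee 1))) (pr star path (lam (d + ee 1 + ee 2)))) *
            (c (d + ee 1) (d + ee 1 + ee 2))⁻¹ := by group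
    _ = 1 := by
      rw [t2.1, t0.1, hcoh]
      group

end

end Pool.Agent.OM
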