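import Pool.Agent.OM.M5f

/-!
# M5, part g: the cocycle on all points except the root
-/

namespace Pool.Agent.OM

open Lab

variable {V : Type} {m : ℕ}

section
variable {G : Type} [Group G]
variable {g : V → V → G} {len : Fin 3 → ℕ} {path : Fin 3 → ℕ → V}
variable {adj : V → V → Prop} {star : V} {lam : P3 → Lab V m}

theorem pair_index {i j : Fin 3} (h : i ≠ j) :
    ∃ k : Fin 3, (i = k + 1 ∧ j = k + 2) ∨ (i = k + 2 ∧ j = k + 1) := by
  revert i j; decide

/-- coefficients at a point `d` of the face region -/
theorem coeff (hg : Good3 adj len path lam) (H : Hyp adj star len path g) {t : ℕ}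
    {c : P3 → P3 → G} (hc : Coc adj star len path g lam (t + 1) c) {d : P3}
    (hD : Sees lam d Ph) (hd : sz d = t) :
    ∃ a : Fin 3 → G, (∀ i j, i ≠ j → lam (d + ee i + ee j) ≠ T →
      a i * c (d + ee i) (d + ee i + ee j) = a j * c (d + ee j) (d + ee i + ee j)) ∧
      (MaxPh adj len path lam d → ∀ i j, (a i)⁻¹ * a j =
        g (pr star path (lam (d + ee i))) (pr star path (lam (d + ee j)))) := by
  classical
  have hp0 : ∀ i, d + ee i ≠ 0 := fun i => add_ee_ne_zero d i
  have hpZ : ∀ i, lam (d + ee i) ≠ T := fun i => V2Z hg hD i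
  have hpU : ∀ i, U lam (t + 1) (d + ee i) := fun i => ⟨hp0 i, hpZ i, fun _ => by
    rw [sz_ee, hd]⟩
  by_cases hm : MaxPh adj len path lam d
  · have hadj : ∀ i j, adj (pr star path (lam (d + ee i))) (pr star path (lam (d + ee j))) := by
      intro i j
      by_cases hij : i = j
      · subst hij; exact H.refl _
      · exact pr_adj H (W_le' hg _) (W_le' hg _) (hm.vadj i j hij)
    refine ⟨fun i => g (pr star path (lam (d + ee 0))) (pr star path (lam (d + ee i))), ?_, ?_⟩
    · intro i j hij hZ
      have hnv : ¬ IsVert (lam (d + ee i + ee j)) :=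
        not_vert_of_two hg (hm.notD i) (hm.notD j) (le_add_ee _ _)
          (by rw [add_right_comm]; exact le_add_ee _ _) (hm.dist i j hij)
      have b1 := hc.base _ _ (hp0 i) (hm.notD i) (le_add_ee (d + ee i) j) hZ
      have b2 := hc.base (d + ee j) (d + ee i + ee j) (hp0 j) (hm.notD j)
        (by rw [add_right_comm]; exact le_add_ee _ _) hZ
      have hcc := CC H (W_le' hg (d + ee i)) (W_le' hg (d + ee j)) (hm.vadj i j hij) hnv hZ
        (hg.may _ _ ⟨_, le_add_ee _ _, rfl⟩)
        (hg.may (d + ee j) _ ⟨_, by rw [add_right_comm]; exact le_add_ee _ _, rfl⟩)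
      have htri := coh_tri H (hadj 0 i) (hadj i j) (hadj j 0)
      show g _ _ * _ = g _ _ * _
      rw [b1, b2]
      rw [← htri] at hcc
      have h5 := congrArg (fun z => g (pr star path (lam (d + ee 0)))
        (pr star path (lam (d + ee i))) * z * tr g len path (lam (d + ee j))
          (lam (d + ee i + ee j))) hcc
      calc _ = g (pr star path (lam (d + ee 0))) (pr star path (lam (d + ee i))) *
            (tr g len path (lam (d + ee i)) (lam (d + ee i + ee j)) *
              (tr g len path (lam (d + ee j)) (lam (d + ee i + ee j)))⁻¹) *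
              tr g len path (lam (d + ee j)) (lam (d + ee i + ee j)) := by group
        _ = _ := by rw [h5]; group
    · intro _ i j
      exact coh_tri H (hadj 0 i) (hadj i j) (hadj j 0)
  · -- generic case
    let τ : Fin 3 → G := fun k => c (d + ee (k + 1)) (d + ee (k + 1) + ee (k + 2)) *
      (c (d + ee (k + 2)) (d + ee (k + 1) + ee (k + 2)))⁻¹
    obtain ⟨a, ha⟩ := solve3 (fun k => lam (d + ee (k + 1) + ee (k + 2)) ≠ T) τ (by
      by_cases hall : ∃ k, ¬ lam (d + ee (k + 1) + ee (k + 2)) ≠ T
      · exact Or.inl hall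
      · right
        push Not at hall
        by_cases h111 : lam (d + ee 0 + ee 1 + ee 2) = T
        · exact last_case hg H hc hD hd hm hall h111
        · -- telescope
          have hle : ∀ k, d + ee (k + 1) + ee (k + 2) ≤ d + ee 0 + ee 1 + ee 2 := by
            intro k
            rcases fin012 k with rfl | rfl | rfl
            · show d + ee 1 + ee 2 ≤ _
              rw [show d + ee 0 + ee 1 + ee 2 = d + ee 1 + ee 2 + ee 0 by abel]
              exact le_add_ee _ _
            · show d + ee 2 + ee 0 ≤ _
              rw [show d + ee 0 + ee 1 + ee 2 = d + ee 2 + ee 0 + ee 1 by abel]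
              exact le_add_ee _ _
            · show d + ee 0 + ee 1 ≤ _
              exact le_add_ee _ _
          have h1 : ∀ k, c (d + ee (k + 1)) (d + ee (k + 1) + ee (k + 2)) *
              c (d + ee (k + 1) + ee (k + 2)) (d + ee 0 + ee 1 + ee 2) =
              c (d + ee (k + 1)) (d + ee 0 + ee 1 + ee 2) := fun k =>
            hc.mul _ _ _ (hpU _) (le_add_ee _ _) (hle k) h111
          have h2 : ∀ k, c (d + ee (k + 2)) (d + ee (k + 1) + ee (k + 2)) *
              c (d + ee (k + 1) + ee (k + 2)) (d + ee 0 + ee 1 + ee 2) =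
              c (d + ee (k + 2)) (d + ee 0 + ee 1 + ee 2) := fun k =>
            hc.mul _ _ _ (hpU _) (by rw [add_right_comm]; exact le_add_ee _ _) (hle k) h111
          have h3 : ∀ k, τ k = c (d + ee (k + 1)) (d + ee 0 + ee 1 + ee 2) *
              (c (d + ee (k + 2)) (d + ee 0 + ee 1 + ee 2))⁻¹ := by
            intro k
            rw [← h1, ← h2]
            show _ * _ = _
            group
          rw [h3, h3, h3]
          have e01 : (0 : Fin 3) + 1 = 1 := rfl
          have e02 : (0 : Fin 3) + 2 = 2 := rfl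
          have e11 : (1 : Fin 3) + 1 = 2 := rfl
          have e12 : (1 : Fin 3) + 2 = 0 := rfl
          have e21 : (2 : Fin 3) + 1 = 0 := rfl
          have e22 : (2 : Fin 3) + 2 = 1 := rfl
          rw [e01, e02, e11, e12, e21, e22]
          group)
    refine ⟨a, ?_, fun h => absurd h hm⟩
    have key : ∀ k, lam (d + ee (k + 1) + ee (k + 2)) ≠ T →
        a (k + 1) * c (d + ee (k + 1)) (d + ee (k + 1) + ee (k + 2)) =
          a (k + 2) * c (d + ee (k + 2)) (d + ee (k + 1) + ee (k + 2)) := by
      intro k hk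
      have h1 := ha k hk
      have h2 : a (k + 2) = a (k + 1) * τ k := by rw [← h1]; group
      rw [h2]
      show _ = a (k + 1) * (c _ _ * (c _ _)⁻¹) * _
      group
    intro i j hij hZ
    obtain ⟨k, ⟨rfl, rfl⟩ | ⟨rfl, rfl⟩⟩ := pair_index hij
    · exact key k hZ
    · rw [add_right_comm] at hZ ⊢
      exact (key k hZ).symm

theorem coc_step (hg : Good3 adj len path lam) (H : Hyp adj star len path g) {t : ℕ}
    {c : P3 → P3 → G} (hc : Coc adj star len path g lam (t + 1) c) :
    ∃ c', Coc adj star len path g lam t c' := by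
  classical
  have hA := fun (d : P3) (hD : Sees lam d Ph) (hd : sz d = t) => coeff hg H hc hD hd
  choose a ha1 ha2 using hA
  -- K d y
  let K : (d : P3) → (hD : Sees lam d Ph) → (hd : sz d = t) → P3 → G := fun d hD hd y =>
    if h : ∃ i, d + ee i ≤ y then a d hD hd h.choose * c (d + ee h.choose) y else 1
  have hpU : ∀ d, Sees lam d Ph → sz d = t → ∀ i, U lam (t + 1) (d + ee i) := fun d hD hd i =>
    ⟨add_ee_ne_zero d i, V2Z hg hD i, fun _ => by rw [sz_ee, hd]⟩
  have hK : ∀ d hD hd y i, d + ee i ≤ y → lam y ≠ T →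
      K d hD hd y = a d hD hd i * c (d + ee i) y := by
    intro d hD hd y i hi hZ
    have hex : ∃ i, d + ee i ≤ y := ⟨i, hi⟩
    have h1 : K d hD hd y = a d hD hd hex.choose * c (d + ee hex.choose) y := by
      simp only [K, hex, dif_pos]
    rw [h1]
    by_cases hij : hex.choose = i
    · rw [hij]
    · have h2 := hex.choose_spec
      have h3 := pair_le hij h2 hi
      have hZ' := Z_mono hg h3 hZ
      have h4 := ha1 d hD hd _ _ hij hZ'
      have e1 := hc.mul _ _ _ (hpU d hD hd hex.choose) (le_add_ee (d + ee hex.choose) i) h3 hZ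
      have e2 := hc.mul (d + ee i) (d + ee hex.choose + ee i) y (hpU d hD hd i)
        (by rw [add_right_comm]; exact le_add_ee _ _) h3 hZ
      rw [← e1, ← e2, ← mul_assoc, ← mul_assoc, h4]
  let c' : P3 → P3 → G := fun x y =>
    if h : Sees lam x Ph ∧ sz x = t then (if y = x then 1 else K x h.1 h.2 y) else c x y
  have hsp : ∀ x y (h : Sees lam x Ph ∧ sz x = t), y ≠ x → c' x y = K x h.1 h.2 y := by
    intro x y h hne
    simp only [c', h, hne, and_self, dif_pos, if_false]
  have hsp1 : ∀ x (h : Sees lam x Ph ∧ sz x = t), c' x x = 1 := by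
    intro x h
    simp only [c', h, and_self, dif_pos, if_true]
  have hns : ∀ x y, ¬ (Sees lam x Ph ∧ sz x = t) → c' x y = c x y := by
    intro x y h
    simp only [c', h, dif_neg, not_false_iff]
  refine ⟨c', ?_, ?_, ?_⟩
  · intro x y z hx hxy hyz hz
    by_cases hs : Sees lam x Ph ∧ sz x = t
    · by_cases hyx : y = x
      · subst hyx
        rw [hsp1 y hs, one_mul]
      · have hlt := sz_lt hxy (Ne.symm hyx)
        have hzx : z ≠ x := by
          rintro rfl
          exact hyx (le_antisymm hyz hxy)
        have hy' : ¬ (Sees lam y Ph ∧ sz y = t) := by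
          rintro ⟨-, h⟩
          omega
        rw [hsp x y hs hyx, hsp x z hs hzx, hns y z hy']
        obtain ⟨i, hi⟩ : ∃ i, x i < y i := by
          by_contra hcon
          push Not at hcon
          exact hyx (le_antisymm (fun i => hcon i) hxy)
        have hi' := add_ee_le hxy hi
        rw [hK x hs.1 hs.2 y i hi' (Z_mono hg hyz hz), hK x hs.1 hs.2 z i (hi'.trans hyz) hz,
          mul_assoc, hc.mul _ _ _ (hpU x hs.1 hs.2 i) hi' hyz hz]
    · have hy' : ¬ (Sees lam y Ph ∧ sz y = t) := by
        rintro ⟨h1, h2⟩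
        have h3 := h1.mono hxy
        have h4 := hx.d h3
        have h5 := sz_mono hxy
        exact hs ⟨h3, by omega⟩
      rw [hns x y hs, hns x z hs, hns y z hy']
      refine hc.mul x y z ⟨hx.ne, hx.z, ?_⟩ hxy hyz hz
      intro h3
      have h4 := hx.d h3
      by_contra h5
      exact hs ⟨h3, by omega⟩
  · intro x y hx hnD hxy hy
    rw [hns x y (fun h => hnD h.1)]
    exact hc.base x y hx hnD hxy hy
  · intro q hq hm htq i j
    by_cases hs : Sees lam q Ph ∧ sz q = t
    · have hne : ∀ i, q + ee i ≠ q := by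
        intro i h
        have := congrArg sz h
        rw [sz_ee] at this
        omega
      rw [hsp q _ hs (hne i), hsp q _ hs (hne j),
        hK q hs.1 hs.2 _ i (le_refl _) (V2Z hg hs.1 i),
        hK q hs.1 hs.2 _ j (le_refl _) (V2Z hg hs.1 j),
        hc.one (hpU q hs.1 hs.2 i), hc.one (hpU q hs.1 hs.2 j), mul_one, mul_one]
      exact ha2 q hs.1 hs.2 hm i j
    · rw [hns _ _ hs, hns _ _ hs]
      have hne : sz q ≠ t := fun h => hs ⟨sees_of hm.ph, h⟩
      exact hc.dag q hq hm (by omega) i j

theorem coc_exists (hg : Good3 adj len path lam) (H : Hyp adj star len path g) :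
    ∃ c, Coc adj star len path g lam 0 c := by
  obtain ⟨t, ht⟩ := coc_start (star := star) (g := g) hg
  have : ∀ t, (∃ c, Coc adj star len path g lam t c) → ∃ c, Coc adj star len path g lam 0 c := by
    intro t
    induction t with
    | zero => exact id
    | succ t ih =>
      rintro ⟨c, hc⟩
      exact ih (coc_step hg H hc)
  exact this t ⟨_, ht⟩

end

end Pool.Agent.OM
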