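import Pool.Agent.OM.Spec

/-!
# Module M6, part a: families of formulas with primitive recursive code

`Rep n P` : there is a family of formulas `f a` with primitive recursive code such that `f a` is
true at `x` in `(ω ^ n, ≤)` with valuation `V` iff `P a V x`.
-/

namespace Pool.Agent.OM.M6

open Pool.Agent.OM

/-- valuations on `ω ^ n` -/
abbrev Val (n : ℕ) : Type := ℕ → (Fin n → ℕ) → Prop

/-- the predicate `P` is expressed by a family of formulas with primitive recursive code -/
def Rep {α : Type} [Primcodable α] (n : ℕ) (P : α → Val n → (Fin n → ℕ) → Prop) : Prop :=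
  ∃ f : α → Fm, Primrec (fun a => code (f a)) ∧
    ∀ a V x, Tr (fun p q => p ≤ q) V (f a) x ↔ P a V x

variable {α β : Type} [Primcodable α] [Primcodable β] {n : ℕ}

theorem Rep.congr {P Q : α → Val n → (Fin n → ℕ) → Prop} (h : Rep n P)
    (e : ∀ a V x, P a V x ↔ Q a V x) : Rep n Q := by
  obtain ⟨f, hf, hs⟩ := h
  exact ⟨f, hf, fun a V x => (hs a V x).trans (e a V x)⟩

theorem Rep.comp {P : α → Val n → (Fin n → ℕ) → Prop} (h : Rep n P) {g : β → α}
    (hg : Primrec g) : Rep n (fun b => P (g b)) := by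
  obtain ⟨f, hf, hs⟩ := h
  exact ⟨fun b => f (g b), hf.comp hg, fun b V x => hs (g b) V x⟩

theorem Rep.var {i : α → ℕ} (hi : Primrec i) :
    Rep n (fun a V x => V (i a) x) := by
  refine ⟨fun a => Fm.var (i a), ?_, fun a V x => Iff.rfl⟩
  have h : Primrec (fun a => 3 * i a + 1) :=
    Primrec.nat_add.comp (Primrec.nat_mul.comp (Primrec.const 3) hi) (Primrec.const 1)
  exact h

theorem Rep.fls : Rep n (fun (_ : α) (_ : Val n) (_ : Fin n → ℕ) => False) :=
  ⟨fun _ => Fm.bot, Primrec.const _, fun _ _ _ => Iff.rfl⟩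

theorem Rep.tru : Rep n (fun (_ : α) (_ : Val n) (_ : Fin n → ℕ) => True) :=
  ⟨fun _ => Fm.imp Fm.bot Fm.bot, Primrec.const _, fun _ _ _ => by simp [Tr]⟩

theorem primrec_imp {u v : α → ℕ} (hu : Primrec u) (hv : Primrec v) :
    Primrec (fun a => 3 * Nat.pair (u a) (v a) + 2) :=
  Primrec.nat_add.comp (Primrec.nat_mul.comp (Primrec.const 3) (Primrec₂.natPair.comp hu hv))
    (Primrec.const 2)

theorem Rep.imp {P Q : α → Val n → (Fin n → ℕ) → Prop} (h : Rep n P) (h' : Rep n Q) :
    Rep n (fun a V x => P a V x → Q a V x) := by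
  obtain ⟨f, hf, hs⟩ := h
  obtain ⟨g, hg, ht⟩ := h'
  refine ⟨fun a => Fm.imp (f a) (g a), primrec_imp hf hg, fun a V x => ?_⟩
  show (Tr _ V (f a) x → Tr _ V (g a) x) ↔ _
  rw [hs, ht]

theorem Rep.box {P : α → Val n → (Fin n → ℕ) → Prop} (h : Rep n P) :
    Rep n (fun a V x => ∀ y, x ≤ y → P a V y) := by
  obtain ⟨f, hf, hs⟩ := h
  refine ⟨fun a => Fm.box (f a), ?_, fun a V x => ?_⟩
  · have h : Primrec (fun a => 3 * code (f a) + 3) :=
      Primrec.nat_add.comp (Primrec.nat_mul.comp (Primrec.const 3) hf) (Primrec.const 3)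
    exact h
  · show (∀ u, x ≤ u → Tr _ V (f a) u) ↔ _
    simp only [hs]

theorem Rep.neg {P : α → Val n → (Fin n → ℕ) → Prop} (h : Rep n P) :
    Rep n (fun a V x => ¬ P a V x) :=
  h.imp Rep.fls

theorem Rep.or {P Q : α → Val n → (Fin n → ℕ) → Prop} (h : Rep n P) (h' : Rep n Q) :
    Rep n (fun a V x => P a V x ∨ Q a V x) :=
  (h.neg.imp h').congr (fun _ _ _ => by tauto)

theorem Rep.and {P Q : α → Val n → (Fin n → ℕ) → Prop} (h : Rep n P) (h' : Rep n Q) :
    Rep n (fun a V x => P a V x ∧ Q a V x) :=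
  (h.imp h'.neg).neg.congr (fun _ _ _ => by tauto)

theorem Rep.dia {P : α → Val n → (Fin n → ℕ) → Prop} (h : Rep n P) :
    Rep n (fun a V x => ∃ y, x ≤ y ∧ P a V y) :=
  h.neg.box.neg.congr (fun _ _ _ => by push Not; rfl)

/-- static predicates -/
theorem Rep.sta {p : α → Prop} (hp : PrimrecPred p) :
    Rep n (fun a (_ : Val n) (_ : Fin n → ℕ) => p a) := by
  classical
  obtain ⟨_, hp'⟩ := hp
  refine ⟨fun a => if p a then Fm.imp Fm.bot Fm.bot else Fm.bot, ?_, fun a V x => ?_⟩
  · have h : Primrec (fun a => if p a then code (Fm.imp Fm.bot Fm.bot) else code Fm.bot) :=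
      Primrec.ite ⟨_, hp'⟩ (Primrec.const _) (Primrec.const _)
    refine h.of_eq fun a => ?_
    by_cases h : p a <;> simp [h]
  · by_cases h : p a <;> simp [h, Tr]

/-- bounded quantifier -/
theorem Rep.ballLT {P : α → ℕ → Val n → (Fin n → ℕ) → Prop}
    (h : Rep n (fun (p : α × ℕ) V x => P p.1 p.2 V x)) {N : α → ℕ} (hN : Primrec N) :
    Rep n (fun a V x => ∀ i, i < N a → P a i V x) := by
  obtain ⟨f, hf, hs⟩ := h
  let cj : Fm → Fm → Fm := fun a b => Fm.imp (Fm.imp a (Fm.imp b Fm.bot)) Fm.bot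
  let F : α → ℕ → Fm := fun a k => Nat.rec (Fm.imp Fm.bot Fm.bot) (fun i acc => cj acc (f (a, i))) k
  refine ⟨fun a => F a (N a), ?_, fun a V x => ?_⟩
  · have h1 : Primrec₂ (fun (a : α) (q : ℕ × ℕ) =>
        3 * Nat.pair (3 * Nat.pair q.2 (3 * Nat.pair (code (f (a, q.1))) 0 + 2) + 2) 0 + 2) := by
      have e1 : Primrec (fun p : α × (ℕ × ℕ) => code (f (p.1, p.2.1))) :=
        hf.comp (Primrec.fst.pair (Primrec.fst.comp Primrec.snd))
      exact primrec_imp (primrec_imp (Primrec.snd.comp Primrec.snd)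
        (primrec_imp e1 (Primrec.const 0))) (Primrec.const 0)
    have h2 : Primrec (fun a => (Nat.rec (code (Fm.imp Fm.bot Fm.bot))
        (fun i acc => 3 * Nat.pair (3 * Nat.pair acc
          (3 * Nat.pair (code (f (a, i))) 0 + 2) + 2) 0 + 2) (N a) : ℕ)) :=
      Primrec.nat_rec' hN (Primrec.const _) h1
    refine h2.of_eq fun a => ?_
    show _ = code (F a (N a))
    generalize N a = k
    induction k with
    | zero => rfl
    | succ k ih =>
      show _ = code (cj (F a k) (f (a, k)))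
      simp only [cj, code]
      rw [← ih]
      rfl
  · show Tr _ V (F a (N a)) x ↔ ∀ i, i < N a → P a i V x
    generalize N a = k
    induction k with
    | zero =>
      show Tr _ V (Fm.imp Fm.bot Fm.bot) x ↔ _
      simp [Tr]
    | succ k ih =>
      have e : Tr (fun p q => p ≤ q) V (F a (k + 1)) x ↔
          (Tr (fun p q => p ≤ q) V (F a k) x ∧ Tr (fun p q => p ≤ q) V (f (a, k)) x) := by
        show Tr _ V (cj (F a k) (f (a, k))) x ↔ _
        simp only [cj, Tr]
        tauto
      rw [e, ih, hs]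
      constructor
      · rintro ⟨h1, h2⟩ i hi
        rcases Nat.lt_succ_iff_lt_or_eq.1 hi with hi | rfl
        · exact h1 i hi
        · exact h2
      · intro h
        exact ⟨fun i hi => h i (Nat.lt_succ_of_lt hi), h k (Nat.lt_succ_self k)⟩

/-- bounded existential quantifier -/
theorem Rep.bexLT {P : α → ℕ → Val n → (Fin n → ℕ) → Prop}
    (h : Rep n (fun (p : α × ℕ) V x => P p.1 p.2 V x)) {N : α → ℕ} (hN : Primrec N) :
    Rep n (fun a V x => ∃ i, i < N a ∧ P a i V x) :=
  (Rep.ballLT (P := fun a i V x => ¬ P a i V x) h.neg hN).neg.congr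
    (fun _ _ _ => by push Not; rfl)

/-- finite quantifier -/
theorem Rep.all {ι : Type} [Finite ι] {P : ι → α → Val n → (Fin n → ℕ) → Prop}
    (h : ∀ i, Rep n (P i)) : Rep n (fun a V x => ∀ i, P i a V x) := by
  classical
  have : Fintype ι := Fintype.ofFinite ι
  have key : ∀ s : Finset ι, Rep n (fun a V x => ∀ i ∈ s, P i a V x) := by
    intro s
    induction s using Finset.induction_on with
    | empty => exact Rep.tru.congr (fun _ _ _ => by simp)
    | insert i s _ ih => exact ((h i).and ih).congr (fun _ _ _ => by simp)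
  exact (key Finset.univ).congr (fun _ _ _ => by simp)

theorem Rep.ex {ι : Type} [Finite ι] {P : ι → α → Val n → (Fin n → ℕ) → Prop}
    (h : ∀ i, Rep n (P i)) : Rep n (fun a V x => ∃ i, P i a V x) :=
  (Rep.all (fun i => (h i).neg)).neg.congr (fun _ _ _ => by push Not; rfl)

/-- constant static predicates -/
theorem Rep.cst (p : Prop) : Rep n (fun (_ : α) (_ : Val n) (_ : Fin n → ℕ) => p) := by
  by_cases h : p
  · exact Rep.tru.congr (fun _ _ _ => by simp [h])
  · exact Rep.fls.congr (fun _ _ _ => by simp [h])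

end Pool.Agent.OM.M6
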