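import Pool.Agent.OM.M6a

/-!
# Module M6, part b: labels, static predicates, quantifiers over labels
-/

namespace Pool.Agent.OM.M6

open Pool.Agent.OM Pool.Agent.OM.Lab

variable {α : Type} [Primcodable α] {n m N0 : ℕ}

/-- numbering of labels -/
def enc : Lab (Fin N0) m → ℕ
  | T => Nat.pair 0 0
  | P k e b => Nat.pair 1 (Nat.pair k (Nat.pair e.toNat b.toNat))
  | E k => Nat.pair 2 k
  | I v c => Nat.pair 3 (Nat.pair v c)
  | W k j c => Nat.pair 4 (Nat.pair j (Nat.pair k c))
  | R i => Nat.pair 5 i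
  | X l => Nat.pair 6 l
  | Ph => Nat.pair 7 0
  | Rh => Nat.pair 8 0
  | O => Nat.pair 9 0

theorem btn {a b : Bool} (h : a.toNat = b.toNat) : a = b := by
  cases a <;> cases b <;> simp_all

theorem enc_inj {c c' : Lab (Fin N0) m} : enc c = enc c' ↔ c = c' := by
  constructor
  · intro h
    cases c <;> cases c' <;> simp only [enc, Nat.pair_eq_pair] at h <;>
      first
        | rfl
        | (exfalso; omega)
        | skip
    · obtain ⟨_, h1, h2, h3⟩ := h
      have h1 := Fin.ext h1
      rw [h1, btn h2, btn h3]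
    · rw [Fin.ext h.2]
    · rw [Fin.ext h.2.1, Fin.ext h.2.2]
    · rw [h.2.1, Fin.ext h.2.2.1, Fin.ext h.2.2.2]
    · rw [Fin.ext h.2]
    · rw [Fin.ext h.2]
  · rintro rfl; rfl

theorem enc_W {j : α → ℕ} (hj : Primrec j) (k q : Fin 3) :
    Primrec (fun a => enc (W k (j a) q : Lab (Fin N0) m)) := by
  have h : Primrec (fun a => Nat.pair 4 (Nat.pair (j a) (Nat.pair k q))) :=
    Primrec₂.natPair.comp (Primrec.const 4) (Primrec₂.natPair.comp hj (Primrec.const _))
  exact h

/-! ### static predicates -/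

theorem ppc (p : Prop) : PrimrecPred (fun _ : α => p) := by
  classical
  exact ⟨fun _ => Classical.dec p, Primrec.const _⟩

theorem pp_true {p : α → Prop} (h : ∀ a, p a) : PrimrecPred p :=
  (ppc True).of_eq (fun a => by simp [h a])

theorem pp_false {p : α → Prop} (h : ∀ a, ¬ p a) : PrimrecPred p :=
  (ppc False).of_eq (fun a => by simp [h a])

theorem pp_imp {p q : α → Prop} (hp : PrimrecPred p) (hq : PrimrecPred q) :
    PrimrecPred (fun a => p a → q a) :=
  (hp.not.or hq).of_eq (fun a => by tauto)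

/-- equality of a fixed label with a `W` label -/
theorem pp_eq1 (c : Lab (Fin N0) m) (k q : Fin 3) {j : α → ℕ} (hj : Primrec j) :
    PrimrecPred (fun a => c = W k (j a) q) := by
  cases c
  case W k' j' q' =>
    have h : PrimrecPred (fun a => (k' = k ∧ q' = q) ∧ j' = j a) :=
      (ppc _).and (Primrec.eq.comp (Primrec.const j') hj)
    refine h.of_eq fun a => ?_
    simp only [W.injEq]; tauto
  all_goals exact pp_false (fun a => by simp)

theorem pp_eq2 (k q k' q' : Fin 3) {j j' : α → ℕ} (hj : Primrec j) (hj' : Primrec j') :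
    PrimrecPred (fun a => (W k (j a) q : Lab (Fin N0) m) = W k' (j' a) q') := by
  have h : PrimrecPred (fun a => (k = k' ∧ q = q') ∧ j a = j' a) :=
    (ppc _).and (Primrec.eq.comp hj hj')
  refine h.of_eq fun a => ?_
  simp only [W.injEq]; tauto

theorem may_W1 {c : Lab (Fin N0) m} (h : ∀ k j q, c ≠ W k j q) (k : Fin 3) (j : ℕ) (q : Fin 3) :
    May c (W k j q) ↔ May c (W k 0 q) := by
  cases c
  case W k' j' q' => exact absurd rfl (h k' j' q')
  all_goals simp [May]

theorem may_W2 {c : Lab (Fin N0) m} (h : ∀ k j q, c ≠ W k j q) (k : Fin 3) (j : ℕ) (q : Fin 3) :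
    May (W k j q) c ↔ May (W k 0 q) c := by
  cases c
  case W k' j' q' => exact absurd rfl (h k' j' q')
  all_goals simp [May]

theorem pp_may1 (c : Lab (Fin N0) m) (k q : Fin 3) {j : α → ℕ} (hj : Primrec j) :
    PrimrecPred (fun a => May c (W k (j a) q)) := by
  by_cases h : ∃ k j q, c = W k j q
  · obtain ⟨k', j', q', rfl⟩ := h
    refine (pp_eq1 (W k' j' q' : Lab (Fin N0) m) k q hj).of_eq fun a => ?_
    simp only [May, W.injEq, reduceCtorEq, exists_false, or_false, false_or]
    tauto
  · push Not at h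
    exact (ppc (May c (W k 0 q))).of_eq (fun a => (may_W1 h k (j a) q).symm)

theorem pp_may2 (k q : Fin 3) (c : Lab (Fin N0) m) {j : α → ℕ} (hj : Primrec j) :
    PrimrecPred (fun a => May (W k (j a) q) c) := by
  by_cases h : ∃ k j q, c = W k j q
  · obtain ⟨k', j', q', rfl⟩ := h
    refine (pp_eq1 (W k' j' q' : Lab (Fin N0) m) k q hj).of_eq fun a => ?_
    simp only [May, W.injEq, reduceCtorEq, exists_false, or_false, false_or]
  · push Not at h
    exact (ppc (May (W k 0 q) c)).of_eq (fun a => (may_W2 h k (j a) q).symm)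

theorem pp_may3 (k q k' q' : Fin 3) {j j' : α → ℕ} (hj : Primrec j) (hj' : Primrec j') :
    PrimrecPred (fun a => May (W k (j a) q : Lab (Fin N0) m) (W k' (j' a) q')) := by
  refine (pp_eq2 (N0 := N0) (m := m) k' q' k q hj' hj).of_eq fun a => ?_
  simp only [May, W.injEq, reduceCtorEq, exists_false, or_false, false_or]

section
variable (adj : Fin N0 → Fin N0 → Prop) (star : Fin N0)

theorem pr_len {wd : α → List (Fin N0)} (hw : Primrec wd) (k : Fin 3) :
    Primrec (fun a => lenOf (wd a) k) := by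
  by_cases hk : k = 0
  · simp only [lenOf, if_pos hk]
    exact Primrec.nat_sub.comp (Primrec.list_length.comp hw) (Primrec.const 1)
  · simp only [lenOf, if_neg hk]
    exact Primrec.const 0

theorem pr_path {wd : α → List (Fin N0)} (hw : Primrec wd) (k : Fin 3) {j : α → ℕ}
    (hj : Primrec j) : Primrec (fun a => pathOf star (wd a) k (j a)) := by
  by_cases hk : k = 0
  · simp only [pathOf, if_pos hk]
    exact (Primrec.list_getD star).comp hw hj
  · simp only [pathOf, if_neg hk]
    exact Primrec.const star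

theorem pp_adj {u v : α → Fin N0} (hu : Primrec u) (hv : Primrec v) :
    PrimrecPred (fun a => adj (u a) (v a)) := by
  classical
  have h : PrimrecPred (fun p : Fin N0 × Fin N0 => adj p.1 p.2) :=
    ⟨fun _ => Classical.dec _, Primrec.dom_finite _⟩
  exact h.comp (hu.pair hv)

theorem pp_vadj3 {wd : α → List (Fin N0)} (hw : Primrec wd) (k q k' q' : Fin 3) {j j' : α → ℕ}
    (hj : Primrec j) (hj' : Primrec j') :
    PrimrecPred (fun a => Vadj adj (lenOf (wd a)) (pathOf star (wd a))
      (W k (j a) q : Lab (Fin N0) m) (W k' (j' a) q')) := by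
  have hs : Primrec (fun a => j a + 1) := Primrec.succ.comp hj
  have hs' : Primrec (fun a => j' a + 1) := Primrec.succ.comp hj'
  have h1 : PrimrecPred (fun a => (k = k' ∧ (j a = j' a ∨ j a = j' a + 1 ∨ j' a = j a + 1)) ∨
      (k' = k + 1 ∧ j a = lenOf (wd a) k ∧ j' a = 0) ∨
        (k = k' + 1 ∧ j' a = lenOf (wd a) k' ∧ j a = 0)) := by
    refine PrimrecPred.or ((ppc _).and ?_) (PrimrecPred.or ((ppc _).and ?_) ((ppc _).and ?_))
    · exact (Primrec.eq.comp hj hj').or ((Primrec.eq.comp hj hs').or (Primrec.eq.comp hj' hs))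
    · exact (Primrec.eq.comp hj (pr_len hw k)).and (Primrec.eq.comp hj' (Primrec.const 0))
    · exact (Primrec.eq.comp hj' (pr_len hw k')).and (Primrec.eq.comp hj (Primrec.const 0))
  exact h1

theorem pp_vadj1 {wd : α → List (Fin N0)} (hw : Primrec wd) (c : Lab (Fin N0) m) (k q : Fin 3)
    {j : α → ℕ} (hj : Primrec j) :
    PrimrecPred (fun a => Vadj adj (lenOf (wd a)) (pathOf star (wd a)) c (W k (j a) q)) := by
  cases c
  case W k' j' q' => exact pp_vadj3 adj star hw k' q' k q (Primrec.const j') hj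
  case I v q' => exact pp_adj adj (Primrec.const v) (pr_path star hw k hj)
  case R i =>
    have h1 : PrimrecPred (fun a => (k = i + 2 ∧ j a = 0) ∨
        (k = i + 1 ∧ j a = lenOf (wd a) k)) := by
      refine PrimrecPred.or ((ppc _).and ?_) ((ppc _).and ?_)
      · exact Primrec.eq.comp hj (Primrec.const 0)
      · exact Primrec.eq.comp hj (pr_len hw k)
    exact h1
  all_goals exact pp_false (fun a => by simp [Vadj])

theorem pp_vadj2 {wd : α → List (Fin N0)} (hw : Primrec wd) (k q : Fin 3) (c : Lab (Fin N0) m)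
    {j : α → ℕ} (hj : Primrec j) :
    PrimrecPred (fun a => Vadj adj (lenOf (wd a)) (pathOf star (wd a)) (W k (j a) q) c) := by
  cases c
  case W k' j' q' => exact pp_vadj3 adj star hw k q k' q' hj (Primrec.const j')
  case I v q' => exact pp_adj adj (pr_path star hw k hj) (Primrec.const v)
  case R i =>
    have h1 : PrimrecPred (fun a => (k = i + 2 ∧ j a = 0) ∨
        (k = i + 1 ∧ j a = lenOf (wd a) k)) := by
      refine PrimrecPred.or ((ppc _).and ?_) ((ppc _).and ?_)
      · exact Primrec.eq.comp hj (Primrec.const 0)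
      · exact Primrec.eq.comp hj (pr_len hw k)
    exact h1
  all_goals exact pp_false (fun a => by simp [Vadj])

theorem pp_vadj0 {wd : α → List (Fin N0)} (hw : Primrec wd) (c c' : Lab (Fin N0) m) :
    PrimrecPred (fun a => Vadj adj (lenOf (wd a)) (pathOf star (wd a)) c c') := by
  cases c'
  case W k q j => exact pp_vadj1 adj star hw c k j (Primrec.const q)
  all_goals
    cases c
    case W k j q => exact pp_vadj2 adj star hw k q _ (Primrec.const j)
    all_goals exact ppc _

end

/-! ### quantifiers over labels -/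

/-- labels of the first kind -/
def Fxd : Lab (Fin N0) m → Prop
  | W k j _ => k ≠ 0 ∧ j = 0
  | _ => True

/-- legal labels -/
def Lg (w : List (Fin N0)) (c : Lab (Fin N0) m) : Prop := ∀ k j q, c = W k j q → j ≤ lenOf w k

instance finite_fxd : Finite {c : Lab (Fin N0) m // Fxd c} := by
  have h : ({c : Lab (Fin N0) m | Fxd c}).Finite := by
    have h1 : (Set.range (fun p : Fin 3 × Bool × Bool => (P p.1 p.2.1 p.2.2 : Lab (Fin N0) m))).Finite :=
      Set.finite_range _
    have h2 : (Set.range (fun p : Fin 3 => (E p : Lab (Fin N0) m))).Finite := Set.finite_range _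
    have h3 : (Set.range (fun p : Fin N0 × Fin 3 => (I p.1 p.2 : Lab (Fin N0) m))).Finite :=
      Set.finite_range _
    have h4 : (Set.range (fun p : Fin 3 × Fin 3 => (W p.1 0 p.2 : Lab (Fin N0) m))).Finite :=
      Set.finite_range _
    have h5 : (Set.range (fun p : Fin 3 => (R p : Lab (Fin N0) m))).Finite := Set.finite_range _
    have h6 : (Set.range (fun p : Fin m => (X p : Lab (Fin N0) m))).Finite := Set.finite_range _
    have h7 : ({T, Ph, Rh, O} : Set (Lab (Fin N0) m)).Finite := Set.toFinite _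
    refine ((((((h1.union h2).union h3).union h4).union h5).union h6).union h7).subset ?_
    intro c hc
    cases c
    case T => right; simp
    case P k e b => left; left; left; left; left; left; exact ⟨(k, e, b), rfl⟩
    case E k => left; left; left; left; left; right; exact ⟨k, rfl⟩
    case I v q => left; left; left; left; right; exact ⟨(v, q), rfl⟩
    case W k j q =>
      obtain ⟨_, rfl⟩ : k ≠ 0 ∧ j = 0 := hc
      left; left; left; right; exact ⟨(k, q), rfl⟩
    case R i => left; left; right; exact ⟨i, rfl⟩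
    case X l => left; right; exact ⟨l, rfl⟩
    case Ph => right; simp
    case Rh => right; simp
    case O => right; simp
  exact h

theorem lg_of_fxd {w : List (Fin N0)} {c : Lab (Fin N0) m} (h : Fxd c) : Lg w c := by
  rintro k j q rfl
  have h : k ≠ 0 ∧ j = 0 := h
  omega

theorem forall_lg {w : List (Fin N0)} {Q : Lab (Fin N0) m → Prop} :
    (∀ c, Lg w c → Q c) ↔
      (∀ c : {c : Lab (Fin N0) m // Fxd c}, Q c.1) ∧
        ∀ j, j < w.length - 1 + 1 → ∀ q : Fin 3, Q (W 0 j q) := by
  constructor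
  · intro h
    refine ⟨fun c => h c.1 (lg_of_fxd c.2), fun j hj q => h _ ?_⟩
    intro k j' q' he
    simp only [W.injEq] at he
    obtain ⟨rfl, rfl, rfl⟩ := he
    simp only [lenOf]
    simp only [if_true]
    omega
  · rintro ⟨h1, h2⟩ c hc
    have h1' : ∀ c, Fxd c → Q c := fun c hc => h1 ⟨c, hc⟩
    cases c
    case W k j q =>
      have hj := hc k j q rfl
      by_cases hk : k = 0
      · subst hk
        simp only [lenOf, if_true] at hj
        exact h2 j (by omega) q
      · simp only [lenOf, if_neg hk] at hj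
        exact h1' _ (show k ≠ 0 ∧ j = 0 from ⟨hk, by omega⟩)
    all_goals exact h1' _ trivial

theorem rep_forall {wd : α → List (Fin N0)} (hw : Primrec wd)
    {B : α → Lab (Fin N0) m → Val n → (Fin n → ℕ) → Prop}
    (h1 : ∀ c, Fxd c → Rep n (fun a => B a c))
    (h2 : ∀ q : Fin 3, Rep n (fun p : α × ℕ => B p.1 (W 0 p.2 q))) :
    Rep n (fun a V x => ∀ c, Lg (wd a) c → B a c V x) := by
  have e1 : Rep n (fun a V x => ∀ c : {c : Lab (Fin N0) m // Fxd c}, B a c.1 V x) :=
    Rep.all (fun c => h1 c.1 c.2)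
  have e2 : Rep n (fun a V x => ∀ j, j < (wd a).length - 1 + 1 → ∀ q : Fin 3,
      B a (W 0 j q) V x) := by
    refine Rep.ballLT (P := fun a j V x => ∀ q : Fin 3, B a (W 0 j q) V x)
      (Rep.all (fun q => h2 q)) ?_
    exact Primrec.succ.comp (Primrec.nat_sub.comp (Primrec.list_length.comp hw)
      (Primrec.const 1))
  exact (e1.and e2).congr (fun a V x => (forall_lg (w := wd a) (Q := fun c => B a c V x)).symm)

theorem rep_exists {wd : α → List (Fin N0)} (hw : Primrec wd)
    {B : α → Lab (Fin N0) m → Val n → (Fin n → ℕ) → Prop}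
    (h1 : ∀ c, Fxd c → Rep n (fun a => B a c))
    (h2 : ∀ q : Fin 3, Rep n (fun p : α × ℕ => B p.1 (W 0 p.2 q))) :
    Rep n (fun a V x => ∃ c, Lg (wd a) c ∧ B a c V x) :=
  (rep_forall (B := fun a c V x => ¬ B a c V x) hw (fun c hc => (h1 c hc).neg)
    (fun q => (h2 q).neg)).neg.congr (fun a V x => by push Not; rfl)

/-- pairs of labels -/
theorem rep_pairs {S : List (Fin N0) → Lab (Fin N0) m → Lab (Fin N0) m → Prop}
    {B : Lab (Fin N0) m → Lab (Fin N0) m → Val n → (Fin n → ℕ) → Prop}
    (hB : ∀ {α : Type} [Primcodable α] (c c' : α → Lab (Fin N0) m),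
      Primrec (fun a => enc (c a)) → Primrec (fun a => enc (c' a)) →
        Rep n (fun a => B (c a) (c' a)))
    (h00 : ∀ c c', PrimrecPred (fun w => S w c c'))
    (h01 : ∀ c (q' : Fin 3), PrimrecPred (fun p : List (Fin N0) × ℕ => S p.1 c (W 0 p.2 q')))
    (h10 : ∀ (q : Fin 3) c', PrimrecPred (fun p : List (Fin N0) × ℕ => S p.1 (W 0 p.2 q) c'))
    (h11 : ∀ q q' : Fin 3, PrimrecPred (fun p : (List (Fin N0) × ℕ) × ℕ =>
      S p.1.1 (W 0 p.1.2 q) (W 0 p.2 q'))) :
    Rep n (fun w V x => ∀ c, Lg w c → ∀ c', Lg w c' → S w c c' → B c c' V x) := by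
  refine rep_forall (B := fun w c V x => ∀ c', Lg w c' → S w c c' → B c c' V x) Primrec.id
    (fun c hc => ?_) (fun q => ?_)
  · refine rep_forall (B := fun w c' V x => S w c c' → B c c' V x) Primrec.id
      (fun c' hc' => ?_) (fun q' => ?_)
    · exact (Rep.sta (h00 c c')).imp (hB (fun _ => c) (fun _ => c') (Primrec.const _)
        (Primrec.const _))
    · exact (Rep.sta (h01 c q')).imp (hB (fun _ => c) (fun p : List (Fin N0) × ℕ => W 0 p.2 q') (Primrec.const _)
        (enc_W Primrec.snd 0 q'))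
  · refine rep_forall (wd := fun p : List (Fin N0) × ℕ => p.1)
      (B := fun p c' V x => S p.1 (W 0 p.2 q) c' → B (W 0 p.2 q) c' V x) Primrec.fst
      (fun c' hc' => ?_) (fun q' => ?_)
    · exact (Rep.sta (h10 q c')).imp (hB (fun p : List (Fin N0) × ℕ => W 0 p.2 q) (fun _ => c')
        (enc_W Primrec.snd 0 q) (Primrec.const _))
    · exact (Rep.sta (h11 q q')).imp (hB (fun p : (List (Fin N0) × ℕ) × ℕ => W 0 p.1.2 q)
        (fun p => W 0 p.2 q') (enc_W (Primrec.snd.comp Primrec.fst) 0 q)
        (enc_W Primrec.snd 0 q'))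

end Pool.Agent.OM.M6
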