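import Pool.Agent.OM.Spec

/-!
# Module M7, combinatorial part

Labellings `lam` of `ω × ω` by a finite set, `SS lam a b` = set of labels seen from `(a, b)`.
Every labelling can be replaced by one on the square of a lasso of bounded size, all of whose
pairs (label, set of labels seen) are pairs of `lam`.
-/

namespace Pool.Agent.OM.M7

open Function

variable {C : Type}

/-- labels seen from `(a, b)` -/
def SS (lam : ℕ → ℕ → C) (a b : ℕ) : Set C := {c | ∃ a' b', a ≤ a' ∧ b ≤ b' ∧ lam a' b' = c}

theorem SS_anti {lam : ℕ → ℕ → C} {a a' b b' : ℕ} (ha : a ≤ a') (hb : b ≤ b') :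
    SS lam a' b' ⊆ SS lam a b := by
  rintro c ⟨x, y, hx, hy, h⟩
  exact ⟨x, y, ha.trans hx, hb.trans hy, h⟩

theorem self_mem_SS (lam : ℕ → ℕ → C) (a b : ℕ) : lam a b ∈ SS lam a b :=
  ⟨a, b, le_rfl, le_rfl, rfl⟩

/-- transposition -/
def tr (lam : ℕ → ℕ → C) : ℕ → ℕ → C := fun x y => lam y x

theorem SS_tr (lam : ℕ → ℕ → C) (a b : ℕ) : SS (tr lam) a b = SS lam b a := by
  ext c
  constructor
  · rintro ⟨x, y, hx, hy, h⟩; exact ⟨y, x, hy, hx, h⟩
  · rintro ⟨x, y, hx, hy, h⟩; exact ⟨y, x, hy, hx, h⟩

/-- all pairs of `lam'` are pairs of `lam`, same pair at the origin -/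
def Red (lam' lam : ℕ → ℕ → C) : Prop :=
  (∀ a b, ∃ a0 b0, lam' a b = lam a0 b0 ∧ SS lam' a b = SS lam a0 b0) ∧
    lam' 0 0 = lam 0 0 ∧ SS lam' 0 0 = SS lam 0 0

theorem Red.refl (lam : ℕ → ℕ → C) : Red lam lam := ⟨fun a b => ⟨a, b, rfl, rfl⟩, rfl, rfl⟩

theorem Red.trans {l1 l2 l3 : ℕ → ℕ → C} (h : Red l1 l2) (h' : Red l2 l3) : Red l1 l3 := by
  refine ⟨?_, h.2.1.trans h'.2.1, h.2.2.trans h'.2.2⟩
  intro a b
  obtain ⟨a0, b0, h1, h2⟩ := h.1 a b
  obtain ⟨a1, b1, h3, h4⟩ := h'.1 a0 b0
  exact ⟨a1, b1, h1.trans h3, h2.trans h4⟩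

theorem Red.tr {l1 l2 : ℕ → ℕ → C} (h : Red l1 l2) : Red (tr l1) (tr l2) := by
  refine ⟨?_, h.2.1, ?_⟩
  · intro a b
    obtain ⟨a0, b0, h1, h2⟩ := h.1 b a
    exact ⟨b0, a0, h1, by rw [SS_tr, SS_tr, h2]⟩
  · rw [SS_tr, SS_tr, h.2.2]

/-- rows are stable from `B` on -/
def RowStab (lam : ℕ → ℕ → C) (B : ℕ) : Prop := ∀ a b, B ≤ b → SS lam a b = SS lam a B

/-- columns are stable from `A` on -/
def ColStab (lam : ℕ → ℕ → C) (A : ℕ) : Prop := ∀ a b, A ≤ a → SS lam a b = SS lam A b

theorem RowStab.mono {lam : ℕ → ℕ → C} {B B' : ℕ} (h : RowStab lam B) (hB : B ≤ B') :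
    RowStab lam B' := by
  intro a b hb
  rw [h a b (hB.trans hb), h a B' hB]

theorem ColStab.mono {lam : ℕ → ℕ → C} {A A' : ℕ} (h : ColStab lam A) (hA : A ≤ A') :
    ColStab lam A' := by
  intro a b ha
  rw [h a b (hA.trans ha), h A' b hA]

theorem rowStab_tr {lam : ℕ → ℕ → C} {B : ℕ} : RowStab (tr lam) B ↔ ColStab lam B := by
  constructor
  · intro h a b ha
    have := h b a ha
    rwa [SS_tr, SS_tr] at this
  · intro h a b hb
    rw [SS_tr, SS_tr]
    exact h b a hb

theorem colStab_tr {lam : ℕ → ℕ → C} {B : ℕ} : ColStab (tr lam) B ↔ RowStab lam B := by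
  constructor
  · intro h a b hb
    have := h b a hb
    rwa [SS_tr, SS_tr] at this
  · intro h a b ha
    rw [SS_tr, SS_tr]
    exact h b a ha

/-! ### Cutting rows -/

/-- the labelling after cutting the rows `b ≤ y < b + d` -/
def cutL (lam : ℕ → ℕ → C) (b d : ℕ) (f g : ℕ → ℕ) : ℕ → ℕ → C :=
  fun a y => if y < b then lam (f a) y else lam (g a) (y + d)

theorem SS_cut_hi {lam : ℕ → ℕ → C} {b d : ℕ} {f g : ℕ → ℕ} (hg : Monotone g)
    (hg' : Surjective g) {a y : ℕ} (hy : b ≤ y) :
    SS (cutL lam b d f g) a y = SS lam (g a) (y + d) := by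
  ext c
  constructor
  · rintro ⟨a', y', ha, hy', h⟩
    refine ⟨g a', y' + d, hg ha, by omega, ?_⟩
    unfold cutL at h
    rwa [if_neg (by omega)] at h
  · rintro ⟨x, z, hx, hz, h⟩
    -- an index above `a` with value `x`
    have hex : ∃ a', a ≤ a' ∧ g a' = x := by
      obtain ⟨a', rfl⟩ := hg' x
      rcases le_total a a' with h1 | h1
      · exact ⟨a', h1, rfl⟩
      · exact ⟨a, le_rfl, le_antisymm hx (hg h1)⟩
    obtain ⟨a', ha', rfl⟩ := hex
    refine ⟨a', z - d, ha', by omega, ?_⟩
    unfold cutL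
    rw [if_neg (by omega), show z - d + d = z by omega]
    exact h

theorem SS_cut_lo {lam : ℕ → ℕ → C} {b d : ℕ} {f g : ℕ → ℕ} (hf : Monotone f)
    (hf' : Surjective f) (hg : Monotone g) (hg' : Surjective g)
    (h : ∀ a, SS lam (f a) b = SS lam (g a) (b + d)) {a y : ℕ} (hy : y < b) :
    SS (cutL lam b d f g) a y = SS lam (f a) y := by
  ext c
  constructor
  · rintro ⟨a', y', ha, hy', hc⟩
    by_cases hyb : y' < b
    · refine ⟨f a', y', hf ha, hy', ?_⟩
      unfold cutL at hc
      rwa [if_pos hyb] at hc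
    · have h1 : c ∈ SS (cutL lam b d f g) a' b := ⟨a', y', le_rfl, by omega, hc⟩
      rw [SS_cut_hi hg hg' le_rfl, ← h] at h1
      exact SS_anti (hf ha) hy.le h1
  · rintro ⟨x, z, hx, hz, hc⟩
    have hex : ∃ a', a ≤ a' ∧ f a' = x := by
      obtain ⟨a', rfl⟩ := hf' x
      rcases le_total a a' with h1 | h1
      · exact ⟨a', h1, rfl⟩
      · exact ⟨a, le_rfl, le_antisymm hx (hf h1)⟩
    obtain ⟨a', ha', rfl⟩ := hex
    by_cases hzb : z < b
    · refine ⟨a', z, ha', hz, ?_⟩
      unfold cutL
      rw [if_pos hzb]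
      exact hc
    · have h1 : c ∈ SS lam (f a') b := ⟨f a', z, le_rfl, by omega, hc⟩
      rw [h, ← SS_cut_hi (f := f) hg hg' (le_refl b)] at h1
      exact SS_anti ha' hy.le h1

theorem red_cut {lam : ℕ → ℕ → C} {b d : ℕ} {f g : ℕ → ℕ} (hb : 1 ≤ b) (hf : Monotone f)
    (hf' : Surjective f) (hg : Monotone g) (hg' : Surjective g)
    (h : ∀ a, SS lam (f a) b = SS lam (g a) (b + d)) : Red (cutL lam b d f g) lam := by
  have hf0 : f 0 = 0 := by
    obtain ⟨a, ha⟩ := hf' 0
    have := hf (Nat.zero_le a)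
    omega
  refine ⟨?_, ?_, ?_⟩
  · intro a y
    by_cases hy : y < b
    · refine ⟨f a, y, ?_, SS_cut_lo hf hf' hg hg' h hy⟩
      unfold cutL; rw [if_pos hy]
    · refine ⟨g a, y + d, ?_, SS_cut_hi hg hg' (by omega)⟩
      unfold cutL; rw [if_neg hy]
  · unfold cutL; rw [if_pos (by omega), hf0]
  · rw [SS_cut_lo hf hf' hg hg' h (by omega), hf0]

/-! ### Pointers -/

theorem steps_surj (f : ℕ → ℕ) (h0 : f 0 = 0) (h1 : ∀ n, f (n + 1) = f n ∨ f (n + 1) = f n + 1)
    (h2 : ∀ n, ∃ m, n ≤ m ∧ f (m + 1) = f m + 1) : Monotone f ∧ Surjective f := by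
  have hmono : Monotone f := by
    apply monotone_nat_of_le_succ
    intro n
    rcases h1 n with h | h <;> omega
  refine ⟨hmono, ?_⟩
  intro k
  induction k with
  | zero => exact ⟨0, h0⟩
  | succ k ih =>
    obtain ⟨n, hn⟩ := ih
    have hex : ∃ m, n ≤ m ∧ f (m + 1) = f m + 1 := h2 n
    classical
    obtain ⟨hm1, hm2⟩ := Nat.find_spec hex
    have hmin : ∀ m, n ≤ m → m < Nat.find hex → f (m + 1) = f m := by
      intro m hm hlt
      have := Nat.find_min hex hlt
      rcases h1 m with h | h
      · exact h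
      · exact absurd ⟨hm, h⟩ this
    have hconst : ∀ i, n + i ≤ Nat.find hex → f (n + i) = k := by
      intro i
      induction i with
      | zero => intro _; simpa using hn
      | succ i ih =>
        intro hi
        rw [show n + (i + 1) = n + i + 1 by ring, hmin (n + i) (by omega) (by omega)]
        exact ih (by omega)
    refine ⟨Nat.find hex + 1, ?_⟩
    rw [hm2]
    have := hconst (Nat.find hex - n) (by omega)
    rw [show n + (Nat.find hex - n) = Nat.find hex by omega] at this
    rw [this]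

open Classical in
/-- one step of the two pointers -/
noncomputable def stp (u v : ℕ → Set C) (z : ℕ × ℕ) : ℕ × ℕ :=
  if u (z.1 + 1) = u z.1 then
    (if v (z.2 + 1) = v z.2 then (z.1 + 1, z.2 + 1) else (z.1 + 1, z.2))
  else (if v (z.2 + 1) = v z.2 then (z.1, z.2 + 1) else (z.1 + 1, z.2 + 1))

theorem stp_swap (u v : ℕ → Set C) (z : ℕ × ℕ) : stp v u z.swap = (stp u v z).swap := by
  unfold stp
  by_cases h1 : u (z.1 + 1) = u z.1 <;> by_cases h2 : v (z.2 + 1) = v z.2 <;>
    simp [h1, h2]

/-- the sequence of pointers -/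
noncomputable def ptr (u v : ℕ → Set C) (n : ℕ) : ℕ × ℕ := (stp u v)^[n] (0, 0)

theorem ptr_succ (u v : ℕ → Set C) (n : ℕ) : ptr u v (n + 1) = stp u v (ptr u v n) := by
  unfold ptr
  rw [Function.iterate_succ_apply']

theorem ptr_swap (u v : ℕ → Set C) (n : ℕ) : ptr v u n = (ptr u v n).swap := by
  induction n with
  | zero => rfl
  | succ n ih => rw [ptr_succ, ptr_succ, ih, stp_swap]

theorem next_sub {u v : ℕ → Set C} (hu : Antitone u) (hv : Antitone v)
    (h : Set.range u = Set.range v) {p q : ℕ} (hpq : u p = v q) (hp : u (p + 1) ≠ u p) :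
    ∃ r, q < r ∧ v r = u (p + 1) := by
  have h1 : u (p + 1) ∈ Set.range v := by rw [← h]; exact ⟨_, rfl⟩
  obtain ⟨r, hr⟩ := h1
  refine ⟨r, ?_, hr⟩
  by_contra hlt
  have h2 : v q ≤ v r := hv (by omega)
  have h3 : u (p + 1) ≤ u p := hu (by omega)
  apply hp
  apply le_antisymm h3
  rw [← hr, hpq]
  exact h2

theorem ptr_inv {u v : ℕ → Set C} (hu : Antitone u) (hv : Antitone v)
    (h : Set.range u = Set.range v) (n : ℕ) : u (ptr u v n).1 = v (ptr u v n).2 := by
  induction n with
  | zero =>
    change u 0 = v 0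
    apply le_antisymm
    · have : u 0 ∈ Set.range v := by rw [← h]; exact ⟨_, rfl⟩
      obtain ⟨r, hr⟩ := this
      rw [← hr]; exact hv (Nat.zero_le r)
    · have : v 0 ∈ Set.range u := by rw [h]; exact ⟨_, rfl⟩
      obtain ⟨r, hr⟩ := this
      rw [← hr]; exact hu (Nat.zero_le r)
  | succ n ih =>
    rw [ptr_succ]
    unfold stp
    by_cases h1 : u ((ptr u v n).1 + 1) = u (ptr u v n).1
    · by_cases h2 : v ((ptr u v n).2 + 1) = v (ptr u v n).2
      · rw [if_pos h1, if_pos h2]; simp only; rw [h1, h2]; exact ih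
      · rw [if_pos h1, if_neg h2]; simp only; rw [h1]; exact ih
    · by_cases h2 : v ((ptr u v n).2 + 1) = v (ptr u v n).2
      · rw [if_neg h1, if_pos h2]; simp only; rw [h2]; exact ih
      · rw [if_neg h1, if_neg h2]; simp only
        apply le_antisymm
        · obtain ⟨r, hr, hr'⟩ := next_sub hu hv h ih h1
          rw [← hr']
          exact hv (by omega)
        · obtain ⟨r, hr, hr'⟩ := next_sub hv hu h.symm ih.symm h2
          rw [← hr']
          exact hu (by omega)

theorem ptr_progress {u v : ℕ → Set C} (hu : Antitone u) (hv : Antitone v)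
    (h : Set.range u = Set.range v) (n : ℕ) :
    ∃ m, n ≤ m ∧ (ptr u v (m + 1)).1 = (ptr u v m).1 + 1 := by
  by_contra hno
  push Not at hno
  have h1 : ∀ m, n ≤ m → u ((ptr u v m).1 + 1) ≠ u (ptr u v m).1 ∧
      v ((ptr u v m).2 + 1) = v (ptr u v m).2 ∧
      ptr u v (m + 1) = ((ptr u v m).1, (ptr u v m).2 + 1) := by
    intro m hm
    have hm' := hno m hm
    rw [ptr_succ] at hm' ⊢
    unfold stp at hm' ⊢
    by_cases h1 : u ((ptr u v m).1 + 1) = u (ptr u v m).1
    · exfalso
      rw [if_pos h1] at hm'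
      by_cases h2 : v ((ptr u v m).2 + 1) = v (ptr u v m).2
      · rw [if_pos h2] at hm'; exact hm' rfl
      · rw [if_neg h2] at hm'; exact hm' rfl
    · rw [if_neg h1] at hm' ⊢
      by_cases h2 : v ((ptr u v m).2 + 1) = v (ptr u v m).2
      · rw [if_pos h2]; exact ⟨h1, h2, rfl⟩
      · rw [if_neg h2] at hm'; exact absurd rfl hm'
  have h2 : ∀ k, ptr u v (n + k) = ((ptr u v n).1, (ptr u v n).2 + k) ∧
      v ((ptr u v n).2 + k) = v (ptr u v n).2 := by
    intro k
    induction k with
    | zero => exact ⟨rfl, rfl⟩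
    | succ k ih =>
      obtain ⟨_, hb, hc⟩ := h1 (n + k) (by omega)
      rw [ih.1] at hb hc
      refine ⟨?_, ?_⟩
      · rw [show n + (k + 1) = n + k + 1 by ring, hc]
        simp [add_assoc]
      · rw [show (ptr u v n).2 + (k + 1) = (ptr u v n).2 + k + 1 by ring]
        simp only at hb
        rw [hb]; exact ih.2
  obtain ⟨ha, _, _⟩ := h1 n le_rfl
  obtain ⟨r, hr, hr'⟩ := next_sub hu hv h (ptr_inv hu hv h n) ha
  apply ha
  rw [← hr', ptr_inv hu hv h n]
  have := (h2 (r - (ptr u v n).2)).2
  rwa [show (ptr u v n).2 + (r - (ptr u v n).2) = r by omega] at this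

theorem ptr_step (u v : ℕ → Set C) (n : ℕ) :
    (ptr u v (n + 1)).1 = (ptr u v n).1 ∨ (ptr u v (n + 1)).1 = (ptr u v n).1 + 1 := by
  rw [ptr_succ]
  unfold stp
  by_cases h1 : u ((ptr u v n).1 + 1) = u (ptr u v n).1
  · rw [if_pos h1]
    by_cases h2 : v ((ptr u v n).2 + 1) = v (ptr u v n).2
    · rw [if_pos h2]; exact Or.inr rfl
    · rw [if_neg h2]; exact Or.inr rfl
  · rw [if_neg h1]
    by_cases h2 : v ((ptr u v n).2 + 1) = v (ptr u v n).2
    · rw [if_pos h2]; exact Or.inl rfl
    · rw [if_neg h2]; exact Or.inr rfl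

theorem pointers {u v : ℕ → Set C} (hu : Antitone u) (hv : Antitone v)
    (h : Set.range u = Set.range v) :
    ∃ f g : ℕ → ℕ, Monotone f ∧ Surjective f ∧ Monotone g ∧ Surjective g ∧
      ∀ n, u (f n) = v (g n) := by
  have h1 := steps_surj (fun n => (ptr u v n).1) rfl (ptr_step u v) (ptr_progress hu hv h)
  have h2 := steps_surj (fun n => (ptr v u n).1) rfl (ptr_step v u) (ptr_progress hv hu h.symm)
  refine ⟨fun n => (ptr u v n).1, fun n => (ptr v u n).1, h1.1, h1.2, h2.1, h2.2, ?_⟩
  intro n
  simp only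
  rw [ptr_swap u v n]
  exact ptr_inv hu hv h n

/-! ### Stabilization -/

theorem exists_rowStab [Finite C] (lam : ℕ → ℕ → C) : ∃ B, RowStab lam B := by
  classical
  -- a minimal pair
  obtain ⟨z, hz⟩ : ∃ z : ℕ × ℕ, ∀ z' : ℕ × ℕ, (SS lam z.1 z.2).ncard ≤ (SS lam z'.1 z'.2).ncard := by
    have hne : ∃ n, ∃ z : ℕ × ℕ, (SS lam z.1 z.2).ncard = n := ⟨_, (0, 0), rfl⟩
    obtain ⟨z, hz⟩ := Nat.find_spec hne
    refine ⟨z, fun z' => ?_⟩
    rw [hz]
    exact Nat.find_min' hne ⟨z', rfl⟩
  have hrow : ∀ a, ∃ b0, ∀ b, b0 ≤ b → SS lam a b = SS lam a b0 := by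
    intro a
    have hne : ∃ n, ∃ b, (SS lam a b).ncard = n := ⟨_, 0, rfl⟩
    obtain ⟨b0, hb0⟩ := Nat.find_spec hne
    refine ⟨b0, fun b hb => ?_⟩
    apply Set.eq_of_subset_of_ncard_le (SS_anti le_rfl hb) _ (Set.toFinite _)
    rw [hb0]
    exact Nat.find_min' hne ⟨b, rfl⟩
  choose b0 hb0 using hrow
  have hbig : ∀ a b, z.1 ≤ a → z.2 ≤ b → SS lam a b = SS lam z.1 z.2 := by
    intro a b ha hb
    exact Set.eq_of_subset_of_ncard_le (SS_anti ha hb) (hz (a, b)) (Set.toFinite _)
  refine ⟨z.2 + (Finset.range z.1).sup b0, ?_⟩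
  intro a b hb
  by_cases ha : a < z.1
  · have h1 : b0 a ≤ (Finset.range z.1).sup b0 := Finset.le_sup (Finset.mem_range.2 ha)
    rw [hb0 a b (by omega)]
    exact (hb0 a _ (by omega)).symm
  · rw [hbig a b (by omega) (by omega), hbig a _ (by omega) (by omega)]

theorem exists_colStab [Finite C] (lam : ℕ → ℕ → C) : ∃ A, ColStab lam A := by
  obtain ⟨A, hA⟩ := exists_rowStab (tr lam)
  exact ⟨A, rowStab_tr.1 hA⟩

/-! ### Bounds -/

/-- bound for the rows -/
noncomputable def NN (C : Type) [Fintype C] : ℕ := 2 ^ (2 ^ Fintype.card C)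

/-- bound for the columns -/
noncomputable def MM (C : Type) [Fintype C] : ℕ := (2 ^ Fintype.card C) ^ (NN C + 1)

theorem row_reduce [Fintype C] : ∀ (B : ℕ) (lam : ℕ → ℕ → C), RowStab lam B →
    ∃ lam', Red lam' lam ∧ RowStab lam' (NN C) := by
  intro B
  induction B using Nat.strong_induction_on with
  | _ B ih =>
    intro lam hB
    by_cases hle : B ≤ NN C
    · exact ⟨lam, Red.refl lam, hB.mono hle⟩
    · classical
      have hcard : Fintype.card (Set (Set C)) < Fintype.card (Fin B) := by
        rw [Fintype.card_set, Fintype.card_set, Fintype.card_fin]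
        unfold NN at hle
        omega
      obtain ⟨i, j, hij, hval⟩ := Fintype.exists_ne_map_eq_of_card_lt
        (fun b : Fin B => Set.range (fun a => SS lam a (b + 1))) hcard
      have key : ∀ i j : Fin B, i < j →
          Set.range (fun a => SS lam a ((i : ℕ) + 1)) = Set.range (fun a => SS lam a ((j : ℕ) + 1)) →
          ∃ lam', Red lam' lam ∧ RowStab lam' (NN C) := by
        intro i j hlt hr
        have hij' : (i : ℕ) < j := hlt
        have hjB : (j : ℕ) < B := j.2
        obtain ⟨f, g, hf, hf', hg, hg', hfg⟩ := pointers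
          (u := fun a => SS lam a ((i : ℕ) + 1)) (v := fun a => SS lam a ((j : ℕ) + 1))
          (fun a b hab => SS_anti hab le_rfl) (fun a b hab => SS_anti hab le_rfl) hr
        have hfg' : ∀ a, SS lam (f a) ((i : ℕ) + 1) = SS lam (g a) ((i : ℕ) + 1 + (j - i)) := by
          intro a
          rw [show (i : ℕ) + 1 + (j - i) = j + 1 by omega]
          exact hfg a
        have hred := red_cut (lam := lam) (b := (i : ℕ) + 1) (d := (j : ℕ) - i) (by omega) hf hf'
          hg hg' hfg'
        have hst : RowStab (cutL lam ((i : ℕ) + 1) ((j : ℕ) - i) f g) (B - (j - i)) := by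
          intro a y hy
          rw [SS_cut_hi hg hg' (by omega), SS_cut_hi hg hg' (by omega),
            hB (g a) _ (by omega), hB (g a) (B - (j - i) + (j - i)) (by omega)]
        obtain ⟨lam', h1, h2⟩ := ih (B - (j - i)) (by omega) _ hst
        exact ⟨lam', h1.trans hred, h2⟩
      rcases lt_or_gt_of_ne hij with hlt | hlt
      · exact key i j hlt hval
      · exact key j i hlt hval.symm

theorem col_reduce [Fintype C] : ∀ (A : ℕ) (lam : ℕ → ℕ → C), RowStab lam (NN C) →
    ColStab lam A → ∃ lam', Red lam' lam ∧ RowStab lam' (NN C) ∧ ColStab lam' (MM C) := by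
  intro A
  induction A using Nat.strong_induction_on with
  | _ A ih =>
    intro lam hR hA
    by_cases hle : A ≤ MM C
    · exact ⟨lam, Red.refl lam, hR, hA.mono hle⟩
    · classical
      have hcard : Fintype.card (Fin (NN C + 1) → Set C) < Fintype.card (Fin A) := by
        rw [Fintype.card_fun, Fintype.card_set, Fintype.card_fin, Fintype.card_fin]
        unfold MM at hle
        omega
      obtain ⟨i, j, hij, hval⟩ := Fintype.exists_ne_map_eq_of_card_lt
        (fun b : Fin A => fun y : Fin (NN C + 1) => SS lam (b + 1) y) hcard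
      have key : ∀ i j : Fin A, i < j →
          (fun y : Fin (NN C + 1) => SS lam ((i : ℕ) + 1) y) =
            (fun y : Fin (NN C + 1) => SS lam ((j : ℕ) + 1) y) →
          ∃ lam', Red lam' lam ∧ RowStab lam' (NN C) ∧ ColStab lam' (MM C) := by
        intro i j hlt hr
        have hij' : (i : ℕ) < j := hlt
        have hjA : (j : ℕ) < A := j.2
        have hall : ∀ y, SS lam ((i : ℕ) + 1) y = SS lam ((j : ℕ) + 1) y := by
          intro y
          by_cases hy : y ≤ NN C
          · have := congrFun hr ⟨y, by omega⟩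
            exact this
          · have := congrFun hr ⟨NN C, by omega⟩
            rw [hR _ y (by omega), hR _ y (by omega)]
            exact this
        have hfg' : ∀ a, SS (tr lam) (id a) ((i : ℕ) + 1) =
            SS (tr lam) (id a) ((i : ℕ) + 1 + (j - i)) := by
          intro a
          rw [show (i : ℕ) + 1 + (j - i) = j + 1 by omega, SS_tr, SS_tr]
          exact hall a
        have hred := red_cut (lam := tr lam) (b := (i : ℕ) + 1) (d := (j : ℕ) - i) (by omega)
          monotone_id surjective_id monotone_id surjective_id hfg'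
        have hst : ColStab (tr (cutL (tr lam) ((i : ℕ) + 1) ((j : ℕ) - i) id id))
            (A - (j - i)) := by
          rw [colStab_tr]
          intro a y hy
          rw [SS_cut_hi monotone_id surjective_id (by omega),
            SS_cut_hi monotone_id surjective_id (by omega), SS_tr, SS_tr]
          simp only [id]
          rw [hA (y + (j - i)) a (by omega), hA (A - (j - i) + (j - i)) a (by omega)]
        have hrs : RowStab (tr (cutL (tr lam) ((i : ℕ) + 1) ((j : ℕ) - i) id id)) (NN C) := by
          rw [rowStab_tr]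
          intro a y hy
          by_cases hyi : y < (i : ℕ) + 1
          · rw [SS_cut_lo monotone_id surjective_id monotone_id surjective_id hfg' hyi,
              SS_cut_lo monotone_id surjective_id monotone_id surjective_id hfg' hyi, SS_tr,
              SS_tr]
            simp only [id]
            exact hR y a hy
          · rw [SS_cut_hi monotone_id surjective_id (by omega),
              SS_cut_hi monotone_id surjective_id (by omega), SS_tr, SS_tr]
            simp only [id]
            exact hR _ a hy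
        obtain ⟨lam', h1, h2, h3⟩ := ih (A - (j - i)) (by omega) _ hrs hst
        refine ⟨lam', h1.trans ?_, h2, h3⟩
        have := hred.tr
        exact this
      rcases lt_or_gt_of_ne hij with hlt | hlt
      · exact key i j hlt hval
      · exact key j i hlt hval.symm

theorem reduce [Fintype C] (lam : ℕ → ℕ → C) :
    ∃ lam', Red lam' lam ∧ RowStab lam' (NN C) ∧ ColStab lam' (MM C) := by
  obtain ⟨B, hB⟩ := exists_rowStab lam
  obtain ⟨l1, h1, h2⟩ := row_reduce B lam hB
  obtain ⟨A, hA⟩ := exists_colStab l1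
  obtain ⟨l2, h3, h4, h5⟩ := col_reduce A l1 h2 hA
  exact ⟨l2, h3.trans h1, h4, h5⟩

/-! ### The finite quotient -/

theorem choose_fin {J : Type} [Fintype J] (m : ℕ) (hm : Fintype.card J ≤ m) (P : J → ℕ → Prop)
    (Q : ℕ → Prop) (hQ : ∃ a, Q a) :
    ∃ al : ℕ → ℕ, (∀ u, Q (al u)) ∧ ∀ x, (∃ a, Q a ∧ P x a) → ∃ u, u < m ∧ P x (al u) := by
  classical
  obtain ⟨a0, ha0⟩ := hQ
  let e := Fintype.equivFin J
  let val : J → ℕ := fun x => if h : ∃ a, Q a ∧ P x a then Classical.choose h else a0
  have hval : ∀ x, Q (val x) ∧ ((∃ a, Q a ∧ P x a) → P x (val x)) := by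
    intro x
    by_cases h : ∃ a, Q a ∧ P x a
    · have : val x = Classical.choose h := dif_pos h
      rw [this]
      exact ⟨(Classical.choose_spec h).1, fun _ => (Classical.choose_spec h).2⟩
    · have : val x = a0 := dif_neg h
      rw [this]
      exact ⟨ha0, fun h' => absurd h' h⟩
  refine ⟨fun u => if h : u < Fintype.card J then val (e.symm ⟨u, h⟩) else a0, ?_, ?_⟩
  · intro u
    by_cases h : u < Fintype.card J
    · simp only [h, dite_true]; exact (hval _).1
    · simp only [h, dite_false]; exact ha0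
  · intro x hx
    refine ⟨e x, lt_of_lt_of_le (e x).2 hm, ?_⟩
    have h : ((e x : Fin _) : ℕ) < Fintype.card J := (e x).2
    simp only [h, dite_true, Fin.eta, Equiv.symm_apply_apply]
    exact (hval x).2 hx

/-- labels seen in the square of the lasso -/
def SL (m : ℕ) (mu : ℕ → ℕ → C) (p q : ℕ) : Set C :=
  {c | ∃ p' q', p' < 2 * m ∧ q' < 2 * m ∧ lassoLE m p p' ∧ lassoLE m q q' ∧ mu p' q' = c}

theorem quotient [Fintype C] (lam : ℕ → ℕ → C) (N M m : ℕ) (hR : RowStab lam N)
    (hC : ColStab lam M) (h0 : 0 < m) (hN : N ≤ m) (hM : M ≤ m)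
    (hNs : N * Fintype.card C ≤ m) (hMs : M * Fintype.card C ≤ m) (hs : Fintype.card C ≤ m) :
    ∃ (mu : ℕ → ℕ → C) (A B : ℕ → ℕ), A 0 = 0 ∧ B 0 = 0 ∧ mu 0 0 = lam 0 0 ∧
      ∀ p q, p < 2 * m → q < 2 * m → (∃ a b, mu p q = lam a b ∧ SL m mu p q = SS lam a b) ∧
        SL m mu p q = SS lam (A p) (B q) := by
  classical
  -- columns
  obtain ⟨al, hal, hal'⟩ := choose_fin (J := Fin N × C) m
    (by rw [Fintype.card_prod, Fintype.card_fin]; exact hNs)
    (fun x a => ∃ j', (x.1 : ℕ) ≤ j' ∧ lam a j' = x.2) (fun a => m ≤ a) ⟨m, le_rfl⟩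
  obtain ⟨be, hbe, hbe'⟩ := choose_fin (J := Fin M × C) m
    (by rw [Fintype.card_prod, Fintype.card_fin]; exact hMs)
    (fun x b => ∃ i', (x.1 : ℕ) ≤ i' ∧ lam i' b = x.2) (fun b => m ≤ b) ⟨m, le_rfl⟩
  -- the labels of the last region
  obtain ⟨ga, hga, hga'⟩ : ∃ ga : ℕ → C, (∀ u, ga u ∈ SS lam m m) ∧
      ∀ c ∈ SS lam m m, ∃ u, u < m ∧ ga u = c := by
    let e := Fintype.equivFin C
    refine ⟨fun u => if h : ∃ c, c ∈ SS lam m m ∧ ((e c : Fin _) : ℕ) = u then Classical.choose h
      else lam m m, ?_, ?_⟩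
    · intro u
      by_cases h : ∃ c, c ∈ SS lam m m ∧ ((e c : Fin _) : ℕ) = u
      · simp only [h, dite_true]; exact (Classical.choose_spec h).1
      · simp only [h, dite_false]; exact self_mem_SS lam m m
    · intro c hc
      refine ⟨e c, lt_of_lt_of_le (e c).2 hs, ?_⟩
      have h : ∃ c', c' ∈ SS lam m m ∧ ((e c' : Fin _) : ℕ) = e c := ⟨c, hc, rfl⟩
      simp only [h, dite_true]
      have := (Classical.choose_spec h).2
      exact e.injective (Fin.ext this)
  set A : ℕ → ℕ := fun p => if p < m then p else al (p - m) with hA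
  set B : ℕ → ℕ := fun q => if q < m then q else be (q - m) with hB
  have hAlt : ∀ {p}, p < m → A p = p := fun {p} h => if_pos h
  have hAge : ∀ {p}, m ≤ p → A p = al (p - m) := fun {p} h => if_neg (by omega)
  have hAge' : ∀ {p}, m ≤ p → m ≤ A p := fun {p} h => by rw [hAge h]; exact hal _
  have hBlt : ∀ {p}, p < m → B p = p := fun {p} h => if_pos h
  have hBge : ∀ {p}, m ≤ p → B p = be (p - m) := fun {p} h => if_neg (by omega)
  have hBge' : ∀ {p}, m ≤ p → m ≤ B p := fun {p} h => by rw [hBge h]; exact hbe _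
  set mu : ℕ → ℕ → C := fun p q => if p < m ∨ q < m then lam (A p) (B q) else ga (p - m) with hmu
  have hmu1 : ∀ {p q}, p < m ∨ q < m → mu p q = lam (A p) (B q) := fun {p q} h => if_pos h
  have hmu2 : ∀ {p q}, m ≤ p → m ≤ q → mu p q = ga (p - m) :=
    fun {p q} h h' => if_neg (by omega)
  have hbig : ∀ a b, M ≤ a → N ≤ b → SS lam a b = SS lam m m := by
    intro a b ha hb
    rw [hR a b hb, hC a N ha, hR m m hN, hC m N hM]
  -- monotonicity
  have hAmono : ∀ p p' b, lassoLE m p p' → SS lam (A p') b ⊆ SS lam (A p) b := by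
    intro p p' b h
    by_cases hp : p < m
    · have hpp : p ≤ p' := by
        rcases h with h | h
        · exact h
        · omega
      apply SS_anti _ le_rfl
      rw [hAlt hp]
      by_cases hp' : p' < m
      · rw [hAlt hp']; exact hpp
      · have := hAge' (p := p') (by omega); omega
    · have hp' : m ≤ p' := by
        rcases h with h | h <;> omega
      rw [hC (A p') b (hM.trans (hAge' hp')), hC (A p) b (hM.trans (hAge' (by omega)))]
  have hBmono : ∀ q q' a, lassoLE m q q' → SS lam a (B q') ⊆ SS lam a (B q) := by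
    intro p p' a h
    by_cases hp : p < m
    · have hpp : p ≤ p' := by
        rcases h with h | h
        · exact h
        · omega
      apply SS_anti le_rfl
      rw [hBlt hp]
      by_cases hp' : p' < m
      · rw [hBlt hp']; exact hpp
      · have := hBge' (p := p') (by omega); omega
    · have hp' : m ≤ p' := by
        rcases h with h | h <;> omega
      rw [hR a (B p') (hN.trans (hBge' hp')), hR a (B p) (hN.trans (hBge' (by omega)))]
  have hmuSS : ∀ p q, mu p q ∈ SS lam (A p) (B q) := by
    intro p q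
    by_cases h : p < m ∨ q < m
    · rw [hmu1 h]; exact self_mem_SS _ _ _
    · have hp : m ≤ p := by omega
      have hq : m ≤ q := by omega
      rw [hmu2 hp hq, hbig _ _ (hM.trans (hAge' hp)) (hN.trans (hBge' hq))]
      exact hga _
  have hSL : ∀ p q, p < 2 * m → q < 2 * m → SL m mu p q = SS lam (A p) (B q) := by
    intro p q hp hq
    apply Set.Subset.antisymm
    · rintro c ⟨p', q', hp', hq', h1, h2, rfl⟩
      exact hBmono q q' _ h2 (hAmono p p' _ h1 (hmuSS p' q'))
    · intro c hc
      by_cases hcm : c ∈ SS lam m m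
      · obtain ⟨u, hu, rfl⟩ := hga' c hcm
        refine ⟨m + u, m, by omega, by omega, ?_, ?_, ?_⟩
        · by_cases h : p < m
          · left; omega
          · right; omega
        · by_cases h : q < m
          · left; omega
          · right; omega
        · rw [hmu2 (by omega) le_rfl]
          congr 1; omega
      · obtain ⟨a', b', ha', hb', hcc⟩ := hc
        have hself : c ∈ SS lam a' b' := ⟨a', b', le_rfl, le_rfl, hcc⟩
        by_cases h1 : a' < m
        · have hpm : p < m := by
            by_contra hcon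
            have := hAge' (p := p) (by omega)
            omega
          rw [hAlt hpm] at ha'
          by_cases h2 : b' < m
          · have hqm : q < m := by
              by_contra hcon
              have := hBge' (p := q) (by omega)
              omega
            rw [hBlt hqm] at hb'
            refine ⟨a', b', by omega, by omega, Or.inl ha', Or.inl hb', ?_⟩
            rw [hmu1 (Or.inl h1), hAlt h1, hBlt h2]
            exact hcc
          · have hM' : a' < M := by
              by_contra hcon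
              exact hcm (by rw [← hbig a' b' (by omega) (by omega)]; exact hself)
            obtain ⟨v, hv, i', hi', hcv⟩ := hbe' (⟨a', hM'⟩, c) ⟨b', by omega, a', le_rfl, hcc⟩
            simp only at hi' hcv
            have hi'M : i' < M := by
              by_contra hcon
              apply hcm
              have := hbe v
              rw [← hbig i' (be v) (by omega) (by omega)]
              exact ⟨i', be v, le_rfl, le_rfl, hcv⟩
            refine ⟨i', m + v, by omega, by omega, Or.inl (by omega), ?_, ?_⟩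
            · by_cases h : q < m
              · left; omega
              · right; omega
            · rw [hmu1 (Or.inl (by omega)), hAlt (by omega), hBge (by omega)]
              rw [show m + v - m = v by omega]
              exact hcv
        · have hN' : b' < N := by
            by_contra hcon
            exact hcm (by rw [← hbig a' b' (by omega) (by omega)]; exact hself)
          have hqm : q < m := by
            by_contra hcon
            have := hBge' (p := q) (by omega)
            omega
          rw [hBlt hqm] at hb'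
          obtain ⟨u, hu, j', hj', hcu⟩ := hal' (⟨b', hN'⟩, c) ⟨a', by omega, b', le_rfl, hcc⟩
          simp only at hj' hcu
          have hj'N : j' < N := by
            by_contra hcon
            apply hcm
            have := hal u
            rw [← hbig (al u) j' (by omega) (by omega)]
            exact ⟨al u, j', le_rfl, le_rfl, hcu⟩
          refine ⟨m + u, j', by omega, by omega, ?_, Or.inl (by omega), ?_⟩
          · by_cases h : p < m
            · left; omega
            · right; omega
          · rw [hmu1 (Or.inr (by omega)), hBlt (by omega), hAge (by omega)]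
            rw [show m + u - m = u by omega]
            exact hcu
  refine ⟨mu, A, B, hAlt h0, hBlt h0, ?_, ?_⟩
  · rw [hmu1 (Or.inl h0), hAlt h0, hBlt h0]
  · intro p q hp hq
    refine ⟨?_, hSL p q hp hq⟩
    by_cases h : p < m ∨ q < m
    · exact ⟨A p, B q, hmu1 h, hSL p q hp hq⟩
    · have hp' : m ≤ p := by omega
      have hq' : m ≤ q := by omega
      obtain ⟨a, b, ha, hb, hab⟩ := hga (p - m)
      refine ⟨a, b, ?_, ?_⟩
      · rw [hmu2 hp' hq', hab]
      · rw [hSL p q hp hq, hbig _ _ (hM.trans (hAge' hp')) (hN.trans (hBge' hq')),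
          hbig a b (by omega) (by omega)]

end Pool.Agent.OM.M7
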