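import Pool.Agent.OM.Defs

/-!
# Statements of the modules (as propositions) and the assembly
-/

namespace Pool.Agent.OM

/-- value of a word in a finitely presented group -/
abbrev relSet {N1 : ℕ} (rels : List (List (Fin N1 × Bool))) : Set (FreeGroup (Fin N1)) :=
  {y | ∃ r ∈ rels, y = FreeGroup.mk r}

/-- value of a word in the group presented by `rels` -/
def wv {N1 : ℕ} (rels : List (List (Fin N1 × Bool))) (w : List (Fin N1 × Bool)) :
    PresentedGroup (relSet rels) :=
  PresentedGroup.mk (relSet rels) (FreeGroup.mk w)

/-- Module M12 (Novikov, Boone): a finitely presented group and a computable sequence of words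
such that the set of `n` with `w n ≠ 1` is not recursively enumerable. -/
def M12 : Prop :=
  ∃ (N1 : ℕ) (rels : List (List (Fin N1 × Bool))) (w : ℕ → List (Fin N1 × Bool)),
    Computable w ∧ (∀ n, w n ≠ []) ∧ ¬ REPred (fun n => ¬ wv rels (w n) = 1)

/-- the vertex path of a word: every letter `l` gives `A l, B l, C l, star` -/
def pword {N0 N1 : ℕ} (star : Fin N0) (A B C : Fin N1 × Bool → Fin N0)
    (w : List (Fin N1 × Bool)) : List (Fin N0) :=
  star :: w.flatMap (fun l => [A l, B l, C l, star])

/-- Module M3: the graph of a presentation. -/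
def M3 : Prop :=
  ∀ (N1 : ℕ) (rels : List (List (Fin N1 × Bool))),
    ∃ (N0 : ℕ) (adj : Fin N0 → Fin N0 → Prop) (star : Fin N0) (A B C : Fin N1 × Bool → Fin N0),
      (∀ u, adj u u) ∧ (∀ u v, adj u v → adj v u) ∧
      (∀ l, adj star (A l) ∧ adj (A l) (B l) ∧ adj (B l) (C l) ∧ adj (C l) star) ∧
      (∃ g : Fin N0 → Fin N0 → PresentedGroup (relSet rels), Coh adj g ∧
        ∀ w, pv g (fun j => (pword star A B C w).getD j star) (4 * w.length) = wv rels w) ∧
      (∀ w, wv rels w = 1 → ∃ N H j,
        Filling adj star (4 * w.length) (fun j => (pword star A B C w).getD j star) N H j)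

/-- Module M4: a filling gives a good labelling. -/
def M4 : Prop :=
  ∀ (m : ℕ) (V : Type) (adj : V → V → Prop) (star : V) (w : List V) (N : ℕ) (H : ℕ → ℕ → V)
    (j : ℕ → ℕ), (∀ u, adj u u) → (∀ u v, adj u v → adj v u) → w ≠ [] →
    Filling adj star (w.length - 1) (fun i => w.getD i star) N H j →
    ∃ lam : Pt m → Lab V m, Good adj (lenOf w) (pathOf star w) lam ∧ lam 0 = Lab.O

/-- Module M5: soundness. -/
def M5 : Prop :=
  ∀ (m : ℕ) (V : Type) (adj : V → V → Prop) (star : V) (len : Fin 3 → ℕ)
    (path : Fin 3 → ℕ → V) (lam : Pt m → Lab V m), (∀ u, adj u u) → (∀ u v, adj u v → adj v u) →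
    (∀ k, path k 0 = star) → (∀ k, path k (len k) = star) →
    (∀ k j, j < len k → adj (path k j) (path k (j + 1))) → (∃ k, 0 < len k) →
    Good adj len path lam → (∃ x, lam x = Lab.O) →
    ∀ (G : Type) [Group G] (g : V → V → G), Coh adj g →
      pv g (path 2) (len 2) * pv g (path 0) (len 0) * pv g (path 1) (len 1) = 1

/-- Module M6: the formula. -/
def M6 : Prop :=
  ∀ (m N0 : ℕ) (adj : Fin N0 → Fin N0 → Prop) (star : Fin N0),
    ∃ F : List (Fin N0) → ℕ, Computable F ∧ ∀ w, w ≠ [] →
      (F w ∈ L (3 + m) ↔
        ¬ ∃ lam : Pt m → Lab (Fin N0) m, Good adj (lenOf w) (pathOf star w) lam ∧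
          ∃ x, lam x = Lab.O)

/-- Module M7: bound for `n = 2`. -/
def M7 : Prop :=
  ∃ f : ℕ → ℕ, Computable f ∧ ∀ a, (Valid 2 a ↔ ValidSq (f (code a)) a)

/-- Module M8: computability of validity in the lasso squares. -/
def M8 : Prop :=
  ComputablePred (fun p : ℕ × ℕ => ∃ a, code a = p.2 ∧ ValidSq p.1 a)

theorem code_inj : Function.Injective code := by
  intro a
  induction a with
  | var i =>
    intro b h
    cases b <;> simp only [code] at h
    · congr 1; omega
    · omega
    · omega
    · omega
  | bot =>
    intro b h
    cases b <;> simp only [code] at h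
    · omega
    · rfl
    · omega
    · omega
  | imp a1 a2 ih1 ih2 =>
    intro b h
    cases b with
    | var i => simp only [code] at h; omega
    | bot => simp only [code] at h; omega
    | imp b1 b2 =>
      simp only [code] at h
      have h2 : Nat.pair (code a1) (code a2) = Nat.pair (code b1) (code b2) := by omega
      have h3 := Nat.pair_eq_pair.1 h2
      rw [ih1 h3.1, ih2 h3.2]
    | box b => simp only [code] at h; omega
  | box a ih =>
    intro b h
    cases b with
    | var i => simp only [code] at h; omega
    | bot => simp only [code] at h; omega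
    | imp b1 b2 => simp only [code] at h; omega
    | box b =>
      simp only [code] at h
      rw [ih (show code a = code b by omega)]

theorem mem_L {n : ℕ} {a : Fm} : code a ∈ L n ↔ Valid n a := by
  constructor
  · rintro ⟨b, hb, hv⟩
    rwa [← code_inj hb]
  · intro h
    exact ⟨a, rfl, h⟩

theorem not_re (h12 : M12) (h3 : M3) (h4 : M4) (h5 : M5) (h6 : M6) (m : ℕ) :
    ¬ REPred (fun k => k ∈ L (3 + m)) := by
  intro hre
  obtain ⟨N1, rels, w, hw, hne, hnot⟩ := h12
  obtain ⟨N0, adj, star, A, B, C, hrefl, hsymm, hl, ⟨g, hg, hgv⟩, hfill⟩ := h3 N1 rels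
  obtain ⟨F, hF, hFs⟩ := h6 m N0 adj star
  apply hnot
  have hpc : Computable (fun n => pword star A B C (w n)) := by
    have h1 : Primrec (fun l : Fin N1 × Bool => [A l, B l, C l, star]) := Primrec.dom_finite _
    have h2 : Primrec (fun w : List (Fin N1 × Bool) =>
        star :: w.flatMap (fun l => [A l, B l, C l, star])) := by
      refine Primrec.list_cons.comp (Primrec.const star) ?_
      exact Primrec.list_flatMap Primrec.id (h1.comp Primrec.snd).to₂
    exact h2.to_comp.comp hw
  have hc : Computable (fun n => F (pword star A B C (w n))) := hF.comp hpc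
  have key : ∀ n, (¬ wv rels (w n) = 1) ↔ F (pword star A B C (w n)) ∈ L (3 + m) := by
    intro n
    have hpne : pword star A B C (w n) ≠ [] := by simp [pword]
    have hlen : (pword star A B C (w n)).length = 4 * (w n).length + 1 := by
      simp [pword, List.length_flatMap, mul_comm]
    rw [hFs _ hpne, not_iff_not]
    constructor
    · intro h1
      obtain ⟨N, H, j, hf⟩ := hfill (w n) h1
      have hf' : Filling adj star ((pword star A B C (w n)).length - 1)
          (fun i => (pword star A B C (w n)).getD i star) N H j := by
        rw [hlen]; exact hf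
      obtain ⟨lam, hlam, h0⟩ := h4 m (Fin N0) adj star _ N H j hrefl hsymm hpne hf'
      exact ⟨lam, hlam, 0, h0⟩
    · rintro ⟨lam, hlam, hx⟩
      have hlen0 : lenOf (pword star A B C (w n)) 0 = 4 * (w n).length := by
        simp [lenOf, hlen]
      have hword : ∀ (v : List (Fin N1 × Bool)) (j : ℕ),
          j < 4 * v.length →
          adj ((star :: v.flatMap (fun l => [A l, B l, C l, star])).getD j star)
            ((star :: v.flatMap (fun l => [A l, B l, C l, star])).getD (j + 1) star) := by
        intro v
        induction v with
        | nil => intro j hj; simp at hj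
        | cons l v ih =>
          intro j hj
          match j, hj with
          | 0, _ => simpa using (hl l).1
          | 1, _ => simpa using (hl l).2.1
          | 2, _ => simpa using (hl l).2.2.1
          | 3, _ => simpa using (hl l).2.2.2
          | j + 4, hj =>
            have := ih j (by simp at hj; omega)
            simpa using this
      have hend : ∀ (v : List (Fin N1 × Bool)),
          (star :: v.flatMap (fun l => [A l, B l, C l, star])).getD (4 * v.length) star = star := by
        intro v
        induction v with
        | nil => simp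
        | cons l v ih =>
          have : 4 * (l :: v).length = 4 * v.length + 4 := by simp; ring
          rw [this]
          simpa using ih
      have := h5 m (Fin N0) adj star (lenOf (pword star A B C (w n)))
        (pathOf star (pword star A B C (w n))) lam hrefl hsymm
        (by
          intro k
          unfold pathOf
          split_ifs
          · simp [pword]
          · rfl)
        (by
          intro k
          unfold pathOf lenOf
          split_ifs
          · rw [hlen]; exact hend (w n)
          · rfl)
        (by
          intro k j hj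
          unfold lenOf at hj
          unfold pathOf
          split_ifs at hj ⊢ with hk
          · rw [hlen] at hj
            exact hword (w n) j (by omega)
          · omega)
        ⟨0, by
          rw [hlen0]
          have : 0 < (w n).length := List.length_pos_iff.2 (hne n)
          omega⟩
        hlam hx _ g hg
      have e1 : lenOf (pword star A B C (w n)) 1 = 0 := by simp [lenOf]
      have e2 : lenOf (pword star A B C (w n)) 2 = 0 := by simp [lenOf]
      rw [e1, e2, hlen0] at this
      simp only [pv, one_mul, mul_one] at this
      rw [← hgv (w n)]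
      have e3 : pathOf star (pword star A B C (w n)) 0 =
          fun j => (pword star A B C (w n)).getD j star := by
        funext j; simp [pathOf]
      rw [e3] at this
      exact this
  have hmr : (fun n => ¬ wv rels (w n) = 1) = fun n => F (pword star A B C (w n)) ∈ L (3 + m) := by
    funext n; exact propext (key n)
  rw [hmr]
  have := REPred.of_eq (p := fun n => F (pword star A B C (w n)) ∈ L (3 + m)) ?_ (fun n => Iff.rfl)
  · exact this
  · exact Partrec.comp hre hc

theorem computable_two (h7 : M7) (h8 : M8) : ComputablePred (fun k => k ∈ L 2) := by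
  obtain ⟨f, hf, hv⟩ := h7
  have h1 : ComputablePred (fun k => ∃ a, code a = k ∧ ValidSq (f k) a) := by
    have hc : Computable (fun k : ℕ => (f k, k)) := hf.pair Computable.id
    exact ComputablePred.computable_of_manyOneReducible ⟨fun k => (f k, k), hc, fun _ => Iff.rfl⟩ h8
  refine ComputablePred.of_eq h1 ?_
  intro k
  constructor
  · rintro ⟨a, rfl, h⟩
    exact ⟨a, rfl, (hv a).2 h⟩
  · rintro ⟨a, rfl, h⟩
    exact ⟨a, rfl, (hv a).1 h⟩

theorem main (h12 : M12) (h3 : M3) (h4 : M4) (h5 : M5) (h6 : M6) (h7 : M7) (h8 : M8) (n : ℕ)
    (hn : 1 < n) :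
    (ComputablePred (fun k => k ∈ L n) ↔ n = 2) ∧ (REPred (fun k => k ∈ L n) ↔ n = 2) := by
  have h2 := computable_two h7 h8
  have hre : n ≠ 2 → ¬ REPred (fun k => k ∈ L n) := by
    intro hne
    obtain ⟨m, rfl⟩ : ∃ m, n = 3 + m := ⟨n - 3, by omega⟩
    exact not_re h12 h3 h4 h5 h6 m
  constructor
  · constructor
    · intro h
      by_contra hne
      exact hre hne h.to_re
    · rintro rfl; exact h2
  · constructor
    · intro h
      by_contra hne
      exact hre hne h
    · rintro rfl; exact h2.to_re

end Pool.Agent.OM
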